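import Pool.Agent.Helper622.Tri.Section
import Pool.Agent.Helper622.Amalgam

namespace Pool.Agent.Helper622

variable {G : Type} [Group G]

/-- a string C-group of rank three -/
structure RankThree (l0 l1 l2 : G) : Prop where
  i0 : l0 * l0 = 1
  i1 : l1 * l1 = 1
  i2 : l2 * l2 = 1
  c02 : l0 * l2 = l2 * l0
  ne0 : l0 ≠ 1
  ne1 : l1 ≠ 1
  ne2 : l2 ≠ 1
  n01 : l0 ≠ l1
  n12 : l1 ≠ l2
  inter02 : ∀ {x : G}, x ∈ Subgroup.closure {l1, l2} → x ∈ Subgroup.closure {l0, l1} →
    x = 1 ∨ x = l1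

namespace RankThree

variable {l0 l1 l2 : G}

theorem symm (h : RankThree l0 l1 l2) : RankThree l2 l1 l0 where
  i0 := h.i2
  i1 := h.i1
  i2 := h.i0
  c02 := h.c02.symm
  ne0 := h.ne2
  ne1 := h.ne1
  ne2 := h.ne0
  n01 := h.n12.symm
  n12 := h.n01.symm
  inter02 := by
    intro x h1 h2
    rw [Set.pair_comm] at h1 h2
    exact h.inter02 h2 h1

theorem l0_not_mem (h : RankThree l0 l1 l2) : l0 ∉ Subgroup.closure {l1, l2} := by
  intro h1
  rcases h.inter02 h1 (Subgroup.subset_closure (by simp)) with h2 | h2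
  · exact h.ne0 h2
  · exact h.n01 h2

theorem l2_not_mem (h : RankThree l0 l1 l2) : l2 ∉ Subgroup.closure {l0, l1} := by
  intro h1
  rcases h.inter02 (Subgroup.subset_closure (by simp)) h1 with h2 | h2
  · exact h.ne2 h2
  · exact h.n12 h2.symm

/-- the elements of `⟨l0, l2⟩` as words -/
theorem mem_02 (h : RankThree l0 l1 l2) {g : G} (hg : g ∈ Subgroup.closure {l0, l2}) :
    g = 1 ∨ g = l2 ∨ g = l0 ∨ g = l0 * l2 := by
  have s0 : ∀ g, l0 * (l0 * g) = g := fun g => by rw [← mul_assoc, h.i0, one_mul]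
  have s2 : ∀ g, l2 * (l2 * g) = g := fun g => by rw [← mul_assoc, h.i2, one_mul]
  have e : ∀ a ∈ ({l0, l2} : Set G), ∀ g, (g = 1 ∨ g = l2 ∨ g = l0 ∨ g = l0 * l2) →
      (a * g = 1 ∨ a * g = l2 ∨ a * g = l0 ∨ a * g = l0 * l2) := by
    rintro a (rfl | rfl) g (rfl | rfl | rfl | rfl)
    · right; right; left; rw [mul_one]
    · right; right; right; rfl
    · left; exact h.i0
    · right; left; exact s0 _
    · right; left; rw [mul_one]
    · left; exact h.i2
    · right; right; right; exact h.c02.symm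
    · right; right; left; rw [h.c02, s2]
  induction hg using Subgroup.closure_induction_left with
  | one => exact Or.inl rfl
  | mul_left a ha y _ ih => exact e a ha y ih
  | inv_mul_cancel a ha y _ ih =>
    have ha' : a⁻¹ = a := by
      rcases ha with rfl | rfl
      · exact inv_eq_of_mul_eq_one_right h.i0
      · exact inv_eq_of_mul_eq_one_right h.i2
    rw [ha']
    exact e a ha y ih

theorem inter01 (h : RankThree l0 l1 l2) {x : G} (h1 : x ∈ Subgroup.closure {l1, l2})
    (h2 : x ∈ Subgroup.closure {l0, l2}) : x = 1 ∨ x = l2 := by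
  have m2 : l2 ∈ Subgroup.closure {l1, l2} := Subgroup.subset_closure (by simp)
  rcases h.mem_02 h2 with rfl | rfl | rfl | rfl
  · exact Or.inl rfl
  · exact Or.inr rfl
  · exact absurd h1 h.l0_not_mem
  · exfalso
    apply h.l0_not_mem
    have := Subgroup.mul_mem _ h1 m2
    rwa [mul_assoc, h.i2, mul_one] at this

theorem inter12 (h : RankThree l0 l1 l2) {x : G} (h1 : x ∈ Subgroup.closure {l0, l2})
    (h2 : x ∈ Subgroup.closure {l0, l1}) : x = 1 ∨ x = l0 := by
  rw [Set.pair_comm] at h1 h2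
  exact h.symm.inter01 h2 h1

end RankThree

/-- Two toroidal groups `⟨r0, r1, r2⟩` and `⟨r1, r2, r3⟩` that meet in `⟨r1, r2⟩`, with
`r0 r3 = r3 r0`, generate a string C-group. -/
theorem amalgam3 {r0 r1 r2 r3 : G} (hA : RankThree r0 r1 r2)
    (hB : RankThree r1 r2 r3) (c03 : r0 * r3 = r3 * r0)
    (hAB : ∀ x, x ∈ Subgroup.closure {r0, r1, r2} → x ∈ Subgroup.closure {r1, r2, r3} →
      x ∈ Subgroup.closure {r1, r2}) : IsStringCIn ![r0, r1, r2, r3] := by
  have hmono : ∀ {S T : Set G}, S ⊆ T → Subgroup.closure S ≤ Subgroup.closure T :=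
    fun h => Subgroup.closure_mono h
  -- decomposition of the other two maximal parabolic subgroups
  have d1 : ∀ x ∈ Subgroup.closure {r0, r2, r3}, ∃ q ∈ Subgroup.closure {r2, r3},
      x = q ∨ x = r0 * q := by
    intro x hx
    have : ({r0, r2, r3} : Set G) = {r0} ∪ {r2, r3} := rfl
    rw [this] at hx
    obtain ⟨p, hp, q, hq, rfl⟩ := prod_of_closure (by
      rintro a rfl b (rfl | rfl)
      · exact hA.c02
      · exact c03) x hx
    rcases mem_closure_one hA.i0 hp with rfl | rfl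
    · exact ⟨q, hq, Or.inl (one_mul q)⟩
    · exact ⟨q, hq, Or.inr rfl⟩
  have d2 : ∀ x ∈ Subgroup.closure {r0, r1, r3}, ∃ p ∈ Subgroup.closure {r0, r1},
      x = p ∨ x = p * r3 := by
    intro x hx
    have : ({r0, r1, r3} : Set G) = {r0, r1} ∪ {r3} := by
      ext y
      simp only [Set.mem_insert_iff, Set.mem_singleton_iff, Set.mem_union]
      tauto
    rw [this] at hx
    obtain ⟨p, hp, q, hq, rfl⟩ := prod_of_closure (by
      rintro a (rfl | rfl) b rfl
      · exact c03
      · exact hB.c02) x hx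
    rcases mem_closure_one hB.i2 hq with rfl | rfl
    · exact ⟨p, hp, Or.inl (mul_one p)⟩
    · exact ⟨p, hp, Or.inr rfl⟩
  have n3 : r3 ∉ Subgroup.closure {r0, r1, r2} := fun h =>
    hB.l2_not_mem (hAB r3 h (Subgroup.subset_closure (by simp)))
  have n0 : r0 ∉ Subgroup.closure {r1, r2, r3} := fun h =>
    hA.l0_not_mem (hAB r0 (Subgroup.subset_closure (by simp)) h)
  -- intersections
  have i01 : ∀ x, x ∈ Subgroup.closure {r0, r1, r3} → x ∈ Subgroup.closure {r0, r1, r2} →
      x ∈ Subgroup.closure {r0, r1} := by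
    intro x h1 h2
    obtain ⟨p, hp, rfl | rfl⟩ := d2 x h1
    · exact hp
    · exfalso
      apply n3
      have : r3 = p⁻¹ * (p * r3) := by group
      rw [this]
      exact Subgroup.mul_mem _ (Subgroup.inv_mem _ (hmono (by
        rintro y (rfl | rfl) <;> simp) hp)) h2
  have i23 : ∀ x, x ∈ Subgroup.closure {r1, r2, r3} → x ∈ Subgroup.closure {r0, r2, r3} →
      x ∈ Subgroup.closure {r2, r3} := by
    intro x h1 h2
    obtain ⟨q, hq, rfl | rfl⟩ := d1 x h2
    · exact hq
    · exfalso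
      apply n0
      have : r0 = (r0 * q) * q⁻¹ := by group
      rw [this]
      exact Subgroup.mul_mem _ h1 (Subgroup.inv_mem _ (hmono (by
        rintro y (rfl | rfl) <;> simp) hq))
  have i02 : ∀ x, x ∈ Subgroup.closure {r0, r2, r3} → x ∈ Subgroup.closure {r0, r1, r2} →
      x ∈ Subgroup.closure {r0, r2} := by
    intro x h1 h2
    obtain ⟨q, hq, hx⟩ := d1 x h1
    have m0 : r0 ∈ Subgroup.closure {r0, r1, r2} := Subgroup.subset_closure (by simp)
    have hqA : q ∈ Subgroup.closure {r0, r1, r2} := by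
      rcases hx with rfl | rfl
      · exact h2
      · have : q = r0 * (r0 * q) := by rw [← mul_assoc, hA.i0, one_mul]
        rw [this]
        exact Subgroup.mul_mem _ m0 h2
    have hqB : q ∈ Subgroup.closure {r1, r2, r3} := hmono (by rintro y (rfl | rfl) <;> simp) hq
    have hq1 := hAB q hqA hqB
    have m0' : r0 ∈ Subgroup.closure {r0, r2} := Subgroup.subset_closure (by simp)
    have m2' : r2 ∈ Subgroup.closure {r0, r2} := Subgroup.subset_closure (by simp)
    rcases hB.inter02 hq hq1 with rfl | rfl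
    · rcases hx with rfl | rfl
      · exact Subgroup.one_mem _
      · rw [mul_one]; exact m0'
    · rcases hx with rfl | rfl
      · exact m2'
      · exact Subgroup.mul_mem _ m0' m2'
  have i13 : ∀ x, x ∈ Subgroup.closure {r1, r2, r3} → x ∈ Subgroup.closure {r0, r1, r3} →
      x ∈ Subgroup.closure {r1, r3} := by
    intro x h1 h2
    obtain ⟨p, hp, hx⟩ := d2 x h2
    have m3 : r3 ∈ Subgroup.closure {r1, r2, r3} := Subgroup.subset_closure (by simp)
    have hpB : p ∈ Subgroup.closure {r1, r2, r3} := by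
      rcases hx with rfl | rfl
      · exact h1
      · have : p = (p * r3) * r3 := by rw [mul_assoc, hB.i2, mul_one]
        rw [this]
        exact Subgroup.mul_mem _ h1 m3
    have hpA : p ∈ Subgroup.closure {r0, r1, r2} := hmono (by rintro y (rfl | rfl) <;> simp) hp
    have hp1 := hAB p hpA hpB
    have m1' : r1 ∈ Subgroup.closure {r1, r3} := Subgroup.subset_closure (by simp)
    have m3' : r3 ∈ Subgroup.closure {r1, r3} := Subgroup.subset_closure (by simp)
    rcases hA.inter02 hp1 hp with rfl | rfl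
    · rcases hx with rfl | rfl
      · exact Subgroup.one_mem _
      · rw [one_mul]; exact m3'
    · rcases hx with rfl | rfl
      · exact m1'
      · exact Subgroup.mul_mem _ m1' m3'
  have i03 : ∀ x, x ∈ Subgroup.closure {r0, r2, r3} → x ∈ Subgroup.closure {r0, r1, r3} →
      x ∈ Subgroup.closure {r0, r3} := by
    intro x h1 h2
    obtain ⟨q, hq, hx⟩ := d1 x h1
    obtain ⟨p, hp, hx'⟩ := d2 x h2
    have m0' : r0 ∈ Subgroup.closure {r0, r3} := Subgroup.subset_closure (by simp)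
    have m3' : r3 ∈ Subgroup.closure {r0, r3} := Subgroup.subset_closure (by simp)
    have m0 : r0 ∈ Subgroup.closure {r0, r1} := Subgroup.subset_closure (by simp)
    have m3 : r3 ∈ Subgroup.closure {r2, r3} := Subgroup.subset_closure (by simp)
    -- write `x = a * b` in two ways
    obtain ⟨a, ha, haS, ha'⟩ : ∃ a, (a = 1 ∨ a = r0) ∧ a ∈ Subgroup.closure {r0, r1} ∧
        x = a * q := by
      rcases hx with rfl | rfl
      · exact ⟨1, Or.inl rfl, Subgroup.one_mem _, (one_mul _).symm⟩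
      · exact ⟨r0, Or.inr rfl, m0, rfl⟩
    obtain ⟨b, hb, hbS, hb'⟩ : ∃ b, (b = 1 ∨ b = r3) ∧ b ∈ Subgroup.closure {r2, r3} ∧
        x = p * b := by
      rcases hx' with rfl | rfl
      · exact ⟨1, Or.inl rfl, Subgroup.one_mem _, (mul_one _).symm⟩
      · exact ⟨r3, Or.inr rfl, m3, rfl⟩
    have key : a⁻¹ * p = q * b⁻¹ := by
      have : a * q = p * b := ha'.symm.trans hb'
      calc a⁻¹ * p = a⁻¹ * (p * b) * b⁻¹ := by group
        _ = a⁻¹ * (a * q) * b⁻¹ := by rw [this]
        _ = q * b⁻¹ := by group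
    have k1 : a⁻¹ * p ∈ Subgroup.closure {r0, r1} :=
      Subgroup.mul_mem _ (Subgroup.inv_mem _ haS) hp
    have k2 : a⁻¹ * p ∈ Subgroup.closure {r2, r3} := by
      rw [key]; exact Subgroup.mul_mem _ hq (Subgroup.inv_mem _ hbS)
    have k3 := hAB _ (hmono (by rintro y (rfl | rfl) <;> simp) k1)
      (hmono (by rintro y (rfl | rfl) <;> simp) k2)
    have k4 : a⁻¹ * p = 1 := by
      rcases hA.inter02 k3 k1 with h3 | h3
      · exact h3
      · rcases hB.inter02 k2 k3 with h4 | h4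
        · exact h4
        · exfalso
          exact hA.n12 (h3.symm.trans h4)
    have k5 : p = a := by
      have : a * (a⁻¹ * p) = a * 1 := by rw [k4]
      rwa [mul_inv_cancel_left, mul_one] at this
    rw [hb', k5]
    refine Subgroup.mul_mem _ ?_ ?_
    · rcases ha with rfl | rfl
      · exact Subgroup.one_mem _
      · exact m0'
    · rcases hb with rfl | rfl
      · exact Subgroup.one_mem _
      · exact m3'
  have n03 : r0 ≠ r3 := by
    intro e
    apply n0
    rw [e]
    exact Subgroup.subset_closure (by simp)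
  refine ⟨?_, ?_, ?_, ?_⟩
  · intro i
    fin_cases i
    · exact hA.i0
    · exact hA.i1
    · exact hA.i2
    · exact hB.i2
  · intro i
    fin_cases i
    · exact hA.ne0
    · exact hA.ne1
    · exact hA.ne2
    · exact hB.ne2
  · intro i j hij
    fin_cases i <;> fin_cases j <;> simp at hij
    · exact hA.c02
    · exact c03
    · exact hB.c02
  · intro J x hx hJ
    have c0 : par ![r0, r1, r2, r3] {0}ᶜ ≤ Subgroup.closure {r1, r2, r3} := by
      refine (Subgroup.closure_le _).2 ?_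
      rintro _ ⟨i, hi, rfl⟩
      refine Subgroup.subset_closure ?_
      fin_cases i <;> simp at hi ⊢
    have c1 : par ![r0, r1, r2, r3] {1}ᶜ ≤ Subgroup.closure {r0, r2, r3} := by
      refine (Subgroup.closure_le _).2 ?_
      rintro _ ⟨i, hi, rfl⟩
      refine Subgroup.subset_closure ?_
      fin_cases i <;> simp at hi ⊢
    have c2 : par ![r0, r1, r2, r3] {2}ᶜ ≤ Subgroup.closure {r0, r1, r3} := by
      refine (Subgroup.closure_le _).2 ?_
      rintro _ ⟨i, hi, rfl⟩
      refine Subgroup.subset_closure ?_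
      fin_cases i <;> simp at hi ⊢
    have c3 : par ![r0, r1, r2, r3] {3}ᶜ ≤ Subgroup.closure {r0, r1, r2} := by
      refine (Subgroup.closure_le _).2 ?_
      rintro _ ⟨i, hi, rfl⟩
      refine Subgroup.subset_closure ?_
      fin_cases i <;> simp at hi ⊢
    have g0 : 0 ∉ J → x ∈ Subgroup.closure {r1, r2, r3} := fun h => c0 (hJ 0 h)
    have g1 : 1 ∉ J → x ∈ Subgroup.closure {r0, r2, r3} := fun h => c1 (hJ 1 h)
    have g2 : 2 ∉ J → x ∈ Subgroup.closure {r0, r1, r3} := fun h => c2 (hJ 2 h)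
    have g3 : 3 ∉ J → x ∈ Subgroup.closure {r0, r1, r2} := fun h => c3 (hJ 3 h)
    have m0 : 0 ∈ J → r0 ∈ par ![r0, r1, r2, r3] J := fun h => mem_par ![r0, r1, r2, r3] h
    have m1 : 1 ∈ J → r1 ∈ par ![r0, r1, r2, r3] J := fun h => mem_par ![r0, r1, r2, r3] h
    have m2 : 2 ∈ J → r2 ∈ par ![r0, r1, r2, r3] J := fun h => mem_par ![r0, r1, r2, r3] h
    have m3 : 3 ∈ J → r3 ∈ par ![r0, r1, r2, r3] J := fun h => mem_par ![r0, r1, r2, r3] h
    have lift : ∀ {S : Set G}, x ∈ Subgroup.closure S →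
        (∀ y ∈ S, y ∈ par ![r0, r1, r2, r3] J) → x ∈ par ![r0, r1, r2, r3] J := by
      intro S hxS hS
      exact (Subgroup.closure_le _).2 hS hxS
    by_cases j0 : 0 ∈ J <;> by_cases j1 : 1 ∈ J <;> by_cases j2 : 2 ∈ J <;> by_cases j3 : 3 ∈ J
    · have : J = Set.univ := by
        ext i; fin_cases i <;> simp <;> assumption
      rw [this]; exact hx
    · exact lift (g3 j3) (by rintro y (rfl | rfl | rfl); exacts [m0 j0, m1 j1, m2 j2])
    · exact lift (g2 j2) (by rintro y (rfl | rfl | rfl); exacts [m0 j0, m1 j1, m3 j3])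
    · exact lift (i01 x (g2 j2) (g3 j3)) (by rintro y (rfl | rfl); exacts [m0 j0, m1 j1])
    · exact lift (g1 j1) (by rintro y (rfl | rfl | rfl); exacts [m0 j0, m2 j2, m3 j3])
    · exact lift (i02 x (g1 j1) (g3 j3)) (by rintro y (rfl | rfl); exacts [m0 j0, m2 j2])
    · exact lift (i03 x (g1 j1) (g2 j2)) (by rintro y (rfl | rfl); exacts [m0 j0, m3 j3])
    · rcases hA.inter12 (i02 x (g1 j1) (g3 j3)) (i01 x (g2 j2) (g3 j3)) with rfl | rfl
      · exact Subgroup.one_mem _
      · exact m0 j0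
    · exact lift (g0 j0) (by rintro y (rfl | rfl | rfl); exacts [m1 j1, m2 j2, m3 j3])
    · exact lift (hAB x (g3 j3) (g0 j0)) (by rintro y (rfl | rfl); exacts [m1 j1, m2 j2])
    · exact lift (i13 x (g0 j0) (g2 j2)) (by rintro y (rfl | rfl); exacts [m1 j1, m3 j3])
    · rcases hA.inter02 (hAB x (g3 j3) (g0 j0)) (i01 x (g2 j2) (g3 j3)) with rfl | rfl
      · exact Subgroup.one_mem _
      · exact m1 j1
    · exact lift (i23 x (g0 j0) (g1 j1)) (by rintro y (rfl | rfl); exacts [m2 j2, m3 j3])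
    · rcases hB.inter02 (i23 x (g0 j0) (g1 j1)) (hAB x (g3 j3) (g0 j0)) with rfl | rfl
      · exact Subgroup.one_mem _
      · exact m2 j2
    · rcases hB.inter01 (i23 x (g0 j0) (g1 j1)) (i13 x (g0 j0) (g2 j2)) with rfl | rfl
      · exact Subgroup.one_mem _
      · exact m3 j3
    · rcases hB.inter01 (i23 x (g0 j0) (g1 j1)) (i13 x (g0 j0) (g2 j2)) with rfl | rfl
      · exact Subgroup.one_mem _
      · exact absurd (g3 j3) n3


namespace Tri

variable {Λ : AddSubgroup (ℤ × ℤ)} {l0 l1 l2 : G}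

theorem Gen.rankThree (h : Gen Λ l0 l1 l2) (hΛ : ((1, 0) : ℤ × ℤ) ∉ Λ) :
    RankThree l0 l1 l2 := by
  have hr := h.toRel
  have hΛ' : ((0, 1) : ℤ × ℤ) ∉ Λ := by
    intro hm
    have h1 := h.lat _ _ hm
    rw [zpow_zero, one_mul, zpow_one] at h1
    have h2 : tX l0 l1 l2 = 1 := by
      have := hr.one_Y
      rw [h1, mul_one] at this
      have h3 := congrArg (· * l1) this
      simpa only [mul_assoc, hr.i1, mul_one] using h3.symm
    have h3 : ev l0 l1 l2 1 0 0 false = 1 := by
      rw [ev_def, zpow_one, zpow_zero, h2, Tri.Rel.rt_zero]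
      simp
    exact hΛ (h.ker _ _ _ _ h3).1
  have n0 : (-1, 0) ∉ Λ := fun hm => hΛ (by simpa using Λ.neg_mem hm)
  have n0' : (0, -1) ∉ Λ := fun hm => hΛ' (by simpa using Λ.neg_mem hm)
  have e1 : l1 = ev l0 l1 l2 0 0 1 true := by
    have := hr.L1 0 0 0 false
    rw [Tri.Rel.ev_zero, mul_one] at this
    rw [this]
    congr 1
  have e2 : l2 = ev l0 l1 l2 0 0 0 true := by
    have := hr.L2 0 0 0 false
    rw [Tri.Rel.ev_zero, mul_one] at this
    rw [this]
    congr 1
  have e0 : l0 = ev l0 l1 l2 1 0 3 true := by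
    have := hr.L0 0 0 0 false
    rw [Tri.Rel.ev_zero, mul_one] at this
    rw [this]
    congr 1
  have e : (1 : G) = ev l0 l1 l2 0 0 0 false := Tri.Rel.ev_zero.symm
  refine ⟨hr.i0, hr.i1, hr.i2, hr.c02, ?_, ?_, ?_, ?_, ?_, ?_⟩
  · intro hh
    rw [e0, e] at hh
    have := (h.ev_inj hh).2.2
    exact Bool.noConfusion this
  · intro hh
    rw [e1, e] at hh
    have := (h.ev_inj hh).2.2
    exact Bool.noConfusion this
  · intro hh
    rw [e2, e] at hh
    have := (h.ev_inj hh).2.2
    exact Bool.noConfusion this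
  · intro hh
    have h1 : ev l0 l1 l2 1 0 3 true = ev l0 l1 l2 0 0 1 true := by rw [← e0, ← e1, hh]
    exact absurd (h.ev_inj h1).2.1 (by decide)
  · intro hh
    have h1 : ev l0 l1 l2 0 0 1 true = ev l0 l1 l2 0 0 0 true := by rw [← e1, ← e2, hh]
    exact absurd (h.ev_inj h1).2.1 (by decide)
  · intro x h1 h2
    obtain ⟨k, r, rfl⟩ := hr.mem_H0.1 h1
    rcases hr.mem_H2 h2 with h3 | h3 | h3 | h3 | h3 | h3
    · left; rw [h3]; exact Tri.Rel.ev_zero
    · right; rw [h3]; exact e1.symm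
    · exact absurd (by simpa using (h.ev_inj h3).1) n0
    · exact absurd (by simpa using (h.ev_inj h3).1) n0
    · exact absurd (by simpa using (h.ev_inj h3).1) n0'
    · exact absurd (by simpa using (h.ev_inj h3).1) n0'

/-- The data of a polytope of type `{3,6,3}` with toroidal facets and vertex-figures. -/
structure Amal (Λ Λ' : AddSubgroup (ℤ × ℤ)) (r0 r1 r2 r3 : G) : Prop where
  genA : Gen Λ r0 r1 r2
  genB : Gen Λ' r3 r2 r1
  c03 : r0 * r3 = r3 * r0
  inter : ∀ x, x ∈ Subgroup.closure {r0, r1, r2} → x ∈ Subgroup.closure {r1, r2, r3} →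
      x ∈ Subgroup.closure {r1, r2}
  neA : ((1, 0) : ℤ × ℤ) ∉ Λ
  neB : ((1, 0) : ℤ × ℤ) ∉ Λ'

theorem Amal.isStringCIn {Λ Λ' : AddSubgroup (ℤ × ℤ)} {r0 r1 r2 r3 : G}
    (h : Amal Λ Λ' r0 r1 r2 r3) : IsStringCIn ![r0, r1, r2, r3] :=
  amalgam3 (h.genA.rankThree h.neA) (h.genB.rankThree h.neB).symm h.c03 h.inter

theorem Amal.symm {Λ Λ' : AddSubgroup (ℤ × ℤ)} {r0 r1 r2 r3 : G}
    (h : Amal Λ Λ' r0 r1 r2 r3) : Amal Λ' Λ r3 r2 r1 r0 where
  genA := h.genB
  genB := h.genA
  c03 := h.c03.symm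
  inter := by
    have e1 : ({r3, r2, r1} : Set G) = {r1, r2, r3} := by
      ext x; simp only [Set.mem_insert_iff, Set.mem_singleton_iff]; tauto
    have e2 : ({r2, r1, r0} : Set G) = {r0, r1, r2} := by
      ext x; simp only [Set.mem_insert_iff, Set.mem_singleton_iff]; tauto
    have e3 : ({r2, r1} : Set G) = {r1, r2} := Set.pair_comm _ _
    rw [e1, e2, e3]
    exact fun x h1 h2 => h.inter x h2 h1
  neA := h.neB
  neB := h.neA

end Tri

end Pool.Agent.Helper622
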