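import Pool.Agent.Helper622.Tri.Small

namespace Pool.Agent.Helper622

namespace Tri

theorem inf_pow {q m : ℕ} (hq : 0 < q) (hm : ¬3 ∣ m) :
    latt (q * m : ℕ) 0 ⊓ latt q q = latt (q * m : ℕ) (q * m : ℕ) := by
  ext ⟨x, y⟩
  rw [AddSubgroup.mem_inf, mem_latt_zero, mem_latt_diag, mem_latt_diag]
  constructor
  · rintro ⟨⟨h1, h2⟩, -, -, h3⟩
    refine ⟨h1, h2, ?_⟩
    obtain ⟨a, rfl⟩ := h1
    obtain ⟨b, rfl⟩ := h2
    have e : ((q * m : ℕ) : ℤ) * a - ((q * m : ℕ) : ℤ) * b = q * (m * (a - b)) := by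
      push_cast; ring
    rw [e] at h3
    have h4 : (3 : ℤ) ∣ m * (a - b) := by
      rw [mul_comm (3 : ℤ)] at h3
      exact Int.dvd_of_mul_dvd_mul_left (by exact_mod_cast hq.ne') h3
    have h5 : (3 : ℤ) ∣ a - b := by
      rcases Int.Prime.dvd_mul' Nat.prime_three h4 with h | h
      · exact absurd (by exact_mod_cast h) hm
      · exact_mod_cast h
    obtain ⟨c, hc⟩ := h5
    exact ⟨c, by rw [e, hc]; push_cast; ring⟩
  · rintro ⟨h1, h2, h3⟩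
    refine ⟨⟨h1, h2⟩, ?_, ?_, ?_⟩
    · exact (Dvd.intro _ (by push_cast; rfl)).trans h1
    · exact (Dvd.intro _ (by push_cast; rfl)).trans h2
    · exact (Dvd.intro (m : ℤ) (by push_cast; ring)).trans h3

/-- groups to be mixed with -/
theorem exists_aux (k : ℕ) : ∃ (G : Type) (_ : Group G) (s0 s1 s2 s3 : G)
    (Λ : AddSubgroup (ℤ × ℤ)), Gen (latt (3 ^ k : ℕ) (3 ^ k : ℕ)) s0 s1 s2 ∧ Gen Λ s3 s2 s1 ∧
      s0 * s3 = s3 * s0 ∧ latt (2 : ℕ) (2 : ℕ) ≤ Λ := by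
  rcases Nat.eq_zero_or_pos k with rfl | hk
  · refine ⟨_, inferInstance, C11.q0, C11.q1, C11.q2, C11.q3, latt (1 : ℕ) (1 : ℕ), ?_,
      C11.genB, C11.c03, ?_⟩
    · rw [pow_zero]; exact C11.genA
    · rintro ⟨x, y⟩ h
      rw [mem_latt_diag] at h ⊢
      refine ⟨by simp, by simp, ?_⟩
      exact (Dvd.intro (2 : ℤ) (by push_cast <;> ring)).trans h.2.2
  · obtain ⟨G, i, s0, s1, s2, s3, h1, h2, h3⟩ := exists_nine hk
    exact ⟨G, i, s0, s1, s2, s3, latt 2 2, h1, h2, h3, le_rfl⟩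

/-- `C(u,2)` for `u ≥ 3` -/
theorem amalC2 {u : ℕ} (hu : 3 ≤ u) : ∃ (G : Type) (_ : Group G) (r0 r1 r2 r3 : G),
    Amal (latt u u) (latt (2 : ℕ) (2 : ℕ)) r0 r1 r2 r3 ∧
      (u ≠ 3 → Infinite (Subgroup.closure {r0, r1, r2, r3})) := by
  obtain ⟨k, m, hm, rfl⟩ := Nat.exists_eq_pow_mul_and_not_dvd (by omega : u ≠ 0) 3 (by norm_num)
  obtain ⟨G, i, s0, s1, s2, s3, Λ, h1, h2, h3, h4⟩ := exists_aux k
  have hq : 0 < 3 ^ k := by positivity
  by_cases hu3 : 3 ^ k * m = 3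
  · obtain ⟨N, D, -, -⟩ := exists_spec hu le_rfl
    have h := D.good.amal hu le_rfl
    have h5 := h.symm.mix h2 h1 h3.symm h4
    rw [inf_pow hq hm] at h5
    exact ⟨_, inferInstance, _, _, _, _, h5.symm, fun h => absurd hu3 h⟩
  · obtain ⟨r0, r1, r2, r3, h, hi⟩ := amalInf hu le_rfl (by omega)
    have h5 := h.symm.mix h2 h1 h3.symm h4
    rw [inf_pow hq hm] at h5
    exact ⟨_, inferInstance, _, _, _, _, h5.symm, fun _ => inf_left hi⟩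

end Tri

end Pool.Agent.Helper622
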