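import Pool.Agent.Helper622.Tri.Poly

/-!
# From a regular polytope to its group

Maximal chains of an abstract 4-polytope as sequences, adjacency, rigidity of automorphisms.
-/

namespace Pool.Agent.Helper622

namespace Conv

variable {P : Type} [PartialOrder P] (X : AbstractPolytope 4 P)

/-- a maximal chain, as a sequence -/
structure IsCh (c : Fin 6 → P) : Prop where
  rank : ∀ i : Fin 6, X.rank (c i) = (i : ℤ) - 1
  mono : Monotone c

/-- the chains `c` and `d` differ exactly in position `i` -/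
structure Adj (i : Fin 6) (c d : Fin 6 → P) : Prop where
  l : IsCh X c
  r : IsCh X d
  eq : ∀ j, j ≠ i → c j = d j
  ne : c i ≠ d i

variable {X}

theorem rank_mem (x : P) : -1 ≤ X.rank x ∧ X.rank x ≤ 4 := by
  have h : X.rank x ∈ Set.Icc (-1 : ℤ) 4 := by
    have := X.rank_range
    have h2 : X.rank x ∈ Set.range X.rank := ⟨x, rfl⟩
    rw [this] at h2
    exact h2
  exact h

theorem isCh_of_strictMono {c : Fin 6 → P} (h : StrictMono c) : IsCh X c := by
  refine ⟨?_, h.monotone⟩
  have h0 := X.rank_strictMono (h (show (0 : Fin 6) < 1 by decide))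
  have h1 := X.rank_strictMono (h (show (1 : Fin 6) < 2 by decide))
  have h2 := X.rank_strictMono (h (show (2 : Fin 6) < 3 by decide))
  have h3 := X.rank_strictMono (h (show (3 : Fin 6) < 4 by decide))
  have h4 := X.rank_strictMono (h (show (4 : Fin 6) < 5 by decide))
  have a := (rank_mem (X := X) (c 0)).1
  have b := (rank_mem (X := X) (c 5)).2
  intro i
  fin_cases i
  · show X.rank (c 0) = ((0 : ℕ) : ℤ) - 1
    push_cast; omega
  · show X.rank (c 1) = ((1 : ℕ) : ℤ) - 1
    push_cast; omega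
  · show X.rank (c 2) = ((2 : ℕ) : ℤ) - 1
    push_cast; omega
  · show X.rank (c 3) = ((3 : ℕ) : ℤ) - 1
    push_cast; omega
  · show X.rank (c 4) = ((4 : ℕ) : ℤ) - 1
    push_cast; omega
  · show X.rank (c 5) = ((5 : ℕ) : ℤ) - 1
    push_cast; omega

theorem strictMono_of_lt {c : Fin 6 → P} (h0 : c 0 < c 1) (h1 : c 1 < c 2) (h2 : c 2 < c 3)
    (h3 : c 3 < c 4) (h4 : c 4 < c 5) : StrictMono c := by
  rw [Fin.strictMono_iff_lt_succ]
  intro i
  fin_cases i
  · exact h0
  · exact h1
  · exact h2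
  · exact h3
  · exact h4

theorem IsCh.strictMono {c : Fin 6 → P} (h : IsCh X c) : StrictMono c := by
  intro i j hij
  refine lt_of_le_of_ne (h.mono hij.le) ?_
  intro e
  have h1 := h.rank i
  have h2 := h.rank j
  rw [e, h2] at h1
  have h3 : (i : ℕ) < (j : ℕ) := hij
  omega

theorem IsCh.map {c : Fin 6 → P} (h : IsCh X c) (φ : P ≃o P) : IsCh X (φ ∘ c) :=
  isCh_of_strictMono (φ.strictMono.comp h.strictMono)

theorem Adj.map {i : Fin 6} {c d : Fin 6 → P} (h : Adj X i c d) (φ : P ≃o P) :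
    Adj X i (φ ∘ c) (φ ∘ d) where
  l := h.l.map φ
  r := h.r.map φ
  eq j hj := congrArg φ (h.eq j hj)
  ne e := h.ne (φ.injective e)

theorem Adj.symm {i : Fin 6} {c d : Fin 6 → P} (h : Adj X i c d) : Adj X i d c where
  l := h.r
  r := h.l
  eq j hj := (h.eq j hj).symm
  ne e := h.ne e.symm

theorem bot_eq {c d : Fin 6 → P} (hc : IsCh X c) (hd : IsCh X d) : c 0 = d 0 := by
  obtain ⟨B, hB, -⟩ := X.unique_least
  have key : ∀ c : Fin 6 → P, IsCh X c → c 0 = B := by
    intro c hc
    by_contra hne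
    have h1 : B < c 0 := lt_of_le_of_ne (hB _) (Ne.symm hne)
    have h2 := X.rank_strictMono h1
    have h3 : X.rank (c 0) = ((0 : ℕ) : ℤ) - 1 := hc.rank 0
    have h4 := (rank_mem (X := X) B).1
    push_cast at h3
    omega
  rw [key c hc, key d hd]

theorem top_eq {c d : Fin 6 → P} (hc : IsCh X c) (hd : IsCh X d) : c 5 = d 5 := by
  obtain ⟨B, hB, -⟩ := X.unique_greatest
  have key : ∀ c : Fin 6 → P, IsCh X c → c 5 = B := by
    intro c hc
    by_contra hne
    have h1 : c 5 < B := lt_of_le_of_ne (hB _) hne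
    have h2 := X.rank_strictMono h1
    have h3 : X.rank (c 5) = ((5 : ℕ) : ℤ) - 1 := hc.rank 5
    have h4 := (rank_mem (X := X) B).2
    push_cast at h3
    omega
  rw [key c hc, key d hd]

theorem IsCh.injective {c : Fin 6 → P} (h : IsCh X c) : Function.Injective c :=
  h.strictMono.injective

omit [PartialOrder P] in
theorem range_encard {c : Fin 6 → P} (h : Function.Injective c) :
    (Set.range c).encard = 6 := by
  rw [← Set.image_univ, h.encard_image, Set.encard_univ]
  simp

/-- the flag of a chain -/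
theorem exists_flag {c : Fin 6 → P} (h : IsCh X c) : ∃ Φ : Flag P, (Φ : Set P) = Set.range c := by
  obtain ⟨Φ, hΦ⟩ := h.mono.isChain_range.exists_subset_flag
  refine ⟨Φ, ?_⟩
  symm
  apply Set.Finite.eq_of_subset_of_encard_le (Set.finite_range c) hΦ
  rw [X.flag_card Φ, range_encard h.injective]
  norm_num

/-- the chain of a flag -/
theorem exists_ch (Φ : Flag P) : ∃ c, IsCh X c ∧ Set.range c = Φ := by
  have hinj : Set.InjOn X.rank (Φ : Set P) := by
    intro a ha b hb hab
    by_contra hne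
    rcases Φ.le_or_le ha hb with h | h
    · have := X.rank_strictMono (lt_of_le_of_ne h hne)
      omega
    · have := X.rank_strictMono (lt_of_le_of_ne h (Ne.symm hne))
      omega
  have himg : X.rank '' (Φ : Set P) = Set.Icc (-1 : ℤ) 4 := by
    apply Set.Finite.eq_of_subset_of_encard_le' (Set.finite_Icc _ _)
    · rintro _ ⟨x, -, rfl⟩
      exact rank_mem x
    · rw [hinj.encard_image, X.flag_card Φ]
      have : (Set.Icc (-1 : ℤ) 4).encard = 6 := by
        rw [← Finset.coe_Icc, Set.encard_coe_eq_coe_finsetCard, Int.card_Icc]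
        rfl
      rw [this]
      norm_num
  have hex : ∀ i : Fin 6, ∃ x ∈ (Φ : Set P), X.rank x = (i : ℤ) - 1 := by
    intro i
    have : ((i : ℤ) - 1) ∈ Set.Icc (-1 : ℤ) 4 := by
      have := i.2
      constructor <;> omega
    rw [← himg] at this
    obtain ⟨x, hx, h⟩ := this
    exact ⟨x, hx, h⟩
  choose c hc hr using hex
  refine ⟨c, ⟨hr, ?_⟩, ?_⟩
  · intro i j hij
    rcases Φ.le_or_le (hc i) (hc j) with h | h
    · exact h
    · have h1 := X.rank_strictMono.monotone h
      rw [hr, hr] at h1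
      have h2 : (i : ℕ) ≤ (j : ℕ) := hij
      have : i = j := Fin.ext (by omega)
      rw [this]
  · apply Set.Subset.antisymm
    · rintro _ ⟨i, rfl⟩
      exact hc i
    · intro x hx
      have h1 := rank_mem (X := X) x
      obtain ⟨i, hi⟩ : ∃ i : Fin 6, X.rank x = (i : ℤ) - 1 :=
        ⟨⟨(X.rank x + 1).toNat, by omega⟩, by simp; omega⟩
      exact ⟨i, hinj (hc i) hx (by rw [hr, hi])⟩

theorem exists_mem (x : P) : ∃ c i, IsCh X c ∧ c i = x := by
  obtain ⟨Φ, hΦ⟩ := (IsChain.singleton (r := (· ≤ ·)) (a := x)).exists_subset_flag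
  obtain ⟨c, hc, h⟩ := exists_ch (X := X) Φ
  have hx : x ∈ (Φ : Set P) := hΦ rfl
  rw [← h] at hx
  obtain ⟨i, hi⟩ := hx
  exact ⟨c, i, hc, hi⟩

theorem exists_one : ∃ c, IsCh X c := by
  obtain ⟨B, -, -⟩ := X.unique_least
  obtain ⟨c, -, h, -⟩ := exists_mem (X := X) B
  exact ⟨c, h⟩

theorem exists_aut (hX : X.IsRegular) {c d : Fin 6 → P} (hc : IsCh X c) (hd : IsCh X d) :
    ∃ φ : P ≃o P, φ ∘ c = d := by
  obtain ⟨Φ, hΦ⟩ := exists_flag hc
  obtain ⟨Ψ, hΨ⟩ := exists_flag hd
  obtain ⟨φ, hφ⟩ := hX Φ Ψ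
  refine ⟨φ, funext fun i => ?_⟩
  have h1 : φ (c i) ∈ Set.range d := by
    rw [← hΨ, ← hφ, hΦ]
    exact ⟨c i, ⟨i, rfl⟩, rfl⟩
  obtain ⟨j, hj⟩ := h1
  have h2 := (hc.map φ).rank i
  have h3 := hd.rank j
  rw [hj] at h3
  have h4 : (φ ∘ c) i = φ (c i) := rfl
  rw [h4] at h2
  have : i = j := Fin.ext (by omega)
  rw [h4, ← hj, this]

/-- the diamond condition for chains -/
theorem diamond {c : Fin 6 → P} (hc : IsCh X c) {i : Fin 6} (h1 : 1 ≤ (i : ℕ))
    (h4 : (i : ℕ) ≤ 4) :
    ∃ x y, x ≠ y ∧ {H : P | X.rank H = (i : ℤ) - 1 ∧ c ⟨i - 1, by omega⟩ ≤ H ∧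
      H ≤ c ⟨i + 1, by omega⟩} = {x, y} := by
  have e1 := hc.rank ⟨i - 1, by omega⟩
  have e2 := hc.rank ⟨i + 1, by omega⟩
  simp only at e1 e2
  have hle : c ⟨i - 1, by omega⟩ ≤ c ⟨i + 1, by omega⟩ := hc.mono (by
    rw [Fin.mk_le_mk]; omega)
  have h := X.diamond _ _ hle (by rw [e1, e2]; omega)
  rw [Set.encard_eq_two] at h
  obtain ⟨x, y, hxy, h⟩ := h
  refine ⟨x, y, hxy, ?_⟩
  rw [← h]
  ext H
  simp only [Set.mem_ofPred_eq, e1]
  have : (((i : ℕ) - 1 : ℕ) : ℤ) - 1 + 1 = (i : ℤ) - 1 := by omega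
  rw [this]

theorem Adj.unique {i : Fin 6} {c d d' : Fin 6 → P} (h : Adj X i c d) (h' : Adj X i c d') :
    d = d' := by
  have hi : 1 ≤ (i : ℕ) ∧ (i : ℕ) ≤ 4 := by
    refine ⟨?_, ?_⟩
    · by_contra hh
      have : i = 0 := Fin.ext (by simp; omega)
      subst this
      exact h.ne (bot_eq h.l h.r)
    · by_contra hh
      have : i = 5 := Fin.ext (by simp; omega)
      subst this
      exact h.ne (top_eq h.l h.r)
  obtain ⟨h1, h4⟩ := hi
  obtain ⟨x, y, hxy, hS⟩ := diamond h.l h1 h4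
  have mem : ∀ d, IsCh X d → (∀ j, j ≠ i → c j = d j) → d i = x ∨ d i = y := by
    intro d hd he
    have : d i ∈ {H : P | X.rank H = (i : ℤ) - 1 ∧ c ⟨i - 1, by omega⟩ ≤ H ∧
      H ≤ c ⟨i + 1, by omega⟩} := by
      refine ⟨hd.rank i, ?_, ?_⟩
      · rw [he _ (by intro e; have := congrArg Fin.val e; simp at this; omega)]
        exact hd.mono (by rw [Fin.le_def]; simp)
      · rw [he _ (by intro e; have := congrArg Fin.val e; simp at this)]
        exact hd.mono (by rw [Fin.le_def]; simp)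
    rw [hS] at this
    exact this
  have m0 := mem c h.l (fun _ _ => rfl)
  have m1 := mem d h.r h.eq
  have m2 := mem d' h'.r h'.eq
  have n1 := h.ne
  have n2 := h'.ne
  have e : d i = d' i := by
    rcases m0 with m0 | m0 <;> rcases m1 with m1 | m1 <;> rcases m2 with m2 | m2 <;>
      simp_all
  funext j
  by_cases hj : j = i
  · rw [hj, e]
  · rw [← h.eq j hj, ← h'.eq j hj]

theorem exists_adj {c : Fin 6 → P} (hc : IsCh X c) {i : Fin 6} (h1 : 1 ≤ (i : ℕ))
    (h4 : (i : ℕ) ≤ 4) : ∃ d, Adj X i c d := by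
  obtain ⟨x, y, hxy, hS⟩ := diamond hc h1 h4
  have m0 : c i ∈ {H : P | X.rank H = (i : ℤ) - 1 ∧ c ⟨i - 1, by omega⟩ ≤ H ∧
      H ≤ c ⟨i + 1, by omega⟩} := by
    refine ⟨hc.rank i, ?_, ?_⟩
    · exact hc.mono (by rw [Fin.le_def]; simp)
    · exact hc.mono (by rw [Fin.le_def]; simp)
  obtain ⟨z, hz, hne⟩ : ∃ z ∈ {H : P | X.rank H = (i : ℤ) - 1 ∧ c ⟨i - 1, by omega⟩ ≤ H ∧
      H ≤ c ⟨i + 1, by omega⟩}, c i ≠ z := by
    rw [hS] at m0 ⊢
    rcases m0 with m0 | m0
    · exact ⟨y, Or.inr rfl, by rw [m0]; exact hxy⟩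
    · refine ⟨x, Or.inl rfl, ?_⟩
      rw [m0]
      exact hxy.symm
  obtain ⟨hz1, hz2, hz3⟩ := hz
  refine ⟨Function.update c i z, hc, ?_, ?_, ?_⟩
  · constructor
    · intro j
      by_cases hj : j = i
      · subst hj
        rw [Function.update_self]
        exact hz1
      · rw [Function.update_of_ne hj]
        exact hc.rank j
    · intro j k hjk
      by_cases hj : j = i
      · subst hj
        by_cases hk : k = j
        · rw [hk]
        · rw [Function.update_self, Function.update_of_ne hk]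
          refine hz3.trans (hc.mono ?_)
          have : (j : ℕ) < (k : ℕ) := lt_of_le_of_ne hjk (fun e => hk (Fin.ext e).symm)
          rw [Fin.le_def]
          exact this
      · by_cases hk : k = i
        · subst hk
          rw [Function.update_self, Function.update_of_ne hj]
          refine (hc.mono ?_).trans hz2
          have : (j : ℕ) < (k : ℕ) := lt_of_le_of_ne hjk (fun e => hj (Fin.ext e))
          rw [Fin.le_def]
          simp only
          omega
        · rw [Function.update_of_ne hj, Function.update_of_ne hk]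
          exact hc.mono hjk
  · intro j hj
    rw [Function.update_of_ne hj]
  · rw [Function.update_self]
    exact hne

/-- chains are connected -/
theorem connect {p : (Fin 6 → P) → Prop} {c : Fin 6 → P} (hc : IsCh X c) (hp : p c)
    (hs : ∀ a b i, p a → Adj X i a b → p b) (d : Fin 6 → P) (hd : IsCh X d) : p d := by
  obtain ⟨Φ, hΦ⟩ := exists_flag hc
  obtain ⟨Ψ, hΨ⟩ := exists_flag hd
  have huniq : ∀ a b : Fin 6 → P, IsCh X a → IsCh X b → Set.range a = Set.range b → a = b := by
    intro a b ha hb h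
    funext i
    have : a i ∈ Set.range b := by rw [← h]; exact ⟨i, rfl⟩
    obtain ⟨j, hj⟩ := this
    have h1 := ha.rank i
    have h2 := hb.rank j
    rw [hj] at h2
    have : i = j := Fin.ext (by omega)
    rw [← hj, this]
  have hcon := X.strongly_flag_connected Φ Ψ
  have key : ∀ A : Flag P, Relation.ReflTransGen
    (fun A B : Flag P => ((A : Set P) \ (B : Set P)).encard = 1 ∧
      ((B : Set P) \ (A : Set P)).encard = 1 ∧
      (Φ : Set P) ∩ (Ψ : Set P) ⊆ (A : Set P) ∧ (Φ : Set P) ∩ (Ψ : Set P) ⊆ (B : Set P)) Φ A →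
      ∀ a, IsCh X a → Set.range a = (A : Set P) → p a := by
    intro A hA
    induction hA with
    | refl =>
      intro a ha h
      rw [huniq a c ha hc (by rw [h, hΦ])]
      exact hp
    | tail _ hstep ih =>
      rename_i A B _
      intro b hb h
      obtain ⟨a, ha, h'⟩ := exists_ch (X := X) A
      obtain ⟨h1, h2, -, -⟩ := hstep
      rw [← h, ← h'] at h1 h2
      rw [Set.encard_eq_one] at h1 h2
      obtain ⟨x, hx⟩ := h1
      obtain ⟨y, hy⟩ := h2
      have hx' : x ∈ Set.range a \ Set.range b := by rw [hx]; rfl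
      have hy' : y ∈ Set.range b \ Set.range a := by rw [hy]; rfl
      obtain ⟨⟨i, hi⟩, hxb⟩ := hx'
      obtain ⟨⟨k, hk⟩, hya⟩ := hy'
      have hij : ∀ j, j ≠ i → a j = b j := by
        intro j hj
        have : a j ∈ Set.range b := by
          by_contra hn
          have h3 : a j ∈ Set.range a \ Set.range b := ⟨⟨j, rfl⟩, hn⟩
          rw [hx, Set.mem_singleton_iff, ← hi] at h3
          exact hj (ha.injective h3)
        obtain ⟨m, hm⟩ := this
        have h1 := ha.rank j
        have h2 := hb.rank m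
        rw [hm] at h2
        have : j = m := Fin.ext (by omega)
        rw [← hm, this]
      refine hs a b i (ih a ha h') ⟨ha, hb, hij, ?_⟩
      intro e
      exact hxb ⟨i, by rw [← e, hi]⟩
  exact key Ψ hcon d hd hΨ.symm

/-- an automorphism that fixes a flag is trivial -/
theorem rigid {c : Fin 6 → P} (hc : IsCh X c) {φ ψ : P ≃o P} (h : φ ∘ c = ψ ∘ c) : φ = ψ := by
  have key : ∀ d, IsCh X d → φ ∘ d = ψ ∘ d := by
    refine fun d hd => connect (p := fun d => φ ∘ d = ψ ∘ d) hc h ?_ d hd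
    intro a b i hab h
    have h1 := h.map φ
    have h2 := h.map ψ
    rw [hab] at h1
    exact h1.unique h2
  ext x
  obtain ⟨d, i, hd, rfl⟩ := exists_mem (X := X) x
  exact congrFun (key d hd) i

end Conv

end Pool.Agent.Helper622
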