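import Pool.Agent.Helper622.Tri.Ker

/-!
# Two relations that force others
-/

namespace Pool.Agent.Helper622

namespace Tri

variable {G : Type} [Group G] {r0 r1 r2 r3 : G}

/-- The relation for `(1,1)` in reflected form. -/
theorem Rel.refl_one {l0 l1 l2 : G} (h : Rel l0 l1 l2) (hk : KerMem l0 l1 l2 1 1) :
    l2 * l1 * l2 * l1 * l2 = l0 * l1 * l2 * l1 * l0 := by
  have e1 : l0 * (l1 * (l2 * (l1 * (l0 * ev l0 l1 l2 0 0 0 false)))) = ev l0 l1 l2 1 1 4 true := by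
    rw [h.L0, h.L1, h.L2, h.L1, h.L0]
    congr 1
  have e2 : l2 * (l1 * (l2 * (l1 * (l2 * ev l0 l1 l2 0 0 0 false)))) = ev l0 l1 l2 0 0 4 true := by
    rw [h.L2, h.L1, h.L2, h.L1, h.L2]
    congr 1
  have e3 : ev l0 l1 l2 1 1 4 true = ev l0 l1 l2 0 0 4 true := by
    rw [ev_def, ev_def, hk, zpow_zero, zpow_zero, one_mul, one_mul, one_mul]
  rw [← e1, ← e2, Rel.ev_zero] at e3
  simp only [mul_one, ← mul_assoc] at e3
  exact e3.symm

/-- vertex-figures `(1,1)` force facets `(3,0)` or smaller -/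
theorem collapse_one (hA : Rel r0 r1 r2) (hB : Rel r3 r2 r1) (c03 : r0 * r3 = r3 * r0)
    (hk : KerMem r3 r2 r1 1 1) : KerMem r0 r1 r2 3 0 := by
  have h1 := hB.refl_one hk
  have hX : tX r0 r1 r2 = (r3 * r2) * (r0 * r1) * (r3 * r2)⁻¹ := by
    rw [tX, h1, mul_inv_rev, hB.inv0, hB.inv1]
    calc r0 * (r3 * r2 * r1 * r2 * r3) = (r0 * r3) * r2 * r1 * r2 * r3 := by
          simp only [mul_assoc]
      _ = r3 * (r0 * r2) * r1 * r2 * r3 := by rw [c03]; simp only [mul_assoc]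
      _ = _ := by rw [hA.c02]; simp only [mul_assoc]
  have h3 : (r0 * r1) ^ 3 = 1 := by
    have e := hA.h01
    calc (r0 * r1) ^ 3 = (r0 * r1 * r0) * (r1 * r0 * r1) := by
          simp only [pow_succ, pow_zero, one_mul, mul_assoc]
      _ = (r1 * r0 * r1) * (r1 * r0 * r1) := by rw [e]
      _ = 1 := by simp only [mul_assoc, hA.s1, hA.s0, hA.i1]
  rw [KerMem, zpow_zero, mul_one, hX]
  have e3 : (3 : ℤ) = ((3 : ℕ) : ℤ) := rfl
  rw [e3, zpow_natCast, conj_pow, h3, mul_one, mul_inv_cancel]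

/-- facets `(2,0)` force vertex-figures `(2,2)` or smaller -/
theorem collapse_two (hA : Rel r0 r1 r2) (hB : Rel r3 r2 r1) (c03 : r0 * r3 = r3 * r0)
    (hk : KerMem r0 r1 r2 2 0) : KerMem r3 r2 r1 2 2 := by
  have hX2 : tX r0 r1 r2 * tX r0 r1 r2 = 1 := by
    have : tX r0 r1 r2 ^ (2 : ℤ) * tY r0 r1 r2 ^ (0 : ℤ) = 1 := hk
    rw [zpow_zero, mul_one] at this
    rw [← this]
    exact (zpow_two _).symm
  -- `σ` commutes with `r0`
  have hs : (r1 * r2 * r1 * r2 * r1) * (r1 * r2 * r1 * r2 * r1) = 1 := by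
    simp only [mul_assoc, hA.s1, hA.s2, hA.i1]
  have hc : Commute r0 (r1 * r2 * r1 * r2 * r1) := by
    rw [tX] at hX2
    generalize r1 * r2 * r1 * r2 * r1 = σ at hX2 hs ⊢
    show r0 * σ = σ * r0
    have h1 : r0 * σ = (r0 * σ)⁻¹ := eq_inv_of_mul_eq_one_left hX2
    rw [h1, mul_inv_rev, hA.inv0, inv_eq_of_mul_eq_one_right hs]
  have c02 : Commute r0 r2 := hA.c02
  have c03' : Commute r0 r3 := c03
  -- the half-turn
  have hz : Commute r0 (r1 * r2 * r1 * r2 * r1 * r2) := hc.mul_right c02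
  have hXB : tX r3 r2 r1 = r3 * (r1 * r2 * r1 * r2 * r1 * r2) * r1 := by
    rw [tX, hA.hex]
    simp only [mul_assoc, hA.i1, mul_one]
  have hXc : r1 * tX r3 r2 r1 = tX r3 r2 r1 * r1 := hB.two_X
  have hXB2 : tX r3 r2 r1 * tX r3 r2 r1 = r3 * (r1 * r2 * r1 * r2 * r1 * r2) *
      (r3 * (r1 * r2 * r1 * r2 * r1 * r2)) := by
    have e1 : tX r3 r2 r1 * r1 = r3 * (r1 * r2 * r1 * r2 * r1 * r2) := by
      rw [hXB, mul_assoc, hA.i1, mul_one]
    calc tX r3 r2 r1 * tX r3 r2 r1 = tX r3 r2 r1 * (r1 * (r1 * tX r3 r2 r1)) := by rw [hA.s1]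
      _ = (tX r3 r2 r1 * r1) * (tX r3 r2 r1 * r1) := by rw [hXc]; simp only [mul_assoc]
      _ = _ := by rw [e1]
  have cX : Commute r0 (tX r3 r2 r1 * tX r3 r2 r1) := by
    rw [hXB2]
    exact (c03'.mul_right hz).mul_right (c03'.mul_right hz)
  have hY2 : tY r3 r2 r1 * tY r3 r2 r1 = r2 * (tX r3 r2 r1 * tX r3 r2 r1) * r2 := by
    rw [tY]
    calc r2 * tX r3 r2 r1 * r2 * (r2 * tX r3 r2 r1 * r2) =
        r2 * tX r3 r2 r1 * (r2 * (r2 * (tX r3 r2 r1 * r2))) := by simp only [mul_assoc]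
      _ = _ := by rw [hA.s2]; simp only [mul_assoc]
  have cY : Commute r0 (tY r3 r2 r1 * tY r3 r2 r1) := by
    rw [hY2]
    exact (c02.mul_right cX).mul_right c02
  have hconj : r1 * (tY r3 r2 r1 * tY r3 r2 r1) * r1 =
      (tX r3 r2 r1 * tX r3 r2 r1) * (tY r3 r2 r1 * tY r3 r2 r1)⁻¹ := by
    have e1 := hB.conj_two_Y
    have e2 : r1 * (tY r3 r2 r1 * tY r3 r2 r1) * r1 =
        (r1 * tY r3 r2 r1 * r1) * (r1 * tY r3 r2 r1 * r1) := by
      calc r1 * (tY r3 r2 r1 * tY r3 r2 r1) * r1 =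
          r1 * tY r3 r2 r1 * (tY r3 r2 r1 * r1) := by simp only [mul_assoc]
        _ = r1 * tY r3 r2 r1 * (r1 * (r1 * (tY r3 r2 r1 * r1))) := by rw [hA.s1]
        _ = _ := by simp only [mul_assoc]
    rw [e2, e1]
    have hcm := hB.commXY
    have hcm' : Commute (tX r3 r2 r1) (tY r3 r2 r1)⁻¹ := hcm.inv_right
    rw [mul_inv_rev]
    calc tX r3 r2 r1 * (tY r3 r2 r1)⁻¹ * (tX r3 r2 r1 * (tY r3 r2 r1)⁻¹)
        = tX r3 r2 r1 * ((tY r3 r2 r1)⁻¹ * tX r3 r2 r1) * (tY r3 r2 r1)⁻¹ := by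
          simp only [mul_assoc]
      _ = _ := by rw [← hcm'.eq]; simp only [mul_assoc]
  have cZ : Commute r0 (r1 * (tY r3 r2 r1 * tY r3 r2 r1) * r1) := by
    rw [hconj]
    exact cX.mul_right cY.inv_right
  -- the braid relation
  have key : ∀ a : G, Commute r0 a → Commute r0 (r1 * a * r1) → a = r1 * a * r1 := by
    intro a ha hb
    have e1 : (r0 * r1 * r0) * a * (r0 * r1 * r0) = r1 * a * r1 := by
      calc (r0 * r1 * r0) * a * (r0 * r1 * r0) = r0 * r1 * (r0 * a) * r0 * r1 * r0 := by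
            simp only [mul_assoc]
        _ = r0 * (r1 * a * (r0 * r0) * r1) * r0 := by rw [ha.eq]; simp only [mul_assoc]
        _ = r0 * (r1 * a * r1) * r0 := by rw [hA.i0, mul_one]
        _ = r1 * a * r1 := by rw [hb.eq, mul_assoc, hA.i0, mul_one]
    have e2 : (r1 * r0 * r1) * a * (r1 * r0 * r1) = a := by
      calc (r1 * r0 * r1) * a * (r1 * r0 * r1) = r1 * (r0 * (r1 * a * r1)) * r0 * r1 := by
            simp only [mul_assoc]
        _ = r1 * (r1 * a * r1) * (r0 * r0) * r1 := by rw [hb.eq]; simp only [mul_assoc]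
        _ = a := by rw [hA.i0, mul_one]; simp only [mul_assoc, hA.s1, hA.i1, mul_one]
    rw [← e1, hA.h01, e2]
  have h4 := key _ cY cZ
  rw [hconj] at h4
  have h5 : KerMem r3 r2 r1 (-2) 4 := by
    have hcm := hB.commXY
    have e1 : tX r3 r2 r1 * tX r3 r2 r1 = tX r3 r2 r1 ^ (2 : ℤ) := (zpow_two _).symm
    have e2 : tY r3 r2 r1 * tY r3 r2 r1 = tY r3 r2 r1 ^ (2 : ℤ) := (zpow_two _).symm
    rw [e1, e2] at h4
    have h6 : tY r3 r2 r1 ^ (4 : ℤ) = tX r3 r2 r1 ^ (2 : ℤ) := by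
      rw [show (4 : ℤ) = 2 + 2 by norm_num, zpow_add]
      exact eq_mul_inv_iff_mul_eq.1 h4
    rw [KerMem, h6, ← zpow_add]
    simp
  have h6 := hB.ker_neg (hB.ker_rot (hB.ker_rot h5))
  norm_num at h6
  exact h6

end Tri

end Pool.Agent.Helper622
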