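import Pool.Agent.Helper622.Tri.CTwo

namespace Pool.Agent.Helper622

namespace Tri

/-- a permutation from an involutive table -/
def tb {n : ℕ} (f : Fin n → Fin n) (h : ∀ x, f (f x) = x) : Equiv.Perm (Fin n) := ⟨f, f, h, h⟩

/-- the intersection property from a point whose stabilizer contains the vertex-figure group -/
theorem inter_point {α : Type} {r0 r1 r2 r3 : Equiv.Perm α} {Λ : AddSubgroup (ℤ × ℤ)}
    (g : Gen Λ r0 r1 r2) (p : α) (h1 : r1 p = p) (h2 : r2 p = p) (h3 : r3 p = p)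
    (hT : ∀ x y : ℤ, (tX r0 r1 r2 ^ x * tY r0 r1 r2 ^ y) p = p → (x, y) ∈ Λ) :
    ∀ x, x ∈ Subgroup.closure {r0, r1, r2} → x ∈ Subgroup.closure {r1, r2, r3} →
      x ∈ Subgroup.closure {r1, r2} := by
  have fixB : ∀ S : Set (Equiv.Perm α), (∀ s ∈ S, s p = p) → ∀ x ∈ Subgroup.closure S,
      x p = p := by
    intro S hS x hx
    induction hx using Subgroup.closure_induction with
    | mem x hx => exact hS x hx
    | one => rfl
    | mul x y _ _ hx hy => rw [Equiv.Perm.mul_apply, hy, hx]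
    | inv x _ hx => rw [Equiv.Perm.inv_eq_iff_eq]; exact hx.symm
  intro x hA hB
  obtain ⟨a, b, k, r, rfl⟩ := g.toRel.mem_L hA
  have e1 := fixB _ (by rintro s (rfl | rfl | rfl) <;> assumption) _ hB
  have hc : rt r1 r2 k * (if r then r2 else 1) ∈ Subgroup.closure {r1, r2} := by
    refine mul_mem (pow_mem (mul_mem (Subgroup.subset_closure (by simp))
      (Subgroup.subset_closure (by simp))) _) ?_
    split
    · exact Subgroup.subset_closure (by simp)
    · exact one_mem _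
  have e2 := fixB _ (by rintro s (rfl | rfl) <;> assumption) _ hc
  rw [ev_def, Equiv.Perm.mul_apply, e2] at e1
  have h4 := g.lat a b (hT a b e1)
  rw [ev_def, h4, one_mul]
  exact hc

theorem zpow_red {G : Type} [Group G] {g : G} {n : ℕ} (hn : 0 < n) (hg : g ^ n = 1) (z : ℤ) :
    ∃ i : Fin n, g ^ z = g ^ (i : ℕ) ∧ ((i : ℕ) : ℤ) = z % n := by
  have hn' : (n : ℤ) ≠ 0 := by exact_mod_cast hn.ne'
  have h1 := Int.emod_lt_of_pos z (by exact_mod_cast hn : (0 : ℤ) < n)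
  have h2 := Int.emod_nonneg z hn'
  refine ⟨⟨(z % n).toNat, by omega⟩, ?_, Int.toNat_of_nonneg h2⟩
  rw [← zpow_natCast g, Int.toNat_of_nonneg h2]
  conv_lhs => rw [← Int.emod_add_mul_ediv z n]
  rw [zpow_add, zpow_mul, zpow_natCast, hg, one_zpow, mul_one]

/-! ### The group of `(2,0), (2,2)`, of order 720 -/

namespace A22

def q0 : Equiv.Perm (Fin 8) := tb ![1, 0, 2, 3, 4, 5, 6, 7] (by decide)
def q1 : Equiv.Perm (Fin 8) := tb ![0, 2, 1, 3, 4, 5, 6, 7] (by decide)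
def q2 : Equiv.Perm (Fin 8) := tb ![0, 1, 3, 2, 4, 5, 7, 6] (by decide)
def q3 : Equiv.Perm (Fin 8) := tb ![0, 1, 2, 4, 3, 6, 5, 7] (by decide)

theorem relA : Rel q0 q1 q2 where
  i0 := by decide
  i1 := by decide
  i2 := by decide
  c02 := by decide
  h01 := by decide
  h12 := by decide

theorem relB : Rel q3 q2 q1 where
  i0 := by decide
  i1 := by decide
  i2 := by decide
  c02 := by decide
  h01 := by decide
  h12 := by decide

theorem genA : Gen (latt (2 : ℕ) 0) q0 q1 q2 := by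
  refine relA.genFin (n := 2) (by norm_num) (by decide) (relA.lat_zero ?_) le_rfl ?_
  · rw [KerMem, zpow_zero, mul_one, zpow_natCast]
    decide
  · have key : ∀ (x y : Fin 2) (k : ZMod 6) (r : Bool),
        tX q0 q1 q2 ^ (x : ℕ) * tY q0 q1 q2 ^ (y : ℕ) *
        ((q1 * q2) ^ k.val * (if r then q2 else 1)) = 1 → x = 0 ∧ y = 0 ∧ k = 0 ∧ r = false := by
      decide
    intro x y k r he
    obtain ⟨rfl, rfl, h2, h3⟩ := key x y k r he
    refine ⟨?_, h2, h3⟩
    rw [mem_latt_zero]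
    simp

theorem genB : Gen (latt (2 : ℕ) (2 : ℕ)) q3 q2 q1 := by
  have hk : KerMem q3 q2 q1 (2 : ℕ) (2 : ℕ) := by
    rw [KerMem, zpow_natCast, zpow_natCast]
    decide
  refine relB.genFin (n := 6) (by norm_num) (by decide +kernel) (relB.lat_diag hk)
    (by simpa using latt_three_le 2) ?_
  · have key : ∀ (x y : Fin 6) (k : ZMod 6) (r : Bool),
        tX q3 q2 q1 ^ (x : ℕ) * tY q3 q2 q1 ^ (y : ℕ) *
        ((q2 * q1) ^ k.val * (if r then q1 else 1)) = 1 →
        (x = y ∧ (x : ℕ) % 2 = 0) ∧ k = 0 ∧ r = false := by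
      decide +kernel
    intro x y k r he
    obtain ⟨⟨rfl, h1⟩, h2, h3⟩ := key x y k r he
    refine ⟨?_, h2, h3⟩
    rw [mem_latt_diag]
    have h4 : ((2 : ℕ) : ℤ) ∣ ((x : ℕ) : ℤ) := by
      exact_mod_cast Nat.dvd_of_mod_eq_zero h1
    exact ⟨h4, h4, by simp⟩

theorem amal : Amal (latt (2 : ℕ) 0) (latt (2 : ℕ) (2 : ℕ)) q0 q1 q2 q3 where
  genA := genA
  genB := genB
  c03 := by decide
  inter := by
    refine inter_point genA 0 (by decide) (by decide) (by decide) ?_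
    intro x y h
    obtain ⟨i, hi, hi'⟩ := zpow_red (n := 2) (g := tX q0 q1 q2) (by norm_num) (by decide) x
    obtain ⟨j, hj, hj'⟩ := zpow_red (n := 2) (g := tY q0 q1 q2) (by norm_num) (by decide) y
    rw [hi, hj] at h
    have key : ∀ i j : Fin 2, (tX q0 q1 q2 ^ (i : ℕ) * tY q0 q1 q2 ^ (j : ℕ)) 0 = 0 →
        i = 0 ∧ j = 0 := by decide
    obtain ⟨rfl, rfl⟩ := key i j h
    rw [mem_latt_zero]
    exact ⟨Int.dvd_of_emod_eq_zero hi'.symm, Int.dvd_of_emod_eq_zero hj'.symm⟩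
  neA := by
    rw [mem_latt_zero]
    rintro ⟨h, -⟩
    have := Int.le_of_dvd (by norm_num) h
    omega
  neB := by
    rw [mem_latt_diag]
    rintro ⟨h, -⟩
    have := Int.le_of_dvd (by norm_num) h
    omega

end A22

/-! ### The group of `(3,0), (1,1)`, of order 324 -/

namespace A31

def q0 : Equiv.Perm (Fin 9) := tb ![1, 0, 2, 3, 6, 5, 4, 8, 7] (by decide)
def q1 : Equiv.Perm (Fin 9) := tb ![0, 2, 1, 4, 3, 7, 6, 5, 8] (by decide)
def q2 : Equiv.Perm (Fin 9) := tb ![0, 1, 3, 2, 7, 5, 8, 4, 6] (by decide)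
def q3 : Equiv.Perm (Fin 9) := tb ![0, 1, 2, 5, 7, 3, 8, 4, 6] (by decide)

theorem relA : Rel q0 q1 q2 where
  i0 := by decide
  i1 := by decide
  i2 := by decide
  c02 := by decide
  h01 := by decide
  h12 := by decide

theorem relB : Rel q3 q2 q1 where
  i0 := by decide
  i1 := by decide
  i2 := by decide
  c02 := by decide
  h01 := by decide
  h12 := by decide

theorem genA : Gen (latt (3 : ℕ) 0) q0 q1 q2 := by
  refine relA.genFin (n := 3) (by norm_num) (by decide) (relA.lat_zero ?_) le_rfl ?_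
  · rw [KerMem, zpow_zero, mul_one, zpow_natCast]
    decide
  · have key : ∀ (x y : Fin 3) (k : ZMod 6) (r : Bool),
        tX q0 q1 q2 ^ (x : ℕ) * tY q0 q1 q2 ^ (y : ℕ) *
        ((q1 * q2) ^ k.val * (if r then q2 else 1)) = 1 → x = 0 ∧ y = 0 ∧ k = 0 ∧ r = false := by
      decide
    intro x y k r he
    obtain ⟨rfl, rfl, h2, h3⟩ := key x y k r he
    refine ⟨?_, h2, h3⟩
    rw [mem_latt_zero]
    simp

theorem genB : Gen (latt (1 : ℕ) (1 : ℕ)) q3 q2 q1 := by
  refine relB.genFin (n := 3) (by norm_num) (by decide) (relB.lat_diag ?_) C11.le11 ?_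
  · rw [KerMem, Nat.cast_one, zpow_one, zpow_one]
    decide
  · have key : ∀ (x y : Fin 3) (k : ZMod 6) (r : Bool),
        tX q3 q2 q1 ^ (x : ℕ) * tY q3 q2 q1 ^ (y : ℕ) *
        ((q2 * q1) ^ k.val * (if r then q1 else 1)) = 1 → x = y ∧ k = 0 ∧ r = false := by
      decide
    intro x y k r he
    obtain ⟨rfl, h2, h3⟩ := key x y k r he
    refine ⟨?_, h2, h3⟩
    rw [mem_latt_diag]
    simp

theorem amal : Amal (latt (3 : ℕ) 0) (latt (1 : ℕ) (1 : ℕ)) q0 q1 q2 q3 where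
  genA := genA
  genB := genB
  c03 := by decide
  inter := by
    refine inter_point genA 0 (by decide) (by decide) (by decide) ?_
    intro x y h
    obtain ⟨i, hi, hi'⟩ := zpow_red (n := 3) (g := tX q0 q1 q2) (by norm_num) (by decide) x
    obtain ⟨j, hj, hj'⟩ := zpow_red (n := 3) (g := tY q0 q1 q2) (by norm_num) (by decide) y
    rw [hi, hj] at h
    have key : ∀ i j : Fin 3, (tX q0 q1 q2 ^ (i : ℕ) * tY q0 q1 q2 ^ (j : ℕ)) 0 = 0 →
        i = 0 ∧ j = 0 := by decide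
    obtain ⟨rfl, rfl⟩ := key i j h
    rw [mem_latt_zero]
    exact ⟨Int.dvd_of_emod_eq_zero hi'.symm, Int.dvd_of_emod_eq_zero hj'.symm⟩
  neA := by
    rw [mem_latt_zero]
    rintro ⟨h, -⟩
    have := Int.le_of_dvd (by norm_num) h
    omega
  neB := by
    rw [mem_latt_diag]
    rintro ⟨-, -, h⟩
    have := Int.le_of_dvd (by norm_num) h
    omega

end A31

/-! ### The group of `(1,1), (1,1)`, of order 108 -/

namespace D11

def q0 : Equiv.Perm (Fin 12) := tb ![0, 1, 4, 3, 2, 7, 8, 5, 6, 10, 9, 11] (by decide)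
def q1 : Equiv.Perm (Fin 12) := tb ![0, 2, 1, 6, 4, 7, 3, 5, 8, 9, 11, 10] (by decide)
def q2 : Equiv.Perm (Fin 12) := tb ![1, 0, 5, 3, 7, 2, 8, 4, 6, 9, 10, 11] (by decide)
def q3 : Equiv.Perm (Fin 12) := tb ![0, 3, 6, 1, 8, 7, 2, 5, 4, 9, 10, 11] (by decide)

theorem relA : Rel q0 q1 q2 where
  i0 := by decide +kernel
  i1 := by decide +kernel
  i2 := by decide +kernel
  c02 := by decide +kernel
  h01 := by decide +kernel
  h12 := by decide +kernel

theorem relB : Rel q3 q2 q1 where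
  i0 := by decide +kernel
  i1 := by decide +kernel
  i2 := by decide +kernel
  c02 := by decide +kernel
  h01 := by decide +kernel
  h12 := by decide +kernel

theorem genA : Gen (latt (1 : ℕ) (1 : ℕ)) q0 q1 q2 := by
  refine relA.genFin (n := 3) (by norm_num) (by decide +kernel) (relA.lat_diag ?_) C11.le11 ?_
  · rw [KerMem, Nat.cast_one, zpow_one, zpow_one]
    decide +kernel
  · have key : ∀ (x y : Fin 3) (k : ZMod 6) (r : Bool),
        tX q0 q1 q2 ^ (x : ℕ) * tY q0 q1 q2 ^ (y : ℕ) *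
        ((q1 * q2) ^ k.val * (if r then q2 else 1)) = 1 → x = y ∧ k = 0 ∧ r = false := by
      decide +kernel
    intro x y k r he
    obtain ⟨rfl, h2, h3⟩ := key x y k r he
    refine ⟨?_, h2, h3⟩
    rw [mem_latt_diag]
    simp

theorem genB : Gen (latt (1 : ℕ) (1 : ℕ)) q3 q2 q1 := by
  refine relB.genFin (n := 3) (by norm_num) (by decide +kernel) (relB.lat_diag ?_) C11.le11 ?_
  · rw [KerMem, Nat.cast_one, zpow_one, zpow_one]
    decide +kernel
  · have key : ∀ (x y : Fin 3) (k : ZMod 6) (r : Bool),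
        tX q3 q2 q1 ^ (x : ℕ) * tY q3 q2 q1 ^ (y : ℕ) *
        ((q2 * q1) ^ k.val * (if r then q1 else 1)) = 1 → x = y ∧ k = 0 ∧ r = false := by
      decide +kernel
    intro x y k r he
    obtain ⟨rfl, h2, h3⟩ := key x y k r he
    refine ⟨?_, h2, h3⟩
    rw [mem_latt_diag]
    simp

theorem amal : Amal (latt (1 : ℕ) (1 : ℕ)) (latt (1 : ℕ) (1 : ℕ)) q0 q1 q2 q3 where
  genA := genA
  genB := genB
  c03 := by decide +kernel
  inter := by
    refine inter_point genA 9 (by decide) (by decide) (by decide) ?_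
    intro x y h
    obtain ⟨i, hi, hi'⟩ := zpow_red (n := 3) (g := tX q0 q1 q2) (by norm_num)
      (by decide +kernel) x
    obtain ⟨j, hj, hj'⟩ := zpow_red (n := 3) (g := tY q0 q1 q2) (by norm_num)
      (by decide +kernel) y
    rw [hi, hj] at h
    have key : ∀ i j : Fin 3, (tX q0 q1 q2 ^ (i : ℕ) * tY q0 q1 q2 ^ (j : ℕ)) 9 = 9 →
        i = j := by decide +kernel
    obtain rfl := key i j h
    rw [mem_latt_diag]
    refine ⟨by simp, by simp, ?_⟩
    push_cast at hi' hj' ⊢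
    omega
  neA := by
    rw [mem_latt_diag]
    rintro ⟨-, -, h⟩
    have := Int.le_of_dvd (by norm_num) h
    omega
  neB := by
    rw [mem_latt_diag]
    rintro ⟨-, -, h⟩
    have := Int.le_of_dvd (by norm_num) h
    omega

end D11

/-- `C(2,2)` -/
theorem amalC22 : ∃ (G : Type) (_ : Group G) (r0 r1 r2 r3 : G),
    Amal (latt (2 : ℕ) (2 : ℕ)) (latt (2 : ℕ) (2 : ℕ)) r0 r1 r2 r3 := by
  have h := A22.amal.mix2 A22.amal.symm
  rw [inf_eq_right.2 (latt_diag_le 2), inf_eq_left.2 (latt_diag_le 2)] at h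
  exact ⟨_, inferInstance, _, _, _, _, h⟩

/-! ### The existence results -/

/-- the mixed family -/
theorem existsA {s u : ℕ} (h : (3 ≤ s ∧ 2 ≤ u) ∨ (s = 3 ∧ u = 1) ∨ (s = 2 ∧ u = 2)) :
    ∃ (G : Type) (_ : Group G) (r0 r1 r2 r3 : G), Amal (latt s 0) (latt u u) r0 r1 r2 r3 ∧
      (3 ≤ s → 2 ≤ u → ¬(s = 3 ∧ u = 2) → Infinite (Subgroup.closure {r0, r1, r2, r3})) := by
  rcases h with ⟨h1, h2⟩ | ⟨rfl, rfl⟩ | ⟨rfl, rfl⟩
  · by_cases h3 : s = 3 ∧ u = 2
    · obtain ⟨N, D, -, -⟩ := exists_spec h1 h2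
      exact ⟨_, inferInstance, _, _, _, _, D.good.amal h1 h2, fun _ _ h => absurd h3 h⟩
    · obtain ⟨r0, r1, r2, r3, h4, h5⟩ := amalInf h1 h2 h3
      exact ⟨_, inferInstance, _, _, _, _, h4, fun _ _ _ => h5⟩
  · exact ⟨_, inferInstance, _, _, _, _, A31.amal, fun _ h => absurd h (by norm_num)⟩
  · exact ⟨_, inferInstance, _, _, _, _, A22.amal, fun h => absurd h (by norm_num)⟩

/-- the diagonal family -/
theorem existsC {s u : ℕ} (h : (2 ≤ s ∧ 2 ≤ u) ∨ (s = 1 ∧ u = 1)) :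
    ∃ (G : Type) (_ : Group G) (r0 r1 r2 r3 : G), Amal (latt s s) (latt u u) r0 r1 r2 r3 ∧
      (2 ≤ s → 2 ≤ u → ¬(s ≤ 3 ∧ u ≤ 3 ∧ (s ≤ 2 ∨ u ≤ 2)) →
        Infinite (Subgroup.closure {r0, r1, r2, r3})) := by
  rcases h with ⟨h1, h2⟩ | ⟨rfl, rfl⟩
  · rcases Nat.lt_or_ge s 3 with h3 | h3
    · obtain rfl : s = 2 := by omega
      rcases Nat.lt_or_ge u 3 with h4 | h4
      · obtain rfl : u = 2 := by omega
        obtain ⟨G, i, r0, r1, r2, r3, h⟩ := amalC22
        exact ⟨G, i, r0, r1, r2, r3, h, fun _ _ h => absurd (by omega) h⟩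
      · obtain ⟨G, i, r0, r1, r2, r3, h, hi⟩ := amalC2 h4
        refine ⟨G, i, r3, r2, r1, r0, h.symm, fun _ _ h5 => ?_⟩
        have e : ({r3, r2, r1, r0} : Set G) = {r0, r1, r2, r3} := by
          ext x; simp only [Set.mem_insert_iff, Set.mem_singleton_iff]; tauto
        rw [e]
        exact hi (by omega)
    · rcases Nat.lt_or_ge u 3 with h4 | h4
      · obtain rfl : u = 2 := by omega
        obtain ⟨G, i, r0, r1, r2, r3, h, hi⟩ := amalC2 h3
        exact ⟨G, i, r0, r1, r2, r3, h, fun _ _ h5 => hi (by omega)⟩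
      · obtain ⟨r0, r1, r2, r3, h5, h6⟩ := amalInf h3 h2 (by omega)
        obtain ⟨q0, q1, q2, q3, h7, h8⟩ := amalInf h4 h1 (by omega)
        have h9 := h5.mix2 h7.symm
        rw [inf_eq_right.2 (latt_diag_le s), inf_eq_left.2 (latt_diag_le u)] at h9
        exact ⟨_, inferInstance, _, _, _, _, h9, fun _ _ _ => inf_left h6⟩
  · exact ⟨_, inferInstance, _, _, _, _, D11.amal, fun h => absurd h (by norm_num)⟩

end Tri

end Pool.Agent.Helper622
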