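import Pool.Agent.Helper622.Tri.Conv
import Pool.Agent.Helper622.Tri.Collapse
import Pool.Agent.Helper622.Tri.Tables
import Pool.Agent.Helper622.Tri.Fin

/-!
# The classification
-/

namespace Pool.Agent.Helper622

namespace Tri

theorem dq_ne {Λ : AddSubgroup (ℤ × ℤ)} (h : ∀ k : ZMod 6, (dx k, dy k) ∉ Λ) (k : ZMod 6) :
    dq Λ k ≠ 0 := fun e => h k ((QuotientAddGroup.eq_zero_iff _).1 e)

theorem dq_zero {s : ℕ} (hs : 2 ≤ s) (k : ZMod 6) : dq (latt s 0) k ≠ 0 := by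
  refine dq_ne ?_ k
  intro k hm
  rw [mem_latt_zero] at hm
  obtain ⟨h1, h2⟩ := hm
  have key : ∀ k : ZMod 6, (dx k = 1 ∨ dx k = -1) ∨ (dy k = 1 ∨ dy k = -1) := by decide
  have h3 : ∀ z : ℤ, (s : ℤ) ∣ z → ¬(z = 1 ∨ z = -1) := by
    rintro z hz (rfl | rfl)
    · have := Int.le_of_dvd (by norm_num) hz
      omega
    · have := Int.le_of_dvd (by norm_num) ((dvd_neg.2 hz : (s : ℤ) ∣ - -1))
      omega
  rcases key k with h | h
  · exact h3 _ h1 h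
  · exact h3 _ h2 h

theorem dq_diag {u : ℕ} (hu : 1 ≤ u) (k : ZMod 6) : dq (latt u u) k ≠ 0 := by
  refine dq_ne ?_ k
  intro k hm
  rw [mem_latt_diag] at hm
  obtain ⟨-, -, h3⟩ := hm
  have h4 : (3 : ℤ) ∣ dx k - dy k := (Dvd.intro _ rfl).trans h3
  have key : ∀ k : ZMod 6, dx k - dy k = 1 ∨ dx k - dy k = -1 ∨ dx k - dy k = 2 ∨
      dx k - dy k = -2 := by decide
  rcases key k with h | h | h | h <;> rw [h] at h4 <;> omega

theorem Ex.amal {Λ Λ' : AddSubgroup (ℤ × ℤ)} (h : Ex Λ Λ') (hΛ : ∀ k, dq Λ k ≠ 0)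
    (hΛ' : ∀ k, dq Λ' k ≠ 0) :
    ∃ (G : Type) (_ : Group G) (r0 r1 r2 r3 : G), Amal Λ Λ' r0 r1 r2 r3 := by
  obtain ⟨P, _, X, hX, hF, hV⟩ := h
  obtain ⟨r0, r1, r2, r3, h, -⟩ := amal_of_polytope hΛ hΛ' hX hF hV
  exact ⟨_, inferInstance, r0, r1, r2, r3, h⟩

theorem ExInf.amal {Λ Λ' : AddSubgroup (ℤ × ℤ)} (h : ExInf Λ Λ') (hΛ : ∀ k, dq Λ k ≠ 0)
    (hΛ' : ∀ k, dq Λ' k ≠ 0) :
    ∃ (G : Type) (_ : Group G) (r0 r1 r2 r3 : G), Amal Λ Λ' r0 r1 r2 r3 ∧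
      Infinite (Subgroup.closure {r0, r1, r2, r3}) := by
  obtain ⟨P, _, X, hX, hF, hV, hi⟩ := h
  obtain ⟨r0, r1, r2, r3, h, h'⟩ := amal_of_polytope hΛ hΛ' hX hF hV
  refine ⟨_, inferInstance, r0, r1, r2, r3, h, ?_⟩
  rw [← not_finite_iff_infinite] at hi ⊢
  exact fun hf => hi (h' hf)

theorem ExInf.ex {Λ Λ' : AddSubgroup (ℤ × ℤ)} (h : ExInf Λ Λ') : Ex Λ Λ' := by
  obtain ⟨P, i, X, hX, hF, hV, hi⟩ := h
  exact ⟨P, i, X, hX, hF, hV⟩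

variable {G : Type} [Group G] {r0 r1 r2 r3 : G} {Λ Λ' : AddSubgroup (ℤ × ℤ)}

theorem Amal.memA (h : Amal Λ Λ' r0 r1 r2 r3) {x y : ℤ} (hk : KerMem r0 r1 r2 x y) :
    (x, y) ∈ Λ := by
  refine (h.genA.ker x y 0 false ?_).1
  rw [ev_def, hk, Rel.rt_zero]
  simp

theorem Amal.memB (h : Amal Λ Λ' r0 r1 r2 r3) {x y : ℤ} (hk : KerMem r3 r2 r1 x y) :
    (x, y) ∈ Λ' := h.symm.memA hk

/-- the facets `(2,0)` -/
theorem Amal.two (h : Amal (latt (2 : ℕ) 0) Λ' r0 r1 r2 r3) : ((2, 2) : ℤ × ℤ) ∈ Λ' := by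
  refine h.memB (collapse_two h.genA.toRel h.genB.toRel h.c03 ?_)
  refine h.genA.lat 2 0 ?_
  rw [mem_latt_zero]
  simp

/-- the vertex-figures `(1,1)` -/
theorem Amal.one (h : Amal Λ (latt (1 : ℕ) (1 : ℕ)) r0 r1 r2 r3) : ((3, 0) : ℤ × ℤ) ∈ Λ := by
  refine h.memA (collapse_one h.genA.toRel h.genB.toRel h.c03 ?_)
  refine h.genB.lat 1 1 ?_
  rw [mem_latt_diag]
  simp

/-- Existence for facets `(s,0)` and vertex-figures `(u,u)`. -/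
theorem ex_iff_A {s u : ℕ} (hs : 2 ≤ s) (hu : 1 ≤ u) : Ex (latt s 0) (latt u u) ↔
    (3 ≤ s ∧ 2 ≤ u) ∨ (s = 3 ∧ u = 1) ∨ (s = 2 ∧ u = 2) := by
  constructor
  · intro h
    obtain ⟨G, _, r0, r1, r2, r3, h⟩ := h.amal (dq_zero hs) (dq_diag hu)
    rcases Nat.lt_or_ge s 3 with h3 | h3
    · obtain rfl : s = 2 := by omega
      have h4 := h.two
      rw [mem_latt_diag] at h4
      obtain ⟨h5, -, -⟩ := h4
      have h6 : u ∣ 2 := by exact_mod_cast h5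
      have h7 := Nat.le_of_dvd (by norm_num) h6
      rcases Nat.lt_or_ge u 2 with h8 | h8
      · exfalso
        obtain rfl : u = 1 := by omega
        have h9 := h.one
        rw [mem_latt_zero] at h9
        norm_num at h9
      · omega
    · rcases Nat.lt_or_ge u 2 with h8 | h8
      · obtain rfl : u = 1 := by omega
        have h9 := h.one
        rw [mem_latt_zero] at h9
        have h10 : s ∣ 3 := by exact_mod_cast h9.1
        have := Nat.le_of_dvd (by norm_num) h10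
        omega
      · omega
  · intro h
    obtain ⟨G, _, r0, r1, r2, r3, h, -⟩ := existsA h
    exact h.ex

/-- Existence of an infinite polytope for facets `(s,0)` and vertex-figures `(u,u)`. -/
theorem exInf_iff_A {s u : ℕ} (hs : 2 ≤ s) (hu : 1 ≤ u) : ExInf (latt s 0) (latt u u) ↔
    3 ≤ s ∧ 2 ≤ u ∧ ¬(s = 3 ∧ u = 2) := by
  constructor
  · intro h
    have h1 := (ex_iff_A hs hu).1 h.ex
    obtain ⟨G, _, r0, r1, r2, r3, h2, h3⟩ := h.amal (dq_zero hs) (dq_diag hu)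
    rw [← not_finite_iff_infinite] at h3
    have kA : KerMem r0 r1 r2 s 0 := h2.genA.lat _ _ (by rw [mem_latt_zero]; simp)
    have kB : KerMem r3 r2 r1 u u := h2.genB.lat _ _ (by rw [mem_latt_diag]; simp)
    rcases h1 with h1 | ⟨rfl, rfl⟩ | ⟨rfl, rfl⟩
    · refine ⟨h1.1, h1.2, ?_⟩
      rintro ⟨rfl, rfl⟩
      exact h3 (finite_A32 h2.genA.toRel h2.genB.toRel h2.c03 (by exact_mod_cast kA)
        (by exact_mod_cast kB))
    · exact absurd (finite_A31 h2.genA.toRel h2.genB.toRel h2.c03 (by exact_mod_cast kA)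
        (by exact_mod_cast kB)) h3
    · exact absurd (finite_A22 h2.genA.toRel h2.genB.toRel h2.c03 (by exact_mod_cast kA)
        (by exact_mod_cast kB)) h3
  · rintro ⟨h1, h2, h3⟩
    exact exInfA h1 h2 h3

theorem Ex.symm (h : Ex Λ Λ') (hΛ : ∀ k, dq Λ k ≠ 0) (hΛ' : ∀ k, dq Λ' k ≠ 0) : Ex Λ' Λ := by
  obtain ⟨G, _, r0, r1, r2, r3, h⟩ := h.amal hΛ hΛ'
  exact h.symm.ex

omit [Group G] in
theorem closure_symm : ({r3, r2, r1, r0} : Set G) = {r0, r1, r2, r3} := by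
  ext x; simp only [Set.mem_insert_iff, Set.mem_singleton_iff]; tauto

theorem ExInf.symm (h : ExInf Λ Λ') (hΛ : ∀ k, dq Λ k ≠ 0) (hΛ' : ∀ k, dq Λ' k ≠ 0) :
    ExInf Λ' Λ := by
  obtain ⟨G, _, r0, r1, r2, r3, h, hi⟩ := h.amal hΛ hΛ'
  exact h.symm.exInf (by rw [closure_symm]; exact hi)

theorem ex_symm (hΛ : ∀ k, dq Λ k ≠ 0) (hΛ' : ∀ k, dq Λ' k ≠ 0) : Ex Λ Λ' ↔ Ex Λ' Λ :=
  ⟨fun h => h.symm hΛ hΛ', fun h => h.symm hΛ' hΛ⟩

theorem exInf_symm (hΛ : ∀ k, dq Λ k ≠ 0) (hΛ' : ∀ k, dq Λ' k ≠ 0) :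
    ExInf Λ Λ' ↔ ExInf Λ' Λ :=
  ⟨fun h => h.symm hΛ hΛ', fun h => h.symm hΛ' hΛ⟩

/-- Existence for facets `(s,s)` and vertex-figures `(u,u)`. -/
theorem ex_iff_C {s u : ℕ} (hs : 1 ≤ s) (hu : 1 ≤ u) : Ex (latt s s) (latt u u) ↔
    (2 ≤ s ∧ 2 ≤ u) ∨ (s = 1 ∧ u = 1) := by
  have key : ∀ {s : ℕ}, 1 ≤ s → Ex (latt s s) (latt (1 : ℕ) (1 : ℕ)) → s = 1 := by
    intro s hs h
    obtain ⟨G, _, r0, r1, r2, r3, h⟩ := h.amal (dq_diag hs) (dq_diag le_rfl)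
    have h9 := h.one
    rw [mem_latt_diag] at h9
    have h10 : 3 * s ∣ 3 := by
      have := h9.2.2
      rw [sub_zero] at this
      exact_mod_cast this
    have := Nat.le_of_dvd (by norm_num) h10
    omega
  constructor
  · intro h
    rcases Nat.lt_or_ge u 2 with h3 | h3
    · obtain rfl : u = 1 := by omega
      right
      exact ⟨key hs h, rfl⟩
    · rcases Nat.lt_or_ge s 2 with h4 | h4
      · obtain rfl : s = 1 := by omega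
        have := key hu (h.symm (dq_diag hs) (dq_diag hu))
        omega
      · exact Or.inl ⟨h4, h3⟩
  · intro h
    obtain ⟨G, _, r0, r1, r2, r3, h, -⟩ := existsC h
    exact h.ex

theorem exInf_C {s u : ℕ} (hs : 2 ≤ s) (hu : 2 ≤ u) (h : ¬(s ≤ 3 ∧ u ≤ 3 ∧ (s ≤ 2 ∨ u ≤ 2))) :
    ExInf (latt s s) (latt u u) := by
  obtain ⟨G, _, r0, r1, r2, r3, h1, h2⟩ := existsC (Or.inl ⟨hs, hu⟩)
  exact h1.exInf (h2 hs hu h)

theorem not_exInf_C11 : ¬ExInf (latt (1 : ℕ) (1 : ℕ)) (latt (1 : ℕ) (1 : ℕ)) := by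
  intro h
  obtain ⟨G, _, r0, r1, r2, r3, h2, h3⟩ := h.amal (dq_diag le_rfl) (dq_diag le_rfl)
  rw [← not_finite_iff_infinite] at h3
  have kA : KerMem r0 r1 r2 1 1 := h2.genA.lat _ _ (by rw [mem_latt_diag]; simp)
  have kB : KerMem r3 r2 r1 1 1 := h2.genB.lat _ _ (by rw [mem_latt_diag]; simp)
  exact h3 (finite_C11 h2.genA.toRel h2.genB.toRel h2.c03 (by exact_mod_cast kA)
    (by exact_mod_cast kB))

end Tri

end Pool.Agent.Helper622
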