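import Pool.Agent.Helper622.Tri.Fam

/-!
# The group of a regular polytope of type {3,6,3} with toroidal facets and vertex-figures
-/

namespace Pool.Agent.Helper622

namespace Tor36

open Tri

variable {Λ : AddSubgroup (ℤ × ℤ)}

/-- the edge at the vertex `m` in direction `k` -/
def eo (m : (ℤ × ℤ) ⧸ Λ) (k : ZMod 6) : Tor36 Λ :=
  (![edge m 0, edge m 1, edge m 2, edge (m + dq Λ 3) 0, edge (m + dq Λ 4) 1,
    edge (m + dq Λ 5) 2] : Fin 6 → Tor36 Λ) k

/-- the triangle at the vertex `m` in position `k` -/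
def tro (m : (ℤ × ℤ) ⧸ Λ) (k : ZMod 6) : Tor36 Λ :=
  (![tri m true, tri m false, tri (m + dq Λ 3) true, tri (m + dq Λ 4) false,
    tri (m + dq Λ 4) true, tri (m + dq Λ 5) false] : Fin 6 → Tor36 Λ) k

theorem dr_eq0 : dr Λ 0 = dq Λ 0 := rfl
theorem dr_eq1 : dr Λ 1 = dq Λ 1 := rfl
theorem dr_eq2 : dr Λ 2 = dq Λ 2 := rfl

theorem n0 (m : (ℤ × ℤ) ⧸ Λ) : m + dq Λ 0 + dq Λ 3 = m := by
  have := dq_neg Λ 0; rw [zero_add] at this; rw [add_assoc, this, add_zero]
theorem n1 (m : (ℤ × ℤ) ⧸ Λ) : m + dq Λ 1 + dq Λ 4 = m := by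
  have := dq_neg Λ 1
  have z : (1 + 3 : ZMod 6) = 4 := by decide
  rw [z] at this; rw [add_assoc, this, add_zero]
theorem n2 (m : (ℤ × ℤ) ⧸ Λ) : m + dq Λ 2 + dq Λ 5 = m := by
  have := dq_neg Λ 2
  have z : (2 + 3 : ZMod 6) = 5 := by decide
  rw [z] at this; rw [add_assoc, this, add_zero]
theorem n3 (m : (ℤ × ℤ) ⧸ Λ) : m + dq Λ 3 + dq Λ 0 = m := by
  rw [add_assoc, add_comm (dq Λ 3), ← add_assoc, n0]
theorem n4 (m : (ℤ × ℤ) ⧸ Λ) : m + dq Λ 4 + dq Λ 1 = m := by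
  rw [add_assoc, add_comm (dq Λ 4), ← add_assoc, n1]
theorem n5 (m : (ℤ × ℤ) ⧸ Λ) : m + dq Λ 5 + dq Λ 2 = m := by
  rw [add_assoc, add_comm (dq Λ 5), ← add_assoc, n2]

theorem a0 (m : (ℤ × ℤ) ⧸ Λ) : m + dq Λ 0 + dq Λ 2 = m + dq Λ 1 := by
  have := dq_rel Λ 0; simp only [zero_add] at this; rw [add_assoc, this]
theorem a1 (m : (ℤ × ℤ) ⧸ Λ) : m + dq Λ 1 + dq Λ 3 = m + dq Λ 2 := by
  have := dq_rel Λ 1
  have z : (1 + 2 : ZMod 6) = 3 := by decide
  have z' : (1 + 1 : ZMod 6) = 2 := by decide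
  rw [z, z'] at this; rw [add_assoc, this]
theorem a2 (m : (ℤ × ℤ) ⧸ Λ) : m + dq Λ 2 + dq Λ 4 = m + dq Λ 3 := by
  have := dq_rel Λ 2
  have z : (2 + 2 : ZMod 6) = 4 := by decide
  have z' : (2 + 1 : ZMod 6) = 3 := by decide
  rw [z, z'] at this; rw [add_assoc, this]
theorem a3 (m : (ℤ × ℤ) ⧸ Λ) : m + dq Λ 3 + dq Λ 5 = m + dq Λ 4 := by
  have := dq_rel Λ 3
  have z : (3 + 2 : ZMod 6) = 5 := by decide
  have z' : (3 + 1 : ZMod 6) = 4 := by decide
  rw [z, z'] at this; rw [add_assoc, this]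
theorem a4 (m : (ℤ × ℤ) ⧸ Λ) : m + dq Λ 4 + dq Λ 0 = m + dq Λ 5 := by
  have := dq_rel Λ 4
  have z : (4 + 2 : ZMod 6) = 0 := by decide
  have z' : (4 + 1 : ZMod 6) = 5 := by decide
  rw [z, z'] at this; rw [add_assoc, this]
theorem a5 (m : (ℤ × ℤ) ⧸ Λ) : m + dq Λ 5 + dq Λ 1 = m + dq Λ 0 := by
  have := dq_rel Λ 5
  have z : (5 + 2 : ZMod 6) = 1 := by decide
  have z' : (5 + 1 : ZMod 6) = 0 := by decide
  rw [z, z'] at this; rw [add_assoc, this]

theorem zcases (k : ZMod 6) : k = 0 ∨ k = 1 ∨ k = 2 ∨ k = 3 ∨ k = 4 ∨ k = 5 := by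
  revert k; decide

theorem vtx_lt (m : (ℤ × ℤ) ⧸ Λ) (k : ZMod 6) : vtx m < eo m k := by
  have h1 : vtx m ≤ eo m k := by
    rcases zcases k with rfl | rfl | rfl | rfl | rfl | rfl
    · exact Or.inl rfl
    · exact Or.inl rfl
    · exact Or.inl rfl
    · exact Or.inr (n3 m).symm
    · exact Or.inr (n4 m).symm
    · exact Or.inr (n5 m).symm
  refine lt_of_le_of_ne h1 ?_
  rcases zcases k with rfl | rfl | rfl | rfl | rfl | rfl <;> intro h <;> cases h

theorem eo_lt (m : (ℤ × ℤ) ⧸ Λ) (k : ZMod 6) (r : Bool) : eo m k < tro m (tk k r) := by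
  have h1 : eo m k ≤ tro m (tk k r) := by
    cases r
    · show le (eo m k) (tro m k)
      rcases zcases k with rfl | rfl | rfl | rfl | rfl | rfl
      · exact Or.inl ⟨rfl, rfl⟩
      · exact Or.inl ⟨rfl, rfl⟩
      · exact Or.inr (Or.inr ⟨rfl, (n3 m).symm⟩)
      · exact Or.inr (Or.inr ⟨rfl, by rw [dr_eq2, add_right_comm, a2]⟩)
      · exact Or.inr (Or.inl ⟨rfl, rfl⟩)
      · exact Or.inr (Or.inl ⟨rfl, rfl⟩)
    · show le (eo m k) (tro m (k - 1))
      rcases zcases k with rfl | rfl | rfl | rfl | rfl | rfl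
      · exact Or.inr (Or.inr ⟨rfl, (n5 m).symm⟩)
      · exact Or.inr (Or.inl ⟨rfl, rfl⟩)
      · exact Or.inr (Or.inl ⟨rfl, rfl⟩)
      · exact Or.inl ⟨rfl, rfl⟩
      · exact Or.inl ⟨rfl, rfl⟩
      · exact Or.inr (Or.inr ⟨rfl, (a4 m).symm⟩)
  refine lt_of_le_of_ne h1 ?_
  cases r <;> rcases zcases k with rfl | rfl | rfl | rfl | rfl | rfl <;> intro h <;> cases h

theorem eo_step (m : (ℤ × ℤ) ⧸ Λ) (k : ZMod 6) : eo (m + dq Λ k) (k + 3) = eo m k := by
  rcases zcases k with rfl | rfl | rfl | rfl | rfl | rfl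
  · show edge (m + dq Λ 0 + dq Λ 3) 0 = edge m 0
    rw [n0]
  · show edge (m + dq Λ 1 + dq Λ 4) 1 = edge m 1
    rw [n1]
  · show edge (m + dq Λ 2 + dq Λ 5) 2 = edge m 2
    rw [n2]
  · rfl
  · rfl
  · rfl

theorem tro_step (m : (ℤ × ℤ) ⧸ Λ) (k : ZMod 6) (r : Bool) :
    tro (m + dq Λ k) (tk (k + 3) (!r)) = tro m (tk k r) := by
  cases r
  · rcases zcases k with rfl | rfl | rfl | rfl | rfl | rfl
    · show tri (m + dq Λ 0 + dq Λ 3) true = tri m true
      rw [n0]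
    · show tri (m + dq Λ 1 + dq Λ 4) false = tri m false
      rw [n1]
    · show tri (m + dq Λ 2 + dq Λ 4) true = tri (m + dq Λ 3) true
      rw [a2]
    · show tri (m + dq Λ 3 + dq Λ 5) false = tri (m + dq Λ 4) false
      rw [a3]
    · rfl
    · rfl
  · rcases zcases k with rfl | rfl | rfl | rfl | rfl | rfl
    · show tri (m + dq Λ 0 + dq Λ 4) false = tri (m + dq Λ 5) false
      rw [add_right_comm, a4]
    · show tri (m + dq Λ 1 + dq Λ 4) true = tri m true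
      rw [n1]
    · show tri (m + dq Λ 2 + dq Λ 5) false = tri m false
      rw [n2]
    · rfl
    · rfl
    · show tri (m + dq Λ 5 + dq Λ 3) true = tri (m + dq Λ 4) true
      rw [add_right_comm, a3]

/-- the index of an edge -/
def ej : Tor36 Λ → Fin 3
  | edge _ j => j
  | _ => 0

/-- the type of a triangle -/
def tj : Tor36 Λ → Bool
  | tri _ b => b
  | _ => true

theorem ej_eo (m : (ℤ × ℤ) ⧸ Λ) (k : ZMod 6) :
    ej (eo m k) = (![0, 1, 2, 0, 1, 2] : Fin 6 → Fin 3) k := by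
  rcases zcases k with rfl | rfl | rfl | rfl | rfl | rfl <;> rfl

theorem tj_tro (m : (ℤ × ℤ) ⧸ Λ) (k : ZMod 6) :
    tj (tro m k) = (![true, false, true, false, true, false] : Fin 6 → Bool) k := by
  rcases zcases k with rfl | rfl | rfl | rfl | rfl | rfl <;> rfl

theorem eo_ne (m : (ℤ × ℤ) ⧸ Λ) (k : ZMod 6) (r : Bool) :
    eo m k ≠ eo m (if r then k - 1 else k + 1) := by
  intro h
  have h1 := congrArg ej h
  rw [ej_eo, ej_eo] at h1
  revert h1
  clear h
  revert k r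
  decide

theorem tro_ne (m : (ℤ × ℤ) ⧸ Λ) (k : ZMod 6) (r : Bool) :
    tro m (tk k r) ≠ tro m (tk k (!r)) := by
  intro h
  have h1 := congrArg tj h
  rw [tj_tro, tj_tro] at h1
  revert h1
  clear h
  revert k r
  decide

theorem tk_step (k : ZMod 6) (r : Bool) : tk (if r then k - 1 else k + 1) (!r) = tk k r := by
  cases r <;> simp [tk]

theorem vtx_ne (hΛ : ∀ k, dq Λ k ≠ 0) (m : (ℤ × ℤ) ⧸ Λ) (k : ZMod 6) :
    (vtx m : Tor36 Λ) ≠ vtx (m + dq Λ k) := by
  intro h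
  injection h with h
  exact hΛ k (by simpa using h.symm)

theorem flag_inj (hΛ : ∀ k, dq Λ k ≠ 0) (k : ZMod 6) (r : Bool)
    (h1 : eo (0 : (ℤ × ℤ) ⧸ Λ) k = eo 0 0)
    (h2 : tro (0 : (ℤ × ℤ) ⧸ Λ) (tk k r) = tro 0 (tk 0 false)) :
    k = 0 ∧ r = false := by
  have e1 := congrArg ej h1
  have e2 := congrArg tj h2
  rw [ej_eo, ej_eo] at e1
  rw [tj_tro, tj_tro] at e2
  have n3 : k ≠ 3 := by
    rintro rfl
    have h3 : (edge (0 + dq Λ 3) 0 : Tor36 Λ) = edge 0 0 := h1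
    injection h3 with h3
    exact hΛ 3 (by simpa using h3)
  clear h1 h2 hΛ
  rcases zcases k with rfl | rfl | rfl | rfl | rfl | rfl
  · cases r
    · exact ⟨rfl, rfl⟩
    · exact absurd e2 (by decide)
  · exact absurd e1 (by decide)
  · exact absurd e1 (by decide)
  · exact absurd rfl n3
  · exact absurd e1 (by decide)
  · exact absurd e1 (by decide)

end Tor36

namespace Tri

open Conv Tor36

variable {P : Type} [PartialOrder P] {X : AbstractPolytope 4 P} {Λ : AddSubgroup (ℤ × ℤ)}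

/-- the flags that contain a given facet -/
def chA (E : Tor36 Λ → P) (T : P) (m : (ℤ × ℤ) ⧸ Λ) (k : ZMod 6) (r : Bool) : Fin 6 → P :=
  ![E bot, E (vtx m), E (eo m k), E (tro m (tk k r)), E top, T]

/-- the flags that contain a given vertex -/
def chB (E : Tor36 Λ → P) (B : P) (m : (ℤ × ℤ) ⧸ Λ) (k : ZMod 6) (r : Bool) : Fin 6 → P :=
  ![B, E top, E (tro m (tk k r)), E (eo m k), E (vtx m), E bot]

theorem bot_lt_vtx (m : (ℤ × ℤ) ⧸ Λ) : (bot : Tor36 Λ) < vtx m :=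
  lt_of_le_of_ne (by trivial) (by intro h; cases h)

theorem tro_lt_top (m : (ℤ × ℤ) ⧸ Λ) (k : ZMod 6) : (tro m k : Tor36 Λ) < top := by
  refine lt_of_le_of_ne ?_ ?_
  · show le (tro m k) top
    rcases zcases k with rfl | rfl | rfl | rfl | rfl | rfl <;> trivial
  · rcases zcases k with rfl | rfl | rfl | rfl | rfl | rfl <;> intro h <;> cases h

theorem famA (hΛ : ∀ k, dq Λ k ≠ 0) {E : Tor36 Λ → P} (hE : StrictMono E) {T : P}
    (hinj : Function.Injective E) (hT : E top < T) : Fam X Λ ![1, 2, 3] (chA E T) := by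
  have hc : ∀ m k r, IsCh X (chA E T m k r) := fun m k r =>
    isCh_of_strictMono (strictMono_of_lt (hE (bot_lt_vtx m)) (hE (vtx_lt m k))
      (hE (eo_lt m k r)) (hE (tro_lt_top _ _)) hT)
  refine ⟨?_, ?_, ?_, ?_, ?_⟩
  · intro m k r
    refine ⟨hc _ _ _, hc _ _ _, ?_, ?_⟩
    · intro j hj
      fin_cases j
      · rfl
      · exact absurd rfl hj
      · exact congrArg E (eo_step m k).symm
      · exact congrArg E (tro_step m k r).symm
      · rfl
      · rfl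
    · exact fun h => vtx_ne hΛ m k (hinj h)
  · intro m k r
    refine ⟨hc _ _ _, hc _ _ _, ?_, ?_⟩
    · intro j hj
      fin_cases j
      · rfl
      · rfl
      · exact absurd rfl hj
      · exact congrArg (fun a => E (tro m a)) (tk_step k r).symm
      · rfl
      · rfl
    · exact fun h => eo_ne m k r (hinj h)
  · intro m k r
    refine ⟨hc _ _ _, hc _ _ _, ?_, ?_⟩
    · intro j hj
      fin_cases j
      · rfl
      · rfl
      · rfl
      · exact absurd rfl hj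
      · rfl
      · rfl
    · exact fun h => tro_ne m k r (hinj h)
  · intro m k r h
    have h1 : E (vtx m) = E (vtx 0) := h
    have h2 := hinj h1
    injection h2
  · intro k r h
    exact flag_inj hΛ k r (hinj (congrFun h 2)) (hinj (congrFun h 3))

theorem famB (hΛ : ∀ k, dq Λ k ≠ 0) {E : Tor36 Λ → P} (hE : StrictAnti E) {B : P}
    (hinj : Function.Injective E) (hB : B < E top) : Fam X Λ ![4, 3, 2] (chB E B) := by
  have hc : ∀ m k r, IsCh X (chB E B m k r) := fun m k r =>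
    isCh_of_strictMono (strictMono_of_lt hB (hE (tro_lt_top _ _)) (hE (eo_lt m k r))
      (hE (vtx_lt m k)) (hE (bot_lt_vtx m)))
  refine ⟨?_, ?_, ?_, ?_, ?_⟩
  · intro m k r
    refine ⟨hc _ _ _, hc _ _ _, ?_, ?_⟩
    · intro j hj
      fin_cases j
      · rfl
      · rfl
      · exact congrArg E (tro_step m k r).symm
      · exact congrArg E (eo_step m k).symm
      · exact absurd rfl hj
      · rfl
    · exact fun h => vtx_ne hΛ m k (hinj h)
  · intro m k r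
    refine ⟨hc _ _ _, hc _ _ _, ?_, ?_⟩
    · intro j hj
      fin_cases j
      · rfl
      · rfl
      · exact congrArg (fun a => E (tro m a)) (tk_step k r).symm
      · exact absurd rfl hj
      · rfl
      · rfl
    · exact fun h => eo_ne m k r (hinj h)
  · intro m k r
    refine ⟨hc _ _ _, hc _ _ _, ?_, ?_⟩
    · intro j hj
      fin_cases j
      · rfl
      · rfl
      · exact absurd rfl hj
      · rfl
      · rfl
      · rfl
    · exact fun h => tro_ne m k r (hinj h)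
  · intro m k r h
    have h1 : E (vtx m) = E (vtx 0) := h
    have h2 := hinj h1
    injection h2
  · intro k r h
    exact flag_inj hΛ k r (hinj (congrFun h 3)) (hinj (congrFun h 2))

/-- From a regular polytope to its group. -/
theorem amal_of_polytope {Λ Λ' : AddSubgroup (ℤ × ℤ)} (hΛ : ∀ k, dq Λ k ≠ 0)
    (hΛ' : ∀ k, dq Λ' k ≠ 0) (hX : X.IsRegular)
    (hF : ∀ F : P, X.rank F = 3 → Nonempty (Tor36 Λ ≃o Set.Iic F))
    (hV : ∀ w : P, X.rank w = 0 → Nonempty ((Tor36 Λ')ᵒᵈ ≃o Set.Ici w)) :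
    ∃ r0 r1 r2 r3 : P ≃o P, Amal Λ Λ' r0 r1 r2 r3 ∧
      (Finite (Subgroup.closure {r0, r1, r2, r3}) → Finite P) := by
  obtain ⟨c, hc⟩ := exists_one (X := X)
  -- the family of the facet
  obtain ⟨chF, FF, hFF⟩ : ∃ ch, Fam X Λ ![1, 2, 3] ch ∧ ch 0 0 false = c := by
    obtain ⟨e⟩ := hF (c 4) (by rw [hc.rank 4]; norm_num)
    let E : Tor36 Λ → P := fun t => (e t : P)
    have hE : StrictMono E := fun a b h => e.strictMono h
    have hinj : Function.Injective E := fun a b h => e.injective (Subtype.ext h)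
    have hT : E top < c 5 := lt_of_le_of_lt (e top).2 (hc.strictMono (by decide))
    have F0 : Fam X Λ ![1, 2, 3] (chA E (c 5)) := famA hΛ hE hinj hT
    obtain ⟨φ, hφ⟩ := exists_aut hX (F0.isCh 0 0 false) hc
    exact ⟨_, F0.map φ, hφ⟩
  obtain ⟨chV, FV, hFV⟩ : ∃ ch, Fam X Λ' ![4, 3, 2] ch ∧ ch 0 0 false = c := by
    obtain ⟨e⟩ := hV (c 1) (by rw [hc.rank 1]; norm_num)
    let E : Tor36 Λ' → P := fun t => (e (OrderDual.toDual t) : P)
    have hE : StrictAnti E := fun a b h => e.strictMono (OrderDual.toDual_lt_toDual.2 h)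
    have hinj : Function.Injective E := fun a b h =>
      OrderDual.toDual.injective (e.injective (Subtype.ext h))
    have hT : c 0 < E top := lt_of_lt_of_le (hc.strictMono (by decide)) (e _).2
    have F0 : Fam X Λ' ![4, 3, 2] (chB E (c 0)) := famB hΛ' hE hinj hT
    obtain ⟨φ, hφ⟩ := exists_aut hX (F0.isCh 0 0 false) hc
    exact ⟨_, F0.map φ, hφ⟩
  have hr : ∀ i : Fin 6, 1 ≤ (i : ℕ) → (i : ℕ) ≤ 4 → ∃ ρ : P ≃o P, Adj X i c (ρ ∘ c) := by
    intro i h1 h4
    obtain ⟨d, hd⟩ := exists_adj hc h1 h4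
    obtain ⟨ρ, hρ⟩ := exists_aut hX hc hd.r
    exact ⟨ρ, by rw [hρ]; exact hd⟩
  obtain ⟨r0, h0⟩ := hr 1 (by decide) (by decide)
  obtain ⟨r1, h1⟩ := hr 2 (by decide) (by decide)
  obtain ⟨r2, h2⟩ := hr 3 (by decide) (by decide)
  obtain ⟨r3, h3⟩ := hr 4 (by decide) (by decide)
  have GF : FF.Gens r0 r1 r2 := ⟨by rw [hFF]; exact h0, by rw [hFF]; exact h1,
    by rw [hFF]; exact h2⟩
  have GV : FV.Gens r3 r2 r1 := ⟨by rw [hFV]; exact h3, by rw [hFV]; exact h2,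
    by rw [hFV]; exact h1⟩
  have gA := GF.gen hX
  have gB := GV.gen hX
  have neA : ∀ {Λ : AddSubgroup (ℤ × ℤ)}, (∀ k, dq Λ k ≠ 0) → ((1, 0) : ℤ × ℤ) ∉ Λ := by
    intro Λ hΛ hm
    exact hΛ 0 ((QuotientAddGroup.eq_zero_iff _).2 hm)
  refine ⟨r0, r1, r2, r3, ⟨gA, gB, comm_of_adj h0 h3 (by decide), ?_, neA hΛ, neA hΛ'⟩, ?_⟩
  · intro x hxA hxB
    have hfix : x (c 1) = c 1 := by
      have hS : ∀ s ∈ ({r1, r2, r3} : Set (P ≃o P)), s (c 1) = c 1 := by
        rintro s (rfl | rfl | rfl)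
        · exact (h1.eq 1 (by decide)).symm
        · exact (h2.eq 1 (by decide)).symm
        · exact (h3.eq 1 (by decide)).symm
      clear hxA
      induction hxB using Subgroup.closure_induction with
      | mem x hx => exact hS x hx
      | one => rfl
      | mul x y _ _ hx hy => rw [RelIso.mul_apply, hy, hx]
      | inv x _ hx =>
        calc x⁻¹ (c 1) = x⁻¹ (x (c 1)) := by rw [hx]
          _ = c 1 := RelIso.inv_apply_self x (c 1)
    obtain ⟨a, b, k, r, rfl⟩ := gA.toRel.mem_L hxA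
    have h5 := GF.evc hX a b k r
    have h6 := FF.inj0 (((a, b) : ℤ × ℤ) : (ℤ × ℤ) ⧸ Λ) k r (by
      rw [← h5, hFF]
      exact hfix)
    have h7 : (a, b) ∈ Λ := (QuotientAddGroup.eq_zero_iff _).1 h6
    rw [gA.toRel.mem_H0]
    exact ⟨k, r, gA.ev_eq k r (by simpa using h7)⟩
  · intro hfin
    have key : ∀ d, IsCh X d → ∃ g ∈ Subgroup.closure {r0, r1, r2, r3}, (g : P ≃o P) ∘ c = d := by
      refine fun d hd => connect (p := fun d => ∃ g ∈ Subgroup.closure {r0, r1, r2, r3},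
        (g : P ≃o P) ∘ c = d) hc ⟨1, Subgroup.one_mem _, rfl⟩ ?_ d hd
      rintro a b i ⟨g, hg, rfl⟩ hab
      have step : ∀ ρ ∈ ({r0, r1, r2, r3} : Set (P ≃o P)), Adj X i c (ρ ∘ c) →
          ∃ g ∈ Subgroup.closure {r0, r1, r2, r3}, (g : P ≃o P) ∘ c = b := by
        intro ρ hρ h
        exact ⟨g * ρ, Subgroup.mul_mem _ hg (Subgroup.subset_closure hρ),
          (h.map g).unique hab⟩
      fin_cases i
      · exact absurd (bot_eq hab.l hab.r) hab.ne
      · exact step r0 (by simp) h0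
      · exact step r1 (by simp) h1
      · exact step r2 (by simp) h2
      · exact step r3 (by simp) h3
      · exact absurd (top_eq hab.l hab.r) hab.ne
    have hsurj : Function.Surjective
        (fun p : Subgroup.closure {r0, r1, r2, r3} × Fin 6 => (p.1 : P ≃o P) (c p.2)) := by
      intro x
      obtain ⟨d, i, hd, rfl⟩ := exists_mem (X := X) x
      obtain ⟨g, hg, h⟩ := key d hd
      exact ⟨(⟨g, hg⟩, i), congrFun h i⟩
    exact Finite.of_surjective _ hsurj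

end Tri

end Pool.Agent.Helper622
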