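import Pool.Agent.Helper622.Defs

namespace Pool.Agent.Helper622

/-! ### The toroidal maps `{3,6}_(s,t)` and `{6,3}_(s,t)` -/

/-- The lattice spanned by the vector `(s,t)` and its images under rotation by `60°`, in the basis
of two unit vectors at angle `60°` (the rotation by `60°` is `(x,y) ↦ (-y, x + y)`). -/
def latt (s t : ℤ) : AddSubgroup (ℤ × ℤ) :=
  AddSubgroup.closure {(s, t), (-t, s + t), (-s - t, s)}

/-- The three edge directions `(1,0)`, `(0,1)`, `(-1,1)`, at angles `0°`, `60°`, `120°`. -/
def dir (j : Fin 3) : ℤ × ℤ := ![((1 : ℤ), (0 : ℤ)), (0, 1), (-1, 1)] j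

/-- The faces of the regular tessellation `{3,6}` of the plane modulo a lattice `Λ` of
translations. `vtx v` is the vertex `v`, `edge v j` the edge from `v` to `v + dir j`,
`tri v true` the triangle with corners `v`, `v + dir 0`, `v + dir 1`, and `tri v false` the
triangle with corners `v`, `v + dir 1`, `v + dir 2`; `bot` and `top` are the least and the
greatest face. For `Λ = latt s t` this is the toroidal map `{3,6}_(s,t)`. -/
inductive Tor36 (Λ : AddSubgroup (ℤ × ℤ)) : Type
  | bot : Tor36 Λ
  | vtx (v : (ℤ × ℤ) ⧸ Λ) : Tor36 Λ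
  | edge (v : (ℤ × ℤ) ⧸ Λ) (j : Fin 3) : Tor36 Λ
  | tri (v : (ℤ × ℤ) ⧸ Λ) (b : Bool) : Tor36 Λ
  | top : Tor36 Λ

namespace Tor36

variable {Λ : AddSubgroup (ℤ × ℤ)}

/-- a direction as an element of the quotient -/
def dr (Λ : AddSubgroup (ℤ × ℤ)) (j : Fin 3) : (ℤ × ℤ) ⧸ Λ := (dir j : (ℤ × ℤ) ⧸ Λ)

/-- incidence -/
def le : Tor36 Λ → Tor36 Λ → Prop
  | bot, _ => True
  | _, top => True
  | vtx v, vtx w => v = w
  | vtx v, edge w j => v = w ∨ v = w + dr Λ j
  | vtx v, tri w true => v = w ∨ v = w + dr Λ 0 ∨ v = w + dr Λ 1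
  | vtx v, tri w false => v = w ∨ v = w + dr Λ 1 ∨ v = w + dr Λ 2
  | edge v i, edge w j => v = w ∧ i = j
  | edge v i, tri w true => (i = 0 ∧ v = w) ∨ (i = 1 ∧ v = w) ∨ (i = 2 ∧ v = w + dr Λ 0)
  | edge v i, tri w false => (i = 1 ∧ v = w) ∨ (i = 2 ∧ v = w) ∨ (i = 0 ∧ v = w + dr Λ 2)
  | tri v b, tri w c => v = w ∧ b = c
  | _, _ => False

theorem dr_add : dr Λ 0 + dr Λ 2 = dr Λ 1 := by
  rw [dr, dr, dr, ← QuotientAddGroup.mk_add]
  rfl

theorem dr_add' : dr Λ 2 + dr Λ 0 = dr Λ 1 := by
  rw [add_comm, dr_add]

instance : PartialOrder (Tor36 Λ) where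
  le := le
  le_refl a := by cases a <;> simp [le]
  le_trans a b c hab hbc := by
    change le a b at hab
    change le b c at hbc
    have h1 : ∀ w : (ℤ × ℤ) ⧸ Λ, w + dr Λ 0 + dr Λ 2 = w + dr Λ 1 := fun w => by
      rw [add_assoc, dr_add]
    have h2 : ∀ w : (ℤ × ℤ) ⧸ Λ, w + dr Λ 2 + dr Λ 0 = w + dr Λ 1 := fun w => by
      rw [add_assoc, dr_add']
    cases a with
    | bot => cases c <;> simp [le]
    | top => cases b <;> cases c <;> simp_all [le]
    | vtx v =>
      cases b with
      | bot => exact hab.elim
      | top => cases c <;> simp_all [le]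
      | vtx w => cases hab; exact hbc
      | edge w j =>
        cases c with
        | bot => exact hbc.elim
        | top => trivial
        | vtx _ => exact hbc.elim
        | edge x k => obtain ⟨rfl, rfl⟩ := hbc; exact hab
        | tri x b =>
          cases b with
          | true =>
            rcases hbc with ⟨rfl, rfl⟩ | ⟨rfl, rfl⟩ | ⟨rfl, rfl⟩ <;> rcases hab with rfl | rfl
            · exact Or.inl rfl
            · exact Or.inr (Or.inl rfl)
            · exact Or.inl rfl
            · exact Or.inr (Or.inr rfl)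
            · exact Or.inr (Or.inl rfl)
            · exact Or.inr (Or.inr (h1 _))
          | false =>
            rcases hbc with ⟨rfl, rfl⟩ | ⟨rfl, rfl⟩ | ⟨rfl, rfl⟩ <;> rcases hab with rfl | rfl
            · exact Or.inl rfl
            · exact Or.inr (Or.inl rfl)
            · exact Or.inl rfl
            · exact Or.inr (Or.inr rfl)
            · exact Or.inr (Or.inr rfl)
            · exact Or.inr (Or.inl (h2 _))
      | tri w b =>
        cases c with
        | bot => exact hbc.elim
        | top => trivial
        | vtx _ => exact hbc.elim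
        | edge x k => exact hbc.elim
        | tri x c => obtain ⟨rfl, rfl⟩ := hbc; exact hab
    | edge v i =>
      cases b with
      | bot => exact hab.elim
      | top => cases c <;> simp_all [le]
      | vtx w => exact hab.elim
      | edge w j => obtain ⟨rfl, rfl⟩ := hab; exact hbc
      | tri w b =>
        cases c with
        | bot => exact hbc.elim
        | top => trivial
        | vtx _ => exact hbc.elim
        | edge x k => exact hbc.elim
        | tri x c => obtain ⟨rfl, rfl⟩ := hbc; exact hab
    | tri v i =>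
      cases b with
      | bot => exact hab.elim
      | top => cases c <;> simp_all [le]
      | vtx w => exact hab.elim
      | edge w j => exact hab.elim
      | tri w b => obtain ⟨rfl, rfl⟩ := hab; exact hbc
  le_antisymm a b hab hba := by
    change le a b at hab
    change le b a at hba
    cases a with
    | bot => cases b <;> simp_all [le]
    | top => cases b <;> simp_all [le]
    | vtx v =>
      cases b with
      | vtx w => cases hab; rfl
      | _ => simp_all [le]
    | edge v i =>
      cases b with
      | edge w j => obtain ⟨rfl, rfl⟩ := hab; rfl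
      | _ => simp_all [le]
    | tri v i =>
      cases b with
      | tri w j => obtain ⟨rfl, rfl⟩ := hab; rfl
      | _ => simp_all [le]

end Tor36

end Pool.Agent.Helper622
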