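import Pool.Agent.Helper622.Tri.Poly

namespace Pool.Agent.Helper622

namespace Tri

/-! ### The kernel lattice -/

section ker

variable {G : Type} [Group G] {l0 l1 l2 : G}

/-- The translations that act trivially. -/
def KerMem (l0 l1 l2 : G) (x y : ℤ) : Prop := tX l0 l1 l2 ^ x * tY l0 l1 l2 ^ y = 1

namespace Rel

variable (h : Rel l0 l1 l2)
include h

theorem ker_swap {x y : ℤ} (hk : KerMem l0 l1 l2 x y) : KerMem l0 l1 l2 y x := by
  have h1 := h.L1 x y 0 false
  rw [ev_def, ev_def, rt_zero, if_neg (by simp), mul_one, mul_one, hk, mul_one, sub_zero,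
    rt_one, Bool.not_false, if_pos rfl, mul_assoc, mul_assoc, h.i2, mul_one, ← mul_assoc] at h1
  have h2 := congrArg (· * l1) h1
  simp only [mul_assoc, h.i1, mul_one] at h2
  exact h2.symm

theorem ker_flip {x y : ℤ} (hk : KerMem l0 l1 l2 x y) : KerMem l0 l1 l2 (x + y) (-y) := by
  have h1 := h.L2 x y 0 false
  rw [ev_def, ev_def, rt_zero, if_neg (by simp), mul_one, mul_one, hk, mul_one, neg_zero,
    rt_zero, Bool.not_false, if_pos rfl, one_mul] at h1
  have h2 := congrArg (· * l2) h1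
  simp only [mul_assoc, h.i2, mul_one] at h2
  exact h2.symm

theorem ker_rot {x y : ℤ} (hk : KerMem l0 l1 l2 x y) : KerMem l0 l1 l2 (-y) (x + y) :=
  h.ker_swap (h.ker_flip hk)

theorem ker_add {x y x' y' : ℤ} (hk : KerMem l0 l1 l2 x y) (hk' : KerMem l0 l1 l2 x' y') :
    KerMem l0 l1 l2 (x + x') (y + y') := by
  have h1 : tX l0 l1 l2 ^ (x + x') * tY l0 l1 l2 ^ (y + y') =
      (tX l0 l1 l2 ^ x * tY l0 l1 l2 ^ y) * (tX l0 l1 l2 ^ x' * tY l0 l1 l2 ^ y') := by
    rw [zpow_add, zpow_add]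
    have := (h.commXY.zpow_zpow x' y).eq
    calc tX l0 l1 l2 ^ x * tX l0 l1 l2 ^ x' * (tY l0 l1 l2 ^ y * tY l0 l1 l2 ^ y')
        = tX l0 l1 l2 ^ x * (tX l0 l1 l2 ^ x' * tY l0 l1 l2 ^ y) * tY l0 l1 l2 ^ y' := by group
      _ = _ := by rw [this]; group
  rw [KerMem, h1, hk, hk', mul_one]

theorem ker_neg {x y : ℤ} (hk : KerMem l0 l1 l2 x y) : KerMem l0 l1 l2 (-x) (-y) := by
  have h1 := h.ker_rot (h.ker_rot (h.ker_rot hk))
  have e1 : -(-y + (x + y)) = -x := by ring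
  have e2 : -(x + y) + (-y + (x + y)) = -y := by ring
  rw [e1, e2] at h1
  exact h1

theorem ker_sub {x y x' y' : ℤ} (hk : KerMem l0 l1 l2 x y) (hk' : KerMem l0 l1 l2 x' y') :
    KerMem l0 l1 l2 (x - x') (y - y') := by
  have := h.ker_add hk (h.ker_neg hk')
  rwa [← sub_eq_add_neg, ← sub_eq_add_neg] at this

omit h in
theorem ker_zero : KerMem l0 l1 l2 0 0 := by simp [KerMem]

theorem ker_mul {x y : ℤ} (hk : KerMem l0 l1 l2 x y) (n : ℤ) :
    KerMem l0 l1 l2 (n * x) (n * y) := by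
  have hnat : ∀ n : ℕ, KerMem l0 l1 l2 (n * x) (n * y) := by
    intro n
    induction n with
    | zero => simpa using ker_zero (l0 := l0) (l1 := l1) (l2 := l2)
    | succ n ih =>
      have := h.ker_add ih hk
      push_cast
      rwa [add_mul, add_mul, one_mul, one_mul]
  obtain ⟨m, rfl | rfl⟩ := n.eq_nat_or_neg
  · exact hnat m
  · have := h.ker_neg (hnat m)
    rwa [neg_mul, neg_mul]

/-- the vector of type `(1,1)` -/
theorem ker_diag {x y : ℤ} (hk : KerMem l0 l1 l2 x y) : KerMem l0 l1 l2 y y := by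
  have h1 := h.ker_sub (h.ker_flip hk) hk
  have h2 := h.ker_rot (h.ker_rot h1)
  have e1 : -(x + y - x + (-y - y)) = y := by ring
  have e2 : -(-y - y) + (x + y - x + (-y - y)) = y := by ring
  rw [e1, e2] at h2
  exact h2

/-- the vector of type `(3,0)` -/
theorem ker_three {y : ℤ} (hk : KerMem l0 l1 l2 y y) : KerMem l0 l1 l2 (3 * y) 0 := by
  have h1 := h.ker_add hk (h.ker_flip hk)
  have e1 : y + (y + y) = 3 * y := by ring
  have e2 : y + -y = 0 := by ring
  rw [e1, e2] at h1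
  exact h1

/-- the general criterion for the generators of a toroidal group -/
theorem genOf {Λ : AddSubgroup (ℤ × ℤ)} (hΛ : ∀ x y, KerMem l0 l1 l2 x y ↔ (x, y) ∈ Λ)
    (h1 : ((1, 0) : ℤ × ℤ) ∉ Λ) (h2 : ((2, 0) : ℤ × ℤ) ∉ Λ) (h3 : ((1, 1) : ℤ × ℤ) ∉ Λ) :
    Gen Λ l0 l1 l2 := by
  refine { toRel := h, lat := fun x y hxy => (hΛ x y).2 hxy, ker := ?_ }
  intro x y k r he
  rw [← hΛ] at h1 h2 h3 ⊢
  -- the linear part acts trivially on the translations
  have hX : KerMem l0 l1 l2 (dx k - 1) (dy k) := by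
    have e1 := h.evX x y k r
    rw [he, one_mul] at e1
    have e2 : ev l0 l1 l2 (x + dx k) (y + dy k) k r =
        tX l0 l1 l2 ^ dx k * (tY l0 l1 l2 ^ dy k * ev l0 l1 l2 x y k r) := by
      rw [h.LY, h.LX, add_comm x, add_comm y]
    rw [e2, he, mul_one] at e1
    rw [KerMem, sub_eq_neg_add, zpow_add, mul_assoc, ← e1, zpow_neg, zpow_one, inv_mul_cancel]
  have k0 : k = 0 := by
    by_contra hk
    have hall : ∀ k : ZMod 6, k ≠ 0 → k = 1 ∨ k = 2 ∨ k = 3 ∨ k = 4 ∨ k = 5 := by decide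
    rcases hall k hk with rfl | rfl | rfl | rfl | rfl
    · have : KerMem l0 l1 l2 (-1) 1 := hX
      have := h.ker_rot (h.ker_rot (h.ker_rot (h.ker_rot this)))
      exact h1 (by simpa using this)
    · have : KerMem l0 l1 l2 (-2) 1 := hX
      have := h.ker_rot (h.ker_rot (h.ker_rot (h.ker_rot this)))
      exact h3 (by simpa using this)
    · have : KerMem l0 l1 l2 (-2) 0 := hX
      have := h.ker_neg this
      exact h2 (by simpa using this)
    · have : KerMem l0 l1 l2 (-2) (-1) ∨ KerMem l0 l1 l2 (-1) (-1) := Or.inr hX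
      have : KerMem l0 l1 l2 (-1) (-1) := hX
      have := h.ker_neg this
      exact h3 (by simpa using this)
    · have : KerMem l0 l1 l2 0 (-1) := hX
      have := h.ker_rot (h.ker_rot this)
      exact h1 (by simpa using this)
  subst k0
  have r0 : r = false := by
    cases r
    · rfl
    · exfalso
      -- conjugation of `tY` by `l2`
      have e1 : tX l0 l1 l2 ^ x * tY l0 l1 l2 ^ y * l2 = 1 := by
        rw [ev_def, rt_zero, one_mul, if_pos rfl] at he
        exact he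
      have hT : Commute (tX l0 l1 l2 ^ x * tY l0 l1 l2 ^ y) (tY l0 l1 l2) :=
        (h.commXY.zpow_left _).mul_left ((Commute.refl _).zpow_left _)
      have e3 : Commute l2 (tY l0 l1 l2) := by
        have := hT.inv_left
        rwa [inv_eq_of_mul_eq_one_right e1] at this
      have e4 := h.conj_two_Y
      rw [e3.eq, mul_assoc, h.i2, mul_one] at e4
      have e5 : KerMem l0 l1 l2 1 (-2) := by
        rw [KerMem, zpow_one, show (-2 : ℤ) = -1 + -1 by norm_num, zpow_add, ← mul_assoc,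
          zpow_neg, zpow_one, ← e4, mul_inv_cancel]
      have := h.ker_rot (h.ker_rot e5)
      exact h3 (by simpa using this)
  subst r0
  refine ⟨?_, rfl, rfl⟩
  rw [ev_def, rt_zero, one_mul, if_neg (by simp), mul_one] at he
  exact he

end Rel

/-! ### The lattices -/

theorem mem_latt_zero {s : ℕ} {x y : ℤ} : (x, y) ∈ latt s 0 ↔ (s : ℤ) ∣ x ∧ (s : ℤ) ∣ y := by
  constructor
  · intro hm
    have : ∀ p : ℤ × ℤ, p ∈ latt s 0 → (s : ℤ) ∣ p.1 ∧ (s : ℤ) ∣ p.2 := by
      intro p hp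
      induction hp using AddSubgroup.closure_induction with
      | mem p hp =>
        rcases hp with rfl | rfl | rfl <;> simp
      | zero => simp
      | add p q _ _ h1 h2 => exact ⟨dvd_add h1.1 h2.1, dvd_add h1.2 h2.2⟩
      | neg p _ h1 => exact ⟨(dvd_neg).2 h1.1, (dvd_neg).2 h1.2⟩
    exact this _ hm
  · rintro ⟨⟨a, rfl⟩, ⟨b, rfl⟩⟩
    have g1 : ((s : ℤ), (0 : ℤ)) ∈ latt s 0 := AddSubgroup.subset_closure (by simp)
    have g2 : ((0 : ℤ), (s : ℤ)) ∈ latt s 0 := AddSubgroup.subset_closure (by simp)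
    have := AddSubgroup.add_mem _ (AddSubgroup.zsmul_mem _ g1 a) (AddSubgroup.zsmul_mem _ g2 b)
    simpa [mul_comm] using this

theorem mem_latt_diag {u : ℕ} {x y : ℤ} : (x, y) ∈ latt u u ↔
    (u : ℤ) ∣ x ∧ (u : ℤ) ∣ y ∧ (3 * u : ℤ) ∣ x - y := by
  constructor
  · intro hm
    have : ∀ p : ℤ × ℤ, p ∈ latt u u → (u : ℤ) ∣ p.1 ∧ (u : ℤ) ∣ p.2 ∧
        (3 * u : ℤ) ∣ p.1 - p.2 := by
      intro p hp
      induction hp using AddSubgroup.closure_induction with
      | mem p hp =>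
        rcases hp with rfl | rfl | rfl
        · exact ⟨dvd_rfl, dvd_rfl, by simp⟩
        · exact ⟨⟨-1, by ring⟩, ⟨2, by ring⟩, ⟨-1, by ring⟩⟩
        · exact ⟨⟨-2, by ring⟩, ⟨1, by ring⟩, ⟨-1, by ring⟩⟩
      | zero => simp
      | add p q _ _ h1 h2 =>
        refine ⟨dvd_add h1.1 h2.1, dvd_add h1.2.1 h2.2.1, ?_⟩
        have := dvd_add h1.2.2 h2.2.2
        have e : (p + q).1 - (p + q).2 = (p.1 - p.2) + (q.1 - q.2) := by
          simp only [Prod.fst_add, Prod.snd_add]; ring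
        rw [e]
        exact this
      | neg p _ h1 =>
        refine ⟨(dvd_neg).2 h1.1, (dvd_neg).2 h1.2.1, ?_⟩
        have e : (-p).1 - (-p).2 = -(p.1 - p.2) := by
          simp only [Prod.fst_neg, Prod.snd_neg]; ring
        rw [e]
        exact (dvd_neg).2 h1.2.2
    exact this _ hm
  · rintro ⟨⟨a, rfl⟩, ⟨b, rfl⟩, ⟨c, hc⟩⟩
    have g1 : ((u : ℤ), (u : ℤ)) ∈ latt u u := AddSubgroup.subset_closure (by simp)
    have g3 : ((-(u : ℤ) - u), (u : ℤ)) ∈ latt u u := AddSubgroup.subset_closure (by simp)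
    have g2 : ((3 * u : ℤ), (0 : ℤ)) ∈ latt u u := by
      have := AddSubgroup.sub_mem _ g1 g3
      have e : (((u : ℤ), (u : ℤ)) : ℤ × ℤ) - (-(u : ℤ) - u, (u : ℤ)) =
          ((3 * (u : ℤ), (0 : ℤ)) : ℤ × ℤ) := by
        ext
        · simp; ring
        · simp
      rwa [e] at this
    have := AddSubgroup.add_mem _ (AddSubgroup.zsmul_mem _ g1 b) (AddSubgroup.zsmul_mem _ g2 c)
    have e : b • (((u : ℤ), (u : ℤ)) : ℤ × ℤ) + c • (((3 * u : ℤ), (0 : ℤ)) : ℤ × ℤ) =
        ((u : ℤ) * a, (u : ℤ) * b) := by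
      ext
      · simp; linarith
      · simp; ring
    rwa [e] at this

theorem Rel.genZero (h : Rel l0 l1 l2) {s : ℕ} (hs : 3 ≤ s) (h1 : KerMem l0 l1 l2 s 0)
    (h2 : ∀ n : ℤ, KerMem l0 l1 l2 n n → (s : ℤ) ∣ n) : Gen (latt s 0) l0 l1 l2 := by
  apply h.genOf
  · intro x y
    rw [mem_latt_zero]
    constructor
    · intro hk
      exact ⟨h2 x (h.ker_diag (h.ker_swap hk)), h2 y (h.ker_diag hk)⟩
    · rintro ⟨⟨a, rfl⟩, ⟨b, rfl⟩⟩
      have := h.ker_add (h.ker_mul h1 a) (h.ker_mul (h.ker_swap h1) b)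
      simpa [mul_comm] using this
  · rw [mem_latt_zero]
    rintro ⟨h3, -⟩
    have := Int.le_of_dvd (by norm_num) h3
    omega
  · rw [mem_latt_zero]
    rintro ⟨h3, -⟩
    have := Int.le_of_dvd (by norm_num) h3
    omega
  · rw [mem_latt_zero]
    rintro ⟨h3, -⟩
    have := Int.le_of_dvd (by norm_num) h3
    omega

theorem Rel.genDiag (h : Rel l0 l1 l2) {u : ℕ} (hu : 2 ≤ u) (h1 : KerMem l0 l1 l2 u u)
    (h2 : ∀ n : ℤ, KerMem l0 l1 l2 n 0 → (3 * u : ℤ) ∣ n) : Gen (latt u u) l0 l1 l2 := by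
  apply h.genOf
  · intro x y
    rw [mem_latt_diag]
    constructor
    · intro hk
      have hy : (u : ℤ) ∣ y := by
        obtain ⟨c, hc⟩ := h2 _ (h.ker_three (h.ker_diag hk))
        exact ⟨c, by linarith⟩
      have hx : (u : ℤ) ∣ x := by
        obtain ⟨c, hc⟩ := h2 _ (h.ker_three (h.ker_diag (h.ker_swap hk)))
        exact ⟨c, by linarith⟩
      refine ⟨hx, hy, ?_⟩
      obtain ⟨b, rfl⟩ := hy
      have h3 := h.ker_sub hk (h.ker_mul h1 b)
      have e : (u : ℤ) * b - b * u = 0 := by ring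
      rw [e] at h3
      have h4 := h2 _ h3
      have e2 : x - b * u = x - (u : ℤ) * b := by ring
      rwa [e2] at h4
    · rintro ⟨-, ⟨b, rfl⟩, ⟨c, hc⟩⟩
      have h3 : KerMem l0 l1 l2 (3 * u) 0 := h.ker_three h1
      have := h.ker_add (h.ker_mul h3 c) (h.ker_mul h1 b)
      have e1 : c * (3 * u) + b * u = x := by linarith
      have e2 : c * 0 + b * u = u * b := by ring
      rwa [e1, e2] at this
  · rw [mem_latt_diag]
    rintro ⟨h3, -⟩
    have := Int.le_of_dvd (by norm_num) h3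
    omega
  · rw [mem_latt_diag]
    rintro ⟨-, -, h3⟩
    have := Int.le_of_dvd (by norm_num) h3
    omega
  · rw [mem_latt_diag]
    rintro ⟨h3, -⟩
    have := Int.le_of_dvd (by norm_num) h3
    omega

end ker

end Tri

end Pool.Agent.Helper622
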