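import Pool.Agent.Helper622.Tri.Chain
import Pool.Agent.Helper622.Tri.Ker

/-!
# The generators of the group of a regular polytope
-/

namespace Pool.Agent.Helper622

namespace Tri

open Conv

variable {P : Type} [PartialOrder P]

/-- direction with index in `ZMod 6`, modulo the lattice -/
def dq (Λ : AddSubgroup (ℤ × ℤ)) (k : ZMod 6) : (ℤ × ℤ) ⧸ Λ := ((dx k, dy k) : ℤ × ℤ)

theorem dq_neg (Λ : AddSubgroup (ℤ × ℤ)) (k : ZMod 6) : dq Λ k + dq Λ (k + 3) = 0 := by
  rw [dq, dq, ← QuotientAddGroup.mk_add]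
  have : ∀ k : ZMod 6, ((dx k, dy k) : ℤ × ℤ) + ((dx (k + 3), dy (k + 3)) : ℤ × ℤ) = 0 := by
    decide
  rw [this]
  rfl

theorem dq_rel (Λ : AddSubgroup (ℤ × ℤ)) (k : ZMod 6) :
    dq Λ k + dq Λ (k + 2) = dq Λ (k + 1) := by
  rw [dq, dq, dq, ← QuotientAddGroup.mk_add]
  have : ∀ k : ZMod 6, ((dx k, dy k) : ℤ × ℤ) + ((dx (k + 2), dy (k + 2)) : ℤ × ℤ) =
      ((dx (k + 1), dy (k + 1)) : ℤ × ℤ) := by
    decide
  rw [this]

/-- The flags of a toroidal section, as chains of the polytope. -/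
structure Fam (X : AbstractPolytope 4 P) (Λ : AddSubgroup (ℤ × ℤ)) (f : Fin 3 → Fin 6)
    (ch : (ℤ × ℤ) ⧸ Λ → ZMod 6 → Bool → Fin 6 → P) : Prop where
  adj0 : ∀ m k r, Adj X (f 0) (ch m k r) (ch (m + dq Λ k) (k + 3) (!r))
  adj1 : ∀ m k r, Adj X (f 1) (ch m k r) (ch m (if r then k - 1 else k + 1) (!r))
  adj2 : ∀ m k r, Adj X (f 2) (ch m k r) (ch m k (!r))
  inj0 : ∀ m k r, ch m k r (f 0) = ch 0 0 false (f 0) → m = 0
  inj : ∀ k r, ch 0 k r = ch 0 0 false → k = 0 ∧ r = false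

namespace Fam

variable {X : AbstractPolytope 4 P} {Λ : AddSubgroup (ℤ × ℤ)} {f : Fin 3 → Fin 6}
  {ch : (ℤ × ℤ) ⧸ Λ → ZMod 6 → Bool → Fin 6 → P} {l0 l1 l2 : P ≃o P}

theorem isCh (F : Fam X Λ f ch) (m : (ℤ × ℤ) ⧸ Λ) (k : ZMod 6) (r : Bool) :
    IsCh X (ch m k r) := (F.adj0 m k r).l

theorem map (F : Fam X Λ f ch) (φ : P ≃o P) : Fam X Λ f (fun m k r => φ ∘ ch m k r) where
  adj0 m k r := (F.adj0 m k r).map φ
  adj1 m k r := (F.adj1 m k r).map φ
  adj2 m k r := (F.adj2 m k r).map φ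
  inj0 m k r h := F.inj0 m k r (φ.injective h)
  inj k r h := F.inj k r (by
    funext i
    exact φ.injective (congrFun h i))

/-- the generators belong to the base flag -/
structure Gens (F : Fam X Λ f ch) (l0 l1 l2 : P ≃o P) : Prop where
  g0 : Adj X (f 0) (ch 0 0 false) (l0 ∘ ch 0 0 false)
  g1 : Adj X (f 1) (ch 0 0 false) (l1 ∘ ch 0 0 false)
  g2 : Adj X (f 2) (ch 0 0 false) (l2 ∘ ch 0 0 false)

variable {F : Fam X Λ f ch} (H : F.Gens l0 l1 l2)
include H

theorem Gens.w0 {g : P ≃o P} {m : (ℤ × ℤ) ⧸ Λ} {k : ZMod 6} {r : Bool}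
    (h : g ∘ ch 0 0 false = ch m k r) :
    (g * l0) ∘ ch 0 0 false = ch (m + dq Λ k) (k + 3) (!r) := by
  have h1 := H.g0.map g
  rw [h] at h1
  exact h1.unique (F.adj0 m k r)

theorem Gens.w1 {g : P ≃o P} {m : (ℤ × ℤ) ⧸ Λ} {k : ZMod 6} {r : Bool}
    (h : g ∘ ch 0 0 false = ch m k r) :
    (g * l1) ∘ ch 0 0 false = ch m (if r then k - 1 else k + 1) (!r) := by
  have h1 := H.g1.map g
  rw [h] at h1
  exact h1.unique (F.adj1 m k r)

theorem Gens.w2 {g : P ≃o P} {m : (ℤ × ℤ) ⧸ Λ} {k : ZMod 6} {r : Bool}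
    (h : g ∘ ch 0 0 false = ch m k r) :
    (g * l2) ∘ ch 0 0 false = ch m k (!r) := by
  have h1 := H.g2.map g
  rw [h] at h1
  exact h1.unique (F.adj2 m k r)

omit H in
theorem one_comp : (1 : P ≃o P) ∘ ch 0 0 false = ch 0 0 false := rfl

omit H in
theorem eq_of (F : Fam X Λ f ch) {g g' : P ≃o P} {m : (ℤ × ℤ) ⧸ Λ} {k : ZMod 6} {r : Bool}
    (h : g ∘ ch 0 0 false = ch m k r) (h' : g' ∘ ch 0 0 false = ch m k r) : g = g' :=
  rigid (F.isCh 0 0 false) (h.trans h'.symm)

theorem Gens.rot {g : P ≃o P} {m : (ℤ × ℤ) ⧸ Λ} {k : ZMod 6}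
    (h : g ∘ ch 0 0 false = ch m k false) (n : ℕ) :
    (g * (l1 * l2) ^ n) ∘ ch 0 0 false = ch m (k + n) false := by
  induction n with
  | zero => simpa using h
  | succ n ih =>
    have h1 := H.w2 (H.w1 ih)
    rw [pow_succ, ← mul_assoc, ← mul_assoc, h1]
    simp [add_assoc]

theorem Gens.rel : Rel l0 l1 l2 where
  i0 := by
    refine F.eq_of (m := 0) (k := 0) (r := false) ?_ one_comp
    have := H.w0 (H.w0 (one_comp (ch := ch)))
    rw [add_assoc, dq_neg, add_zero, one_mul] at this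
    exact this
  i1 := by
    refine F.eq_of (m := 0) (k := 0) (r := false) ?_ one_comp
    have := H.w1 (H.w1 (one_comp (ch := ch)))
    rw [one_mul] at this
    exact this
  i2 := by
    refine F.eq_of (m := 0) (k := 0) (r := false) ?_ one_comp
    have := H.w2 (H.w2 (one_comp (ch := ch)))
    rw [one_mul] at this
    exact this
  c02 := by
    refine F.eq_of (m := 0 + dq Λ 0) (k := 0 + 3) (r := false) ?_ ?_
    · have := H.w2 (H.w0 (one_comp (ch := ch)))
      rw [one_mul] at this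
      exact this
    · have := H.w0 (H.w2 (one_comp (ch := ch)))
      rw [one_mul] at this
      exact this
  h01 := by
    refine F.eq_of (m := dq Λ 1) (k := 5) (r := true) ?_ ?_
    · have := H.w0 (H.w1 (H.w0 (one_comp (ch := ch))))
      rw [one_mul] at this
      rw [this]
      have e := dq_rel Λ 0
      simp only [zero_add] at e
      simp only [Bool.not_false, Bool.not_true, if_true, zero_add]
      have z : (3 - 1 : ZMod 6) = 2 := by decide
      have z' : (2 + 3 : ZMod 6) = 5 := by decide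
      rw [z, e, z']
    · have := H.w1 (H.w0 (H.w1 (one_comp (ch := ch))))
      rw [one_mul] at this
      rw [this]
      simp only [Bool.not_false, Bool.not_true, Bool.false_eq_true, if_false, zero_add]
      have z : (1 + 3 + 1 : ZMod 6) = 5 := by decide
      rw [z]
  h12 := by
    refine F.eq_of (m := 0) (k := 0) (r := false) ?_ one_comp
    have := H.rot (one_comp (ch := ch)) 6
    rw [one_mul] at this
    exact this

theorem Gens.wX {g : P ≃o P} {m : (ℤ × ℤ) ⧸ Λ} (h : g ∘ ch 0 0 false = ch m 0 false) :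
    (g * tX l0 l1 l2) ∘ ch 0 0 false = ch (m + dq Λ 0) 0 false := by
  have h1 := H.w1 (H.w2 (H.w1 (H.w2 (H.w1 (H.w0 h)))))
  rw [tX]
  simp only [← mul_assoc]
  rw [h1]
  congr 1

theorem Gens.wY {g : P ≃o P} {m : (ℤ × ℤ) ⧸ Λ} (h : g ∘ ch 0 0 false = ch m 0 false) :
    (g * tY l0 l1 l2) ∘ ch 0 0 false = ch (m + dq Λ 1) 0 false := by
  have h1 := H.w1 (H.w1 (H.w2 (H.w1 (H.w2 (H.w1 (H.w0 (H.w1 h)))))))
  rw [tY, tX]
  simp only [← mul_assoc]
  rw [h1]
  congr 1

theorem Gens.wXz (hX : X.IsRegular) {g : P ≃o P} {m : (ℤ × ℤ) ⧸ Λ}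
    (h : g ∘ ch 0 0 false = ch m 0 false) (n : ℤ) :
    (g * tX l0 l1 l2 ^ n) ∘ ch 0 0 false = ch (m + n • dq Λ 0) 0 false := by
  induction n using Int.induction_on with
  | zero => simpa using h
  | succ n ih =>
    have := H.wX ih
    rw [zpow_add_one, ← mul_assoc, this, add_zsmul, one_zsmul, add_assoc]
  | pred n ih =>
    obtain ⟨φ, hφ⟩ := exists_aut hX (F.isCh 0 0 false)
      (F.isCh (m + (-(n : ℤ) - 1) • dq Λ 0) 0 false)
    have h1 := H.wX hφ
    have e : m + (-(n : ℤ) - 1) • dq Λ 0 + dq Λ 0 = m + (-(n : ℤ)) • dq Λ 0 := by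
      rw [sub_zsmul, one_zsmul]; abel
    rw [e] at h1
    have h2 := F.eq_of h1 ih
    have h3 : φ = g * tX l0 l1 l2 ^ (-(n : ℤ) - 1) := by
      rw [zpow_sub_one, ← mul_assoc, ← h2, mul_inv_cancel_right]
    rw [← h3, hφ]

theorem Gens.wYz (hX : X.IsRegular) {g : P ≃o P} {m : (ℤ × ℤ) ⧸ Λ}
    (h : g ∘ ch 0 0 false = ch m 0 false) (n : ℤ) :
    (g * tY l0 l1 l2 ^ n) ∘ ch 0 0 false = ch (m + n • dq Λ 1) 0 false := by
  induction n using Int.induction_on with
  | zero => simpa using h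
  | succ n ih =>
    have := H.wY ih
    rw [zpow_add_one, ← mul_assoc, this, add_zsmul, one_zsmul, add_assoc]
  | pred n ih =>
    obtain ⟨φ, hφ⟩ := exists_aut hX (F.isCh 0 0 false)
      (F.isCh (m + (-(n : ℤ) - 1) • dq Λ 1) 0 false)
    have h1 := H.wY hφ
    have e : m + (-(n : ℤ) - 1) • dq Λ 1 + dq Λ 1 = m + (-(n : ℤ)) • dq Λ 1 := by
      rw [sub_zsmul, one_zsmul]; abel
    rw [e] at h1
    have h2 := F.eq_of h1 ih
    have h3 : φ = g * tY l0 l1 l2 ^ (-(n : ℤ) - 1) := by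
      rw [zpow_sub_one, ← mul_assoc, ← h2, mul_inv_cancel_right]
    rw [← h3, hφ]

theorem Gens.evc (hX : X.IsRegular) (x y : ℤ) (k : ZMod 6) (r : Bool) :
    (ev l0 l1 l2 x y k r : P ≃o P) ∘ ch 0 0 false = ch (((x, y) : ℤ × ℤ) : (ℤ × ℤ) ⧸ Λ) k r := by
  have h1 := H.wYz hX (H.wXz hX (one_comp (ch := ch)) x) y
  rw [one_mul] at h1
  have h2 := H.rot h1 k.val
  have e : (0 : (ℤ × ℤ) ⧸ Λ) + x • dq Λ 0 + y • dq Λ 1 =
      (((x, y) : ℤ × ℤ) : (ℤ × ℤ) ⧸ Λ) := by
    rw [zero_add, dq, dq, ← QuotientAddGroup.mk_zsmul, ← QuotientAddGroup.mk_zsmul,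
      ← QuotientAddGroup.mk_add]
    congr 1
    ext
    · simp [dx]
    · simp [dy]
  have e' : (0 + ((k.val : ℕ) : ZMod 6)) = k := by
    rw [zero_add, ZMod.natCast_zmod_val]
  rw [e, e'] at h2
  rw [ev_def, rt]
  cases r
  · simpa using h2
  · have h3 := H.w2 h2
    simp only [Bool.not_false] at h3
    simpa [mul_assoc] using h3

theorem Gens.gen (hX : X.IsRegular) : Gen Λ l0 l1 l2 := by
  refine { toRel := H.rel, lat := ?_, ker := ?_ }
  · intro x y hm
    refine F.eq_of (m := 0) (k := 0) (r := false) ?_ one_comp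
    have := H.evc hX x y 0 false
    rw [(QuotientAddGroup.eq_zero_iff _).2 hm, ev_def, rt, ZMod.val_zero, pow_zero] at this
    simpa using this
  · intro x y k r he
    have := H.evc hX x y k r
    rw [he, one_comp] at this
    have h0 := F.inj0 _ _ _ (congrFun this.symm (f 0))
    rw [h0] at this
    obtain ⟨h1, h2⟩ := F.inj _ _ this.symm
    exact ⟨(QuotientAddGroup.eq_zero_iff _).1 h0, h1, h2⟩

end Fam

/-- commuting generators -/
theorem comm_of_adj {X : AbstractPolytope 4 P} {c : Fin 6 → P} {i j : Fin 6} {g h : P ≃o P}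
    (hi : Adj X i c (g ∘ c)) (hj : Adj X j c (h ∘ c)) (hij : (i : ℕ) + 1 < j) :
    g * h = h * g := by
  -- the chain with both changes
  have hne : ∀ k : Fin 6, k = i → k ≠ j := by
    rintro k rfl e
    have := congrArg Fin.val e
    omega
  let d : Fin 6 → P := fun k => if k = i then g (c i) else h (c k)
  have hd1 : ∀ k : Fin 6, (k : ℕ) < j → d k = g (c k) := by
    intro k hk
    by_cases hki : k = i
    · simp [d, hki]
    · have hkj : k ≠ j := by
        intro e
        have := congrArg Fin.val e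
        omega
      have e1 := hj.eq k hkj
      have e2 := hi.eq k hki
      simp only [d, hki, if_false]
      exact e1.symm.trans e2
  have hd2 : ∀ k : Fin 6, (i : ℕ) < k → d k = h (c k) := by
    intro k hk
    have : k ≠ i := by
      intro e
      have := congrArg Fin.val e
      omega
    simp [d, this]
  have hd : IsCh X d := by
    apply isCh_of_strictMono
    rw [Fin.strictMono_iff_lt_succ]
    intro k
    by_cases hk : (k : ℕ) + 1 < j
    · rw [hd1 _ (by simp; omega), hd1 _ (by simp; omega)]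
      exact g.strictMono (hi.l.strictMono (by rw [Fin.lt_def]; simp))
    · rw [hd2 _ (by simp; omega), hd2 _ (by simp; omega)]
      exact h.strictMono (hi.l.strictMono (by rw [Fin.lt_def]; simp))
  have a1 : Adj X j (g ∘ c) d := by
    refine ⟨hi.r, hd, ?_, ?_⟩
    · intro k hk
      by_cases hki : k = i
      · simp [d, hki]
      · have e1 := hj.eq k hk
        have e2 := hi.eq k hki
        simp only [d, hki, if_false]
        exact e2.symm.trans e1
    · rw [hd2 j (by omega)]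
      have : j ≠ i := by
        intro e
        have := congrArg Fin.val e
        omega
      have e := hi.eq j this
      rw [← e]
      exact hj.ne
  have a2 : Adj X i (h ∘ c) d := by
    refine ⟨hj.r, hd, ?_, ?_⟩
    · intro k hk
      simp [d, hk]
    · have e := hj.eq i (hne i rfl)
      rw [← e]
      have : d i = g (c i) := by simp [d]
      rw [this]
      exact hi.ne
  have b1 : Adj X j (g ∘ c) ((g * h) ∘ c) := hj.map g
  have b2 : Adj X i (h ∘ c) ((h * g) ∘ c) := hi.map h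
  exact rigid hi.l ((b1.unique a1).trans (b2.unique a2).symm)

end Tri

end Pool.Agent.Helper622
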