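import Pool.Agent.Helper622.Tri.Infinite

namespace Pool.Agent.Helper622

namespace Tri

open Matrix

namespace Num

variable (N : Num)

theorem g31_one : N.par.g31 1 = !![N.a, N.w * N.b; (1 + N.w) * N.b, N.d] := by
  have hw := N.hw
  ext i j; fin_cases i <;> fin_cases j <;>
    simp [par, Par.g31, Matrix.mul_apply, Fin.sum_univ_two] <;> grind

theorem g32_one : N.par.g32 1 = !![N.d, (1 + N.w) * N.b; N.w * N.b, N.a] := by
  have hw := N.hw
  ext i j; fin_cases i <;> fin_cases j <;>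
    simp [par, Par.g32, Matrix.mul_apply, Fin.sum_univ_two] <;> grind

theorem infinite {c : ℝ} (hc : 0 ≤ c) (hq : N.q + 1 ≠ 0)
    (hcq : (c : ℂ) = -2 + 3 * (N.p + N.q + 2) * ((N.q + 1) ^ 2)⁻¹) :
    Infinite (Subgroup.closure {Par.ρ0, N.par.ρ1, N.par.ρ2, N.par.ρ3}) := by
  have hk : (N.q + 1) ^ 2 * ((N.q + 1) ^ 2)⁻¹ = 1 := mul_inv_cancel₀ (pow_ne_zero 2 hq)
  set k : ℂ := ((N.q + 1) ^ 2)⁻¹ with hkd
  clear_value k
  set σ : ℂ := N.p + N.q + 2 with hσ
  have hσ' : σ = N.a + N.d + (N.a * N.w - N.d * (1 + N.w)) + 2 := rfl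
  have hq' : (N.a * N.w - N.d * (1 + N.w) + 1) ^ 2 * k = 1 := hk
  clear_value σ
  have hw := N.hw
  have hdet := N.hdet
  refine N.par.infinite (c := c)
    (x1 := k • !![σ, N.b * (1 - N.w); -N.b * (2 + N.w), σ])
    (x2 := k • !![σ, -N.b * (2 + N.w); N.b * (1 - N.w), σ])
    (x3 := k • !![σ, N.b * (1 + 2 * N.w); N.b * (1 + 2 * N.w), σ]) hc ?_ ?_ ?_ ?_
  · rw [Par.g13_mul, N.g13_one]
    ext i j; fin_cases i <;> fin_cases j <;>
      simp [par]
    · grind
    · grind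
    · grind
    · grind
  · rw [Par.g23_mul, N.g23_one]
    ext i j; fin_cases i <;> fin_cases j <;>
      simp [par]
    · grind
    · grind
    · grind
    · grind
  · rw [Par.g31_mul, Par.g32_mul, N.g31_one, N.g32_one]
    ext i j; fin_cases i <;> fin_cases j <;>
      simp
    · grind
    · grind
    · grind
    · grind
  · ext i j; fin_cases i <;> fin_cases j <;>
      simp
    · grind
    · grind
    · grind
    · grind

end Num

/-! ### The parameters -/

theorem exists_num (p q : ℂ) : ∃ N : Num, N.p = p ∧ N.q = q ∧ N.w = Complex.exp (2 * Real.pi *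
    Complex.I / (3 : ℕ)) := by
  have hw : IsPrimitiveRoot (Complex.exp (2 * Real.pi * Complex.I / (3 : ℕ))) 3 :=
    Complex.isPrimitiveRoot_exp 3 (by norm_num)
  set w := Complex.exp (2 * Real.pi * Complex.I / (3 : ℕ)) with hwd
  clear_value w
  have h3 : w ^ 2 + w + 1 = 0 := by
    have h1 := hw.geom_sum_eq_zero (by norm_num)
    simp only [Finset.sum_range_succ, Finset.sum_range_zero, pow_zero, pow_one] at h1
    linear_combination h1
  have hj : 2 * w + 1 ≠ 0 := by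
    intro h
    have : (2 * w + 1) ^ 2 = -3 := by linear_combination 4 * h3
    rw [h] at this
    norm_num at this
  obtain ⟨b, hb⟩ := IsAlgClosed.exists_pow_nat_eq
    (1 - (q + p * (1 + w)) / (2 * w + 1) * (-(q - p * w) / (2 * w + 1))) (n := 2) (by norm_num)
  refine ⟨⟨(q + p * (1 + w)) / (2 * w + 1), b, -(q - p * w) / (2 * w + 1), w, h3, by
    rw [hb]; ring⟩, ?_, ?_, rfl⟩
  · rw [Num.p, ← add_div, div_eq_iff hj]
    ring
  · change (q + p * (1 + w)) / (2 * w + 1) * w - -(q - p * w) / (2 * w + 1) * (1 + w) = q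
    rw [div_mul_eq_mul_div, div_mul_eq_mul_div, ← sub_div, div_eq_iff hj]
    ring

theorem two_cos_eq {x : ℝ} : ((2 * Real.cos x : ℝ) : ℂ) =
    Complex.exp (x * Complex.I) + (Complex.exp (x * Complex.I))⁻¹ := by
  rw [← Complex.exp_neg]
  push_cast
  rw [Complex.cos]
  ring_nf

theorem cos_s {s : ℕ} (hs : 3 ≤ s) : -(1 / 2) ≤ Real.cos (2 * Real.pi / s) := by
  have hs' : (3 : ℝ) ≤ s := by exact_mod_cast hs
  have h1 : Real.cos (2 * Real.pi / 3) = -(1 / 2) := by
    have : 2 * Real.pi / 3 = Real.pi - Real.pi / 3 := by ring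
    rw [this, Real.cos_pi_sub, Real.cos_pi_div_three]
  rw [← h1]
  apply Real.cos_le_cos_of_nonneg_of_le_pi
  · positivity
  · linarith [Real.pi_pos]
  · gcongr

theorem cos_s4 {s : ℕ} (hs : 4 ≤ s) : 0 ≤ Real.cos (2 * Real.pi / s) := by
  have hs' : (4 : ℝ) ≤ s := by exact_mod_cast hs
  rw [← Real.cos_pi_div_two]
  apply Real.cos_le_cos_of_nonneg_of_le_pi
  · positivity
  · linarith [Real.pi_pos]
  · rw [div_le_div_iff₀ (by linarith) (by norm_num)]
    nlinarith [Real.pi_pos]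

theorem cos_u {u : ℕ} (hu : 2 ≤ u) :
    -(1 / 2) < Real.cos (2 * Real.pi * (u - 1) / (3 * u)) ∧
    Real.cos (2 * Real.pi * (u - 1) / (3 * u)) ≤ 1 / 2 := by
  have hu' : (2 : ℝ) ≤ u := by exact_mod_cast hu
  have hp := Real.pi_pos
  constructor
  · have h1 : Real.cos (2 * Real.pi / 3) = -(1 / 2) := by
      have : 2 * Real.pi / 3 = Real.pi - Real.pi / 3 := by ring
      rw [this, Real.cos_pi_sub, Real.cos_pi_div_three]
    rw [← h1]
    apply Real.cos_lt_cos_of_nonneg_of_le_pi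
    · apply div_nonneg
      · apply mul_nonneg <;> linarith
      · linarith
    · linarith
    · rw [div_lt_div_iff₀ (by linarith) (by norm_num)]
      nlinarith
  · rw [← Real.cos_pi_div_three]
    apply Real.cos_le_cos_of_nonneg_of_le_pi
    · positivity
    · rw [div_le_iff₀ (by linarith)]
      nlinarith
    · rw [div_le_div_iff₀ (by norm_num) (by linarith)]
      nlinarith

theorem cos_u3 {u : ℕ} (hu : 3 ≤ u) :
    Real.cos (2 * Real.pi * (u - 1) / (3 * u)) ≤ 1 / 4 := by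
  have hu' : (3 : ℝ) ≤ u := by exact_mod_cast hu
  have hp := Real.pi_pos
  have h1 : Real.cos (2 * Real.pi * (u - 1) / (3 * u)) ≤ Real.cos (4 * Real.pi / 9) := by
    apply Real.cos_le_cos_of_nonneg_of_le_pi
    · positivity
    · rw [div_le_iff₀ (by linarith)]
      nlinarith
    · rw [div_le_div_iff₀ (by norm_num) (by linarith)]
      nlinarith
  refine h1.trans ?_
  have h2 : Real.cos (4 * Real.pi / 9) ≤ 1 / 2 := by
    rw [← Real.cos_pi_div_three]
    apply Real.cos_le_cos_of_nonneg_of_le_pi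
    · positivity
    · linarith
    · linarith
  have h3 : 4 * Real.cos (4 * Real.pi / 9) ^ 3 - 3 * Real.cos (4 * Real.pi / 9) = -(1 / 2) := by
    rw [← Real.cos_three_mul]
    have : 3 * (4 * Real.pi / 9) = Real.pi / 3 + Real.pi := by ring
    rw [this, Real.cos_add_pi, Real.cos_pi_div_three]
  by_contra h4
  rw [not_le] at h4
  set c := Real.cos (4 * Real.pi / 9)
  nlinarith [mul_nonneg (sub_nonneg.2 h2) (sub_nonneg.2 h4.le), mul_pos (sub_pos.2 h4) (sub_pos.2 h4)]

theorem exists_spec {s u : ℕ} (hs : 3 ≤ s) (hu : 2 ≤ u) : ∃ (N : Num) (_ : Spec N s u),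
    N.p = ((2 * Real.cos (2 * Real.pi / s) : ℝ) : ℂ) ∧
    N.q = ((2 * Real.cos (2 * Real.pi * (u - 1) / (3 * u)) : ℝ) : ℂ) := by
  obtain ⟨N, hp, hq, hw⟩ := exists_num ((2 * Real.cos (2 * Real.pi / s) : ℝ) : ℂ)
    ((2 * Real.cos (2 * Real.pi * (u - 1) / (3 * u)) : ℝ) : ℂ)
  refine ⟨N, ?_, hp, hq⟩
  have hw' : IsPrimitiveRoot N.w 3 := by
    rw [hw]; exact Complex.isPrimitiveRoot_exp 3 (by norm_num)
  have hl : IsPrimitiveRoot (Complex.exp (2 * Real.pi * Complex.I / s)) s :=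
    Complex.isPrimitiveRoot_exp s (by omega)
  have hz : IsPrimitiveRoot (Complex.exp (2 * Real.pi * Complex.I / (3 * u : ℕ))) (3 * u) :=
    Complex.isPrimitiveRoot_exp (3 * u) (by omega)
  have hl0 : Complex.exp (2 * Real.pi * Complex.I / s) ≠ 0 := Complex.exp_ne_zero _
  have hz0 : Complex.exp (2 * Real.pi * Complex.I / (3 * u : ℕ)) ^ (u - 1) ≠ 0 :=
    pow_ne_zero _ (Complex.exp_ne_zero _)
  have hdiv : ∀ n : ℕ, (Complex.exp (2 * Real.pi * Complex.I / (3 * u : ℕ)) ^ (u - 1)) ^ n = 1 →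
      3 * u ∣ (u - 1) * n := by
    intro n hn
    rw [← pow_mul] at hn
    exact hz.dvd_of_pow_eq_one _ hn
  have hco : Nat.Coprime u (u - 1) := by
    have h2 : Nat.Coprime (u - 1) ((u - 1) + 1) := by simp
    rw [Nat.sub_add_cancel (by omega)] at h2
    exact h2.symm
  refine { l := Complex.exp (2 * Real.pi * Complex.I / s)
           m := (Complex.exp (2 * Real.pi * Complex.I / s))⁻¹
           e := Complex.exp (2 * Real.pi * Complex.I / (3 * u : ℕ)) ^ (u - 1)
           f := (Complex.exp (2 * Real.pi * Complex.I / (3 * u : ℕ)) ^ (u - 1))⁻¹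
           lm := mul_inv_cancel₀ hl0
           lne := ?_
           lp := ?_
           ls := hl.pow_eq_one
           lo := fun n hn => hl.dvd_of_pow_eq_one n hn
           ef := mul_inv_cancel₀ hz0
           ene := ?_
           eq := ?_
           eu := ?_
           eo := ?_
           e3 := ?_
           pq := ?_ }
  · intro h
    have h2 : Complex.exp (2 * Real.pi * Complex.I / s) ^ 2 = 1 := by
      rw [pow_two]
      nth_rewrite 2 [h]
      exact mul_inv_cancel₀ hl0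
    have := Nat.le_of_dvd (by norm_num) (hl.dvd_of_pow_eq_one 2 h2)
    omega
  · rw [hp, two_cos_eq]
    congr 2 <;> push_cast <;> ring_nf
  · intro h
    have h2 : (Complex.exp (2 * Real.pi * Complex.I / (3 * u : ℕ)) ^ (u - 1)) ^ 2 = 1 := by
      rw [pow_two]
      nth_rewrite 2 [h]
      exact mul_inv_cancel₀ hz0
    have := Nat.le_of_dvd (by omega) (hdiv 2 h2)
    omega
  · rw [hq, two_cos_eq]
    have : Complex.exp (2 * Real.pi * Complex.I / (3 * u : ℕ)) ^ (u - 1) =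
        Complex.exp (((2 * Real.pi * (u - 1) / (3 * u) : ℝ) : ℂ) * Complex.I) := by
      rw [← Complex.exp_nat_mul]
      congr 1
      rw [Nat.cast_sub (by omega)]
      push_cast
      ring
    rw [this]
  · rw [← pow_mul, mul_comm (u - 1) (3 * u), pow_mul, hz.pow_eq_one, one_pow]
  · intro n h1 h2
    obtain ⟨m, rfl⟩ := hw'.dvd_of_pow_eq_one n h2
    have h3 := hdiv _ h1
    have h4 : u ∣ (u - 1) * m := by
      rw [show (u - 1) * (3 * m) = 3 * ((u - 1) * m) by ring] at h3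
      exact Nat.dvd_of_mul_dvd_mul_left (by norm_num) h3
    exact Nat.mul_dvd_mul_left 3 (hco.dvd_of_dvd_mul_left h4)
  · intro h
    have h3 := hdiv _ h
    rw [mul_comm (u - 1)] at h3
    have h4 := Nat.dvd_of_mul_dvd_mul_left (by norm_num) h3
    have := Nat.le_of_dvd (by omega) h4
    omega
  · rw [hp, hq]
    have h1 := cos_s hs
    have h2 := (cos_u hu).1
    intro h
    have h3 : 2 * Real.cos (2 * Real.pi / s) + 2 * Real.cos (2 * Real.pi * (u - 1) / (3 * u)) + 2 =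
        0 := by exact_mod_cast h
    linarith

/-- Existence for `(s,0), (u,u)`, `s ≥ 3`, `u ≥ 2`. -/
theorem exA {s u : ℕ} (hs : 3 ≤ s) (hu : 2 ≤ u) : Ex (latt s 0) (latt u u) := by
  obtain ⟨N, D, -, -⟩ := exists_spec hs hu
  exact (D.good.amal hs hu).ex

/-- a witness with infinite group -/
theorem amalInf {s u : ℕ} (hs : 3 ≤ s) (hu : 2 ≤ u) (h : ¬(s = 3 ∧ u = 2)) :
    ∃ r0 r1 r2 r3 : Equiv.Perm (V4 M2), Amal (latt s 0) (latt u u) r0 r1 r2 r3 ∧
      Infinite (Subgroup.closure {r0, r1, r2, r3}) := by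
  obtain ⟨N, D, hp, hq⟩ := exists_spec hs hu
  refine ⟨_, _, _, _, D.good.amal hs hu, ?_⟩
  set P : ℝ := Real.cos (2 * Real.pi / s) with hP
  set Q : ℝ := Real.cos (2 * Real.pi * (u - 1) / (3 * u)) with hQ
  have h1 : -(1 / 2) ≤ P := cos_s hs
  have h2 : -(1 / 2) < Q := (cos_u hu).1
  have h3 : Q ≤ 1 / 2 := (cos_u hu).2
  have h4 : 0 ≤ P ∨ Q ≤ 1 / 4 := by
    rcases Nat.lt_or_ge s 4 with h5 | h5
    · right
      exact cos_u3 (by omega)
    · left
      exact cos_s4 h5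
  have hpos : 0 < 2 * Q + 1 := by linarith
  refine N.infinite (c := -2 + 3 * (2 * P + 2 * Q + 2) * ((2 * Q + 1) ^ 2)⁻¹) ?_ ?_ ?_
  · have h5 : 2 * (2 * Q + 1) ^ 2 ≤ 3 * (2 * P + 2 * Q + 2) := by
      rcases h4 with h4 | h4 <;> nlinarith
    have h6 : 0 < (2 * Q + 1) ^ 2 := by positivity
    rw [← div_eq_mul_inv]
    have : 2 ≤ 3 * (2 * P + 2 * Q + 2) / (2 * Q + 1) ^ 2 := by
      rw [le_div_iff₀ h6]
      exact h5
    linarith
  · rw [hq]
    have : ((2 * Q : ℝ) : ℂ) + 1 = ((2 * Q + 1 : ℝ) : ℂ) := by push_cast; ring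
    rw [this]
    exact_mod_cast hpos.ne'
  · rw [hp, hq]
    push_cast
    ring

/-- Infinite polytopes for `(s,0), (u,u)`, `s ≥ 3`, `u ≥ 2`, `(s,u) ≠ (3,2)`. -/
theorem exInfA {s u : ℕ} (hs : 3 ≤ s) (hu : 2 ≤ u) (h : ¬(s = 3 ∧ u = 2)) :
    ExInf (latt s 0) (latt u u) := by
  obtain ⟨r0, r1, r2, r3, h1, h2⟩ := amalInf hs hu h
  exact h1.exInf h2

end Tri

end Pool.Agent.Helper622
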