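import Pool.Agent.Helper622.Tri.Defs

namespace Pool.Agent.Helper622

namespace Tri

section grp

variable {G : Type} [Group G]

/-- `l0, l1, l2` satisfy the relations of the Coxeter group `[3,6]`. -/
structure Rel (l0 l1 l2 : G) : Prop where
  i0 : l0 * l0 = 1
  i1 : l1 * l1 = 1
  i2 : l2 * l2 = 1
  c02 : l0 * l2 = l2 * l0
  h01 : l0 * l1 * l0 = l1 * l0 * l1
  h12 : (l1 * l2) ^ 6 = 1

/-- the translation `(1,0)` -/
def tX (l0 l1 l2 : G) : G := l0 * (l1 * l2 * l1 * l2 * l1)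

/-- the translation `(0,1)` -/
def tY (l0 l1 l2 : G) : G := l1 * tX l0 l1 l2 * l1

/-- normal form of the elements of `⟨l0, l1, l2⟩` -/
def ev (l0 l1 l2 : G) (x y : ℤ) (k : ZMod 6) (r : Bool) : G :=
  tX l0 l1 l2 ^ x * tY l0 l1 l2 ^ y * ((l1 * l2) ^ k.val * (if r then l2 else 1))

namespace Rel

variable {l0 l1 l2 : G} (h : Rel l0 l1 l2)
include h

theorem inv0 : l0⁻¹ = l0 := inv_eq_of_mul_eq_one_right h.i0
theorem inv1 : l1⁻¹ = l1 := inv_eq_of_mul_eq_one_right h.i1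
theorem inv2 : l2⁻¹ = l2 := inv_eq_of_mul_eq_one_right h.i2

theorem s0 (g : G) : l0 * (l0 * g) = g := by rw [← mul_assoc, h.i0, one_mul]
theorem s1 (g : G) : l1 * (l1 * g) = g := by rw [← mul_assoc, h.i1, one_mul]
theorem s2 (g : G) : l2 * (l2 * g) = g := by rw [← mul_assoc, h.i2, one_mul]

/-- the hexagon relation -/
theorem hex : l1 * l2 * l1 * l2 * l1 * l2 = l2 * l1 * l2 * l1 * l2 * l1 := by
  have h1 : (l1 * l2 * l1 * l2 * l1 * l2) * (l1 * l2 * l1 * l2 * l1 * l2) = 1 := by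
    have := h.h12
    rw [show (6 : ℕ) = 3 + 3 from rfl, pow_add] at this
    rw [← this]
    simp only [pow_succ, pow_zero, one_mul, mul_assoc]
  have h2 := eq_inv_of_mul_eq_one_left h1
  rw [h2]
  simp only [mul_inv_rev, h.inv1, h.inv2, mul_assoc]

theorem hex' (g : G) : l1 * (l2 * (l1 * (l2 * (l1 * (l2 * g))))) =
    l2 * (l1 * (l2 * (l1 * (l2 * (l1 * g))))) := by
  have := congrArg (· * g) h.hex
  simpa only [mul_assoc] using this

theorem brd (g : G) : l0 * (l1 * (l0 * g)) = l1 * (l0 * (l1 * g)) := by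
  have := congrArg (· * g) h.h01
  simpa only [mul_assoc] using this

theorem cm (g : G) : l0 * (l2 * g) = l2 * (l0 * g) := by
  rw [← mul_assoc, h.c02, mul_assoc]

theorem X_two : l2 * tX l0 l1 l2 * l2 = tX l0 l1 l2 := by
  calc l2 * tX l0 l1 l2 * l2 = (l2 * l0) * (l1 * l2 * l1 * l2 * l1 * l2) := by
        rw [tX]; simp only [mul_assoc]
    _ = (l0 * l2) * (l2 * l1 * l2 * l1 * l2 * l1) := by rw [h.hex, ← h.c02]
    _ = l0 * (l2 * (l2 * (l1 * l2 * l1 * l2 * l1))) := by simp only [mul_assoc]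
    _ = tX l0 l1 l2 := by rw [h.s2, tX]

theorem two_X : l2 * tX l0 l1 l2 = tX l0 l1 l2 * l2 := by
  have := congrArg (· * l2) h.X_two
  simpa only [mul_assoc, h.i2, mul_one] using this

theorem one_X : l1 * tX l0 l1 l2 = tY l0 l1 l2 * l1 := by
  rw [tY, mul_assoc, h.i1, mul_one]

theorem one_Y : l1 * tY l0 l1 l2 = tX l0 l1 l2 * l1 := by
  rw [tY, ← mul_assoc, ← mul_assoc, h.i1, one_mul]

theorem Y_eq : tY l0 l1 l2 = l1 * (l0 * (l1 * (l2 * (l1 * l2)))) := by
  rw [tY, tX]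
  calc l1 * (l0 * (l1 * l2 * l1 * l2 * l1)) * l1
      = l1 * l0 * l1 * l2 * l1 * l2 * (l1 * l1) := by simp only [mul_assoc]
    _ = _ := by rw [h.i1, mul_one]; simp only [mul_assoc]

theorem Y_inv : (tY l0 l1 l2)⁻¹ = l2 * (l1 * (l2 * (l1 * (l0 * l1)))) := by
  rw [h.Y_eq]
  simp only [mul_inv_rev, h.inv0, h.inv1, h.inv2, mul_assoc]

theorem X_inv : (tX l0 l1 l2)⁻¹ = (l1 * l2 * l1 * l2 * l1) * l0 := by
  rw [tX]
  simp only [mul_inv_rev, h.inv0, h.inv1, h.inv2, mul_assoc]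

theorem conj_two_Y : l2 * tY l0 l1 l2 * l2 = tX l0 l1 l2 * (tY l0 l1 l2)⁻¹ := by
  have lhs : l2 * tY l0 l1 l2 * l2 = l2 * (l1 * (l0 * (l1 * (l2 * l1)))) := by
    rw [h.Y_eq]
    simp only [mul_assoc, h.i2, mul_one]
  have rhs : tX l0 l1 l2 * (tY l0 l1 l2)⁻¹ = l2 * (l1 * (l0 * (l1 * (l2 * l1)))) := by
    rw [h.Y_inv, tX]
    simp only [mul_assoc]
    rw [h.hex' (l1 * (l2 * (l1 * (l0 * l1)))), h.s1, h.s2, h.s1, h.cm,
      ← h.cm l1, h.brd]
  rw [lhs, rhs]

theorem commXY : Commute (tX l0 l1 l2) (tY l0 l1 l2) := by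
  have h1 := h.conj_two_Y
  set X := tX l0 l1 l2 with hX
  set Y := tY l0 l1 l2 with hY
  have h2 : l2 * X * l2 = X := h.X_two
  have h3 : l2 * Y⁻¹ * l2 = Y * X⁻¹ := by
    have := congrArg (·⁻¹) h1
    simpa only [mul_inv_rev, h.inv2, inv_inv, mul_assoc] using this
  have h4 : Y = X * (Y * X⁻¹) := by
    calc Y = (l2 * l2) * Y * (l2 * l2) := by rw [h.i2, one_mul, mul_one]
      _ = l2 * (l2 * Y * l2) * l2 := by simp only [mul_assoc]
      _ = l2 * (X * Y⁻¹) * l2 := by rw [h1]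
      _ = (l2 * X * l2) * (l2 * Y⁻¹ * l2) := by
          calc l2 * (X * Y⁻¹) * l2 = l2 * X * 1 * Y⁻¹ * l2 := by group
            _ = l2 * X * (l2 * l2) * Y⁻¹ * l2 := by rw [h.i2]
            _ = _ := by simp only [mul_assoc]
      _ = X * (Y * X⁻¹) := by rw [h2, h3]
  have h5 : Y * X = X * Y := by
    calc Y * X = X * (Y * X⁻¹) * X := by rw [← h4]
      _ = X * Y := by group
  exact h5.symm

/-- the rotation -/
theorem R6 : (l1 * l2) ^ 6 = 1 := h.h12

theorem one_R (k : ℕ) : l1 * (l1 * l2) ^ k = ((l1 * l2)⁻¹) ^ k * l1 := by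
  induction k with
  | zero => simp
  | succ k ih =>
    rw [pow_succ, ← mul_assoc, ih, pow_succ]
    have : (l1 * l2)⁻¹ * l1 = l2 := by
      rw [mul_inv_rev, h.inv1, h.inv2, mul_assoc, h.i1, mul_one]
    rw [mul_assoc, mul_assoc, this, h.s1]

theorem two_R (k : ℕ) : l2 * (l1 * l2) ^ k = ((l1 * l2)⁻¹) ^ k * l2 := by
  induction k with
  | zero => simp
  | succ k ih =>
    rw [pow_succ, ← mul_assoc, ih, pow_succ]
    have : (l1 * l2)⁻¹ * l2 = l2 * (l1 * l2) := by
      rw [mul_inv_rev, h.inv1, h.inv2, mul_assoc]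
    rw [mul_assoc, mul_assoc, this]

end Rel

/-- power of the rotation with exponent in `ZMod 6` -/
def rt (l1 l2 : G) (k : ZMod 6) : G := (l1 * l2) ^ k.val

theorem ev_def (l0 l1 l2 : G) (x y : ℤ) (k : ZMod 6) (r : Bool) : ev l0 l1 l2 x y k r =
    tX l0 l1 l2 ^ x * tY l0 l1 l2 ^ y * (rt l1 l2 k * (if r then l2 else 1)) := rfl

namespace Rel

variable {l0 l1 l2 : G} (h : Rel l0 l1 l2)
include h

theorem rt_add (j k : ZMod 6) : rt l1 l2 (j + k) = rt l1 l2 j * rt l1 l2 k := by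
  rw [rt, rt, rt, ← pow_add, ZMod.val_add, ← pow_eq_pow_mod _ h.h12]

omit h in
theorem rt_zero : rt l1 l2 0 = 1 := by simp [rt]

omit h in
theorem rt_one : rt l1 l2 1 = l1 * l2 := by
  rw [rt, show (1 : ZMod 6).val = 1 from rfl, pow_one]

theorem rt_neg (k : ZMod 6) : rt l1 l2 (-k) = (rt l1 l2 k)⁻¹ := by
  rw [eq_inv_iff_mul_eq_one, ← h.rt_add, neg_add_cancel, rt_zero]

theorem two_rt (k : ZMod 6) : l2 * rt l1 l2 k = rt l1 l2 (-k) * l2 := by
  rw [h.rt_neg, rt, h.two_R, inv_pow]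

theorem one_rt (k : ZMod 6) : l1 * rt l1 l2 k = rt l1 l2 (1 - k) * l2 := by
  have e : l1 = rt l1 l2 1 * l2 := by rw [rt_one, mul_assoc, h.i2, mul_one]
  calc l1 * rt l1 l2 k = rt l1 l2 1 * (l2 * rt l1 l2 k) := by
        conv_lhs => rw [e]
        rw [mul_assoc, ← e]
    _ = rt l1 l2 (1 - k) * l2 := by rw [h.two_rt, sub_eq_add_neg, h.rt_add, mul_assoc]

/-- multiplication of the last factor by `l2` -/
theorem two_if (r : Bool) : l2 * (if r then l2 else 1) = if !r then l2 else 1 := by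
  cases r <;> simp [h.i2]

theorem conj_zpow {a : G} (ha : a * a = 1) (g : G) (n : ℤ) : a * g ^ n = (a * g * a) ^ n * a := by
  have ha' : a⁻¹ = a := inv_eq_of_mul_eq_one_right ha
  have e : a * g * a = a * g * a⁻¹ := by rw [ha']
  rw [e, _root_.conj_zpow, mul_assoc (a * g ^ n), inv_mul_cancel, mul_one]

theorem L2 (x y : ℤ) (k : ZMod 6) (r : Bool) :
    l2 * ev l0 l1 l2 x y k r = ev l0 l1 l2 (x + y) (-y) (-k) (!r) := by
  rw [ev_def, ev_def]
  have hX : l2 * tX l0 l1 l2 ^ x = tX l0 l1 l2 ^ x * l2 := by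
    rw [h.conj_zpow h.i2, h.X_two]
  have hY : l2 * tY l0 l1 l2 ^ y = tX l0 l1 l2 ^ y * tY l0 l1 l2 ^ (-y) * l2 := by
    rw [h.conj_zpow h.i2, h.conj_two_Y, h.commXY.inv_right.mul_zpow, inv_zpow, zpow_neg]
  calc l2 * (tX l0 l1 l2 ^ x * tY l0 l1 l2 ^ y * (rt l1 l2 k * (if r then l2 else 1)))
      = (l2 * tX l0 l1 l2 ^ x) * tY l0 l1 l2 ^ y * (rt l1 l2 k * (if r then l2 else 1)) := by
        simp only [mul_assoc]
    _ = tX l0 l1 l2 ^ x * (l2 * tY l0 l1 l2 ^ y) * (rt l1 l2 k * (if r then l2 else 1)) := by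
        rw [hX]; simp only [mul_assoc]
    _ = tX l0 l1 l2 ^ x * tX l0 l1 l2 ^ y * tY l0 l1 l2 ^ (-y) *
          ((l2 * rt l1 l2 k) * (if r then l2 else 1)) := by
        rw [hY]; simp only [mul_assoc]
    _ = _ := by rw [← zpow_add, h.two_rt, mul_assoc (rt l1 l2 (-k)), h.two_if]

theorem L1 (x y : ℤ) (k : ZMod 6) (r : Bool) :
    l1 * ev l0 l1 l2 x y k r = ev l0 l1 l2 y x (1 - k) (!r) := by
  rw [ev_def, ev_def]
  have hX : l1 * tX l0 l1 l2 ^ x = tY l0 l1 l2 ^ x * l1 := by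
    rw [h.conj_zpow h.i1]; rfl
  have hY : l1 * tY l0 l1 l2 ^ y = tX l0 l1 l2 ^ y * l1 := by
    rw [h.conj_zpow h.i1, h.one_Y, mul_assoc, h.i1, mul_one]
  calc l1 * (tX l0 l1 l2 ^ x * tY l0 l1 l2 ^ y * (rt l1 l2 k * (if r then l2 else 1)))
      = (l1 * tX l0 l1 l2 ^ x) * tY l0 l1 l2 ^ y * (rt l1 l2 k * (if r then l2 else 1)) := by
        simp only [mul_assoc]
    _ = tY l0 l1 l2 ^ x * (l1 * tY l0 l1 l2 ^ y) * (rt l1 l2 k * (if r then l2 else 1)) := by
        rw [hX]; simp only [mul_assoc]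
    _ = tY l0 l1 l2 ^ x * tX l0 l1 l2 ^ y *
          ((l1 * rt l1 l2 k) * (if r then l2 else 1)) := by
        rw [hY]; simp only [mul_assoc]
    _ = _ := by
      rw [h.one_rt, mul_assoc (rt l1 l2 (1 - k)), h.two_if,
        (h.commXY.zpow_zpow y x).eq]

theorem LX (x y : ℤ) (k : ZMod 6) (r : Bool) (m : ℤ) :
    tX l0 l1 l2 ^ m * ev l0 l1 l2 x y k r = ev l0 l1 l2 (m + x) y k r := by
  rw [ev_def, ev_def, zpow_add]
  simp only [mul_assoc]

theorem LY (x y : ℤ) (k : ZMod 6) (r : Bool) (m : ℤ) :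
    tY l0 l1 l2 ^ m * ev l0 l1 l2 x y k r = ev l0 l1 l2 x (m + y) k r := by
  rw [ev_def, ev_def, zpow_add]
  have := (h.commXY.zpow_zpow x m).eq
  simp only [← mul_assoc]
  rw [this]

/-- the central element times `l2` -/
theorem sigma_eq : l1 * l2 * l1 * l2 * l1 = rt l1 l2 3 * l2 := by
  rw [rt, show (3 : ZMod 6).val = 3 from rfl, pow_succ, pow_two]
  simp only [mul_assoc, h.i2, mul_one]

theorem LR (x y : ℤ) (k : ZMod 6) (r : Bool) :
    (l1 * l2) * ev l0 l1 l2 x y k r = ev l0 l1 l2 (-y) (x + y) (1 + k) r := by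
  rw [mul_assoc, h.L2, h.L1, Bool.not_not]
  congr 1
  ring

theorem L0 (x y : ℤ) (k : ZMod 6) (r : Bool) :
    l0 * ev l0 l1 l2 x y k r = ev l0 l1 l2 (1 - x - y) y (3 - k) (!r) := by
  have hs : (l1 * l2 * l1 * l2 * l1) * (l1 * l2 * l1 * l2 * l1) = 1 := by
    simp only [mul_assoc, h.s1, h.s2, h.i1]
  have e : l0 = tX l0 l1 l2 ^ (1 : ℤ) * (l1 * l2 * l1 * l2 * l1) := by
    rw [zpow_one, tX, mul_assoc, hs, mul_one]
  have e' : l0 * ev l0 l1 l2 x y k r =
      tX l0 l1 l2 ^ (1 : ℤ) * ((l1 * l2) * ((l1 * l2) * (l1 * ev l0 l1 l2 x y k r))) := by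
    calc l0 * ev l0 l1 l2 x y k r = tX l0 l1 l2 ^ (1 : ℤ) * (l1 * l2 * l1 * l2 * l1) *
          ev l0 l1 l2 x y k r := by rw [← e]
      _ = _ := by simp only [mul_assoc]
  rw [e', h.L1, h.LR, h.LR, h.LX]
  congr 1
  · ring
  · ring
  · ring

omit h in
theorem ev_zero : ev l0 l1 l2 0 0 0 false = 1 := by
  simp [ev]

/-! #### right multiplication by the generators -/

/-- direction with index in `ZMod 6`: first coordinate -/
def _root_.Pool.Agent.Helper622.Tri.dx (k : ZMod 6) : ℤ := ![1, 0, -1, -1, 0, 1] k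
/-- direction with index in `ZMod 6`: second coordinate -/
def _root_.Pool.Agent.Helper622.Tri.dy (k : ZMod 6) : ℤ := ![0, 1, 1, 0, -1, -1] k

theorem R2 (x y : ℤ) (k : ZMod 6) (r : Bool) :
    ev l0 l1 l2 x y k r * l2 = ev l0 l1 l2 x y k (!r) := by
  rw [ev_def, ev_def]
  cases r <;> simp [mul_assoc, h.i2]

theorem R1 (x y : ℤ) (k : ZMod 6) (r : Bool) :
    ev l0 l1 l2 x y k r * l1 = ev l0 l1 l2 x y (if r then k - 1 else k + 1) (!r) := by
  rw [ev_def, ev_def]
  cases r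
  · simp only [Bool.false_eq_true, if_false, mul_one, Bool.not_false, if_true, h.rt_add, rt_one]
    simp only [mul_assoc, h.i2, mul_one]
  · simp only [if_true, Bool.not_true, Bool.false_eq_true, if_false, mul_one, sub_eq_add_neg,
      h.rt_add, h.rt_neg, rt_one, mul_inv_rev, h.inv1, h.inv2]
    simp only [mul_assoc]

/-- translation by a unit vector, seen from the right -/
theorem evX (x y : ℤ) (k : ZMod 6) (r : Bool) :
    ev l0 l1 l2 x y k r * tX l0 l1 l2 = ev l0 l1 l2 (x + dx k) (y + dy k) k r := by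
  have key : ∀ (k : ZMod 6), rt l1 l2 k * tX l0 l1 l2 =
      tX l0 l1 l2 ^ dx k * tY l0 l1 l2 ^ dy k * rt l1 l2 k := by
    have step : ∀ (x y : ℤ), (l1 * l2) * (tX l0 l1 l2 ^ x * tY l0 l1 l2 ^ y) =
        tX l0 l1 l2 ^ (-y) * tY l0 l1 l2 ^ (x + y) * (l1 * l2) := by
      intro x y
      have := h.LR x y 0 false
      simp only [ev_def, rt_zero, Bool.false_eq_true, if_false, mul_one, add_zero, rt_one] at this
      exact this
    have stp : ∀ (k : ZMod 6) (x y : ℤ), rt l1 l2 k * tX l0 l1 l2 =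
        tX l0 l1 l2 ^ x * tY l0 l1 l2 ^ y * rt l1 l2 k → rt l1 l2 (1 + k) * tX l0 l1 l2 =
        tX l0 l1 l2 ^ (-y) * tY l0 l1 l2 ^ (x + y) * rt l1 l2 (1 + k) := by
      intro k x y hk
      rw [h.rt_add, rt_one, mul_assoc, hk, ← mul_assoc, step]
      simp only [mul_assoc]
    have k0 : rt l1 l2 0 * tX l0 l1 l2 = tX l0 l1 l2 ^ (1 : ℤ) * tY l0 l1 l2 ^ (0 : ℤ) *
        rt l1 l2 0 := by
      rw [rt_zero, one_mul, zpow_one, zpow_zero, mul_one, mul_one]
    have k1 := stp _ _ _ k0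
    have k2 := stp _ _ _ k1
    have k3 := stp _ _ _ k2
    have k4 := stp _ _ _ k3
    have k5 := stp _ _ _ k4
    intro k
    fin_cases k
    · exact k0
    · exact k1
    · exact k2
    · exact k3
    · exact k4
    · exact k5
  have hif : (if r then l2 else 1) * tX l0 l1 l2 = tX l0 l1 l2 * (if r then l2 else 1) := by
    cases r
    · simp
    · simp [h.two_X]
  rw [ev_def, ev_def, mul_assoc, mul_assoc (rt l1 l2 k), hif, ← mul_assoc (rt l1 l2 k), key,
    zpow_add, zpow_add]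
  have := (h.commXY.zpow_zpow (dx k) y).eq
  calc tX l0 l1 l2 ^ x * tY l0 l1 l2 ^ y * (tX l0 l1 l2 ^ dx k * tY l0 l1 l2 ^ dy k *
        rt l1 l2 k * (if r then l2 else 1))
      = tX l0 l1 l2 ^ x * (tY l0 l1 l2 ^ y * tX l0 l1 l2 ^ dx k) * tY l0 l1 l2 ^ dy k *
        (rt l1 l2 k * (if r then l2 else 1)) := by simp only [mul_assoc]
    _ = _ := by rw [← this]; simp only [mul_assoc]

theorem R0 (x y : ℤ) (k : ZMod 6) (r : Bool) :
    ev l0 l1 l2 x y k r * l0 = ev l0 l1 l2 (x + dx k) (y + dy k) (k + 3) (!r) := by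
  have hs : (l1 * l2 * l1 * l2 * l1) * (l1 * l2 * l1 * l2 * l1) = 1 := by
    simp only [mul_assoc, h.s1, h.s2, h.i1]
  have e : l0 = tX l0 l1 l2 * (l1 * l2 * l1 * l2 * l1) := by
    rw [tX, mul_assoc, hs, mul_one]
  calc ev l0 l1 l2 x y k r * l0 = ev l0 l1 l2 x y k r * tX l0 l1 l2 *
        (l1 * l2 * l1 * l2 * l1) := by rw [mul_assoc, ← e]
    _ = _ := by
      rw [h.evX]
      simp only [← mul_assoc, h.R1, h.R2]
      cases r
      · simp only [Bool.false_eq_true, if_false, Bool.not_false, if_true, Bool.not_true]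
        congr 1
        ring
      · simp only [Bool.false_eq_true, if_false, Bool.not_false, if_true, Bool.not_true]
        congr 1
        have : (3 : ZMod 6) = -3 := by decide
        rw [this]
        ring

theorem mem_L {g : G} (hg : g ∈ Subgroup.closure {l0, l1, l2}) :
    ∃ (x y : ℤ) (k : ZMod 6) (r : Bool), g = ev l0 l1 l2 x y k r := by
  induction hg using Subgroup.closure_induction_left with
  | one => exact ⟨0, 0, 0, false, ev_zero.symm⟩
  | mul_left a ha y _ ih =>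
    obtain ⟨u, v, k, r, rfl⟩ := ih
    rcases ha with rfl | rfl | rfl
    · exact ⟨_, _, _, _, h.L0 _ _ _ _⟩
    · exact ⟨_, _, _, _, h.L1 _ _ _ _⟩
    · exact ⟨_, _, _, _, h.L2 _ _ _ _⟩
  | inv_mul_cancel a ha y _ ih =>
    obtain ⟨u, v, k, r, rfl⟩ := ih
    rcases ha with rfl | rfl | rfl
    · rw [h.inv0]; exact ⟨_, _, _, _, h.L0 _ _ _ _⟩
    · rw [h.inv1]; exact ⟨_, _, _, _, h.L1 _ _ _ _⟩
    · rw [h.inv2]; exact ⟨_, _, _, _, h.L2 _ _ _ _⟩

omit h in
theorem ev_mem_of {S : Subgroup G} (m0 : l0 ∈ S) (m1 : l1 ∈ S) (m2 : l2 ∈ S) (x y : ℤ)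
    (k : ZMod 6) (r : Bool) : ev l0 l1 l2 x y k r ∈ S := by
  have mX : tX l0 l1 l2 ∈ S := S.mul_mem m0 (S.mul_mem (S.mul_mem (S.mul_mem (S.mul_mem m1 m2)
    m1) m2) m1)
  have mY : tY l0 l1 l2 ∈ S := S.mul_mem (S.mul_mem m1 mX) m1
  refine S.mul_mem (S.mul_mem (S.zpow_mem mX _) (S.zpow_mem mY _))
    (S.mul_mem (S.pow_mem (S.mul_mem m1 m2) _) ?_)
  split
  · exact m2
  · exact S.one_mem

theorem mem_H0 {g : G} : g ∈ Subgroup.closure {l1, l2} ↔
    ∃ (k : ZMod 6) (r : Bool), g = ev l0 l1 l2 0 0 k r := by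
  constructor
  · intro hg
    induction hg using Subgroup.closure_induction_left with
    | one => exact ⟨0, false, ev_zero.symm⟩
    | mul_left a ha y _ ih =>
      obtain ⟨k, r, rfl⟩ := ih
      rcases ha with rfl | rfl
      · exact ⟨_, _, h.L1 _ _ _ _⟩
      · exact ⟨_, _, h.L2 _ _ _ _⟩
    | inv_mul_cancel a ha y _ ih =>
      obtain ⟨k, r, rfl⟩ := ih
      rcases ha with rfl | rfl
      · rw [h.inv1]; exact ⟨_, _, h.L1 _ _ _ _⟩
      · rw [h.inv2]; exact ⟨_, _, h.L2 _ _ _ _⟩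
  · rintro ⟨k, r, rfl⟩
    have m1 : l1 ∈ Subgroup.closure {l1, l2} := Subgroup.subset_closure (by simp)
    have m2 : l2 ∈ Subgroup.closure {l1, l2} := Subgroup.subset_closure (by simp)
    rw [ev, zpow_zero, zpow_zero, one_mul, one_mul]
    refine Subgroup.mul_mem _ (Subgroup.pow_mem _ (Subgroup.mul_mem _ m1 m2) _) ?_
    split
    · exact m2
    · exact Subgroup.one_mem _

/-- the elements of `⟨l0, l2⟩` -/
theorem mem_H1 {g : G} (hg : g ∈ Subgroup.closure {l0, l2}) :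
    ∃ (r : Bool), g = ev l0 l1 l2 0 0 0 r ∨ g = ev l0 l1 l2 1 0 3 r := by
  have z : (-(3 : ZMod 6)) = 3 := by decide
  have z' : (3 - 3 : ZMod 6) = 0 := by decide
  induction hg using Subgroup.closure_induction_left with
  | one => exact ⟨false, Or.inl ev_zero.symm⟩
  | mul_left a ha y _ ih =>
    obtain ⟨r, rfl | rfl⟩ := ih <;> rcases ha with rfl | rfl
    · exact ⟨!r, Or.inr (by rw [h.L0]; norm_num)⟩
    · exact ⟨!r, Or.inl (by rw [h.L2]; norm_num)⟩
    · exact ⟨!r, Or.inl (by rw [h.L0, z']; norm_num)⟩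
    · exact ⟨!r, Or.inr (by rw [h.L2, z]; norm_num)⟩
  | inv_mul_cancel a ha y _ ih =>
    obtain ⟨r, rfl | rfl⟩ := ih <;> rcases ha with rfl | rfl
    · exact ⟨!r, Or.inr (by rw [h.inv0, h.L0]; norm_num)⟩
    · exact ⟨!r, Or.inl (by rw [h.inv2, h.L2]; norm_num)⟩
    · exact ⟨!r, Or.inl (by rw [h.inv0, h.L0, z']; norm_num)⟩
    · exact ⟨!r, Or.inr (by rw [h.inv2, h.L2, z]; norm_num)⟩

/-- the elements of `⟨l0, l1⟩` -/
theorem mem_H2 {g : G} (hg : g ∈ Subgroup.closure {l0, l1}) :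
    g = ev l0 l1 l2 0 0 0 false ∨ g = ev l0 l1 l2 0 0 1 true ∨ g = ev l0 l1 l2 1 0 3 true ∨
    g = ev l0 l1 l2 1 0 2 false ∨ g = ev l0 l1 l2 0 1 4 false ∨ g = ev l0 l1 l2 0 1 5 true := by
  have e : ∀ a ∈ ({l0, l1} : Set G), ∀ g, (g = ev l0 l1 l2 0 0 0 false ∨
      g = ev l0 l1 l2 0 0 1 true ∨ g = ev l0 l1 l2 1 0 3 true ∨
      g = ev l0 l1 l2 1 0 2 false ∨ g = ev l0 l1 l2 0 1 4 false ∨ g = ev l0 l1 l2 0 1 5 true) →
      (a * g = ev l0 l1 l2 0 0 0 false ∨
      a * g = ev l0 l1 l2 0 0 1 true ∨ a * g = ev l0 l1 l2 1 0 3 true ∨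
      a * g = ev l0 l1 l2 1 0 2 false ∨ a * g = ev l0 l1 l2 0 1 4 false ∨
      a * g = ev l0 l1 l2 0 1 5 true) := by
    have z1 : (3 - 0 : ZMod 6) = 3 := by decide
    have z2 : (3 - 1 : ZMod 6) = 2 := by decide
    have z3 : (3 - 3 : ZMod 6) = 0 := by decide
    have z4 : (3 - 2 : ZMod 6) = 1 := by decide
    have z5 : (3 - 4 : ZMod 6) = 5 := by decide
    have z6 : (3 - 5 : ZMod 6) = 4 := by decide
    have y1 : (1 - 0 : ZMod 6) = 1 := by decide
    have y2 : (1 - 1 : ZMod 6) = 0 := by decide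
    have y3 : (1 - 3 : ZMod 6) = 4 := by decide
    have y4 : (1 - 2 : ZMod 6) = 5 := by decide
    have y5 : (1 - 4 : ZMod 6) = 3 := by decide
    have y6 : (1 - 5 : ZMod 6) = 2 := by decide
    rintro a (rfl | rfl) g (rfl | rfl | rfl | rfl | rfl | rfl)
    · right; right; left; rw [h.L0, z1]; norm_num
    · right; right; right; left; rw [h.L0, z2]; norm_num
    · left; rw [h.L0, z3]; norm_num
    · right; left; rw [h.L0, z4]; norm_num
    · right; right; right; right; right; rw [h.L0, z5]; norm_num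
    · right; right; right; right; left; rw [h.L0, z6]; norm_num
    · right; left; rw [h.L1, y1]; norm_num
    · left; rw [h.L1, y2]; norm_num
    · right; right; right; right; left; rw [h.L1, y3]; norm_num
    · right; right; right; right; right; rw [h.L1, y4]; norm_num
    · right; right; left; rw [h.L1, y5]; norm_num
    · right; right; right; left; rw [h.L1, y6]; norm_num
  induction hg using Subgroup.closure_induction_left with
  | one => left; exact ev_zero.symm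
  | mul_left a ha y _ ih => exact e a ha y ih
  | inv_mul_cancel a ha y _ ih =>
    have ha' : a⁻¹ = a := by
      rcases ha with rfl | rfl
      · exact h.inv0
      · exact h.inv1
    rw [ha']
    exact e a ha y ih

end Rel

/-- `l0, l1, l2` satisfy the relations of the Coxeter group `[3,6]` and generate the group of the
toroidal map `{3,6}` with lattice `Λ`. -/
structure Gen (Λ : AddSubgroup (ℤ × ℤ)) (l0 l1 l2 : G) : Prop extends Rel l0 l1 l2 where
  lat : ∀ x y : ℤ, (x, y) ∈ Λ → tX l0 l1 l2 ^ x * tY l0 l1 l2 ^ y = 1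
  ker : ∀ (x y : ℤ) (k : ZMod 6) (r : Bool), ev l0 l1 l2 x y k r = 1 →
    (x, y) ∈ Λ ∧ k = 0 ∧ r = false

namespace Rel

variable {l0 l1 l2 : G} (h : Rel l0 l1 l2)
include h

/-- the elements of `⟨l0, l2⟩` as words -/
theorem mem_W1 {g : G} : g ∈ Subgroup.closure {l0, l2} ↔
    g = 1 ∨ g = l2 ∨ g = l0 ∨ g = l0 * l2 := by
  constructor
  · intro hg
    have e : ∀ a ∈ ({l0, l2} : Set G), ∀ g, (g = 1 ∨ g = l2 ∨ g = l0 ∨ g = l0 * l2) →
        (a * g = 1 ∨ a * g = l2 ∨ a * g = l0 ∨ a * g = l0 * l2) := by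
      rintro a (rfl | rfl) g (rfl | rfl | rfl | rfl)
      · right; right; left; rw [mul_one]
      · right; right; right; rfl
      · left; exact h.i0
      · right; left; exact h.s0 _
      · right; left; rw [mul_one]
      · left; exact h.i2
      · right; right; right; exact h.c02.symm
      · right; right; left; rw [h.c02, h.s2]
    induction hg using Subgroup.closure_induction_left with
    | one => exact Or.inl rfl
    | mul_left a ha y _ ih => exact e a ha y ih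
    | inv_mul_cancel a ha y _ ih =>
      have ha' : a⁻¹ = a := by
        rcases ha with rfl | rfl
        · exact h.inv0
        · exact h.inv2
      rw [ha']
      exact e a ha y ih
  · have m0 : l0 ∈ Subgroup.closure {l0, l2} := Subgroup.subset_closure (by simp)
    have m2 : l2 ∈ Subgroup.closure {l0, l2} := Subgroup.subset_closure (by simp)
    rintro (rfl | rfl | rfl | rfl)
    · exact Subgroup.one_mem _
    · exact m2
    · exact m0
    · exact Subgroup.mul_mem _ m0 m2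

/-- the elements of `⟨l0, l1⟩` as words -/
theorem mem_W2 {g : G} : g ∈ Subgroup.closure {l0, l1} ↔
    g = 1 ∨ g = l1 ∨ g = l0 ∨ g = l0 * l1 ∨ g = l1 * l0 ∨ g = l0 * l1 * l0 := by
  constructor
  · intro hg
    have e : ∀ a ∈ ({l0, l1} : Set G), ∀ g,
        (g = 1 ∨ g = l1 ∨ g = l0 ∨ g = l0 * l1 ∨ g = l1 * l0 ∨ g = l0 * l1 * l0) →
        (a * g = 1 ∨ a * g = l1 ∨ a * g = l0 ∨ a * g = l0 * l1 ∨ a * g = l1 * l0 ∨
          a * g = l0 * l1 * l0) := by
      rintro a (rfl | rfl) g (rfl | rfl | rfl | rfl | rfl | rfl)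
      · right; right; left; rw [mul_one]
      · right; right; right; left; rfl
      · left; exact h.i0
      · right; left; exact h.s0 _
      · right; right; right; right; right; rw [mul_assoc]
      · right; right; right; right; left; rw [mul_assoc, h.s0]
      · right; left; rw [mul_one]
      · left; exact h.i1
      · right; right; right; right; left; rfl
      · right; right; right; right; right; rw [h.h01, mul_assoc]
      · right; right; left; exact h.s1 _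
      · right; right; right; left; rw [h.h01, mul_assoc, h.s1]
    induction hg using Subgroup.closure_induction_left with
    | one => exact Or.inl rfl
    | mul_left a ha y _ ih => exact e a ha y ih
    | inv_mul_cancel a ha y _ ih =>
      have ha' : a⁻¹ = a := by
        rcases ha with rfl | rfl
        · exact h.inv0
        · exact h.inv1
      rw [ha']
      exact e a ha y ih
  · have m0 : l0 ∈ Subgroup.closure {l0, l1} := Subgroup.subset_closure (by simp)
    have m1 : l1 ∈ Subgroup.closure {l0, l1} := Subgroup.subset_closure (by simp)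
    rintro (rfl | rfl | rfl | rfl | rfl | rfl)
    · exact Subgroup.one_mem _
    · exact m1
    · exact m0
    · exact Subgroup.mul_mem _ m0 m1
    · exact Subgroup.mul_mem _ m1 m0
    · exact Subgroup.mul_mem _ (Subgroup.mul_mem _ m0 m1) m0

/-- the elements of `⟨l1, l2⟩` as words -/
theorem mem_W0 {g : G} : g ∈ Subgroup.closure {l1, l2} ↔
    ∃ (k : ZMod 6) (r : Bool), g = rt l1 l2 k * (if r then l2 else 1) := by
  rw [h.mem_H0]
  simp only [ev_def, zpow_zero, one_mul]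

end Rel

namespace Gen

variable {Λ : AddSubgroup (ℤ × ℤ)} {l0 l1 l2 : G} (h : Gen Λ l0 l1 l2)
include h

theorem ev_inj {x y x' y' : ℤ} {k k' : ZMod 6} {r r' : Bool}
    (he : ev l0 l1 l2 x y k r = ev l0 l1 l2 x' y' k' r') :
    (x - x', y - y') ∈ Λ ∧ k = k' ∧ r = r' := by
  have hr := h.toRel
  -- remove the translation on the right-hand side
  have h1 : ev l0 l1 l2 (x - x') (y - y') k r = ev l0 l1 l2 0 0 k' r' := by
    have h2 : tX l0 l1 l2 ^ (-x') * (tY l0 l1 l2 ^ (-y') * ev l0 l1 l2 x y k r) =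
        tX l0 l1 l2 ^ (-x') * (tY l0 l1 l2 ^ (-y') * ev l0 l1 l2 x' y' k' r') := by rw [he]
    rw [hr.LY, hr.LX, hr.LY, hr.LX] at h2
    rw [show x - x' = -x' + x by ring, show y - y' = -y' + y by ring, h2]
    congr 1 <;> ring
  generalize x - x' = a at h1 ⊢
  generalize y - y' = b at h1 ⊢
  have hz : ev l0 l1 l2 0 0 k' false * rt l1 l2 (-k') = 1 := by
    rw [ev_def, zpow_zero, zpow_zero]
    simp [hr.rt_neg]
  have hf : ∀ (k : ZMod 6) (r : Bool), ev l0 l1 l2 a b k r = ev l0 l1 l2 0 0 k' false →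
      (a, b) ∈ Λ ∧ k = k' ∧ r = false := by
    intro k r hkr
    cases r
    · have h3 : ev l0 l1 l2 a b (k + -k') false = 1 := by
        rw [← hz, ← hkr, ev_def, ev_def, hr.rt_add]
        simp [mul_assoc]
      obtain ⟨h4, h5, -⟩ := h.ker _ _ _ _ h3
      refine ⟨h4, ?_, rfl⟩
      rw [← sub_eq_add_neg, sub_eq_zero] at h5
      exact h5
    · exfalso
      have h3 : ev l0 l1 l2 a b (k + k') true = 1 := by
        rw [← hz, ← hkr, ev_def, ev_def, hr.rt_add]
        have := hr.two_rt (-k')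
        rw [neg_neg] at this
        simp only [if_true, mul_assoc]
        rw [this]
      have := (h.ker _ _ _ _ h3).2.2
      exact Bool.noConfusion this
  cases r'
  · exact hf k r h1
  · have h3 := congrArg (· * l2) h1
    simp only [hr.R2, Bool.not_true] at h3
    obtain ⟨h4, h5, h6⟩ := hf _ _ h3
    refine ⟨h4, h5, ?_⟩
    cases r
    · exact absurd h6 (by decide)
    · rfl

theorem ev_eq {x y x' y' : ℤ} (k : ZMod 6) (r : Bool) (hm : (x - x', y - y') ∈ Λ) :
    ev l0 l1 l2 x y k r = ev l0 l1 l2 x' y' k r := by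
  have h1 := h.lat _ _ hm
  rw [ev_def, ev_def]
  congr 1
  have h2 : tX l0 l1 l2 ^ x * tY l0 l1 l2 ^ y =
      tX l0 l1 l2 ^ x' * (tX l0 l1 l2 ^ (x - x') * tY l0 l1 l2 ^ (y - y')) *
        tY l0 l1 l2 ^ y' := by
    rw [← mul_assoc, ← zpow_add, mul_assoc, ← zpow_add]
    congr 2 <;> ring
  rw [h2, h1, mul_one]

end Gen

end grp

end Tri

end Pool.Agent.Helper622
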