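import Pool.Agent.Helper622.Tri.Inst

namespace Pool.Agent.Helper622

namespace Tri

/-! ### Averaging -/

section Avg

variable {V : Type} [AddCommGroup V] [Module ℝ V] [Module.Finite ℝ V]

/-- a finite group of linear permutations preserves a positive definite form -/
theorem exists_form (Γ : Subgroup (Equiv.Perm V)) [Finite Γ]
    (hadd : ∀ γ ∈ Γ, ∀ v w, γ (v + w) = γ v + γ w)
    (hsmul : ∀ γ ∈ Γ, ∀ (c : ℝ) v, γ (c • v) = c • γ v) :
    ∃ b : V → V → ℝ, (∀ u v w, b (u + v) w = b u w + b v w) ∧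
      (∀ v w, b v w = b w v) ∧ (∀ (c : ℝ) v w, b (c • v) w = c * b v w) ∧
      (∀ v, v ≠ 0 → 0 < b v v) ∧ ∀ γ ∈ Γ, ∀ v w, b (γ v) (γ w) = b v w := by
  classical
  have := Fintype.ofFinite Γ
  let e : V ≃ₗ[ℝ] EuclideanSpace ℝ (Fin (Module.finrank ℝ V)) :=
    LinearEquiv.ofFinrankEq _ _ (by simp)
  refine ⟨fun v w => ∑ γ : Γ, inner ℝ (e ((γ : Equiv.Perm V) v)) (e ((γ : Equiv.Perm V) w)),
    ?_, ?_, ?_, ?_, ?_⟩
  · intro u v w
    rw [← Finset.sum_add_distrib]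
    refine Finset.sum_congr rfl fun γ _ => ?_
    rw [hadd _ γ.2, map_add, inner_add_left]
  · intro v w
    refine Finset.sum_congr rfl fun γ _ => ?_
    rw [real_inner_comm]
  · intro c v w
    rw [Finset.mul_sum]
    refine Finset.sum_congr rfl fun γ _ => ?_
    rw [hsmul _ γ.2, map_smul, real_inner_smul_left]
  · intro v hv
    have h1 : ∀ γ : Γ, 0 ≤ inner ℝ (e ((γ : Equiv.Perm V) v)) (e ((γ : Equiv.Perm V) v)) :=
      fun γ => real_inner_self_nonneg
    refine lt_of_lt_of_le ?_ (Finset.single_le_sum (fun γ _ => h1 γ) (Finset.mem_univ (1 : Γ)))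
    have h2 : ((1 : Γ) : Equiv.Perm V) v = v := rfl
    rw [h2]
    refine real_inner_self_pos.2 ?_
    exact fun h => hv (e.map_eq_zero_iff.1 h)
  · intro γ hγ v w
    refine Fintype.sum_equiv (Equiv.mulRight (⟨γ, hγ⟩ : Γ)) _ _ fun δ => ?_
    rfl

end Avg

section Inf

variable {E : Type} [Ring E] [Algebra ℝ E] [Module.Finite ℝ E] (P : Par E)

theorem Par.lin {γ : Equiv.Perm (V4 E)} (h : γ ∈ Subgroup.closure {Par.ρ0, P.ρ1, P.ρ2, P.ρ3}) :
    (∀ v w, γ (v + w) = γ v + γ w) ∧ ∀ (c : ℝ) v, γ (c • v) = c • γ v := by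
  have key : ∀ a ∈ ({Par.ρ0, P.ρ1, P.ρ2, P.ρ3} : Set (Equiv.Perm (V4 E))),
      (∀ v w, a (v + w) = a v + a w) ∧ ∀ (c : ℝ) v, a (c • v) = c • a v := by
    rintro a (rfl | rfl | rfl | rfl)
    · constructor
      · intro v w
        simp only [Par.ρ0_apply, Par.f0]
        refine Prod.ext ?_ (Prod.ext ?_ (Prod.ext ?_ ?_)) <;> simp <;> abel
      · intro c v
        simp only [Par.ρ0_apply, Par.f0]
        refine Prod.ext ?_ (Prod.ext ?_ (Prod.ext ?_ ?_)) <;> simp [smul_add]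
    · constructor
      · intro v w
        simp only [Par.ρ1_apply, Par.f1]
        refine Prod.ext ?_ (Prod.ext ?_ (Prod.ext ?_ ?_)) <;> simp [mul_add] <;> abel
      · intro c v
        simp only [Par.ρ1_apply, Par.f1]
        refine Prod.ext ?_ (Prod.ext ?_ (Prod.ext ?_ ?_)) <;> simp [smul_add]
    · constructor
      · intro v w
        simp only [Par.ρ2_apply, Par.f2]
        refine Prod.ext ?_ (Prod.ext ?_ (Prod.ext ?_ ?_)) <;> simp [mul_add]
      · intro c v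
        simp only [Par.ρ2_apply, Par.f2]
        refine Prod.ext ?_ (Prod.ext ?_ (Prod.ext ?_ ?_)) <;> simp
    · constructor
      · intro v w
        simp only [Par.ρ3_apply, Par.f3]
        refine Prod.ext ?_ (Prod.ext ?_ (Prod.ext ?_ ?_)) <;> simp [mul_add]
      · intro c v
        simp only [Par.ρ3_apply, Par.f3]
        refine Prod.ext ?_ (Prod.ext ?_ (Prod.ext ?_ ?_)) <;> simp
  induction h using Subgroup.closure_induction with
  | mem x hx => exact key x hx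
  | one => exact ⟨fun v w => rfl, fun c v => rfl⟩
  | mul x y _ _ hx hy =>
    exact ⟨fun v w => by simp only [Equiv.Perm.mul_apply, hx.1, hy.1],
      fun c v => by simp only [Equiv.Perm.mul_apply, hx.2, hy.2]⟩
  | inv x _ hx =>
    constructor
    · intro v w
      rw [Equiv.Perm.inv_eq_iff_eq, hx.1]
      simp
    · intro c v
      rw [Equiv.Perm.inv_eq_iff_eq, hx.2]
      simp

theorem Par.infinite [Nontrivial E] {x1 x2 x3 : E} {c : ℝ} (hc : 0 ≤ c)
    (h1 : -x1 + 1 + P.g * x2 + P.g13 x3 = x1) (h2 : -x2 + 1 + P.g' * x1 + P.g23 x3 = x2)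
    (h3 : 1 + P.g31 x1 + P.g32 x2 - x3 - x3 = 0) (h0 : -1 + x1 + x2 + x3 = 1 + c • (1 : E)) :
    Infinite (Subgroup.closure {Par.ρ0, P.ρ1, P.ρ2, P.ρ3}) := by
  rw [← not_finite_iff_infinite]
  intro hfin
  obtain ⟨b, badd, bsymm, bsmul, bpos, binv⟩ := exists_form _ (fun γ h => (P.lin h).1)
    (fun γ h => (P.lin h).2)
  have badd' : ∀ u v w, b w (u + v) = b w u + b w v := by
    intro u v w
    rw [bsymm, badd, bsymm u, bsymm v]
  have bneg : ∀ v w, b (-v) w = - b v w := by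
    intro v w
    have := bsmul (-1) v w
    rwa [neg_one_smul, neg_one_mul] at this
  have m0 : Par.ρ0 ∈ Subgroup.closure {Par.ρ0, P.ρ1, P.ρ2, P.ρ3} :=
    Subgroup.subset_closure (by simp)
  have m1 : P.ρ1 ∈ Subgroup.closure {Par.ρ0, P.ρ1, P.ρ2, P.ρ3} :=
    Subgroup.subset_closure (by simp)
  have m2 : P.ρ2 ∈ Subgroup.closure {Par.ρ0, P.ρ1, P.ρ2, P.ρ3} :=
    Subgroup.subset_closure (by simp)
  have m3 : P.ρ3 ∈ Subgroup.closure {Par.ρ0, P.ρ1, P.ρ2, P.ρ3} :=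
    Subgroup.subset_closure (by simp)
  have ma2 := mul_mem (mul_mem m2 m1) m2
  have ma3 := mul_mem (mul_mem m3 ma2) m3
  set f : V4 E := (1, x1, x2, x3) with hf
  have orth : ∀ {a : Equiv.Perm (V4 E)}, a ∈ Subgroup.closure {Par.ρ0, P.ρ1, P.ρ2, P.ρ3} →
      ∀ v, a v = -v → a f = f → b v f = 0 := by
    intro a ha v hv hf
    have := binv a ha v f
    rw [hv, hf, bneg] at this
    linarith
  have f1 : P.ρ1 f = f := by
    rw [P.ρ1_apply, Par.f1]
    exact Prod.ext rfl (Prod.ext h1 (Prod.ext rfl rfl))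
  have f2 : (P.ρ2 * P.ρ1 * P.ρ2) f = f := by
    rw [P.a2_apply]
    exact Prod.ext rfl (Prod.ext rfl (Prod.ext h2 rfl))
  have f3 : (P.ρ3 * (P.ρ2 * P.ρ1 * P.ρ2) * P.ρ3) f = f := by
    rw [P.a3_apply]
    refine Prod.ext rfl (Prod.ext rfl (Prod.ext rfl ?_))
    simp only [hf, h3, add_zero]
  have o1 : b (0, x1, 0, 0) f = 0 := by
    apply orth m1 _ _ f1
    rw [P.ρ1_apply, Par.f1]
    simp
  have o2 : b (0, 0, x2, 0) f = 0 := by
    apply orth ma2 _ _ f2
    rw [P.a2_apply]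
    simp
  have o3 : b (0, 0, 0, x3) f = 0 := by
    apply orth ma3 _ _ f3
    rw [P.a3_apply]
    simp [Par.g31, Par.g32]
  have hsum : f = (1, 0, 0, 0) + (0, x1, 0, 0) + (0, 0, x2, 0) + (0, 0, 0, x3) := by
    simp [hf]
  have hb : b f f = b (1, 0, 0, 0) f := by
    nth_rewrite 1 [hsum]
    rw [badd, badd, badd, o1, o2, o3]
    ring
  have f0 : Par.ρ0 f = f + c • (1, 0, 0, 0) := by
    rw [Par.ρ0_apply, Par.f0]
    refine Prod.ext ?_ (Prod.ext ?_ (Prod.ext ?_ ?_))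
    · simpa [hf] using h0
    · simp
    · simp
    · simp
  have f0' : Par.ρ0 ((1, 0, 0, 0) : V4 E) = -(1, 0, 0, 0) := by
    rw [Par.ρ0_apply, Par.f0]
    simp
  have h5 := binv Par.ρ0 m0 (1, 0, 0, 0) f
  rw [f0, f0', bneg, badd', bsymm _ (c • _), bsmul] at h5
  have hf0 : f ≠ 0 := by
    intro h
    exact one_ne_zero (congrArg Prod.fst h)
  have he0 : ((1, 0, 0, 0) : V4 E) ≠ 0 := by
    intro h
    exact one_ne_zero (congrArg Prod.fst h)
  have h6 := bpos f hf0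
  have h7 := bpos _ he0
  rw [hb] at h6
  have h8 : 0 ≤ c * b (1, 0, 0, 0) (1, 0, 0, 0) := mul_nonneg hc h7.le
  linarith

end Inf

end Tri

end Pool.Agent.Helper622
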