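import Pool.Agent.Helper622.Tri.Rep

namespace Pool.Agent.Helper622

namespace Tri

open Matrix

/-! ### Quadratic elements of a complex algebra -/

section Quad

variable {E : Type} [Ring E] [Algebra ℂ E] {A : E} {μ ν : ℂ}

/-- `A² = (μ + ν) A - 1` with `μ ν = 1`, `μ ≠ ν` -/
structure Quad (A : E) (μ ν : ℂ) : Prop where
  sq : A * A = (μ + ν) • A - 1
  mn : μ * ν = 1
  ne : μ ≠ ν

namespace Quad

theorem symm (h : Quad A μ ν) : Quad A ν μ :=
  ⟨by rw [h.sq, add_comm], by rw [mul_comm]; exact h.mn, h.ne.symm⟩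

theorem mul_sub (h : Quad A μ ν) : A * (A - ν • (1 : E)) = μ • (A - ν • (1 : E)) := by
  rw [_root_.mul_sub, h.sq, mul_smul_comm, mul_one, smul_sub, smul_smul, h.mn, add_smul, one_smul]
  abel

theorem pow_mul_sub (h : Quad A μ ν) (n : ℕ) :
    A ^ n * (A - ν • (1 : E)) = μ ^ n • (A - ν • (1 : E)) := by
  induction n with
  | zero => simp
  | succ n ih =>
    rw [pow_succ, mul_assoc, h.mul_sub, mul_smul_comm, ih, smul_smul, pow_succ', mul_comm]

theorem pow_eq (h : Quad A μ ν) (n : ℕ) :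
    (μ - ν) • A ^ n = μ ^ n • (A - ν • (1 : E)) - ν ^ n • (A - μ • (1 : E)) := by
  rw [← h.pow_mul_sub, ← h.symm.pow_mul_sub, ← _root_.mul_sub]
  have : A - ν • (1 : E) - (A - μ • (1 : E)) = (μ - ν) • (1 : E) := by
    rw [sub_smul]; abel
  rw [this, mul_smul_comm, mul_one]

theorem pow_one (h : Quad A μ ν) {n : ℕ} (hn : μ ^ n = 1) : A ^ n = 1 := by
  have hn' : ν ^ n = 1 := by
    have := congrArg (· ^ n) h.mn
    simpa [mul_pow, hn] using this
  have h1 := h.pow_eq n
  rw [hn, hn', one_smul, one_smul] at h1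
  have : A - ν • (1 : E) - (A - μ • (1 : E)) = (μ - ν) • (1 : E) := by
    rw [sub_smul]; abel
  rw [this] at h1
  have h2 := congrArg ((μ - ν)⁻¹ • ·) h1
  simp only [smul_smul, inv_mul_cancel₀ (sub_ne_zero.2 h.ne), one_smul] at h2
  exact h2

theorem of_pow_one (h : Quad A μ ν) (hA : A ≠ ν • (1 : E)) {n : ℕ} (hn : A ^ n = 1) :
    μ ^ n = 1 := by
  have h1 := h.pow_mul_sub n
  rw [hn, one_mul] at h1
  have h2 : (μ ^ n - 1) • (A - ν • (1 : E)) = 0 := by
    rw [sub_smul, one_smul, ← h1, sub_self]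
  by_contra hc
  have h3 := congrArg ((μ ^ n - 1)⁻¹ • ·) h2
  simp only [smul_smul, inv_mul_cancel₀ (sub_ne_zero.2 hc), one_smul, smul_zero] at h3
  exact hA (sub_eq_zero.1 h3)

/-- powers of quadratic elements are quadratic -/
theorem pow_sq (h : Quad A μ ν) (n : ℕ) : A ^ n * A ^ n = (μ ^ n + ν ^ n) • A ^ n - 1 := by
  have hmn : μ ^ n * ν ^ n = 1 := by rw [← mul_pow, h.mn, one_pow]
  have key : ∀ {μ ν : ℂ}, Quad A μ ν →
      (A ^ n * A ^ n - (μ ^ n + ν ^ n) • A ^ n + 1) * (A - ν • (1 : E)) = 0 := by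
    intro μ ν h
    have hmn : μ ^ n * ν ^ n = 1 := by rw [← mul_pow, h.mn, one_pow]
    rw [add_mul, sub_mul, one_mul, mul_assoc, h.pow_mul_sub, mul_smul_comm, h.pow_mul_sub,
      smul_mul_assoc, h.pow_mul_sub, smul_smul, smul_smul]
    have : (μ ^ n + ν ^ n) * μ ^ n = μ ^ n * μ ^ n + 1 := by
      rw [add_mul, mul_comm (ν ^ n), hmn]
    rw [this, add_smul, one_smul]
    abel
  have h1 := key h
  have h2 := key h.symm
  rw [add_comm (ν ^ n)] at h2
  have h3 : (A ^ n * A ^ n - (μ ^ n + ν ^ n) • A ^ n + 1) * ((μ - ν) • (1 : E)) = 0 := by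
    have : (μ - ν) • (1 : E) = (A - ν • (1 : E)) - (A - μ • (1 : E)) := by
      rw [sub_smul]; abel
    rw [this, _root_.mul_sub, h1, h2, sub_zero]
  rw [mul_smul_comm, mul_one] at h3
  have h4 := congrArg ((μ - ν)⁻¹ • ·) h3
  simp only [smul_smul, inv_mul_cancel₀ (sub_ne_zero.2 h.ne), one_smul, smul_zero] at h4
  rw [← sub_eq_zero, ← h4]
  abel

end Quad

/-- if `B² = t B - 1` with `t ≠ 2` then `B - 1` is invertible -/
theorem quad_inv {B : E} {t : ℂ} (hB : B * B = t • B - 1) (ht : t ≠ 2) :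
    (B - 1) * ((t - 2)⁻¹ • (B + 1 - t • (1 : E))) = 1 ∧
    ((t - 2)⁻¹ • (B + 1 - t • (1 : E))) * (B - 1) = 1 := by
  have h1 : (B - 1) * (B + 1 - t • (1 : E)) = (t - 2) • (1 : E) := by
    simp only [sub_mul, mul_sub, mul_add, mul_one, one_mul, mul_smul_comm, hB, sub_smul, smul_sub]
    have : (2 : ℂ) • (1 : E) = 1 + 1 := by rw [two_smul]
    rw [this]; abel
  have h2 : (B + 1 - t • (1 : E)) * (B - 1) = (t - 2) • (1 : E) := by
    simp only [sub_mul, mul_sub, add_mul, mul_one, one_mul, smul_mul_assoc, hB, sub_smul]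
    have : (2 : ℂ) • (1 : E) = 1 + 1 := by rw [two_smul]
    rw [this]; abel
  have h3 : (t - 2)⁻¹ * (t - 2) = 1 := inv_mul_cancel₀ (sub_ne_zero.2 ht)
  constructor
  · rw [mul_smul_comm, h1, smul_smul, h3, one_smul]
  · rw [smul_mul_assoc, h2, smul_smul, h3, one_smul]

theorem quad_cancel {B : E} {t : ℂ} (hB : B * B = t • B - 1) (ht : t ≠ 2) {x : E}
    (hx : (B - 1) * x = 0) : x = 0 := by
  have h := (quad_inv hB ht).2
  have := congrArg (((t - 2)⁻¹ • (B + 1 - t • (1 : E))) * ·) hx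
  simpa only [← mul_assoc, h, one_mul, mul_zero] using this

end Quad

section Solve

variable {E : Type} [Ring E] [Algebra ℂ E]

theorem triple_zero {x : E} (h : x + x + x = 0) : x = 0 := by
  have h1 : (3 : ℂ) • x = 0 := by
    rw [← h]
    have : (3 : ℂ) = 1 + 1 + 1 := by norm_num
    rw [this, add_smul, add_smul, one_smul]
  have h2 := congrArg ((3 : ℂ)⁻¹ • ·) h1
  simpa [smul_smul] using h2

theorem third {x : E} : (3 : ℂ)⁻¹ • x + (3 : ℂ)⁻¹ • x + (3 : ℂ)⁻¹ • x = x := by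
  rw [← add_smul, ← add_smul]
  norm_num

theorem solve1 {g g' A B z y1 y2 : E} (g1 : g * g' = 1)
    (h1 : y1 + y1 + y1 = (2 + g) * z + 2 * A + g * B)
    (h2 : y2 + y2 + y2 = (2 + g') * z + g' * A + 2 * B) :
    z - y1 - y1 + g * y2 + A = 0 := by
  apply triple_zero
  have : z - y1 - y1 + g * y2 + A + (z - y1 - y1 + g * y2 + A) + (z - y1 - y1 + g * y2 + A) =
      (z + z + z) - (y1 + y1 + y1) - (y1 + y1 + y1) + g * (y2 + y2 + y2) + (A + A + A) := by
    rw [mul_add, mul_add]; abel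
  rw [this, h1, h2]
  simp only [mul_add, add_mul, two_mul, ← mul_assoc, g1, one_mul]
  abel

theorem solve2 {g g' A B z y1 y2 : E} (g2 : g' * g = 1)
    (h1 : y1 + y1 + y1 = (2 + g) * z + 2 * A + g * B)
    (h2 : y2 + y2 + y2 = (2 + g') * z + g' * A + 2 * B) :
    z + g' * y1 - y2 - y2 + B = 0 := by
  apply triple_zero
  have : z + g' * y1 - y2 - y2 + B + (z + g' * y1 - y2 - y2 + B) + (z + g' * y1 - y2 - y2 + B) =
      (z + z + z) - (y2 + y2 + y2) - (y2 + y2 + y2) + g' * (y1 + y1 + y1) + (B + B + B) := by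
    rw [mul_add, mul_add]; abel
  rw [this, h1, h2]
  simp only [mul_add, add_mul, two_mul, ← mul_assoc, g2, one_mul]
  abel

theorem solve0 {g g' A B z y1 y2 : E} {t : ℂ} (hg : g + g' = t • (1 : E)) (ht : t ≠ 2)
    (hz : z = (2 - t)⁻¹ • ((3 : ℂ) • (1 : E) + (2 + g') * A + (2 + g) * B))
    (h1 : y1 + y1 + y1 = (2 + g) * z + 2 * A + g * B)
    (h2 : y2 + y2 + y2 = (2 + g') * z + g' * A + 2 * B) :
    -z - z + y1 + y2 + 1 = 0 := by
  have h3 : (2 - t) • z = 1 + 1 + 1 + (2 + g') * A + (2 + g) * B := by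
    rw [hz, smul_smul, mul_inv_cancel₀ (sub_ne_zero.2 ht.symm), one_smul]
    congr 2
    have : (3 : ℂ) = 1 + 1 + 1 := by norm_num
    rw [this, add_smul, add_smul, one_smul]
  have h4 : (2 - t) • z = z + z - (g + g') * z := by
    rw [hg, smul_mul_assoc, one_mul, sub_smul, two_smul]
  apply triple_zero
  have : -z - z + y1 + y2 + 1 + (-z - z + y1 + y2 + 1) + (-z - z + y1 + y2 + 1) =
      (y1 + y1 + y1) + (y2 + y2 + y2) + (1 + 1 + 1) - (z + z + z + z + z + z) := by
    abel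
  rw [this, h1, h2]
  rw [h4] at h3
  simp only [add_mul, two_mul] at h3 ⊢
  rw [← sub_eq_zero] at h3
  rw [← neg_eq_zero, ← h3]
  abel

end Solve

theorem add_inv_eq_two {μ ν : ℂ} (h : μ * ν = 1) (h2 : μ + ν = 2) : μ = 1 := by
  have : (μ - 1) ^ 2 = 0 := by
    have hν : ν = 2 - μ := by linear_combination h2
    rw [hν] at h
    linear_combination -h
  have := pow_eq_zero_iff (two_ne_zero) |>.1 this
  exact sub_eq_zero.1 this

/-! ### The matrices -/

abbrev M2 := Matrix (Fin 2) (Fin 2) ℂ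

/-- the numerical data -/
structure Num where
  a : ℂ
  b : ℂ
  d : ℂ
  w : ℂ
  hw : w ^ 2 + w + 1 = 0
  hdet : a * d + b ^ 2 = 1

namespace Num

variable (N : Num)

def p : ℂ := N.a + N.d
def q : ℂ := N.a * N.w - N.d * (1 + N.w)

/-- the parameters of the representation -/
def par : Par M2 where
  g := !![N.a, N.b; -N.b, N.d]
  g' := !![N.d, -N.b; N.b, N.a]
  r2 := !![0, 1; 1, 0]
  r3 := !![0, -1 - N.w; N.w, 0]
  g1 := by
    ext i j; fin_cases i <;> fin_cases j <;> simp [Matrix.mul_apply, Fin.sum_univ_two]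
    · linear_combination N.hdet
    · ring
    · ring
    · linear_combination N.hdet
  g2 := by
    ext i j; fin_cases i <;> fin_cases j <;> simp [Matrix.mul_apply, Fin.sum_univ_two]
    · linear_combination N.hdet
    · ring
    · ring
    · linear_combination N.hdet
  q2 := by
    ext i j; fin_cases i <;> fin_cases j <;> simp [Matrix.mul_apply, Fin.sum_univ_two]
  q3 := by
    ext i j; fin_cases i <;> fin_cases j <;> simp [Matrix.mul_apply, Fin.sum_univ_two]
    · linear_combination -N.hw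
    · linear_combination -N.hw
  br := by
    ext i j; fin_cases i <;> fin_cases j <;> simp [Matrix.mul_apply, Fin.sum_univ_two]
    · linear_combination -N.hw
    · linear_combination -N.hw
  cj := by
    ext i j; fin_cases i <;> fin_cases j <;> simp [Matrix.mul_apply, Fin.sum_univ_two]

theorem g_sq : N.par.g * N.par.g = N.p • N.par.g - 1 := by
  ext i j; fin_cases i <;> fin_cases j <;> simp [par, p, Matrix.mul_apply, Fin.sum_univ_two]
  · linear_combination -N.hdet
  · ring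
  · ring
  · linear_combination -N.hdet

theorem g_add : N.par.g + N.par.g' = N.p • (1 : M2) := by
  ext i j; fin_cases i <;> fin_cases j <;> simp [par, p]
  ring

theorem H_sq : (N.par.g * N.par.r2 * N.par.r3) * (N.par.g * N.par.r2 * N.par.r3) =
    N.q • (N.par.g * N.par.r2 * N.par.r3) - 1 := by
  ext i j; fin_cases i <;> fin_cases j <;> simp [par, q, Matrix.mul_apply, Fin.sum_univ_two]
  · linear_combination (N.w + N.w ^ 2) * N.hdet + N.hw
  · ring
  · ring
  · linear_combination -N.hdet + (N.a * N.d + N.b ^ 2) * N.hw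

theorem g13_one : N.par.g13 1 = !![N.d, -N.w * N.b; (-1 - N.w) * N.b, N.a] := by
  ext i j; fin_cases i <;> fin_cases j <;>
    simp [par, Par.g13, Matrix.mul_apply, Fin.sum_univ_two]
  · linear_combination -N.d * N.hw
  · linear_combination N.b * N.hw
  · linear_combination N.b * N.hw
  · linear_combination -N.a * N.hw

theorem g23_one : N.par.g23 1 = !![N.a, (-1 - N.w) * N.b; -N.w * N.b, N.d] := by
  have : N.par.g23 1 = N.par.r2 * N.par.g13 1 * N.par.r2 := by
    simp only [Par.g23, Par.g13, mul_one, mul_assoc]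
  rw [this, g13_one]
  ext i j; fin_cases i <;> fin_cases j <;>
    simp [par, Matrix.mul_apply, Fin.sum_univ_two]

/-- trace of the vector used for the intersection property -/
theorem trace_Y : ((3 : ℂ) • (1 : M2) + (2 + N.par.g') * N.par.g13 1 +
    (2 + N.par.g) * N.par.g23 1).trace = 2 * (2 - N.q) * (N.p + N.q + 2) := by
  rw [g13_one, g23_one]
  simp [Matrix.trace, Fin.sum_univ_two, par, Matrix.mul_apply, p, q, add_mul, two_mul]
  linear_combination 2 * N.hdet + (2 * N.d ^ 2 + 2 * N.a ^ 2 - 4 * N.a * N.d) * N.hw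

end Num

/-- the third gain -/
theorem Par.K3_eq {E : Type} [Ring E] (P : Par E) :
    P.K3 = P.r3 * P.r2 * (P.g * P.r2 * P.r3) ^ 3 * (P.r2 * P.r3) := by
  have h : ∀ x : E, P.r2 * (P.g * (P.r2 * x)) = P.g' * x := by
    intro x; rw [← mul_assoc, ← mul_assoc, P.cj]
  simp only [K3, g31, g23, pow_succ, pow_zero, one_mul, mul_one, mul_assoc]
  rw [h]
  have h2 : P.r2 * (P.r3 * (P.r2 * P.r3)) = P.r3 * P.r2 := by
    rw [P.sbr, P.q3, mul_one]
  rw [h2]

/-- the spectral data -/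
structure Spec (N : Num) (s u : ℕ) where
  l : ℂ
  m : ℂ
  e : ℂ
  f : ℂ
  lm : l * m = 1
  lne : l ≠ m
  lp : l + m = N.p
  ls : l ^ s = 1
  lo : ∀ n : ℕ, l ^ n = 1 → s ∣ n
  ef : e * f = 1
  ene : e ≠ f
  eq : e + f = N.q
  eu : e ^ (3 * u) = 1
  eo : ∀ n : ℕ, e ^ n = 1 → N.w ^ n = 1 → 3 * u ∣ n
  e3 : e ^ 3 ≠ 1
  pq : N.p + N.q + 2 ≠ 0

namespace Spec

variable {N : Num} {s u : ℕ} (D : Spec N s u)
include D

theorem quad_g : Quad N.par.g D.l D.m :=
  ⟨by rw [D.lp]; exact N.g_sq, D.lm, D.lne⟩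

theorem quad_H : Quad (N.par.g * N.par.r2 * N.par.r3) D.e D.f :=
  ⟨by rw [D.eq]; exact N.H_sq, D.ef, D.ene⟩

theorem p_ne : N.p ≠ 2 := by
  intro h
  have h1 := D.lp
  rw [h] at h1
  have h2 := add_inv_eq_two D.lm h1
  have h3 : D.m = 1 := by linear_combination h1 - h2
  exact D.lne (h2.trans h3.symm)

theorem q_ne : N.q ≠ 2 := by
  intro h
  have h1 := D.eq
  rw [h] at h1
  have h2 := add_inv_eq_two D.ef h1
  have h3 : D.f = 1 := by linear_combination h1 - h2
  exact D.ene (h2.trans h3.symm)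

theorem g_ne : N.par.g ≠ D.m • (1 : M2) := by
  intro h
  have h1 : N.a = D.m := by
    have := congrFun (congrFun h 0) 0
    simpa [Num.par] using this
  have h2 : N.b = 0 := by
    have := congrFun (congrFun h 0) 1
    simpa [Num.par] using this
  have h3 : N.d = D.m := by
    have := congrFun (congrFun h 1) 1
    simpa [Num.par] using this
  have h4 := N.hdet
  rw [h1, h2, h3] at h4
  apply D.lne
  have h5 : D.m ≠ 0 := by
    intro h0
    have := D.lm
    rw [h0, mul_zero] at this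
    exact zero_ne_one this
  apply mul_right_cancel₀ h5
  rw [D.lm]
  linear_combination -h4

theorem H_ne : N.par.g * N.par.r2 * N.par.r3 ≠ D.f • (1 : M2) := by
  intro h
  have hw0 : N.w ≠ 0 := by
    intro h0
    have := N.hw
    rw [h0] at this
    norm_num at this
  have h1 : N.a * N.w = D.f := by
    have := congrFun (congrFun h 0) 0
    simpa [Num.par, Matrix.mul_apply, Fin.sum_univ_two] using this
  have h2 : N.b = 0 := by
    have := congrFun (congrFun h 1) 0
    simpa [Num.par, Matrix.mul_apply, Fin.sum_univ_two, hw0] using this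
  have h3 : N.d * (-1 - N.w) = D.f := by
    have := congrFun (congrFun h 1) 1
    simpa [Num.par, Matrix.mul_apply, Fin.sum_univ_two] using this
  have h4 := N.hdet
  rw [h2] at h4
  apply D.ene
  have h5 : D.f ≠ 0 := by
    intro h0
    have := D.ef
    rw [h0, mul_zero] at this
    exact zero_ne_one this
  apply mul_right_cancel₀ h5
  rw [D.ef]
  nth_rewrite 1 [← h1]
  rw [← h3]
  linear_combination -h4 + N.a * N.d * N.hw

theorem w_pow {n : ℕ} (h : (N.par.r3 * N.par.r2) ^ n = 1) : N.w ^ n = 1 := by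
  have e : N.par.r3 * N.par.r2 = Matrix.diagonal ![-1 - N.w, N.w] := by
    ext i j; fin_cases i <;> fin_cases j <;>
      simp [Num.par, Matrix.mul_apply, Fin.sum_univ_two]
  rw [e, Matrix.diagonal_pow] at h
  have := congrFun (congrFun h 1) 1
  simpa using this

theorem e_pow {n : ℕ} (h : (N.par.r3 * N.par.r2 * N.par.g') ^ n = 1) : D.e ^ n = 1 := by
  have h1 : (N.par.r3 * N.par.r2 * N.par.g') * (N.par.g * N.par.r2 * N.par.r3) = 1 := by
    simp only [mul_assoc]
    rw [N.par.sg', N.par.s2, N.par.q3]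
  have h2 : (N.par.g * N.par.r2 * N.par.r3) * (N.par.r3 * N.par.r2 * N.par.g') = 1 := by
    simp only [mul_assoc]
    rw [N.par.s3, N.par.s2, N.par.g1]
  have hcm : Commute (N.par.r3 * N.par.r2 * N.par.g') (N.par.g * N.par.r2 * N.par.r3) :=
    h1.trans h2.symm
  have h3 := hcm.mul_pow n
  rw [h1, one_pow, h, one_mul] at h3
  exact D.quad_H.of_pow_one D.H_ne h3.symm

theorem K_sq : N.par.K3 * N.par.K3 = (D.e ^ 3 + D.f ^ 3) • N.par.K3 - 1 := by
  have h := D.quad_H.pow_sq 3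
  have h1 : (N.par.r2 * N.par.r3) * (N.par.r3 * N.par.r2) = 1 := by
    simp only [mul_assoc]
    rw [N.par.s3, N.par.q2]
  have h2 : (N.par.r3 * N.par.r2) * (N.par.r2 * N.par.r3) = 1 := by
    simp only [mul_assoc]
    rw [N.par.s2, N.par.q3]
  rw [N.par.K3_eq]
  generalize (N.par.g * N.par.r2 * N.par.r3) ^ 3 = B at h ⊢
  generalize N.par.r2 * N.par.r3 = x at h1 h2 ⊢
  generalize N.par.r3 * N.par.r2 = y at h1 h2 ⊢
  have : y * B * x * (y * B * x) = y * (B * B) * x := by
    calc y * B * x * (y * B * x) = y * B * (x * y) * B * x := by simp only [mul_assoc]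
      _ = y * (B * B) * x := by rw [h1, mul_one]; simp only [mul_assoc]
  rw [this, h, mul_sub, sub_mul, mul_one, h2, mul_smul_comm, smul_mul_assoc]

theorem K_pow : N.par.K3 ^ u = 1 := by
  have h1 : (N.par.r2 * N.par.r3) * (N.par.r3 * N.par.r2) = 1 := by
    simp only [mul_assoc]
    rw [N.par.s3, N.par.q2]
  have h2 : (N.par.r3 * N.par.r2) * (N.par.r2 * N.par.r3) = 1 := by
    simp only [mul_assoc]
    rw [N.par.s2, N.par.q3]
  have h := D.quad_H.pow_one D.eu
  rw [pow_mul] at h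
  rw [N.par.K3_eq]
  generalize (N.par.g * N.par.r2 * N.par.r3) ^ 3 = B at h ⊢
  generalize N.par.r2 * N.par.r3 = x at h1 h2 ⊢
  generalize N.par.r3 * N.par.r2 = y at h1 h2 ⊢
  have : ∀ n : ℕ, (y * B * x) ^ n = y * B ^ n * x := by
    intro n
    induction n with
    | zero => simp [h2]
    | succ n ih =>
      rw [pow_succ, ih]
      calc y * B ^ n * x * (y * B * x) = y * B ^ n * (x * y) * B * x := by simp only [mul_assoc]
        _ = y * B ^ (n + 1) * x := by rw [h1, mul_one, pow_succ]; simp only [mul_assoc]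
  rw [this, h, mul_one, h2]

theorem y_ne : (3 : ℂ) • (1 : M2) + (2 + N.par.g') * N.par.g13 1 +
    (2 + N.par.g) * N.par.g23 1 ≠ 0 := by
  intro h
  have h1 := N.trace_Y
  rw [h, Matrix.trace_zero] at h1
  have h2 : (2 - N.q) * (N.p + N.q + 2) = 0 := by linear_combination -h1 / 2
  rcases mul_eq_zero.1 h2 with h3 | h3
  · exact D.q_ne (by linear_combination -h3)
  · exact D.pq h3

theorem g'_eq_r : N.par.g' = N.par.r2 * N.par.g * N.par.r2 := N.par.cj.symm

theorem g'_pow_sq (n : ℕ) : N.par.g' ^ n * N.par.g' ^ n =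
    (D.l ^ n + D.m ^ n) • N.par.g' ^ n - 1 := by
  have h : Quad N.par.g' D.l D.m := by
    refine ⟨?_, D.lm, D.lne⟩
    have h1 := N.g_sq
    rw [← N.par.cj]
    have : N.par.r2 * N.par.g * N.par.r2 * (N.par.r2 * N.par.g * N.par.r2) =
        N.par.r2 * (N.par.g * N.par.g) * N.par.r2 := by
      simp only [mul_assoc]
      rw [N.par.s2]
    rw [this, h1, mul_sub, sub_mul, mul_one, N.par.q2, mul_smul_comm, smul_mul_assoc, D.lp]
  exact h.pow_sq n

/-- the conditions hold -/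
noncomputable def good : Good N.par s u where
  gi := (N.p - 2)⁻¹ • (N.par.g + 1 - N.p • (1 : M2))
  gi1 := (quad_inv N.g_sq D.p_ne).1
  gi2 := (quad_inv N.g_sq D.p_ne).2
  pow_g := D.quad_g.pow_one D.ls
  ord_g := fun n hn => D.lo n (D.quad_g.of_pow_one D.g_ne hn)
  pow_K := D.K_pow
  can_K := fun x hx => by
    refine quad_cancel D.K_sq ?_ hx
    intro h
    exact D.e3 (add_inv_eq_two (by rw [← mul_pow, D.ef, one_pow]) h)
  ord_H := fun n h1 h2 => D.eo n (D.e_pow h1) (D.w_pow h2)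
  y0 := (2 - N.p)⁻¹ • ((3 : ℂ) • (1 : M2) + (2 + N.par.g') * N.par.g13 1 +
    (2 + N.par.g) * N.par.g23 1)
  y1 := (3 : ℂ)⁻¹ • ((2 + N.par.g) * ((2 - N.p)⁻¹ • ((3 : ℂ) • (1 : M2) +
    (2 + N.par.g') * N.par.g13 1 + (2 + N.par.g) * N.par.g23 1)) +
    2 * N.par.g13 1 + N.par.g * N.par.g23 1)
  y2 := (3 : ℂ)⁻¹ • ((2 + N.par.g') * ((2 - N.p)⁻¹ • ((3 : ℂ) • (1 : M2) +
    (2 + N.par.g') * N.par.g13 1 + (2 + N.par.g) * N.par.g23 1)) +
    N.par.g' * N.par.g13 1 + 2 * N.par.g23 1)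
  eq0 := solve0 N.g_add D.p_ne rfl third third
  eq1 := solve1 N.par.g1 third third
  eq2 := solve2 N.par.g2 third third
  ord_y := fun n hn => by
    by_cases hl : D.l ^ n = 1
    · have h := D.quad_g.pow_one hl
      have hcm : Commute N.par.g N.par.g' := N.par.g1.trans N.par.g2.symm
      have h1 := hcm.mul_pow n
      rw [N.par.g1, one_pow, h, one_mul] at h1
      exact h1.symm
    · exfalso
      have h1 : (N.par.g' ^ n - 1) * ((2 - N.p)⁻¹ • ((3 : ℂ) • (1 : M2) +
          (2 + N.par.g') * N.par.g13 1 + (2 + N.par.g) * N.par.g23 1)) = 0 := by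
        rw [sub_mul, one_mul, hn, sub_self]
      have h2 := quad_cancel (D.g'_pow_sq n) (fun h => hl (add_inv_eq_two
        (by rw [← mul_pow, D.lm, one_pow]) h)) h1
      have h3 := congrArg ((2 - N.p) • ·) h2
      simp only [smul_smul, mul_inv_cancel₀ (sub_ne_zero.2 D.p_ne.symm), one_smul,
        smul_zero] at h3
      exact D.y_ne h3

end Spec

end Tri

end Pool.Agent.Helper622
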