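import Pool.Agent.Helper622.Tri.FamA

namespace Pool.Agent.Helper622

namespace Tri

variable {G H : Type} [Group G] [Group H]

/-- mixing the groups of two polytopes -/
theorem Amal.mix2 {Λ₁ Λ₁' Λ₂ Λ₂' : AddSubgroup (ℤ × ℤ)} {r0 r1 r2 r3 : G} {s0 s1 s2 s3 : H}
    (h : Amal Λ₁ Λ₁' r0 r1 r2 r3) (h' : Amal Λ₂ Λ₂' s0 s1 s2 s3) :
    Amal (Λ₁ ⊓ Λ₂) (Λ₁' ⊓ Λ₂') (r0, s0) (r1, s1) (r2, s2) (r3, s3) := by
  have gA := h.genA.mix h'.genA
  have gB := h.genB.mix h'.genB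
  refine ⟨gA, gB, Prod.ext h.c03 h'.c03, ?_, fun hm => h.neA hm.1, fun hm => h.neB hm.1⟩
  intro x h1 h2
  have p1 : ∀ (S : Set (G × H)), x ∈ Subgroup.closure S → x.1 ∈ Subgroup.closure
      (Prod.fst '' S) := by
    intro S hx
    have := (MonoidHom.map_closure (MonoidHom.fst G H) S).le ⟨x, hx, rfl⟩
    exact this
  have p2 : ∀ (S : Set (G × H)), x ∈ Subgroup.closure S → x.2 ∈ Subgroup.closure
      (Prod.snd '' S) := by
    intro S hx
    have := (MonoidHom.map_closure (MonoidHom.snd G H) S).le ⟨x, hx, rfl⟩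
    exact this
  have q1 := p1 _ h1
  have q2 := p1 _ h2
  have t1 := p2 _ h1
  have t2 := p2 _ h2
  simp only [Set.image_insert_eq, Set.image_singleton] at q1 q2 t1 t2
  have q3 := h.inter _ q1 q2
  have t3 := h'.inter _ t1 t2
  rw [h.genA.toRel.mem_H0] at q3
  rw [h'.genA.toRel.mem_H0] at t3
  obtain ⟨k, r, hk⟩ := q3
  obtain ⟨l, t, hl⟩ := t3
  obtain ⟨x', y', k', r', rfl⟩ := gA.toRel.mem_L h1
  have e1 : (ev (r0, s0) (r1, s1) (r2, s2) x' y' k' r').1 = ev r0 r1 r2 x' y' k' r' :=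
    map_ev (MonoidHom.fst G H) _ _ _ _ _ _ _
  have e2 : (ev (r0, s0) (r1, s1) (r2, s2) x' y' k' r').2 = ev s0 s1 s2 x' y' k' r' :=
    map_ev (MonoidHom.snd G H) _ _ _ _ _ _ _
  rw [e1] at hk
  rw [e2] at hl
  obtain ⟨h3, -, -⟩ := h.genA.ev_inj hk
  obtain ⟨h4, -, -⟩ := h'.genA.ev_inj hl
  rw [sub_zero, sub_zero] at h3 h4
  rw [gA.toRel.mem_H0]
  refine ⟨k', r', ?_⟩
  refine gA.ev_eq _ _ ?_
  rw [sub_zero, sub_zero]
  exact ⟨h3, h4⟩

theorem inf_left {r0 r1 r2 r3 : G} {s0 s1 s2 s3 : H}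
    (h : Infinite (Subgroup.closure ({r0, r1, r2, r3} : Set G))) :
    Infinite (Subgroup.closure ({(r0, s0), (r1, s1), (r2, s2), (r3, s3)} : Set (G × H))) := by
  rw [← not_finite_iff_infinite] at h ⊢
  intro hf
  apply h
  have e := MonoidHom.map_closure (MonoidHom.fst G H) {(r0, s0), (r1, s1), (r2, s2), (r3, s3)}
  simp only [Set.image_insert_eq, Set.image_singleton, MonoidHom.coe_fst] at e
  rw [← e]
  exact Set.Finite.image (MonoidHom.fst G H) hf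

theorem inf_right {r0 r1 r2 r3 : G} {s0 s1 s2 s3 : H}
    (h : Infinite (Subgroup.closure ({s0, s1, s2, s3} : Set H))) :
    Infinite (Subgroup.closure ({(r0, s0), (r1, s1), (r2, s2), (r3, s3)} : Set (G × H))) := by
  rw [← not_finite_iff_infinite] at h ⊢
  intro hf
  apply h
  have e := MonoidHom.map_closure (MonoidHom.snd G H) {(r0, s0), (r1, s1), (r2, s2), (r3, s3)}
  simp only [Set.image_insert_eq, Set.image_singleton, MonoidHom.coe_snd] at e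
  rw [← e]
  exact Set.Finite.image (MonoidHom.snd G H) hf

/-! ### Intersections of the lattices -/

theorem latt_diag_le (u : ℕ) : latt u u ≤ latt u 0 := by
  rintro ⟨x, y⟩ h
  rw [mem_latt_diag] at h
  rw [mem_latt_zero]
  exact ⟨h.1, h.2.1⟩

theorem latt_three_le (m : ℕ) : latt (3 * m : ℕ) 0 ≤ latt m m := by
  rintro ⟨x, y⟩ h
  rw [mem_latt_zero] at h
  rw [mem_latt_diag]
  obtain ⟨⟨a, rfl⟩, ⟨b, rfl⟩⟩ := h
  push_cast
  exact ⟨⟨3 * a, by ring⟩, ⟨3 * b, by ring⟩, ⟨a - b, by ring⟩⟩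

/-- `C(s,u)` for `s, u ≥ 3` -/
theorem exInfC {s u : ℕ} (hs : 3 ≤ s) (hu : 3 ≤ u) : ExInf (latt s s) (latt u u) := by
  obtain ⟨r0, r1, r2, r3, h1, h2⟩ := amalInf hs (by omega : 2 ≤ u) (by omega)
  obtain ⟨q0, q1, q2, q3, h3, h4⟩ := amalInf hu (by omega : 2 ≤ s) (by omega)
  have h5 := h1.mix2 h3.symm
  rw [inf_eq_right.2 (latt_diag_le s), inf_eq_left.2 (latt_diag_le u)] at h5
  exact h5.exInf (inf_left h2)

/-- `B(3s,3u)` for `s, u ≥ 2` -/
theorem exInfB {s u : ℕ} (hs : 2 ≤ s) (hu : 2 ≤ u) :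
    ExInf (latt (3 * s : ℕ) 0) (latt (3 * u : ℕ) 0) := by
  obtain ⟨r0, r1, r2, r3, h1, h2⟩ := amalInf (s := 3 * s) (u := u) (by omega) hu (by omega)
  obtain ⟨q0, q1, q2, q3, h3, h4⟩ := amalInf (s := 3 * u) (u := s) (by omega) hs (by omega)
  have h5 := h1.mix2 h3.symm
  rw [inf_eq_left.2 (latt_three_le s), inf_eq_right.2 (latt_three_le u)] at h5
  exact h5.exInf (inf_left h2)

end Tri

end Pool.Agent.Helper622
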