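import Pool.Agent.Helper622.Tri.Rep

namespace Pool.Agent.Helper622

namespace Tri

/-- Nine coordinates. -/
abbrev V9 (R : Type) := R × R × R × R × R × R × R × R × R

namespace V9

variable {R : Type} [CommRing R]

def f0 : V9 R → V9 R := fun (a0, b0, a1, b1, a2, b2, a3, b3, t) =>
  (-a0 + a1 + a2 + a3,
    -b0 + b1 + b2 + b3,
    a1,
    b1,
    a2,
    b2,
    a3,
    b3,
    -t)

def f2 : V9 R → V9 R := fun (a0, b0, a1, b1, a2, b2, a3, b3, t) =>
  (a0,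
    -b0,
    a2,
    -b2,
    a1,
    -b1,
    a3,
    -b3,
    -t)

def f3 : V9 R → V9 R := fun (a0, b0, a1, b1, a2, b2, a3, b3, t) =>
  (a0 + b0,
    -b0,
    a1 + b1,
    -b1,
    a3 + b3,
    -b3,
    a2 + b2,
    -b2,
    -t)

variable (e : R)

def f1 : V9 R → V9 R := fun (a0, b0, a1, b1, a2, b2, a3, b3, t) =>
  (a0 - t,
    b0 - t,
    -a1 + a0 + (1 + e) * a2 + e * b2 - e * a3 - b3 - (1 + e) * t,
    -b1 + b0 + (e - 1) * a2 + (1 + e) * b2 + (1 - e) * a3 - b3 - (1 + e) * t,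
    a2 + e * t,
    b2 + (1 - e) * t,
    a3 - t,
    b3 + (1 - e) * t,
    -t)

/-- the translation -/
def fX : V9 R → V9 R := fun (a0, b0, a1, b1, a2, b2, a3, b3, t) =>
  (-e * a0 - (1 + e) * a1 + e * b1 - (1 + e) * a2 - e * b2 + a3,
    -e * b0 + (e - 1) * a1 - (1 + e) * b1 + (1 - e) * a2 - (1 + e) * b2 + b3 + t,
    (e - 1) * a0 + e * b0 - (1 + e) * a2 - e * b2 - (1 + e) * t,
    (e - 1) * a0 + (e - 1) * b0 + (1 - e) * a2 - (1 + e) * b2 + (1 - e) * t,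
    (e - 1) * a0 - e * b0 - (1 + e) * a1 + e * b1 + (1 + e) * t,
    (1 - e) * a0 + (e - 1) * b0 + (e - 1) * a1 - (1 + e) * b1 + (1 - e) * t,
    a3,
    b3 + (1 - e) * t,
    t)

/-- the translation of the other side -/
def fB : V9 R → V9 R := fun (a0, b0, a1, b1, a2, b2, a3, b3, t) =>
  (a0 - b0 - t,
    b0,
    a0 - b0 - e * a1 - b1 + e * b1 - a2 + b2 + a3 + e * a3 - b3,
    b0 + a1 - e * a1 + b1 + e * b1 - b2 - a3 + e * a3 - b3 + t,
    a3 - b3 - t,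
    b3,
    b0 + a2 + b2 - t,
    -a0 + e * a0 - b0 + e * b0 + a2 - e * a2 - b2 - e * b2,
    t)

/-- `ρ2 ρ1 ρ2` -/
def fM : V9 R → V9 R := fun (a0, b0, a1, b1, a2, b2, a3, b3, t) =>
  (a0 + t,
    b0 - t,
    a1 - e * t,
    b1 + t - e * t,
    a0 + a1 + e * a1 - e * b1 - a2 - e * a3 + b3 + t + e * t,
    b0 + a1 - e * a1 + b1 + e * b1 - b2 - a3 + e * a3 - b3 - t - e * t,
    a3 + t,
    b3 + t - e * t,
    -t)

theorem inv0 : Function.Involutive (f0 : V9 R → V9 R) := by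
  rintro ⟨a0, b0, a1, b1, a2, b2, a3, b3, t⟩
  simp only [f0, Prod.mk.injEq]
  and_intros <;> grind

theorem inv2 : Function.Involutive (f2 : V9 R → V9 R) := by
  rintro ⟨a0, b0, a1, b1, a2, b2, a3, b3, t⟩
  simp only [f2, Prod.mk.injEq]
  and_intros <;> grind

theorem inv3 : Function.Involutive (f3 : V9 R → V9 R) := by
  rintro ⟨a0, b0, a1, b1, a2, b2, a3, b3, t⟩
  simp only [f3, Prod.mk.injEq]
  and_intros <;> grind

/-- the translation as a linear map -/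
def LX : Module.End R (V9 R) where
  toFun := fX e
  map_add' := by
    rintro ⟨a0, b0, a1, b1, a2, b2, a3, b3, t⟩ ⟨c0, d0, c1, d1, c2, d2, c3, d3, s⟩
    simp only [fX, Prod.mk.injEq, Prod.mk_add_mk]
    and_intros <;> grind
  map_smul' := by
    rintro c ⟨a0, b0, a1, b1, a2, b2, a3, b3, t⟩
    simp only [fX, Prod.mk.injEq, Prod.smul_mk, smul_eq_mul, RingHom.id_apply]
    and_intros <;> grind

/-- the fixed vector -/
def w9 : V9 R := (0, 1, 0, 1, 0, 1, 0, 0, 0)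

theorem LX_apply (v : V9 R) : LX e v = fX e v := rfl

variable (h3 : (3 : R) = 0)
include h3

theorem LX_w9 : LX e (w9 : V9 R) = w9 := by
  simp only [LX, w9, fX, LinearMap.coe_mk, AddHom.coe_mk, Prod.mk.injEq]
  and_intros <;> grind


theorem inv1 : Function.Involutive (f1 e) := by
  rintro ⟨a0, b0, a1, b1, a2, b2, a3, b3, t⟩
  simp only [f1, Prod.mk.injEq]
  and_intros <;> grind

theorem f212 (v : V9 R) : f2 (f1 e (f2 v)) = fM e v := by
  obtain ⟨a0, b0, a1, b1, a2, b2, a3, b3, t⟩ := v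
  simp only [f1, f2, fM, Prod.mk.injEq]
  and_intros <;> grind

theorem fX_eq (v : V9 R) : f0 (f1 e (f2 (f1 e (f2 (f1 e v))))) = fX e v := by
  rw [f212 e h3]
  obtain ⟨a0, b0, a1, b1, a2, b2, a3, b3, t⟩ := v
  simp only [f0, f1, fM, fX, Prod.mk.injEq]
  and_intros <;> grind

theorem fB_eq (v : V9 R) : f3 (f2 (f1 e (f2 (f1 e (f2 v))))) = fB e v := by
  rw [f212 e h3]
  obtain ⟨a0, b0, a1, b1, a2, b2, a3, b3, t⟩ := v
  simp only [f3, f2, f1, fM, fB, Prod.mk.injEq]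
  and_intros <;> grind

theorem braid (v : V9 R) : f1 e (fM e (f1 e v)) = fM e (f1 e (fM e v)) := by
  obtain ⟨a0, b0, a1, b1, a2, b2, a3, b3, t⟩ := v
  simp only [f1, fM, Prod.mk.injEq]
  and_intros <;> grind

theorem c02 (v : V9 R) : f0 (f2 v) = f2 (f0 v) := by
  obtain ⟨a0, b0, a1, b1, a2, b2, a3, b3, t⟩ := v
  simp only [f0, f2, Prod.mk.injEq]
  and_intros <;> grind

theorem c03 (v : V9 R) : f0 (f3 v) = f3 (f0 v) := by
  obtain ⟨a0, b0, a1, b1, a2, b2, a3, b3, t⟩ := v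
  simp only [f0, f3, Prod.mk.injEq]
  and_intros <;> grind

theorem c13 (v : V9 R) : f1 e (f3 v) = f3 (f1 e v) := by
  obtain ⟨a0, b0, a1, b1, a2, b2, a3, b3, t⟩ := v
  simp only [f1, f3, Prod.mk.injEq]
  and_intros <;> grind

theorem h01 (v : V9 R) : f0 (f1 e (f0 v)) = f1 e (f0 (f1 e v)) := by
  obtain ⟨a0, b0, a1, b1, a2, b2, a3, b3, t⟩ := v
  simp only [f1, f0, Prod.mk.injEq]
  and_intros <;> grind

theorem h23 (v : V9 R) : f3 (f2 (f3 v)) = f2 (f3 (f2 v)) := by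
  obtain ⟨a0, b0, a1, b1, a2, b2, a3, b3, t⟩ := v
  simp only [f2, f3, Prod.mk.injEq]
  and_intros <;> grind

/-- the relation of the vertex-figure -/
theorem hB (v : V9 R) : fB e (fB e (f2 (fB e (fB e (f2 v))))) = v := by
  obtain ⟨a0, b0, a1, b1, a2, b2, a3, b3, t⟩ := v
  simp only [f2, fB, Prod.mk.injEq]
  and_intros <;> grind

theorem hD (v : V9 R) : fX e (fX e (fX e (fX e v))) - fX e (fX e (fX e v)) - fX e v + v +
    e • (fX e (fX e (fX e v)) + fX e (fX e v) + fX e v) = 0 := by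
  obtain ⟨a0, b0, a1, b1, a2, b2, a3, b3, t⟩ := v
  simp only [fX, Prod.mk.injEq, Prod.mk_sub_mk, Prod.mk_add_mk, Prod.smul_mk, smul_eq_mul,
    Prod.mk_eq_zero]
  and_intros <;> grind

/-! ### The group -/

def r0 : Equiv.Perm (V9 R) := (inv0 (R := R)).toPerm
def r1 : Equiv.Perm (V9 R) := (inv1 e h3).toPerm
def r2 : Equiv.Perm (V9 R) := (inv2 (R := R)).toPerm
def r3 : Equiv.Perm (V9 R) := (inv3 (R := R)).toPerm

omit h3 in
theorem r0_apply (v : V9 R) : r0 v = f0 v := rfl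
theorem r1_apply (v : V9 R) : r1 e h3 v = f1 e v := rfl
omit h3 in
theorem r2_apply (v : V9 R) : r2 v = f2 v := rfl
omit h3 in
theorem r3_apply (v : V9 R) : r3 v = f3 v := rfl

omit h3 in
theorem q0 : (r0 : Equiv.Perm (V9 R)) * r0 = 1 := Equiv.ext fun v => inv0 v
theorem q1 : r1 e h3 * r1 e h3 = 1 := Equiv.ext fun v => inv1 e h3 v
omit h3 in
theorem q2 : (r2 : Equiv.Perm (V9 R)) * r2 = 1 := Equiv.ext fun v => inv2 v
omit h3 in
theorem q3 : (r3 : Equiv.Perm (V9 R)) * r3 = 1 := Equiv.ext fun v => inv3 v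

theorem h12' : r1 e h3 * (r2 * r1 e h3 * r2) * r1 e h3 =
    (r2 * r1 e h3 * r2) * r1 e h3 * (r2 * r1 e h3 * r2) := by
  refine Equiv.ext fun v => ?_
  have e1 : ∀ v, (r2 * r1 e h3 * r2 : Equiv.Perm (V9 R)) v = fM e v := fun v => f212 e h3 v
  have e2 : ∀ (a b : Equiv.Perm (V9 R)) (v : V9 R), (a * b) v = a (b v) := fun _ _ _ => rfl
  rw [e2 (r1 e h3 * (r2 * r1 e h3 * r2)), e2 (r1 e h3), e2 ((r2 * r1 e h3 * r2) * r1 e h3),
    e2 (r2 * r1 e h3 * r2) (r1 e h3), e1, e1, e1]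
  exact braid e h3 v

theorem relA : Rel r0 (r1 e h3) r2 where
  i0 := q0
  i1 := q1 e h3
  i2 := q2
  c02 := Equiv.ext fun v => c02 h3 v
  h01 := Equiv.ext fun v => h01 e h3 v
  h12 := Par.pow_six (q1 e h3) q2 (h12' e h3)

theorem relB : Rel r3 r2 (r1 e h3) where
  i0 := q3
  i1 := q2
  i2 := q1 e h3
  c02 := (Equiv.ext fun v => c13 e h3 v : r1 e h3 * r3 = r3 * r1 e h3).symm
  h01 := Equiv.ext fun v => h23 h3 v
  h12 := by
    have e1 : r2 * r1 e h3 = (r1 e h3 * r2)⁻¹ := by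
      rw [mul_inv_rev, inv_eq_of_mul_eq_one_right (q1 e h3), inv_eq_of_mul_eq_one_right q2]
    rw [e1, inv_pow, (relA e h3).h12, inv_one]

theorem r03 : r0 * r3 = (r3 * r0 : Equiv.Perm (V9 R)) := Equiv.ext fun v => c03 h3 v

theorem tX_apply (v : V9 R) : tX r0 (r1 e h3) r2 v = fX e v := fX_eq e h3 v

theorem tXB_apply (v : V9 R) : tX r3 r2 (r1 e h3) v = fB e v := fB_eq e h3 v

/-! ### The vertex-figure side -/

theorem kerB : KerMem r3 r2 (r1 e h3) 2 2 := by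
  have h1 : tX r3 r2 (r1 e h3) ^ (2 : ℤ) * tY r3 r2 (r1 e h3) ^ (2 : ℤ) = 1 := by
    have e1 : tX r3 r2 (r1 e h3) ^ (2 : ℤ) * tY r3 r2 (r1 e h3) ^ (2 : ℤ) =
        tX r3 r2 (r1 e h3) * (tX r3 r2 (r1 e h3) * (r2 * (tX r3 r2 (r1 e h3) *
          (tX r3 r2 (r1 e h3) * r2)))) := by
      rw [zpow_two, zpow_two, tY]
      simp only [mul_assoc]
      rw [← mul_assoc r2 r2, q2, one_mul]
    rw [e1]
    refine Equiv.ext fun v => ?_
    change tX r3 r2 (r1 e h3) (tX r3 r2 (r1 e h3) (f2 (tX r3 r2 (r1 e h3)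
      (tX r3 r2 (r1 e h3) (f2 v))))) = v
    rw [tXB_apply, tXB_apply, tXB_apply, tXB_apply]
    exact hB e h3 v
  exact h1

/-! ### The facet side -/

/-- the cube of `X - 1` -/
theorem hD3 (v : V9 R) : ∃ z : V9 R, LX e (LX e (LX e v)) - v =
    e • z + v.2.2.2.2.2.2.2.2 • (w9 : V9 R) := by
  obtain ⟨a0, b0, a1, b1, a2, b2, a3, b3, t⟩ := v
  refine ⟨(a0 + e * a0 - e^2 * a0 + a1 + e * a1 - e^2 * a1 + e * b1 + e^2 * b1 + a2 + e * a2 - e^2 * a2 - e * b2 - e^2 * b2 + e * a3,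
    b0 + e * b0 - e^2 * b0 - a1 + e^2 * a1 + b1 + e * b1 - e^2 * b1 + a2 - e^2 * a2 + b2 + e * b2 - e^2 * b2 + e * b3 + t - e * t,
    a0 + e * a0 + e^2 * a0 - e * b0 + e^2 * b0 + a1 + e * a1 - e * b1 + a2 + e * a2 - e^2 * a2 - e * b2 - e^2 * b2 + a3 - e * a3 - e * b3 - t + e * t,
    a0 + e * a0 + e^2 * a0 + b0 + e * b0 + e^2 * b0 + a1 - e * a1 + b1 + e * b1 + a2 - e^2 * a2 + b2 + e * b2 - e^2 * b2 + a3 - e * a3 + b3 - e * b3 + t + e * t,
    a0 + e * a0 + e^2 * a0 + e * b0 - e^2 * b0 + a1 + e * a1 - e^2 * a1 + e * b1 + e^2 * b1 + a2 + e * a2 + e * b2 + a3 - e * a3 + e * b3 + t - e * t,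
    -a0 - e * a0 - e^2 * a0 + b0 + e * b0 + e^2 * b0 - a1 + e^2 * a1 + b1 + e * b1 - e^2 * b1 - a2 + e * a2 + b2 + e * b2 - a3 + e * a3 + b3 - e * b3 + t + e * t,
    0,
    0,
    0), ?_⟩
  simp only [LX, w9, fX, LinearMap.coe_mk, AddHom.coe_mk, Prod.mk.injEq, Prod.mk_sub_mk,
    Prod.mk_add_mk, Prod.smul_mk, smul_eq_mul]
  and_intros <;> grind

omit [CommRing R] h3 in
theorem p4 {A : Type} [Ring A] (x : A) :
    (x - 1) ^ 4 = x ^ 4 - x ^ 3 - x + 1 - 3 * (x ^ 3 - 2 * x ^ 2 + x) := by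
  have h : ((Polynomial.X - 1) ^ 4 : Polynomial ℤ) = Polynomial.X ^ 4 - Polynomial.X ^ 3 -
    Polynomial.X + 1 - 3 * (Polynomial.X ^ 3 - 2 * Polynomial.X ^ 2 + Polynomial.X) := by ring
  have h3 : (Polynomial.aeval x) (3 : Polynomial ℤ) = 3 := map_ofNat _ 3
  have h2 : (Polynomial.aeval x) (2 : Polynomial ℤ) = 2 := map_ofNat _ 2
  simpa [h2, h3] using congrArg (Polynomial.aeval x) h

omit [CommRing R] h3 in
theorem p5 {A : Type} [Ring A] (x : A) :
    x * (x - 1) ^ 2 = x ^ 3 + x ^ 2 + x - 3 * x ^ 2 := by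
  have h : (Polynomial.X * (Polynomial.X - 1) ^ 2 : Polynomial ℤ) = Polynomial.X ^ 3 +
    Polynomial.X ^ 2 + Polynomial.X - 3 * Polynomial.X ^ 2 := by ring
  have h3 : (Polynomial.aeval x) (3 : Polynomial ℤ) = 3 := map_ofNat _ 3
  have h2 : (Polynomial.aeval x) (2 : Polynomial ℤ) = 2 := map_ofNat _ 2
  simpa [h2, h3] using congrArg (Polynomial.aeval x) h

omit [CommRing R] h3 in
theorem p3 {A : Type} [Ring A] (x : A) : (x - 1) ^ 3 = x ^ 3 - 1 - 3 * (x ^ 2 - x) := by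
  have h : ((Polynomial.X - 1) ^ 3 : Polynomial ℤ) = Polynomial.X ^ 3 - 1 -
    3 * (Polynomial.X ^ 2 - Polynomial.X) := by ring
  have h3 : (Polynomial.aeval x) (3 : Polynomial ℤ) = 3 := map_ofNat _ 3
  have h2 : (Polynomial.aeval x) (2 : Polynomial ℤ) = 2 := map_ofNat _ 2
  simpa [h2, h3] using congrArg (Polynomial.aeval x) h

omit [CommRing R] h3 in
theorem p1 {A : Type} [Ring A] (x : A) : (1 + x) ^ 3 = 1 + x ^ 3 + 3 * (x + x ^ 2) := by
  have h : ((1 + Polynomial.X) ^ 3 : Polynomial ℤ) = 1 + Polynomial.X ^ 3 +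
    3 * (Polynomial.X + Polynomial.X ^ 2) := by ring
  have h3 : (Polynomial.aeval x) (3 : Polynomial ℤ) = 3 := map_ofNat _ 3
  have h2 : (Polynomial.aeval x) (2 : Polynomial ℤ) = 2 := map_ofNat _ 2
  simpa [h2, h3] using congrArg (Polynomial.aeval x) h

omit [CommRing R] h3 in
/-- cubes in characteristic three -/
theorem cube {A : Type} [Ring A] (h : (3 : A) = 0) (D : A) (k : ℕ) :
    (1 + D) ^ 3 ^ k = 1 + D ^ 3 ^ k := by
  induction k with
  | zero => simp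
  | succ k ih =>
    rw [pow_succ, pow_mul, ih, pow_mul]
    generalize D ^ 3 ^ k = y
    rw [p1, h, zero_mul, add_zero]

theorem three_end : (3 : Module.End R (V9 R)) = 0 := by
  refine LinearMap.ext fun v => ?_
  have : ((3 : ℕ) : Module.End R (V9 R)) v = (3 : ℕ) • v := Module.End.natCast_apply 3 v
  have h2 : (3 : Module.End R (V9 R)) v = (3 : ℕ) • v := by
    rw [← this]; rfl
  rw [h2, LinearMap.zero_apply, ← Nat.cast_smul_eq_nsmul R, Nat.cast_ofNat, h3, zero_smul]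

theorem D4 : (LX e - 1) ^ 4 = (-e) • (LX e * (LX e - 1) ^ 2) := by
  have h1 : (LX e) ^ 4 - (LX e) ^ 3 - LX e + 1 + e • ((LX e) ^ 3 + (LX e) ^ 2 + LX e) = 0 := by
    refine LinearMap.ext fun v => ?_
    have := hD e h3 v
    simpa [pow_succ, Module.End.mul_apply, LX_apply] using this
  have h2 := three_end h3
  rw [p4, p5, h2, zero_mul, zero_mul, sub_zero, sub_zero]
  refine LinearMap.ext fun v => ?_
  have h6 := congrArg (fun f : Module.End R (V9 R) => f v) h1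
  simp only [LinearMap.add_apply, LinearMap.sub_apply, LinearMap.smul_apply,
    LinearMap.zero_apply] at h6 ⊢
  rw [neg_smul]
  exact eq_neg_of_add_eq_zero_left h6

theorem D_odd (j : ℕ) : (LX e - 1) ^ (3 + 2 * j) =
    (-e) ^ j • ((LX e) ^ j * (LX e - 1) ^ 3) := by
  induction j with
  | zero => simp
  | succ j ih =>
    have e1 : (LX e - 1) ^ (3 + 2 * (j + 1)) = (LX e - 1) ^ (3 + 2 * j) * (LX e - 1) ^ 2 := by
      rw [← pow_add]; congr 1
    have e2 : (LX e - 1) ^ 3 * (LX e - 1) ^ 2 = (LX e - 1) ^ 4 * (LX e - 1) := by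
      rw [← pow_succ, ← pow_add]
    have hcm : Commute (LX e) (LX e - 1) := (Commute.refl _).sub_right (Commute.one_right _)
    rw [e1, ih, smul_mul_assoc, mul_assoc, e2, D4 e h3, pow_succ (-e), mul_smul]
    congr 1
    rw [smul_mul_assoc, mul_assoc, ← pow_succ, mul_smul_comm, ← mul_assoc, ← pow_succ]

theorem LX_pow_w9 (j : ℕ) : (LX e ^ j) (w9 : V9 R) = w9 := by
  induction j with
  | zero => rfl
  | succ j ih => rw [pow_succ, Module.End.mul_apply, LX_w9 e h3, ih]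

/-- powers of the translation -/
theorem LX_pow {k j : ℕ} (hk : 3 ^ k = 3 + 2 * j) (he : e ^ (j + 1) = 0) (v : V9 R) :
    (LX e ^ 3 ^ k) v = v + (v.2.2.2.2.2.2.2.2 * (-e) ^ j) • (w9 : V9 R) := by
  have h1 := cube (three_end h3) (LX e - 1) k
  rw [add_sub_cancel, hk, D_odd e h3] at h1
  rw [hk, h1, LinearMap.add_apply, Module.End.one_apply, LinearMap.smul_apply,
    Module.End.mul_apply]
  congr 1
  have h2 : ((LX e - 1) ^ 3 : Module.End R (V9 R)) v = LX e (LX e (LX e v)) - v := by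
    rw [p3, three_end h3, zero_mul, sub_zero]
    simp [pow_succ, Module.End.mul_apply]
  obtain ⟨z, hz⟩ := hD3 e h3 v
  rw [h2, hz, map_add, map_smul, map_smul, LX_pow_w9 e h3, smul_add, smul_smul, smul_smul]
  have h5 : (-e) ^ j * e = 0 := by
    rw [neg_pow, mul_assoc, ← pow_succ, he, mul_zero]
  rw [h5, zero_smul, zero_add, mul_comm]

theorem tX_pow_eq (n : ℕ) (v : V9 R) : (tX r0 (r1 e h3) r2 ^ n) v = (LX e ^ n) v := by
  induction n generalizing v with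
  | zero => rfl
  | succ n ih =>
    rw [pow_succ, pow_succ, Equiv.Perm.mul_apply, Module.End.mul_apply, ih, tX_apply, LX_apply]

theorem tX_pow {k j : ℕ} (hk : 3 ^ k = 3 + 2 * j) (he : e ^ (j + 1) = 0) (v : V9 R) :
    (tX r0 (r1 e h3) r2 ^ 3 ^ k) v = v + (v.2.2.2.2.2.2.2.2 * (-e) ^ j) • (w9 : V9 R) := by
  rw [tX_pow_eq, LX_pow e h3 hk he]

theorem kap {j : ℕ} (he : e ^ (j + 1) = 0) : (-e) ^ j * e = 0 := by
  rw [neg_pow, mul_assoc, ← pow_succ, he, mul_zero]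

theorem tY_pow {k j : ℕ} (hk : 3 ^ k = 3 + 2 * j) (he : e ^ (j + 1) = 0) (v : V9 R) :
    (tY r0 (r1 e h3) r2 ^ 3 ^ k) v = v - (v.2.2.2.2.2.2.2.2 * (-e) ^ j) • (w9 : V9 R) := by
  have e1 : tY r0 (r1 e h3) r2 ^ 3 ^ k = r1 e h3 * tX r0 (r1 e h3) r2 ^ 3 ^ k * r1 e h3 := by
    generalize 3 ^ k = n
    induction n with
    | zero => simp [q1]
    | succ n ih =>
      rw [pow_succ, ih, pow_succ, tY]
      simp only [mul_assoc]
      rw [← mul_assoc (r1 e h3) (r1 e h3), q1, one_mul]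
  have e2 : ∀ (a b : Equiv.Perm (V9 R)) (v : V9 R), (a * b) v = a (b v) := fun _ _ _ => rfl
  rw [e1, e2, e2, tX_pow e h3 hk he, r1_apply, r1_apply]
  have hκ := kap e h3 he
  generalize (-e) ^ j = κ at hκ ⊢
  obtain ⟨a0, b0, a1, b1, a2, b2, a3, b3, t⟩ := v
  simp only [f1, w9, Prod.mk.injEq, Prod.mk_sub_mk, Prod.mk_add_mk, Prod.smul_mk, smul_eq_mul]
  and_intros <;> grind

theorem ker_diag {k j : ℕ} (hk : 3 ^ k = 3 + 2 * j) (he : e ^ (j + 1) = 0) :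
    KerMem r0 (r1 e h3) r2 ((3 ^ k : ℕ) : ℤ) ((3 ^ k : ℕ) : ℤ) := by
  rw [KerMem, zpow_natCast, zpow_natCast]
  refine Equiv.ext fun v => ?_
  rw [Equiv.Perm.mul_apply, tY_pow e h3 hk he, tX_pow e h3 hk he, Equiv.Perm.one_apply]
  generalize (-e) ^ j = κ
  obtain ⟨a0, b0, a1, b1, a2, b2, a3, b3, t⟩ := v
  simp only [w9, Prod.mk.injEq, Prod.mk_sub_mk, Prod.mk_add_mk, Prod.smul_mk, smul_eq_mul]
  and_intros <;> grind

theorem order_X {k j : ℕ} (hk : 3 ^ k = 3 + 2 * j) (he : e ^ (j + 1) = 0) (he' : e ^ j ≠ 0) :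
    orderOf (tX r0 (r1 e h3) r2) = 3 ^ (k + 1) := by
  have : Fact (Nat.Prime 3) := ⟨Nat.prime_three⟩
  apply orderOf_eq_prime_pow
  · intro h
    have h1 := tX_pow e h3 hk he (0, 0, 0, 0, 0, 0, 0, 0, 1)
    rw [h, Equiv.Perm.one_apply] at h1
    simp only [w9, Prod.mk.injEq, Prod.mk_add_mk, Prod.smul_mk, smul_eq_mul] at h1
    have h2 : (-e) ^ j = 0 := by
      have := h1.2.1
      linear_combination -this
    apply he'
    rw [neg_pow] at h2
    have h4 := congrArg (fun x => (-1 : R) ^ j * x) h2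
    simp only [mul_zero, ← mul_assoc, ← mul_pow] at h4
    simpa using h4
  · rw [pow_succ, pow_mul]
    refine Equiv.ext fun v => ?_
    have e2 : ∀ (a b : Equiv.Perm (V9 R)) (v : V9 R), (a * b) v = a (b v) := fun _ _ _ => rfl
    rw [show (3 : ℕ) = 1 + 1 + 1 from rfl, pow_add, pow_add, pow_one, e2, e2,
      show (1 + 1 + 1 : ℕ) = 3 from rfl, tX_pow e h3 hk he, tX_pow e h3 hk he,
      tX_pow e h3 hk he, Equiv.Perm.one_apply]
    generalize (-e) ^ j = κ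
    obtain ⟨a0, b0, a1, b1, a2, b2, a3, b3, t⟩ := v
    simp only [w9, Prod.mk.injEq, Prod.mk_add_mk, Prod.smul_mk, smul_eq_mul]
    and_intros <;> grind

/-- the facet side -/
theorem genA {k j : ℕ} (hk : 3 ^ k = 3 + 2 * j) (he : e ^ (j + 1) = 0) (he' : e ^ j ≠ 0) :
    Gen (latt (3 ^ k : ℕ) (3 ^ k : ℕ)) r0 (r1 e h3) r2 := by
  refine (relA e h3).genDiag (by omega) (ker_diag e h3 hk he) ?_
  intro n hn
  rw [KerMem, zpow_zero, mul_one] at hn
  have h1 := orderOf_dvd_iff_zpow_eq_one.2 hn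
  rw [order_X e h3 hk he he', pow_succ] at h1
  push_cast at h1 ⊢
  rwa [mul_comm]

/-- the vertex-figure side -/
theorem genB [Nontrivial R] : Gen (latt 2 2) r3 r2 (r1 e h3) := by
  refine (relB e h3).genDiag (u := 2) le_rfl (kerB e h3) ?_
  intro n hn
  rw [KerMem, zpow_zero, mul_one] at hn
  have h1 := orderOf_dvd_iff_zpow_eq_one.2 hn
  have h6 : tX r3 r2 (r1 e h3) ^ 6 = 1 := by
    have := (relB e h3).ker_three (kerB e h3)
    rw [KerMem, zpow_zero, mul_one] at this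
    exact_mod_cast this
  have hv : ∀ v, tX r3 r2 (r1 e h3) v = fB e v := tXB_apply e h3
  have e2 : ∀ (a b : Equiv.Perm (V9 R)) (v : V9 R), (a * b) v = a (b v) := fun _ _ _ => rfl
  have h2 : tX r3 r2 (r1 e h3) ^ 2 ≠ 1 := by
    intro h
    have h9 := congrArg (fun σ : Equiv.Perm (V9 R) => (σ (0, 0, 0, 0, 0, 0, 0, 0, 1)).1) h
    simp only [pow_two, e2, hv, fB, Equiv.Perm.one_apply] at h9
    have : (1 : R) = 0 := by linear_combination h9 + h3
    exact one_ne_zero this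
  have h3' : tX r3 r2 (r1 e h3) ^ 3 ≠ 1 := by
    intro h
    have h9 := congrArg (fun σ : Equiv.Perm (V9 R) => (σ (0, 0, 0, 0, 0, 0, 0, 0, 1)).2.2.1) h
    simp only [pow_succ, pow_zero, one_mul, e2, hv, fB, Equiv.Perm.one_apply] at h9
    have : (1 : R) = 0 := by grind
    exact one_ne_zero this
  have h4 : orderOf (tX r3 r2 (r1 e h3)) = 6 := by
    have hd := orderOf_dvd_of_pow_eq_one h6
    have h5 : ¬orderOf (tX r3 r2 (r1 e h3)) ∣ 2 := fun h => h2 (orderOf_dvd_iff_pow_eq_one.1 h)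
    have h7 : ¬orderOf (tX r3 r2 (r1 e h3)) ∣ 3 := fun h => h3' (orderOf_dvd_iff_pow_eq_one.1 h)
    have h8 := Nat.le_of_dvd (by norm_num) hd
    interval_cases orderOf (tX r3 r2 (r1 e h3)) <;> first | rfl | (exfalso; omega)
  rw [h4] at h1
  exact_mod_cast h1

end V9

/-- A group of type `(3^k,3^k), (2,2)`. -/
theorem exists_nine {k : ℕ} (hk : 1 ≤ k) : ∃ (G : Type) (_ : Group G) (s0 s1 s2 s3 : G),
    Gen (latt (3 ^ k : ℕ) (3 ^ k : ℕ)) s0 s1 s2 ∧ Gen (latt 2 2) s3 s2 s1 ∧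
      s0 * s3 = s3 * s0 := by
  obtain ⟨j, hj⟩ : ∃ j, 3 ^ k = 3 + 2 * j := by
    have h1 : 3 ≤ 3 ^ k := by
      calc 3 = 3 ^ 1 := by norm_num
        _ ≤ 3 ^ k := Nat.pow_le_pow_right (by norm_num) hk
    have h2 : Odd (3 ^ k) := Odd.pow (by decide)
    obtain ⟨a, ha⟩ := h2
    exact ⟨a - 1, by omega⟩
  let I : Ideal (Polynomial (ZMod 3)) := Ideal.span {Polynomial.X ^ (j + 1)}
  let R := Polynomial (ZMod 3) ⧸ I
  let e : R := Ideal.Quotient.mk I Polynomial.X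
  have h3 : (3 : R) = 0 := by
    have h1 : (3 : Polynomial (ZMod 3)) = 0 := by
      have : (3 : ZMod 3) = 0 := by decide
      have h2 : (3 : Polynomial (ZMod 3)) = Polynomial.C (3 : ZMod 3) := (map_ofNat _ 3).symm
      rw [h2, this, map_zero]
    have h2 : (3 : R) = Ideal.Quotient.mk I 3 := (map_ofNat _ 3).symm
    rw [h2, h1, map_zero]
  have he : e ^ (j + 1) = 0 := by
    rw [← map_pow]
    exact Ideal.Quotient.eq_zero_iff_mem.2 (Ideal.subset_span rfl)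
  have he' : e ^ j ≠ 0 := by
    rw [← map_pow]
    intro h
    have h1 := Ideal.Quotient.eq_zero_iff_mem.1 h
    rw [Ideal.mem_span_singleton] at h1
    have h2 := (Polynomial.X_pow_dvd_iff.1 h1) j (by omega)
    simp at h2
  have : Nontrivial R := ⟨_, _, he'⟩
  exact ⟨Equiv.Perm (V9 R), inferInstance, V9.r0, V9.r1 e h3, V9.r2, V9.r3,
    V9.genA e h3 hj he he', V9.genB e h3, V9.r03 h3⟩

end Tri

end Pool.Agent.Helper622
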