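import Pool.Agent.Helper622.Tri.Amalgam
import Pool.Agent.Helper622.InfiniteCF

namespace Pool.Agent.Helper622

namespace Tri

variable {G H : Type} [Group G] [Group H] {Λ Λ' : AddSubgroup (ℤ × ℤ)}

theorem map_tX (φ : G →* H) (l0 l1 l2 : G) : φ (tX l0 l1 l2) = tX (φ l0) (φ l1) (φ l2) := by
  simp [tX]

theorem map_tY (φ : G →* H) (l0 l1 l2 : G) : φ (tY l0 l1 l2) = tY (φ l0) (φ l1) (φ l2) := by
  simp [tY, tX]

theorem map_ev (φ : G →* H) (l0 l1 l2 : G) (x y : ℤ) (k : ZMod 6) (r : Bool) :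
    φ (ev l0 l1 l2 x y k r) = ev (φ l0) (φ l1) (φ l2) x y k r := by
  cases r <;> simp [ev, map_tX, map_tY]

theorem Rel.map {l0 l1 l2 : G} (h : Rel l0 l1 l2) (φ : G →* H) :
    Rel (φ l0) (φ l1) (φ l2) where
  i0 := by rw [← map_mul, h.i0, map_one]
  i1 := by rw [← map_mul, h.i1, map_one]
  i2 := by rw [← map_mul, h.i2, map_one]
  c02 := by rw [← map_mul, h.c02, map_mul]
  h01 := by rw [← map_mul, ← map_mul, h.h01, map_mul, map_mul]
  h12 := by rw [← map_mul, ← map_pow, h.h12, map_one]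

theorem Rel.of_inj {l0 l1 l2 : G} {φ : G →* H} (hφ : Function.Injective φ)
    (h : Rel (φ l0) (φ l1) (φ l2)) : Rel l0 l1 l2 where
  i0 := hφ (by rw [map_mul, h.i0, map_one])
  i1 := hφ (by rw [map_mul, h.i1, map_one])
  i2 := hφ (by rw [map_mul, h.i2, map_one])
  c02 := hφ (by rw [map_mul, h.c02, map_mul])
  h01 := hφ (by rw [map_mul, map_mul, h.h01, map_mul, map_mul])
  h12 := hφ (by rw [map_pow, map_mul, h.h12, map_one])

theorem Gen.of_inj {l0 l1 l2 : G} {φ : G →* H} (hφ : Function.Injective φ)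
    (h : Gen Λ (φ l0) (φ l1) (φ l2)) : Gen Λ l0 l1 l2 where
  toRel := Rel.of_inj hφ h.toRel
  lat x y hxy := hφ (by rw [map_mul, map_zpow, map_zpow, map_tX, map_tY, h.lat x y hxy, map_one])
  ker x y k r hx := by
    have := congrArg φ hx
    rw [map_ev, map_one] at this
    exact h.ker x y k r this

/-- the mix of two groups -/
theorem Gen.mix {l0 l1 l2 : G} {l0' l1' l2' : H} (h : Gen Λ l0 l1 l2)
    (h' : Gen Λ' l0' l1' l2') : Gen (Λ ⊓ Λ') (l0, l0') (l1, l1') (l2, l2') := by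
  have e : ∀ x y k r, ev (l0, l0') (l1, l1') (l2, l2') x y k r =
      (ev l0 l1 l2 x y k r, ev l0' l1' l2' x y k r) := by
    intro x y k r
    apply Prod.ext
    · exact map_ev (MonoidHom.fst G H) _ _ _ x y k r
    · exact map_ev (MonoidHom.snd G H) _ _ _ x y k r
  refine { i0 := Prod.ext h.i0 h'.i0, i1 := Prod.ext h.i1 h'.i1, i2 := Prod.ext h.i2 h'.i2,
           c02 := Prod.ext h.c02 h'.c02, h01 := Prod.ext h.h01 h'.h01,
           h12 := Prod.ext h.h12 h'.h12, lat := ?_, ker := ?_ }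
  · rintro x y ⟨h1, h2⟩
    have e2 := e x y 0 false
    have h3 := h.lat x y h1
    have h4 := h'.lat x y h2
    rw [ev_def, ev_def, ev_def, Rel.rt_zero, Rel.rt_zero, Rel.rt_zero] at e2
    simp only [Bool.false_eq_true, if_false, mul_one] at e2
    rw [e2, h3, h4]
    rfl
  · intro x y k r hx
    rw [e] at hx
    obtain ⟨h1, h2, h3⟩ := h.ker x y k r (congrArg Prod.fst hx)
    obtain ⟨h4, -, -⟩ := h'.ker x y k r (congrArg Prod.snd hx)
    exact ⟨⟨h1, h4⟩, h2, h3⟩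

/-- mixing the group of a polytope with another one -/
theorem Amal.mix {Λ₁ Λ₁' Λ₂ Λ₂' : AddSubgroup (ℤ × ℤ)} {r0 r1 r2 r3 : G} {s0 s1 s2 s3 : H}
    (h : Amal Λ₁ Λ₁' r0 r1 r2 r3) (hA : Gen Λ₂ s0 s1 s2) (hB : Gen Λ₂' s3 s2 s1)
    (c : s0 * s3 = s3 * s0) (hle : Λ₁ ≤ Λ₂) :
    Amal Λ₁ (Λ₁' ⊓ Λ₂') (r0, s0) (r1, s1) (r2, s2) (r3, s3) := by
  have gA := h.genA.mix hA
  rw [inf_eq_left.2 hle] at gA
  have gB := h.genB.mix hB
  refine ⟨gA, gB, Prod.ext h.c03 c, ?_, h.neA, fun hm => h.neB hm.1⟩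
  intro x h1 h2
  have p1 : ∀ (S : Set (G × H)), x ∈ Subgroup.closure S → x.1 ∈ Subgroup.closure
      (Prod.fst '' S) := by
    intro S hx
    have := (MonoidHom.map_closure (MonoidHom.fst G H) S).le ⟨x, hx, rfl⟩
    exact this
  have q1 := p1 _ h1
  have q2 := p1 _ h2
  simp only [Set.image_insert_eq, Set.image_singleton] at q1 q2
  have q3 := h.inter _ q1 q2
  rw [h.genA.toRel.mem_H0] at q3
  obtain ⟨k, r, hk⟩ := q3
  obtain ⟨x', y', k', r', rfl⟩ := gA.toRel.mem_L h1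
  have e1 : (ev (r0, s0) (r1, s1) (r2, s2) x' y' k' r').1 = ev r0 r1 r2 x' y' k' r' :=
    map_ev (MonoidHom.fst G H) _ _ _ _ _ _ _
  rw [e1] at hk
  obtain ⟨h3, -, -⟩ := h.genA.ev_inj hk
  rw [sub_zero, sub_zero] at h3
  rw [gA.toRel.mem_H0]
  refine ⟨k', r', ?_⟩
  exact gA.ev_eq _ _ (by rwa [sub_zero, sub_zero])

/-- the polytope of an amalgam -/
theorem Amal.exists_polytope {r0 r1 r2 r3 : G} (h : Amal Λ Λ' r0 r1 r2 r3) :
    ∃ (h : Fact (IsStringC (sub ![r0, r1, r2, r3]))),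
      (∀ F : CF (sub ![r0, r1, r2, r3]), CF.rk F = 3 → Nonempty (Tor36 Λ ≃o Set.Iic F)) ∧
      (∀ v : CF (sub ![r0, r1, r2, r3]), CF.rk v = 0 →
        Nonempty ((Tor36 Λ')ᵒᵈ ≃o Set.Ici v)) := by
  have hs := h.isStringCIn.sub
  refine ⟨⟨hs⟩, ?_, ?_⟩
  · have : Fact (IsStringC (sub ![r0, r1, r2, r3])) := ⟨hs⟩
    exact CF.tfacet_iso (Gen.of_inj (Subgroup.subtype_injective _) h.genA)
  · have : Fact (IsStringC (sub ![r0, r1, r2, r3])) := ⟨hs⟩
    exact CF.tvertex_iso (Gen.of_inj (Subgroup.subtype_injective _) h.genB)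

/-- A regular polytope with facets `{3,6}` modulo `Λ` and vertex-figures the dual of `{3,6}`
modulo `Λ'` exists. -/
def Ex (Λ Λ' : AddSubgroup (ℤ × ℤ)) : Prop :=
  ∃ (P : Type) (_ : PartialOrder P) (X : AbstractPolytope 4 P), X.IsRegular ∧
    (∀ F : P, X.rank F = 3 → Nonempty (Tor36 Λ ≃o Set.Iic F)) ∧
    (∀ v : P, X.rank v = 0 → Nonempty ((Tor36 Λ')ᵒᵈ ≃o Set.Ici v))

/-- An infinite regular polytope with these facets and vertex-figures exists. -/
def ExInf (Λ Λ' : AddSubgroup (ℤ × ℤ)) : Prop :=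
  ∃ (P : Type) (_ : PartialOrder P) (X : AbstractPolytope 4 P), X.IsRegular ∧
    (∀ F : P, X.rank F = 3 → Nonempty (Tor36 Λ ≃o Set.Iic F)) ∧
    (∀ v : P, X.rank v = 0 → Nonempty ((Tor36 Λ')ᵒᵈ ≃o Set.Ici v)) ∧ Infinite P

theorem Amal.ex {r0 r1 r2 r3 : G} (h : Amal Λ Λ' r0 r1 r2 r3) : Ex Λ Λ' := by
  obtain ⟨h', hF, hV⟩ := h.exists_polytope
  exact ⟨CF (sub ![r0, r1, r2, r3]), inferInstance, CF.polytope, CF.isRegular, hF, hV⟩

theorem Amal.exInf {r0 r1 r2 r3 : G} (h : Amal Λ Λ' r0 r1 r2 r3)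
    (hi : Infinite (Subgroup.closure ({r0, r1, r2, r3} : Set G))) : ExInf Λ Λ' := by
  obtain ⟨h', hF, hV⟩ := h.exists_polytope
  have hi' : Infinite (par ![r0, r1, r2, r3] (Set.univ : Set (Fin 4))) := by
    have e : par ![r0, r1, r2, r3] (Set.univ : Set (Fin 4)) =
        Subgroup.closure ({r0, r1, r2, r3} : Set G) := by
      rw [par]
      congr 1
      ext x
      simp only [Set.image_univ, Set.mem_range, Set.mem_insert_iff, Set.mem_singleton_iff]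
      constructor
      · rintro ⟨i, rfl⟩
        fin_cases i <;> simp
      · rintro (rfl | rfl | rfl | rfl)
        · exact ⟨0, rfl⟩
        · exact ⟨1, rfl⟩
        · exact ⟨2, rfl⟩
        · exact ⟨3, rfl⟩
    rw [e]
    exact hi
  exact ⟨CF (sub ![r0, r1, r2, r3]), inferInstance, CF.polytope, CF.isRegular, hF, hV,
    CF.infinite h'.out⟩

end Tri

end Pool.Agent.Helper622
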