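import Pool.Agent.Helper622.Tri.Ker

namespace Pool.Agent.Helper622

namespace Tri

/-! ### The product of two reflections -/

/-- Two reflections `v ↦ v + e (φ v)`, `v ↦ v + e' (φ' v)` whose product has multiplier `K`. -/
structure Pair (E V : Type) [Ring E] [AddCommGroup V] where
  e : E →+ V
  e' : E →+ V
  φ : V →+ E
  φ' : V →+ E
  K : E
  K' : E
  k1 : K * K' = 1
  k2 : K' * K = 1
  φe : ∀ x, φ (e x) = -x - x
  φ'e' : ∀ x, φ' (e' x) = -x - x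
  φe' : ∀ x, φ (e' x) = x + K * x
  φ'e : ∀ x, φ' (e x) = x + K' * x

namespace Pair

variable {E V : Type} [Ring E] [AddCommGroup V] (P : Pair E V)

def p1 (v : V) : E := P.φ v + P.K * P.φ' v
def p2 (v : V) : E := P.φ v + P.φ' v

/-- the product of the two reflections -/
def T (v : V) : V := (v + P.e' (P.φ' v)) + P.e (P.φ (v + P.e' (P.φ' v)))

theorem p1_T (v : V) : P.p1 (P.T v) = P.K * P.p1 v := by
  simp only [p1, T, map_add, P.φe, P.φ'e', P.φe', P.φ'e]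
  generalize P.φ v = a
  generalize P.φ' v = b
  simp only [mul_add, mul_sub, mul_neg, ← mul_assoc, P.k1, one_mul]
  abel

theorem p2_T (v : V) : P.p2 (P.T v) = P.K' * P.p2 v := by
  simp only [p2, T, map_add, P.φe, P.φ'e', P.φe', P.φ'e]
  generalize P.φ v = a
  generalize P.φ' v = b
  simp only [mul_add, ← mul_assoc, P.k2, one_mul]
  abel

theorem T_iter (v : V) (n : ℕ) : P.p1 (P.T^[n] v) = P.K ^ n * P.p1 v ∧
    P.p2 (P.T^[n] v) = P.K' ^ n * P.p2 v ∧ ∃ x y, P.T^[n] v = v + P.e x + P.e' y := by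
  induction n with
  | zero => exact ⟨by simp, by simp, 0, 0, by simp⟩
  | succ n ih =>
    obtain ⟨h1, h2, x, y, h3⟩ := ih
    rw [Function.iterate_succ_apply']
    refine ⟨by rw [p1_T, h1, pow_succ', mul_assoc], by rw [p2_T, h2, pow_succ', mul_assoc], ?_⟩
    set w := P.T^[n] v
    refine ⟨x + P.φ (w + P.e' (P.φ' w)), y + P.φ' w, ?_⟩
    rw [T, map_add P.e x, map_add P.e' y]
    nth_rewrite 1 [h3]
    abel

theorem T_pow {n : ℕ} (hK : P.K ^ n = 1) (hc : ∀ x : E, (P.K - 1) * x = 0 → x = 0) (v : V) :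
    P.T^[n] v = v := by
  have hK' : P.K' ^ n = 1 := by
    have hcm : Commute P.K P.K' := P.k1.trans P.k2.symm
    have := hcm.mul_pow n
    rw [P.k1, one_pow, hK, one_mul] at this
    exact this.symm
  obtain ⟨h1, h2, x, y, h3⟩ := P.T_iter v n
  rw [hK, one_mul, h3] at h1
  rw [hK', one_mul, h3] at h2
  simp only [p1, p2, map_add, P.φe, P.φ'e', P.φe', P.φ'e] at h1 h2
  have e1 : (P.K - 1) * (x - y) = 0 := by
    have h4 : P.φ v + (-x - x) + (y + P.K * y) + P.K * (P.φ' v + (x + P.K' * x) + (-y - y)) -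
        (P.φ v + P.K * P.φ' v) = 0 := sub_eq_zero.2 h1
    rw [← h4]
    simp only [mul_add, mul_sub, sub_mul, one_mul, mul_neg, ← mul_assoc, P.k1]
    abel
  have hxy : x = y := sub_eq_zero.1 (hc _ e1)
  subst hxy
  have e2 : (P.K - 1) * ((P.K - 1) * (P.K' * x)) = 0 := by
    have h4 : P.φ v + (-x - x) + (x + P.K * x) + (P.φ' v + (x + P.K' * x) + (-x - x)) -
        (P.φ v + P.φ' v) = 0 := sub_eq_zero.2 h2
    rw [← h4]
    simp only [mul_sub, sub_mul, one_mul, ← mul_assoc, P.k1]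
    abel_nf
    try simp only [mul_assoc, P.k1, mul_one]
  have e3 : P.K' * x = 0 := hc _ (hc _ e2)
  have e4 : x = 0 := by
    have := congrArg (P.K * ·) e3
    simp only [← mul_assoc, P.k1, one_mul, mul_zero] at this
    exact this
  rw [h3, e4, map_zero, map_zero, add_zero, add_zero]

end Pair

/-! ### The representation on `E^4` -/

/-- four coordinates -/
abbrev V4 (E : Type) := E × E × E × E

/-- Parameters: units `g`, `r2`, `r3` of a ring. -/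
structure Par (E : Type) [Ring E] where
  g : E
  g' : E
  r2 : E
  r3 : E
  g1 : g * g' = 1
  g2 : g' * g = 1
  q2 : r2 * r2 = 1
  q3 : r3 * r3 = 1
  br : r2 * r3 * r2 = r3 * r2 * r3
  cj : r2 * g * r2 = g'

namespace Par

variable {E : Type} [Ring E] (P : Par E)

def f0 (v : V4 E) : V4 E := (-v.1 + v.2.1 + v.2.2.1 + v.2.2.2, v.2.1, v.2.2.1, v.2.2.2)
def f1 (v : V4 E) : V4 E :=
  (v.1, -v.2.1 + v.1 + P.g * v.2.2.1 + P.r3 * (P.g * (P.r3 * v.2.2.2)), v.2.2.1, v.2.2.2)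
def f2 (v : V4 E) : V4 E := (P.r2 * v.1, P.r2 * v.2.2.1, P.r2 * v.2.1, P.r2 * v.2.2.2)
def f3 (v : V4 E) : V4 E := (P.r3 * v.1, P.r3 * v.2.1, P.r3 * v.2.2.2, P.r3 * v.2.2.1)

theorem s2 (x : E) : P.r2 * (P.r2 * x) = x := by rw [← mul_assoc, P.q2, one_mul]
theorem s3 (x : E) : P.r3 * (P.r3 * x) = x := by rw [← mul_assoc, P.q3, one_mul]
theorem sg (x : E) : P.g * (P.g' * x) = x := by rw [← mul_assoc, P.g1, one_mul]
theorem sg' (x : E) : P.g' * (P.g * x) = x := by rw [← mul_assoc, P.g2, one_mul]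
theorem sbr (x : E) : P.r2 * (P.r3 * (P.r2 * x)) = P.r3 * (P.r2 * (P.r3 * x)) := by
  have := congrArg (· * x) P.br
  simpa only [mul_assoc] using this
theorem cj' : P.r2 * P.g = P.g' * P.r2 := by
  rw [← P.cj, mul_assoc, P.q2, mul_one]
theorem scj (x : E) : P.r2 * (P.g * x) = P.g' * (P.r2 * x) := by
  rw [← mul_assoc, P.cj', mul_assoc]
theorem scj' (x : E) : P.r2 * (P.g' * x) = P.g * (P.r2 * x) := by
  have := P.scj (P.r2 * x)
  rw [← P.sg (P.r2 * x)]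
  have h2 : P.r2 * (P.g * (P.r2 * x)) = P.g' * x := by rw [P.scj, P.s2]
  rw [← h2, P.s2, P.sg]

omit [Ring E] in
theorem involutive_f0 [Ring E] : Function.Involutive (f0 : V4 E → V4 E) := by
  intro v
  refine Prod.ext ?_ (Prod.ext ?_ (Prod.ext ?_ ?_)) <;>
    first | rfl | (simp only [f0] <;> abel)

theorem involutive_f1 : Function.Involutive P.f1 := by
  intro v
  refine Prod.ext ?_ (Prod.ext ?_ (Prod.ext ?_ ?_)) <;>
    first | rfl | (simp only [f1] <;> abel)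

theorem involutive_f2 : Function.Involutive P.f2 := by
  intro v
  refine Prod.ext ?_ (Prod.ext ?_ (Prod.ext ?_ ?_)) <;>
    first | rfl | (simp only [f2, P.s2] <;> abel)

theorem involutive_f3 : Function.Involutive P.f3 := by
  intro v
  refine Prod.ext ?_ (Prod.ext ?_ (Prod.ext ?_ ?_)) <;>
    first | rfl | (simp only [f3, P.s3] <;> abel)

def ρ0 : Equiv.Perm (V4 E) := (involutive_f0 (E := E)).toPerm
def ρ1 : Equiv.Perm (V4 E) := P.involutive_f1.toPerm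
def ρ2 : Equiv.Perm (V4 E) := P.involutive_f2.toPerm
def ρ3 : Equiv.Perm (V4 E) := P.involutive_f3.toPerm

theorem ρ0_apply (v : V4 E) : (ρ0 : Equiv.Perm (V4 E)) v = f0 v := rfl
theorem ρ1_apply (v : V4 E) : P.ρ1 v = P.f1 v := rfl
theorem ρ2_apply (v : V4 E) : P.ρ2 v = P.f2 v := rfl
theorem ρ3_apply (v : V4 E) : P.ρ3 v = P.f3 v := rfl

theorem i0 : (ρ0 : Equiv.Perm (V4 E)) * ρ0 = 1 := Equiv.ext fun v => involutive_f0 v
theorem i1 : P.ρ1 * P.ρ1 = 1 := Equiv.ext fun v => P.involutive_f1 v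
theorem i2 : P.ρ2 * P.ρ2 = 1 := Equiv.ext fun v => P.involutive_f2 v
theorem i3 : P.ρ3 * P.ρ3 = 1 := Equiv.ext fun v => P.involutive_f3 v

theorem c02 : ρ0 * P.ρ2 = P.ρ2 * ρ0 := by
  refine Equiv.ext fun v => Prod.ext ?_ (Prod.ext ?_ (Prod.ext ?_ ?_)) <;>
    simp only [Equiv.Perm.mul_apply, ρ0_apply, ρ2_apply, f0, f2, mul_add, mul_neg] <;> abel

theorem c03 : ρ0 * P.ρ3 = P.ρ3 * ρ0 := by
  refine Equiv.ext fun v => Prod.ext ?_ (Prod.ext ?_ (Prod.ext ?_ ?_)) <;>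
    simp only [Equiv.Perm.mul_apply, ρ0_apply, ρ3_apply, f0, f3, mul_add, mul_neg] <;> abel

theorem c13 : P.ρ1 * P.ρ3 = P.ρ3 * P.ρ1 := by
  refine Equiv.ext fun v => Prod.ext ?_ (Prod.ext ?_ (Prod.ext ?_ ?_)) <;>
    simp only [Equiv.Perm.mul_apply, ρ1_apply, ρ3_apply, f1, f3, mul_add, mul_neg, P.s3] <;> abel

theorem h01 : ρ0 * P.ρ1 * ρ0 = P.ρ1 * ρ0 * P.ρ1 := by
  refine Equiv.ext fun v => Prod.ext ?_ (Prod.ext ?_ (Prod.ext ?_ ?_)) <;>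
    simp only [Equiv.Perm.mul_apply, ρ0_apply, ρ1_apply, f0, f1] <;> abel

theorem h23 : P.ρ3 * P.ρ2 * P.ρ3 = P.ρ2 * P.ρ3 * P.ρ2 := by
  refine Equiv.ext fun v => Prod.ext ?_ (Prod.ext ?_ (Prod.ext ?_ ?_)) <;>
    simp only [Equiv.Perm.mul_apply, ρ2_apply, ρ3_apply, f2, f3, P.sbr]

/-- the reflection `ρ2 ρ1 ρ2` -/
theorem a2_apply (v : V4 E) : (P.ρ2 * P.ρ1 * P.ρ2) v =
    (v.1, v.2.1, -v.2.2.1 + v.1 + P.g' * v.2.1 +
      P.r2 * (P.r3 * (P.g * (P.r3 * (P.r2 * v.2.2.2)))), v.2.2.2) := by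
  refine Prod.ext ?_ (Prod.ext ?_ (Prod.ext ?_ ?_)) <;>
    simp only [Equiv.Perm.mul_apply, ρ1_apply, ρ2_apply, f1, f2, mul_add, mul_neg, P.s2, P.scj]

theorem h12' : P.ρ1 * (P.ρ2 * P.ρ1 * P.ρ2) * P.ρ1 =
    (P.ρ2 * P.ρ1 * P.ρ2) * P.ρ1 * (P.ρ2 * P.ρ1 * P.ρ2) := by
  refine Equiv.ext fun v => ?_
  have e1 : ∀ (a b : Equiv.Perm (V4 E)) (v : V4 E), (a * b) v = a (b v) := fun _ _ _ => rfl
  rw [e1 (P.ρ1 * (P.ρ2 * P.ρ1 * P.ρ2)), e1 P.ρ1, e1 ((P.ρ2 * P.ρ1 * P.ρ2) * P.ρ1),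
    e1 (P.ρ2 * P.ρ1 * P.ρ2) P.ρ1, a2_apply, a2_apply, a2_apply]
  refine Prod.ext ?_ (Prod.ext ?_ (Prod.ext ?_ ?_)) <;>
    simp only [ρ1_apply, f1, mul_add, mul_neg, P.sg, P.sg'] <;> abel

theorem pow_six {G : Type} [Group G] {a b : G} (ha : a * a = 1) (hb : b * b = 1)
    (h : a * (b * a * b) * a = (b * a * b) * a * (b * a * b)) : (a * b) ^ 6 = 1 := by
  have hc : (b * a * b) * (b * a * b) = 1 := by
    calc (b * a * b) * (b * a * b) = b * a * (b * b) * a * b := by group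
      _ = b * (a * a) * b := by rw [hb]; group
      _ = 1 := by rw [ha, mul_one, hb]
  have e : (a * b) ^ 6 = (a * (b * a * b) * a) * ((b * a * b) * a * (b * a * b)) := by
    rw [show (6 : ℕ) = 2 + 2 + 2 from rfl, pow_add, pow_add, pow_two]
    group
  rw [e, ← h]
  calc a * (b * a * b) * a * (a * (b * a * b) * a) = a * (b * a * b) * (a * a) * (b * a * b) * a :=
        by group
    _ = a * ((b * a * b) * (b * a * b)) * a := by rw [ha]; group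
    _ = 1 := by rw [hc, mul_one, ha]

theorem h12 : (P.ρ1 * P.ρ2) ^ 6 = 1 := pow_six P.i1 P.i2 P.h12'

theorem relA : Rel ρ0 P.ρ1 P.ρ2 where
  i0 := i0
  i1 := P.i1
  i2 := P.i2
  c02 := P.c02
  h01 := P.h01
  h12 := P.h12

theorem relB : Rel P.ρ3 P.ρ2 P.ρ1 where
  i0 := P.i3
  i1 := P.i2
  i2 := P.i1
  c02 := P.c13.symm
  h01 := P.h23
  h12 := by
    have e : P.ρ2 * P.ρ1 = (P.ρ1 * P.ρ2)⁻¹ := by
      rw [mul_inv_rev, inv_eq_of_mul_eq_one_right P.i1, inv_eq_of_mul_eq_one_right P.i2]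
    rw [e, inv_pow, P.h12, inv_one]

/-! #### The reflection `a1 a2 a1` -/

/-- a coefficient -/
def c3 (x : E) : E := P.g' * (P.r3 * (P.g * (P.r3 * x))) +
  P.r2 * (P.r3 * (P.g * (P.r3 * (P.r2 * x))))

/-- the coroot of `a1 a2 a1` -/
def psi (v : V4 E) : E := v.1 + P.g' * v.1 - P.g' * v.2.1 - v.2.2.1 + P.c3 v.2.2.2

theorem a121_apply (v : V4 E) : (P.ρ1 * (P.ρ2 * P.ρ1 * P.ρ2) * P.ρ1) v =
    (v.1, v.2.1 + P.g * P.psi v, v.2.2.1 + P.psi v, v.2.2.2) := by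
  have e1 : ∀ (a b : Equiv.Perm (V4 E)) (v : V4 E), (a * b) v = a (b v) := fun _ _ _ => rfl
  rw [e1 (P.ρ1 * (P.ρ2 * P.ρ1 * P.ρ2)), e1 P.ρ1, a2_apply]
  refine Prod.ext ?_ (Prod.ext ?_ (Prod.ext ?_ ?_)) <;>
    simp only [ρ1_apply, f1, psi, c3, mul_add, mul_neg, mul_sub, P.sg, P.sg'] <;> abel

/-! #### The translations of `⟨ρ0, ρ1, ρ2⟩` -/

theorem c3_add (x y : E) : P.c3 (x + y) = P.c3 x + P.c3 y := by
  simp only [c3, mul_add]; abel

theorem c3_zero : P.c3 0 = 0 := by simp [c3]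

/-- the pair of reflections `ρ0`, `a1 a2 a1` -/
def pA : Pair E (V4 E) where
  e := { toFun := fun x => (x, 0, 0, 0), map_zero' := rfl, map_add' := fun x y => by simp }
  e' := { toFun := fun x => (0, P.g * x, x, 0), map_zero' := by simp,
          map_add' := fun x y => by simp [mul_add] }
  φ := { toFun := fun v => -v.1 - v.1 + v.2.1 + v.2.2.1 + v.2.2.2, map_zero' := by simp,
         map_add' := fun x y => by simp only [Prod.fst_add, Prod.snd_add]; abel }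
  φ' := { toFun := P.psi, map_zero' := by simp [psi, c3_zero],
          map_add' := fun x y => by
            simp only [psi, Prod.fst_add, Prod.snd_add, mul_add, c3_add]; abel }
  K := P.g
  K' := P.g'
  k1 := P.g1
  k2 := P.g2
  φe := fun x => by simp
  φ'e' := fun x => by simp [psi, P.sg', c3_zero]
  φe' := fun x => by simp [add_comm]
  φ'e := fun x => by simp [psi, c3_zero]

theorem tX_apply (v : V4 E) : tX ρ0 P.ρ1 P.ρ2 v = P.pA.T v := by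
  have e1 : ∀ (a b : Equiv.Perm (V4 E)) (v : V4 E), (a * b) v = a (b v) := fun _ _ _ => rfl
  have e2 : tX ρ0 P.ρ1 P.ρ2 = ρ0 * (P.ρ1 * (P.ρ2 * P.ρ1 * P.ρ2) * P.ρ1) := by
    simp only [tX, mul_assoc]
  rw [e2, e1, a121_apply, ρ0_apply]
  refine Prod.ext ?_ (Prod.ext ?_ (Prod.ext ?_ ?_)) <;>
    simp [f0, Pair.T, pA] <;> abel

/-- eigenfunctions of the translations -/
def u1 (v : V4 E) : E := P.pA.p1 v
def u2 (v : V4 E) : E := P.pA.p2 v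
def u3 (v : V4 E) : E := P.u2 (P.ρ1 v)

theorem u1_eq (v : V4 E) : P.u1 v = P.g * v.1 - v.1 - (P.g * v.2.2.1 - v.2.2.1) +
    (v.2.2.2 + P.g * P.c3 v.2.2.2) := by
  simp only [u1, Pair.p1, pA, psi, AddMonoidHom.coe_mk, ZeroHom.coe_mk, mul_add, mul_sub, P.sg]
  abel

theorem u2_eq (v : V4 E) : P.u2 v = P.g' * v.1 - v.1 - (P.g' * v.2.1 - v.2.1) +
    (v.2.2.2 + P.c3 v.2.2.2) := by
  simp only [u2, Pair.p2, pA, psi, AddMonoidHom.coe_mk, ZeroHom.coe_mk]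
  abel

theorem u3_eq (v : V4 E) : P.u3 v = (P.g' * v.2.1 - v.2.1) + (P.g * v.2.2.1 - v.2.2.1) +
    (v.2.2.2 + P.c3 v.2.2.2 + (P.r3 * (P.g * (P.r3 * v.2.2.2)) -
      P.g' * (P.r3 * (P.g * (P.r3 * v.2.2.2))))) := by
  simp only [u3, u2_eq, ρ1_apply, f1, mul_add, mul_neg, P.sg']
  abel

theorem u1_X (v : V4 E) : P.u1 (tX ρ0 P.ρ1 P.ρ2 v) = P.g * P.u1 v := by
  rw [tX_apply]; exact P.pA.p1_T v

theorem u2_X (v : V4 E) : P.u2 (tX ρ0 P.ρ1 P.ρ2 v) = P.g' * P.u2 v := by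
  rw [tX_apply]; exact P.pA.p2_T v

theorem u1_ρ1 (v : V4 E) : P.u1 (P.ρ1 v) = P.u1 v := by
  rw [u1_eq, u1_eq]; rfl

theorem u2_ρ1 (v : V4 E) : P.u2 (P.ρ1 v) = P.u3 v := rfl

theorem u3_ρ1 (v : V4 E) : P.u3 (P.ρ1 v) = P.u2 v := by
  rw [u3]
  exact congrArg P.u2 (P.involutive_f1 v)

theorem tY_apply (v : V4 E) : tY ρ0 P.ρ1 P.ρ2 v = P.ρ1 (tX ρ0 P.ρ1 P.ρ2 (P.ρ1 v)) := rfl

theorem u1_Y (v : V4 E) : P.u1 (tY ρ0 P.ρ1 P.ρ2 v) = P.g * P.u1 v := by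
  rw [tY_apply, u1_ρ1, u1_X, u1_ρ1]

theorem u3_Y (v : V4 E) : P.u3 (tY ρ0 P.ρ1 P.ρ2 v) = P.g' * P.u3 v := by
  rw [tY_apply, u3_ρ1, u2_X, u2_ρ1]

theorem u2_Y (v : V4 E) : P.u2 (tY ρ0 P.ρ1 P.ρ2 v) = P.u2 v := by
  have e : tY ρ0 P.ρ1 P.ρ2 = P.ρ1 * (ρ0 * (P.ρ1 * (P.ρ2 * P.ρ1 * P.ρ2))) := by
    have := P.relA.Y_eq
    rw [this]
    simp only [mul_assoc]
  have e1 : ∀ (a b : Equiv.Perm (V4 E)) (v : V4 E), (a * b) v = a (b v) := fun _ _ _ => rfl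
  rw [e, e1, e1, e1, u2_ρ1]
  have h1 : ∀ w : V4 E, P.u3 (ρ0 w) = P.u3 w := by
    intro w; rw [u3_eq, u3_eq]; rfl
  rw [h1, u3_ρ1, a2_apply, u2_eq, u2_eq]

theorem u3_X (v : V4 E) : P.u3 (tX ρ0 P.ρ1 P.ρ2 v) = P.u3 v := by
  have h1 := P.u2_Y (P.ρ1 v)
  rw [tY_apply, u2_ρ1, u2_ρ1] at h1
  have h2 : P.ρ1 (P.ρ1 v) = v := P.involutive_f1 v
  rw [h2] at h1
  exact h1

theorem fst_fix (v : V4 E) : (tX ρ0 P.ρ1 P.ρ2 v).2.2.2 = v.2.2.2 := by
  rw [tX_apply]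
  simp [Pair.T, pA]

theorem XY_pow (a b : ℕ) (v : V4 E) :
    P.u1 ((tX ρ0 P.ρ1 P.ρ2 ^ a * tY ρ0 P.ρ1 P.ρ2 ^ b) v) = P.g ^ (a + b) * P.u1 v ∧
    P.u2 ((tX ρ0 P.ρ1 P.ρ2 ^ a * tY ρ0 P.ρ1 P.ρ2 ^ b) v) = P.g' ^ a * P.u2 v ∧
    P.u3 ((tX ρ0 P.ρ1 P.ρ2 ^ a * tY ρ0 P.ρ1 P.ρ2 ^ b) v) = P.g' ^ b * P.u3 v ∧
    ((tX ρ0 P.ρ1 P.ρ2 ^ a * tY ρ0 P.ρ1 P.ρ2 ^ b) v).2.2.2 = v.2.2.2 := by
  have e1 : ∀ (a b : Equiv.Perm (V4 E)) (v : V4 E), (a * b) v = a (b v) := fun _ _ _ => rfl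
  have hY : ∀ v, P.u1 ((tY ρ0 P.ρ1 P.ρ2 ^ b) v) = P.g ^ b * P.u1 v ∧
      P.u2 ((tY ρ0 P.ρ1 P.ρ2 ^ b) v) = P.u2 v ∧
      P.u3 ((tY ρ0 P.ρ1 P.ρ2 ^ b) v) = P.g' ^ b * P.u3 v ∧
      ((tY ρ0 P.ρ1 P.ρ2 ^ b) v).2.2.2 = v.2.2.2 := by
    intro v
    induction b with
    | zero => simp
    | succ b ih =>
      obtain ⟨h1, h2, h3, h4⟩ := ih
      rw [pow_succ', e1, u1_Y, u2_Y, u3_Y, h1, h2, h3, pow_succ', pow_succ', mul_assoc, mul_assoc]
      refine ⟨rfl, rfl, rfl, ?_⟩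
      rw [tY_apply]
      have : ∀ w : V4 E, (P.ρ1 w).2.2.2 = w.2.2.2 := fun w => rfl
      rw [this, fst_fix, this, h4]
  rw [e1]
  obtain ⟨h1, h2, h3, h4⟩ := hY v
  rw [← h3, ← h4, ← h2, add_comm a b, pow_add, (Commute.refl P.g).pow_pow b a |>.eq, mul_assoc,
    ← h1]
  generalize (tY ρ0 P.ρ1 P.ρ2 ^ b) v = w
  induction a with
  | zero => simp
  | succ a ih =>
    obtain ⟨h1, h2, h3, h4⟩ := ih
    rw [pow_succ', e1, u1_X, u2_X, u3_X, h1, h2, h3, pow_succ', pow_succ', mul_assoc, mul_assoc]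
    exact ⟨rfl, rfl, rfl, by rw [fst_fix, h4]⟩

/-! #### The translations of `⟨ρ3, ρ2, ρ1⟩` -/

/-- `g23` -/
def g23 (x : E) : E := P.r2 * (P.r3 * (P.g * (P.r3 * (P.r2 * x))))
/-- `g32` -/
def g32 (x : E) : E := P.r2 * (P.r3 * (P.g' * (P.r3 * (P.r2 * x))))
/-- `g31` -/
def g31 (x : E) : E := P.r3 * (P.g' * (P.r3 * x))
/-- `g13` -/
def g13 (x : E) : E := P.r3 * (P.g * (P.r3 * x))
/-- the gain of the triangle `3 1 2` -/
def K3 : E := P.g31 (P.g * P.g23 1)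
def K3' : E := P.g32 (P.g' * P.g13 1)

theorem g23_mul (x : E) : P.g23 x = P.g23 1 * x := by simp only [g23, mul_assoc, mul_one, one_mul]
theorem g32_mul (x : E) : P.g32 x = P.g32 1 * x := by simp only [g32, mul_assoc, mul_one, one_mul]
theorem g31_mul (x : E) : P.g31 x = P.g31 1 * x := by simp only [g31, mul_assoc, mul_one, one_mul]
theorem g13_mul (x : E) : P.g13 x = P.g13 1 * x := by simp only [g13, mul_assoc, mul_one, one_mul]
theorem K3_mul (x : E) : P.K3 * x = P.g31 (P.g * P.g23 x) := by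
  simp only [K3, g31, g23, mul_assoc, one_mul]
theorem K3'_mul (x : E) : P.K3' * x = P.g32 (P.g' * P.g13 x) := by
  simp only [K3', g32, g13, mul_assoc, one_mul]
theorem g23_g32 (x : E) : P.g23 (P.g32 x) = x := by simp only [g23, g32, P.s2, P.s3, P.sg]
theorem g32_g23 (x : E) : P.g32 (P.g23 x) = x := by simp only [g23, g32, P.s2, P.s3, P.sg']
theorem g31_g13 (x : E) : P.g31 (P.g13 x) = x := by simp only [g31, g13, P.s3, P.sg']
theorem g13_g31 (x : E) : P.g13 (P.g31 x) = x := by simp only [g31, g13, P.s3, P.sg]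

theorem g32_add (x y : E) : P.g32 (x + y) = P.g32 x + P.g32 y := by simp only [g32, mul_add]
theorem g23_add (x y : E) : P.g23 (x + y) = P.g23 x + P.g23 y := by simp only [g23, mul_add]
theorem g31_add (x y : E) : P.g31 (x + y) = P.g31 x + P.g31 y := by simp only [g31, mul_add]
theorem g32_sub (x y : E) : P.g32 (x - y) = P.g32 x - P.g32 y := by simp only [g32, mul_sub]
theorem g31_sub (x y : E) : P.g31 (x - y) = P.g31 x - P.g31 y := by simp only [g31, mul_sub]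
theorem g32_neg (x : E) : P.g32 (-x) = -P.g32 x := by simp only [g32, mul_neg]
theorem g32_zero : P.g32 0 = 0 := by simp only [g32, mul_zero]
theorem c3_eq (x : E) : P.c3 x = P.g' * P.g13 x + P.g23 x := rfl

/-- the reflection `a3` -/
theorem a3_apply (v : V4 E) : (P.ρ3 * (P.ρ2 * P.ρ1 * P.ρ2) * P.ρ3) v =
    (v.1, v.2.1, v.2.2.1, v.2.2.2 + (v.1 + P.g31 v.2.1 + P.g32 v.2.2.1 - v.2.2.2 - v.2.2.2)) := by
  have e1 : ∀ (a b : Equiv.Perm (V4 E)) (v : V4 E), (a * b) v = a (b v) := fun _ _ _ => rfl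
  rw [e1 (P.ρ3 * (P.ρ2 * P.ρ1 * P.ρ2)), e1 P.ρ3, a2_apply]
  have hb : ∀ x : E, P.r3 * (P.r2 * (P.r3 * x)) = P.r2 * (P.r3 * (P.r2 * x)) :=
    fun x => (P.sbr x).symm
  refine Prod.ext ?_ (Prod.ext ?_ (Prod.ext ?_ ?_))
  · simp only [ρ3_apply, f3, P.s3]
  · simp only [ρ3_apply, f3, P.s3]
  · simp only [ρ3_apply, f3, P.s3]
  · simp only [ρ3_apply, f3, mul_add, mul_neg, P.s3, g31, g32]
    have : P.r3 * (P.r2 * (P.r3 * (P.g * (P.r3 * (P.r2 * (P.r3 * v.2.2.1)))))) =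
        P.r2 * (P.r3 * (P.g' * (P.r3 * (P.r2 * v.2.2.1)))) := by
      rw [hb, hb, P.scj, P.s2]
    rw [this]
    abel

/-- the pair of reflections `a3`, `a1 a2 a1` -/
def pB : Pair E (V4 E) where
  e := { toFun := fun x => (0, 0, 0, x), map_zero' := rfl, map_add' := fun x y => by simp }
  e' := { toFun := fun x => (0, P.g * P.g23 x, P.g23 x, 0), map_zero' := by simp [g23],
          map_add' := fun x y => by simp [mul_add, g23_add] }
  φ := { toFun := fun v => v.1 + P.g31 v.2.1 + P.g32 v.2.2.1 - v.2.2.2 - v.2.2.2,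
         map_zero' := by simp [g31, g32],
         map_add' := fun x y => by
          simp only [Prod.fst_add, Prod.snd_add, g31_add, g32_add]; abel }
  φ' := { toFun := fun v => P.g32 (P.psi v), map_zero' := by simp [psi, c3_zero, g32],
          map_add' := fun x y => by
            rw [← g32_add]; congr 1
            simp only [psi, Prod.fst_add, Prod.snd_add, mul_add, c3_add]; abel }
  K := P.K3
  K' := P.K3'
  k1 := by rw [K3_mul, K3', g23_g32, P.sg, g31_g13]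
  k2 := by rw [K3'_mul, K3, g13_g31, P.sg', g32_g23]
  φe := fun x => by simp [g31, g32]
  φ'e' := fun x => by
    simp only [AddMonoidHom.coe_mk, ZeroHom.coe_mk, psi, P.sg', mul_zero, c3_zero, add_zero,
      zero_sub, g32_neg, g32_sub, g32_g23]
  φe' := fun x => by
    simp only [AddMonoidHom.coe_mk, ZeroHom.coe_mk, g32_g23, K3_mul, sub_zero, zero_add]
    abel
  φ'e := fun x => by
    simp only [AddMonoidHom.coe_mk, ZeroHom.coe_mk, psi, c3_eq, K3'_mul, mul_zero,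
      sub_zero, zero_add, g32_add, g32_g23, g32_zero]
    abel

theorem XYB_apply (v : V4 E) : (tX P.ρ3 P.ρ2 P.ρ1 * tY P.ρ3 P.ρ2 P.ρ1) v = P.pB.T v := by
  have e2 : tX P.ρ3 P.ρ2 P.ρ1 * tY P.ρ3 P.ρ2 P.ρ1 =
      (P.ρ3 * (P.ρ2 * P.ρ1 * P.ρ2) * P.ρ3) * (P.ρ1 * (P.ρ2 * P.ρ1 * P.ρ2) * P.ρ1) := by
    rw [P.relB.Y_eq, tX]
    have h1 := P.relB.s2
    have h2 := P.relB.cm
    have h3 := P.relB.s1
    simp only [mul_assoc]
    rw [h3, ← h2]
  have e1 : ∀ (a b : Equiv.Perm (V4 E)) (v : V4 E), (a * b) v = a (b v) := fun _ _ _ => rfl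
  rw [e2, e1, a121_apply, a3_apply]
  have hp : ∀ v, P.psi v = P.g23 (P.g32 (P.psi v)) := fun v => (P.g23_g32 _).symm
  refine Prod.ext ?_ (Prod.ext ?_ (Prod.ext ?_ ?_))
  · simp [Pair.T, pB]
  · simp [Pair.T, pB, g23_g32]
  · simp [Pair.T, pB, g23_g32]
  · simp [Pair.T, pB, g23_g32]

/-- the action of the unit translation on the second basis vector -/
theorem XB_e1 (x : E) : tX P.ρ3 P.ρ2 P.ρ1 (0, x, 0, 0) =
    ((0, P.r3 * (P.r2 * (P.g' * x)), 0, 0) : V4 E) := by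
  have e2 : tX P.ρ3 P.ρ2 P.ρ1 = P.ρ3 * (P.ρ2 * (P.ρ1 * (P.ρ2 * P.ρ1 * P.ρ2))) := by
    simp only [tX, mul_assoc]
  have e1 : ∀ (a b : Equiv.Perm (V4 E)) (v : V4 E), (a * b) v = a (b v) := fun _ _ _ => rfl
  rw [e2, e1, e1, e1, a2_apply]
  simp [ρ1_apply, ρ2_apply, ρ3_apply, f1, f2, f3, P.sg]

theorem XB_pow (n : ℕ) (x : E) : (tX P.ρ3 P.ρ2 P.ρ1 ^ n) (0, x, 0, 0) =
    ((0, (P.r3 * P.r2 * P.g') ^ n * x, 0, 0) : V4 E) := by
  have e1 : ∀ (a b : Equiv.Perm (V4 E)) (v : V4 E), (a * b) v = a (b v) := fun _ _ _ => rfl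
  induction n with
  | zero => simp
  | succ n ih =>
    rw [pow_succ', e1, ih, XB_e1, pow_succ']
    simp only [mul_assoc]

theorem XB_fst (v : V4 E) : (tX P.ρ3 P.ρ2 P.ρ1 v).1 = P.r3 * P.r2 * v.1 := by
  have e2 : tX P.ρ3 P.ρ2 P.ρ1 = P.ρ3 * (P.ρ2 * (P.ρ1 * (P.ρ2 * P.ρ1 * P.ρ2))) := by
    simp only [tX, mul_assoc]
  have e1 : ∀ (a b : Equiv.Perm (V4 E)) (v : V4 E), (a * b) v = a (b v) := fun _ _ _ => rfl
  rw [e2, e1, e1, e1, a2_apply]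
  simp [ρ1_apply, ρ2_apply, ρ3_apply, f1, f2, f3, mul_assoc]

theorem XB_pow_fst (n : ℕ) (v : V4 E) :
    ((tX P.ρ3 P.ρ2 P.ρ1 ^ n) v).1 = (P.r3 * P.r2) ^ n * v.1 := by
  induction n with
  | zero => simp
  | succ n ih =>
    rw [pow_succ', Equiv.Perm.mul_apply, XB_fst, ih, pow_succ', mul_assoc, mul_assoc, mul_assoc]

/-- elements of `⟨ρ1, ρ2, ρ3⟩` act on the first coordinate by a left multiplication -/
theorem act_fst {h : Equiv.Perm (V4 E)} (hh : h ∈ Subgroup.closure {P.ρ1, P.ρ2, P.ρ3}) :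
    ∃ θ : E, ∀ v, (h v).1 = θ * v.1 := by
  have key : ∀ a ∈ ({P.ρ1, P.ρ2, P.ρ3} : Set (Equiv.Perm (V4 E))), ∃ θ : E,
      ∀ v, (a v).1 = θ * v.1 := by
    rintro a (rfl | rfl | rfl)
    · exact ⟨1, fun v => (one_mul _).symm⟩
    · exact ⟨P.r2, fun v => rfl⟩
    · exact ⟨P.r3, fun v => rfl⟩
  have hinv : ∀ a ∈ ({P.ρ1, P.ρ2, P.ρ3} : Set (Equiv.Perm (V4 E))), a⁻¹ = a := by
    rintro a (rfl | rfl | rfl)
    · exact inv_eq_of_mul_eq_one_right P.i1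
    · exact inv_eq_of_mul_eq_one_right P.i2
    · exact inv_eq_of_mul_eq_one_right P.i3
  induction hh using Subgroup.closure_induction_left with
  | one => exact ⟨1, fun v => (one_mul _).symm⟩
  | mul_left a ha y _ ih =>
    obtain ⟨θ, hθ⟩ := ih
    obtain ⟨η, hη⟩ := key a ha
    exact ⟨η * θ, fun v => by rw [Equiv.Perm.mul_apply, hη, hθ, mul_assoc]⟩
  | inv_mul_cancel a ha y _ ih =>
    obtain ⟨θ, hθ⟩ := ih
    obtain ⟨η, hη⟩ := key a ha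
    rw [hinv a ha]
    exact ⟨η * θ, fun v => by rw [Equiv.Perm.mul_apply, hη, hθ, mul_assoc]⟩

end Par

/-- The conditions on the parameters for the existence of the polytope. -/
structure Good {E : Type} [Ring E] (P : Par E) (s u : ℕ) where
  gi : E
  gi1 : (P.g - 1) * gi = 1
  gi2 : gi * (P.g - 1) = 1
  pow_g : P.g ^ s = 1
  ord_g : ∀ n : ℕ, P.g ^ n = 1 → s ∣ n
  pow_K : P.K3 ^ u = 1
  can_K : ∀ x : E, (P.K3 - 1) * x = 0 → x = 0
  ord_H : ∀ n : ℕ, (P.r3 * P.r2 * P.g') ^ n = 1 → (P.r3 * P.r2) ^ n = 1 → 3 * u ∣ n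
  y0 : E
  y1 : E
  y2 : E
  eq0 : -y0 - y0 + y1 + y2 + 1 = 0
  eq1 : y0 - y1 - y1 + P.g * y2 + P.g13 1 = 0
  eq2 : y0 + P.g' * y1 - y2 - y2 + P.g23 1 = 0
  ord_y : ∀ n : ℕ, P.g' ^ n * y0 = y0 → P.g' ^ n = 1

namespace Good

variable {E : Type} [Ring E] {P : Par E} {s u : ℕ} (Q : Good P s u)
include Q

theorem can_g {x : E} (h : (P.g - 1) * x = 0) : x = 0 := by
  have := congrArg (Q.gi * ·) h
  simpa only [← mul_assoc, Q.gi2, one_mul, mul_zero] using this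

theorem can_g' {x : E} (h : (P.g' - 1) * x = 0) : x = 0 := by
  apply Q.can_g
  have := congrArg (P.g * ·) h
  simp only [sub_mul, mul_sub, one_mul, mul_zero, P.sg] at this ⊢
  rw [← neg_eq_zero, neg_sub]
  exact this

theorem g'_pow {n : ℕ} (h : P.g' ^ n = 1) : P.g ^ n = 1 := by
  have hcm : Commute P.g P.g' := P.g1.trans P.g2.symm
  have := hcm.mul_pow n
  rw [P.g1, one_pow, h, mul_one] at this
  exact this.symm

theorem kerA : KerMem Par.ρ0 P.ρ1 P.ρ2 s 0 := by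
  rw [KerMem, zpow_zero, mul_one, zpow_natCast]
  refine Equiv.ext fun v => ?_
  have h1 := P.pA.T_pow Q.pow_g (fun x hx => Q.can_g hx) v
  have h2 : ⇑(tX Par.ρ0 P.ρ1 P.ρ2 : Equiv.Perm (V4 E)) = P.pA.T := funext P.tX_apply
  rw [← Equiv.Perm.iterate_eq_pow, h2, h1]
  rfl

theorem kerB : KerMem P.ρ3 P.ρ2 P.ρ1 u u := by
  rw [KerMem, zpow_natCast, zpow_natCast, ← P.relB.commXY.mul_pow]
  refine Equiv.ext fun v => ?_
  have h1 := P.pB.T_pow Q.pow_K Q.can_K v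
  have h2 : ⇑(tX P.ρ3 P.ρ2 P.ρ1 * tY P.ρ3 P.ρ2 P.ρ1 : Equiv.Perm (V4 E)) = P.pB.T :=
    funext P.XYB_apply
  rw [← Equiv.Perm.iterate_eq_pow, h2, h1]
  rfl

theorem ordA (n : ℤ) (hk : KerMem Par.ρ0 P.ρ1 P.ρ2 n n) : (s : ℤ) ∣ n := by
  have key : ∀ n : ℕ, KerMem Par.ρ0 P.ρ1 P.ρ2 n n → s ∣ n := by
    intro n hk
    rw [KerMem, zpow_natCast, zpow_natCast] at hk
    have h1 := (P.XY_pow n n (1, 0, 0, 0)).2.1
    rw [hk, Equiv.Perm.one_apply, P.u2_eq] at h1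
    simp only [mul_one, mul_zero, sub_zero, add_zero, P.c3_zero] at h1
    apply Q.ord_g
    apply Q.g'_pow
    have h2 : (P.g' ^ n - 1) * (P.g' - 1) = 0 := by
      rw [sub_mul, one_mul, ← h1, sub_self]
    have h3 : (P.g' - 1) * (-(P.g * Q.gi)) = 1 := by
      have : (P.g' - 1) * (-(P.g * Q.gi)) = (P.g - 1) * Q.gi := by
        simp only [mul_neg, sub_mul, one_mul, ← mul_assoc, P.g2]
        abel
      rw [this, Q.gi1]
    have h4 := congrArg (· * (-(P.g * Q.gi))) h2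
    simp only [mul_assoc, h3, mul_one, zero_mul] at h4
    exact sub_eq_zero.1 h4
  obtain ⟨m, rfl | rfl⟩ := n.eq_nat_or_neg
  · exact_mod_cast key m hk
  · have := P.relA.ker_neg hk
    rw [neg_neg] at this
    rw [Int.dvd_neg]
    exact_mod_cast key m this

theorem ordB (n : ℤ) (hk : KerMem P.ρ3 P.ρ2 P.ρ1 n 0) : (3 * u : ℤ) ∣ n := by
  have key : ∀ n : ℕ, KerMem P.ρ3 P.ρ2 P.ρ1 n 0 → 3 * u ∣ n := by
    intro n hk
    rw [KerMem, zpow_natCast, zpow_zero, mul_one] at hk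
    have h1 := P.XB_pow n 1
    rw [hk, Equiv.Perm.one_apply, mul_one] at h1
    have h2 := P.XB_pow_fst n (1, 0, 0, 0)
    rw [hk, Equiv.Perm.one_apply, mul_one] at h2
    exact Q.ord_H n (congrArg (fun v : V4 E => v.2.1) h1).symm h2.symm
  obtain ⟨m, rfl | rfl⟩ := n.eq_nat_or_neg
  · exact_mod_cast key m hk
  · have := P.relB.ker_neg hk
    rw [neg_neg, neg_zero] at this
    rw [Int.dvd_neg]
    exact_mod_cast key m this

/-- a vector is determined by its last coordinate and the three eigenfunctions -/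
theorem ext_u {v w : V4 E} (h1 : P.u1 v = P.u1 w) (h2 : P.u2 v = P.u2 w) (h3 : P.u3 v = P.u3 w)
    (h4 : v.2.2.2 = w.2.2.2) : v = w := by
  -- the difference
  have a1 : (P.g - 1) * ((v.1 - w.1) - (v.2.2.1 - w.2.2.1)) = 0 := by
    have := sub_eq_zero.2 h1
    rw [P.u1_eq, P.u1_eq, h4] at this
    rw [← this]
    simp only [sub_mul, mul_sub, one_mul]
    abel
  have a2 : (P.g' - 1) * ((v.1 - w.1) - (v.2.1 - w.2.1)) = 0 := by
    have := sub_eq_zero.2 h2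
    rw [P.u2_eq, P.u2_eq, h4] at this
    rw [← this]
    simp only [sub_mul, mul_sub, one_mul]
    abel
  have a3 : (P.g' - 1) * (v.2.1 - w.2.1) + (P.g - 1) * (v.2.2.1 - w.2.2.1) = 0 := by
    have := sub_eq_zero.2 h3
    rw [P.u3_eq, P.u3_eq, h4] at this
    rw [← this]
    simp only [sub_mul, mul_sub, one_mul]
    abel
  have b1 := sub_eq_zero.1 (Q.can_g a1)
  have b2 := sub_eq_zero.1 (Q.can_g' a2)
  rw [← b1, ← b2] at a3
  have a4 : (P.g - 1) * ((P.g' - 1) * (v.1 - w.1)) = 0 := by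
    rw [← neg_eq_zero, ← a3]
    simp only [sub_mul, mul_sub, one_mul, ← mul_assoc, P.g1]
    abel
  have b3 := Q.can_g' (Q.can_g a4)
  rw [b3] at b1 b2
  exact Prod.ext (sub_eq_zero.1 b3) (Prod.ext (sub_eq_zero.1 b2.symm)
    (Prod.ext (sub_eq_zero.1 b1.symm) h4))

/-- the vector fixed by `ρ0, a1, a2` -/
theorem fix_y : (Par.ρ0 : Equiv.Perm (V4 E)) (Q.y0, Q.y1, Q.y2, 1) = (Q.y0, Q.y1, Q.y2, 1) ∧
    P.ρ1 (Q.y0, Q.y1, Q.y2, 1) = (Q.y0, Q.y1, Q.y2, 1) ∧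
    (P.ρ2 * P.ρ1 * P.ρ2) (Q.y0, Q.y1, Q.y2, 1) = (Q.y0, Q.y1, Q.y2, 1) := by
  have e0 := Q.eq0
  have e1 := Q.eq1
  have e2 := Q.eq2
  refine ⟨?_, ?_, ?_⟩
  · rw [Par.ρ0_apply]
    refine Prod.ext ?_ rfl
    rw [← sub_eq_zero, ← e0]
    simp only [Par.f0]
    abel
  · rw [Par.ρ1_apply]
    refine Prod.ext rfl (Prod.ext ?_ rfl)
    rw [← sub_eq_zero, ← e1]
    simp only [Par.f1, Par.g13]
    abel
  · rw [Par.a2_apply]
    refine Prod.ext rfl (Prod.ext rfl (Prod.ext ?_ rfl))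
    rw [← sub_eq_zero, ← e2]
    simp only [Par.g23]
    abel

theorem XY_y (a b : ℕ) : (tX Par.ρ0 P.ρ1 P.ρ2 ^ a * tY Par.ρ0 P.ρ1 P.ρ2 ^ b)
    (Q.y0, Q.y1, Q.y2, 1) = ((Q.y0, Q.y1, Q.y2, 1) : V4 E) := by
  obtain ⟨h0, h1, h2⟩ := Q.fix_y
  have e1 : ∀ (a b : Equiv.Perm (V4 E)) (v : V4 E), (a * b) v = a (b v) := fun _ _ _ => rfl
  have hX : tX Par.ρ0 P.ρ1 P.ρ2 (Q.y0, Q.y1, Q.y2, 1) = ((Q.y0, Q.y1, Q.y2, 1) : V4 E) := by
    have e2 : tX Par.ρ0 P.ρ1 P.ρ2 = Par.ρ0 * (P.ρ1 * ((P.ρ2 * P.ρ1 * P.ρ2) * P.ρ1)) := by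
      simp only [tX, mul_assoc]
    rw [e2, e1, e1, e1, h1, h2, h1, h0]
  have hY : tY Par.ρ0 P.ρ1 P.ρ2 (Q.y0, Q.y1, Q.y2, 1) = ((Q.y0, Q.y1, Q.y2, 1) : V4 E) := by
    rw [P.tY_apply, h1, hX, h1]
  have hp : ∀ (f : Equiv.Perm (V4 E)) (n : ℕ), f (Q.y0, Q.y1, Q.y2, 1) =
      ((Q.y0, Q.y1, Q.y2, 1) : V4 E) → (f ^ n) (Q.y0, Q.y1, Q.y2, 1) =
      ((Q.y0, Q.y1, Q.y2, 1) : V4 E) := by
    intro f n hf
    induction n with
    | zero => rfl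
    | succ n ih => rw [pow_succ', e1, ih, hf]
  rw [e1, hp _ b hY, hp _ a hX]

theorem g_comm {x y : E} (n : ℕ) (h : (P.g + P.g' - 2) * x = (P.g + P.g' - 2) * (P.g' ^ n * y)) :
    x = P.g' ^ n * y := by
  have h1 : (P.g - 1) * ((P.g' - 1) * (x - P.g' ^ n * y)) = 0 := by
    have := sub_eq_zero.2 h
    rw [← neg_eq_zero, ← this, ← mul_sub]
    simp only [sub_mul, mul_sub, one_mul, ← mul_assoc, P.g1, add_mul, two_mul]
    abel
  exact sub_eq_zero.1 (Q.can_g' (Q.can_g h1))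

theorem interAB (hs : 0 < s) (x : Equiv.Perm (V4 E))
    (h1 : x ∈ Subgroup.closure {Par.ρ0, P.ρ1, P.ρ2})
    (h2 : x ∈ Subgroup.closure {P.ρ1, P.ρ2, P.ρ3}) :
    x ∈ Subgroup.closure {P.ρ1, P.ρ2} := by
  obtain ⟨a, b, k, r, rfl⟩ := P.relA.mem_L h1
  -- reduce to nonnegative exponents
  have hXs : tX Par.ρ0 P.ρ1 P.ρ2 ^ (s : ℤ) = 1 := by
    have := Q.kerA
    rwa [KerMem, zpow_zero, mul_one] at this
  have hYs : tY Par.ρ0 P.ρ1 P.ρ2 ^ (s : ℤ) = 1 := by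
    have := P.relA.ker_swap Q.kerA
    rwa [KerMem, zpow_zero, one_mul] at this
  have hred : ∀ (g : Equiv.Perm (V4 E)), g ^ (s : ℤ) = 1 → ∀ a : ℤ, ∃ m : ℕ, g ^ a = g ^ m := by
    intro g hg a
    refine ⟨(a % s).toNat, ?_⟩
    have h3 : 0 ≤ a % s := Int.emod_nonneg a (by omega)
    have h4 : a = a % s + s * (a / s) := (Int.emod_add_mul_ediv a s).symm
    conv_lhs => rw [h4, zpow_add, zpow_mul, hg, one_zpow, mul_one]
    rw [← zpow_natCast, Int.toNat_of_nonneg h3]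
  obtain ⟨m, hm⟩ := hred _ hXs a
  obtain ⟨n, hn⟩ := hred _ hYs b
  have hd : ev Par.ρ0 P.ρ1 P.ρ2 0 0 k r ∈ Subgroup.closure {P.ρ1, P.ρ2} :=
    P.relA.mem_H0.2 ⟨k, r, rfl⟩
  have hdB : ev Par.ρ0 P.ρ1 P.ρ2 0 0 k r ∈ Subgroup.closure {P.ρ1, P.ρ2, P.ρ3} :=
    Subgroup.closure_mono (by rintro y (rfl | rfl) <;> simp) hd
  have hev : ev Par.ρ0 P.ρ1 P.ρ2 a b k r =
      (tX Par.ρ0 P.ρ1 P.ρ2 ^ m * tY Par.ρ0 P.ρ1 P.ρ2 ^ n) * ev Par.ρ0 P.ρ1 P.ρ2 0 0 k r := by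
    rw [ev_def, ev_def, hm, hn, zpow_zero, zpow_zero, one_mul, one_mul]
  have hT : tX Par.ρ0 P.ρ1 P.ρ2 ^ m * tY Par.ρ0 P.ρ1 P.ρ2 ^ n ∈
      Subgroup.closure {P.ρ1, P.ρ2, P.ρ3} := by
    have := Subgroup.mul_mem _ h2 (Subgroup.inv_mem _ hdB)
    rwa [hev, mul_inv_cancel_right] at this
  obtain ⟨θ, hθ⟩ := P.act_fst hT
  -- the first coordinate on three test vectors
  obtain ⟨a1, a2, a3, a4⟩ := P.XY_pow m n (1, P.g, 1, 0)
  obtain ⟨b1, b2, b3, b4⟩ := P.XY_pow m n (1, 1, 1, 0)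
  have hθ1 := hθ (1, P.g, 1, 0)
  have hθ2 := hθ (1, 1, 1, 0)
  have hθ3 := hθ (Q.y0, Q.y1, Q.y2, 1)
  rw [Q.XY_y] at hθ3
  set v := (tX Par.ρ0 P.ρ1 P.ρ2 ^ m * tY Par.ρ0 P.ρ1 P.ρ2 ^ n) (1, P.g, 1, 0)
  set w := (tX Par.ρ0 P.ρ1 P.ρ2 ^ m * tY Par.ρ0 P.ρ1 P.ρ2 ^ n) (1, 1, 1, 0)
  have hpg : ∀ n : ℕ, P.g' ^ n * P.g = P.g * P.g' ^ n := by
    intro n
    have hcm : Commute P.g' P.g := P.g2.trans P.g1.symm
    exact (hcm.pow_left n).eq
  have hpg' : ∀ n : ℕ, P.g' ^ n * P.g' = P.g' * P.g' ^ n := fun n => (pow_mul_comm' _ _)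
  have e1 : θ = P.g' ^ m := by
    have c1 : v.1 = v.2.2.1 := by
      rw [P.u1_eq, P.u1_eq, a4] at a1
      simp only [mul_one, P.c3_zero, mul_zero, add_zero, sub_self] at a1
      have : (P.g - 1) * (v.1 - v.2.2.1) = 0 := by
        rw [← a1]; simp only [sub_mul, mul_sub, one_mul]
      exact sub_eq_zero.1 (Q.can_g this)
    have c3 : P.g' * v.2.1 - v.2.1 + (P.g * v.1 - v.1) = 0 := by
      rw [P.u3_eq, P.u3_eq, a4] at a3
      simp only [mul_one, P.c3_zero, mul_zero, add_zero, sub_self, P.g2] at a3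
      rw [c1, a3]
      have : (1 : E) - P.g + (P.g - 1) = 0 := by abel
      rw [this, mul_zero]
    have c2 : P.g' * v.1 - v.1 - (P.g' * v.2.1 - v.2.1) = P.g' ^ m * (P.g + P.g' - 2) := by
      rw [P.u2_eq, P.u2_eq, a4] at a2
      simp only [mul_one, P.c3_zero, mul_zero, add_zero, P.g2] at a2
      rw [a2]
      congr 1
      rw [← one_add_one_eq_two]
      abel
    have c4 : v.1 = P.g' ^ m * 1 := by
      apply Q.g_comm
      have : (P.g + P.g' - 2) * v.1 = P.g' * v.1 - v.1 - (P.g' * v.2.1 - v.2.1) +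
          (P.g' * v.2.1 - v.2.1 + (P.g * v.1 - v.1)) := by
        simp only [sub_mul, add_mul, two_mul]; abel
      rw [this, c3, add_zero, c2]
      simp only [mul_add, mul_sub, add_mul, sub_mul, hpg, hpg', mul_one, mul_two, two_mul]
    rw [mul_one] at c4 hθ1
    rw [← hθ1, c4]
  have e2 : θ = P.g' ^ n := by
    have c1 : w.1 = w.2.2.1 := by
      rw [P.u1_eq, P.u1_eq, b4] at b1
      simp only [mul_one, P.c3_zero, mul_zero, add_zero, sub_self] at b1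
      have : (P.g - 1) * (w.1 - w.2.2.1) = 0 := by
        rw [← b1]; simp only [sub_mul, mul_sub, one_mul]
      exact sub_eq_zero.1 (Q.can_g this)
    have c2 : w.1 = w.2.1 := by
      rw [P.u2_eq, P.u2_eq, b4] at b2
      simp only [mul_one, P.c3_zero, mul_zero, add_zero, sub_self] at b2
      have : (P.g' - 1) * (w.1 - w.2.1) = 0 := by
        rw [← b2]; simp only [sub_mul, mul_sub, one_mul]
      exact sub_eq_zero.1 (Q.can_g' this)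
    have c4 : w.1 = P.g' ^ n * 1 := by
      apply Q.g_comm
      rw [P.u3_eq, P.u3_eq, b4, ← c1, ← c2] at b3
      simp only [mul_one, P.c3_zero, mul_zero, add_zero, sub_self] at b3
      have : (P.g + P.g' - 2) * w.1 = P.g' * w.1 - w.1 + (P.g * w.1 - w.1) := by
        simp only [sub_mul, add_mul, two_mul]; abel
      rw [this, b3]
      simp only [mul_add, mul_sub, add_mul, sub_mul, hpg, hpg', mul_one, mul_two, two_mul]
      abel
    rw [mul_one] at c4 hθ2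
    rw [← hθ2, c4]
  have e3 : P.g' ^ m = 1 := by
    apply Q.ord_y
    rw [← e1]
    exact hθ3.symm
  have hm1 : P.g ^ m = 1 := Q.g'_pow e3
  have hn1 : P.g' ^ n = 1 := by rw [← e2, e1, e3]
  have hn2 : P.g ^ n = 1 := Q.g'_pow hn1
  -- the translation is trivial
  have hT1 : tX Par.ρ0 P.ρ1 P.ρ2 ^ m * tY Par.ρ0 P.ρ1 P.ρ2 ^ n = 1 := by
    refine Equiv.ext fun z => ?_
    obtain ⟨z1, z2, z3, z4⟩ := P.XY_pow m n z
    rw [pow_add, hm1, hn2, one_mul, one_mul] at z1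
    rw [e3, one_mul] at z2
    rw [hn1, one_mul] at z3
    exact Q.ext_u z1 z2 z3 z4
  rw [hev, hT1, one_mul]
  exact hd

theorem amal (hs : 3 ≤ s) (hu : 2 ≤ u) :
    Amal (latt s 0) (latt u u) Par.ρ0 P.ρ1 P.ρ2 P.ρ3 where
  genA := P.relA.genZero hs Q.kerA Q.ordA
  genB := P.relB.genDiag hu Q.kerB Q.ordB
  c03 := P.c03
  inter := Q.interAB (by omega)
  neA := by
    rw [mem_latt_zero]
    rintro ⟨h, -⟩
    have := Int.le_of_dvd (by norm_num) h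
    omega
  neB := by
    rw [mem_latt_diag]
    rintro ⟨h, -⟩
    have := Int.le_of_dvd (by norm_num) h
    omega

end Good

end Tri

end Pool.Agent.Helper622
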