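import Pool.Agent.Helper622.Tri.Group
import Pool.Agent.Helper622.Section

namespace Pool.Agent.Helper622

namespace Tor36

variable {Λ : AddSubgroup (ℤ × ℤ)}

/-- rank, shifted by one -/
def rk : Tor36 Λ → ℕ
  | bot => 0
  | vtx _ => 1
  | edge _ _ => 2
  | tri _ _ => 3
  | top => 4

/-- the angle of a direction -/
def ang (j : Fin 3) : ZMod 6 := ![0, 1, 2] j

/-- the position of the triangle of a flag -/
def tk (k : ZMod 6) (r : Bool) : ZMod 6 := if r then k - 1 else k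

/-- incidence with the flag of parameters `m k r` -/
def inc : Tor36 Λ → (ℤ × ℤ) ⧸ Λ → ZMod 6 → Bool → Prop
  | bot, _, _, _ => True
  | vtx v, m, _, _ => m = v
  | edge v j, m, k, _ => (k = ang j ∧ m = v) ∨ (k = ang j + 3 ∧ m = v + dr Λ j)
  | tri v true, m, k, r => (tk k r = 0 ∧ m = v) ∨ (tk k r = 2 ∧ m = v + dr Λ 0) ∨
      (tk k r = 4 ∧ m = v + dr Λ 1)
  | tri v false, m, k, r => (tk k r = 1 ∧ m = v) ∨ (tk k r = 3 ∧ m = v + dr Λ 1) ∨
      (tk k r = 5 ∧ m = v + dr Λ 2)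
  | top, _, _, _ => True

theorem exists_inc (t : Tor36 Λ) : ∃ m k r, inc t m k r := by
  cases t with
  | bot => exact ⟨0, 0, false, trivial⟩
  | top => exact ⟨0, 0, false, trivial⟩
  | vtx v => exact ⟨v, 0, false, rfl⟩
  | edge v j => exact ⟨v, ang j, false, Or.inl ⟨rfl, rfl⟩⟩
  | tri v b =>
    cases b
    · exact ⟨v, 1, false, Or.inl ⟨rfl, rfl⟩⟩
    · exact ⟨v, 0, false, Or.inl ⟨rfl, rfl⟩⟩

theorem exists_of_rk (m : (ℤ × ℤ) ⧸ Λ) (k : ZMod 6) (r : Bool) (i : ℕ) (hi : i ≤ 4) :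
    ∃ t : Tor36 Λ, t.rk = i ∧ inc t m k r := by
  interval_cases i
  · exact ⟨bot, rfl, trivial⟩
  · exact ⟨vtx m, rfl, rfl⟩
  · have : k = 0 ∨ k = 1 ∨ k = 2 ∨ k = 3 ∨ k = 4 ∨ k = 5 := by
      revert k; decide
    rcases this with rfl | rfl | rfl | rfl | rfl | rfl
    · exact ⟨edge m 0, rfl, Or.inl ⟨rfl, rfl⟩⟩
    · exact ⟨edge m 1, rfl, Or.inl ⟨rfl, rfl⟩⟩
    · exact ⟨edge m 2, rfl, Or.inl ⟨rfl, rfl⟩⟩
    · exact ⟨edge (m - dr Λ 0) 0, rfl, Or.inr ⟨rfl, (sub_add_cancel _ _).symm⟩⟩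
    · exact ⟨edge (m - dr Λ 1) 1, rfl, Or.inr ⟨rfl, (sub_add_cancel _ _).symm⟩⟩
    · exact ⟨edge (m - dr Λ 2) 2, rfl, Or.inr ⟨rfl, (sub_add_cancel _ _).symm⟩⟩
  · have : tk k r = 0 ∨ tk k r = 1 ∨ tk k r = 2 ∨ tk k r = 3 ∨ tk k r = 4 ∨ tk k r = 5 := by
      revert k; cases r <;> decide
    rcases this with h | h | h | h | h | h
    · exact ⟨tri m true, rfl, Or.inl ⟨h, rfl⟩⟩
    · exact ⟨tri m false, rfl, Or.inl ⟨h, rfl⟩⟩
    · exact ⟨tri (m - dr Λ 0) true, rfl, Or.inr (Or.inl ⟨h, (sub_add_cancel _ _).symm⟩)⟩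
    · exact ⟨tri (m - dr Λ 1) false, rfl, Or.inr (Or.inl ⟨h, (sub_add_cancel _ _).symm⟩)⟩
    · exact ⟨tri (m - dr Λ 1) true, rfl, Or.inr (Or.inr ⟨h, (sub_add_cancel _ _).symm⟩)⟩
    · exact ⟨tri (m - dr Λ 2) false, rfl, Or.inr (Or.inr ⟨h, (sub_add_cancel _ _).symm⟩)⟩
  · exact ⟨top, rfl, trivial⟩

theorem le_iff_inc (t t' : Tor36 Λ) : t ≤ t' ↔
    t.rk ≤ t'.rk ∧ ∃ m k r, inc t m k r ∧ inc t' m k r := by
  have a1 : ∀ w : (ℤ × ℤ) ⧸ Λ, w + dr Λ 0 + dr Λ 2 = w + dr Λ 1 := fun w => by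
    rw [add_assoc, dr_add]
  have a2 : ∀ w : (ℤ × ℤ) ⧸ Λ, w + dr Λ 2 + dr Λ 0 = w + dr Λ 1 := fun w => by
    rw [add_assoc, dr_add']
  constructor
  · intro h
    change le t t' at h
    cases t with
    | bot =>
      obtain ⟨m, k, r, h'⟩ := exists_inc t'
      exact ⟨Nat.zero_le _, m, k, r, trivial, h'⟩
    | top =>
      cases t' with
      | top => exact ⟨le_rfl, 0, 0, false, trivial, trivial⟩
      | _ => exact h.elim
    | vtx v =>
      cases t' with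
      | bot => exact h.elim
      | top => exact ⟨by simp [rk], v, 0, false, rfl, trivial⟩
      | vtx w => exact ⟨le_rfl, v, 0, false, rfl, h⟩
      | edge w j =>
        rcases h with h | h
        · exact ⟨by simp [rk], v, ang j, false, rfl, Or.inl ⟨rfl, h⟩⟩
        · exact ⟨by simp [rk], v, ang j + 3, false, rfl, Or.inr ⟨rfl, h⟩⟩
      | tri w b =>
        cases b
        · rcases h with h | h | h
          · exact ⟨by simp [rk], v, 1, false, rfl, Or.inl ⟨rfl, h⟩⟩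
          · exact ⟨by simp [rk], v, 3, false, rfl, Or.inr (Or.inl ⟨rfl, h⟩)⟩
          · exact ⟨by simp [rk], v, 5, false, rfl, Or.inr (Or.inr ⟨rfl, h⟩)⟩
        · rcases h with h | h | h
          · exact ⟨by simp [rk], v, 0, false, rfl, Or.inl ⟨rfl, h⟩⟩
          · exact ⟨by simp [rk], v, 2, false, rfl, Or.inr (Or.inl ⟨rfl, h⟩)⟩
          · exact ⟨by simp [rk], v, 4, false, rfl, Or.inr (Or.inr ⟨rfl, h⟩)⟩
    | edge v i =>
      cases t' with
      | bot => exact h.elim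
      | top => exact ⟨by simp [rk], v, ang i, false, Or.inl ⟨rfl, rfl⟩, trivial⟩
      | vtx w => exact h.elim
      | edge w j =>
        obtain ⟨rfl, rfl⟩ := h
        exact ⟨le_rfl, v, ang i, false, Or.inl ⟨rfl, rfl⟩, Or.inl ⟨rfl, rfl⟩⟩
      | tri w b =>
        cases b
        · rcases h with ⟨rfl, rfl⟩ | ⟨rfl, rfl⟩ | ⟨rfl, rfl⟩
          · exact ⟨by simp [rk], v, 1, false, Or.inl ⟨rfl, rfl⟩, Or.inl ⟨rfl, rfl⟩⟩
          · exact ⟨by simp [rk], v, 2, true, Or.inl ⟨rfl, rfl⟩, Or.inl ⟨by decide, rfl⟩⟩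
          · exact ⟨by simp [rk], w + dr Λ 1, 3, false, Or.inr ⟨by decide, (a2 w).symm⟩,
              Or.inr (Or.inl ⟨by decide, rfl⟩)⟩
        · rcases h with ⟨rfl, rfl⟩ | ⟨rfl, rfl⟩ | ⟨rfl, rfl⟩
          · exact ⟨by simp [rk], v, 0, false, Or.inl ⟨rfl, rfl⟩, Or.inl ⟨rfl, rfl⟩⟩
          · exact ⟨by simp [rk], v, 1, true, Or.inl ⟨rfl, rfl⟩, Or.inl ⟨by decide, rfl⟩⟩
          · exact ⟨by simp [rk], w + dr Λ 0, 2, false, Or.inl ⟨by decide, rfl⟩,
              Or.inr (Or.inl ⟨by decide, rfl⟩)⟩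
    | tri v b =>
      cases t' with
      | bot => exact h.elim
      | top =>
        obtain ⟨m, k, r, h'⟩ := exists_inc (tri v b)
        exact ⟨by simp [rk], m, k, r, h', trivial⟩
      | vtx w => exact h.elim
      | edge w j => exact h.elim
      | tri w c =>
        obtain ⟨rfl, rfl⟩ := h
        obtain ⟨m, k, r, h'⟩ := exists_inc (tri v b)
        exact ⟨le_rfl, m, k, r, h', h'⟩
  · rintro ⟨hr, m, k, r, h1, h2⟩
    change le t t'
    cases t with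
    | bot => cases t' <;> trivial
    | top =>
      cases t' with
      | top => trivial
      | _ => simp [rk] at hr
    | vtx v =>
      cases t' with
      | bot => simp [rk] at hr
      | top => trivial
      | vtx w => exact (show m = v from h1).symm.trans h2
      | edge w j =>
        cases (show m = v from h1)
        rcases h2 with ⟨-, h⟩ | ⟨-, h⟩
        · exact Or.inl h
        · exact Or.inr h
      | tri w b =>
        cases (show m = v from h1)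
        cases b
        · rcases h2 with ⟨-, h⟩ | ⟨-, h⟩ | ⟨-, h⟩
          · exact Or.inl h
          · exact Or.inr (Or.inl h)
          · exact Or.inr (Or.inr h)
        · rcases h2 with ⟨-, h⟩ | ⟨-, h⟩ | ⟨-, h⟩
          · exact Or.inl h
          · exact Or.inr (Or.inl h)
          · exact Or.inr (Or.inr h)
    | edge v i =>
      cases t' with
      | bot => simp [rk] at hr
      | top => trivial
      | vtx w => simp [rk] at hr
      | edge w j =>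
        have hang : ∀ i j : Fin 3, ang i = ang j → i = j := by decide
        have hang' : ∀ i j : Fin 3, ang i ≠ ang j + 3 := by decide
        rcases h1 with ⟨rfl, h⟩ | ⟨rfl, h⟩ <;> rcases h2 with ⟨h3, h'⟩ | ⟨h3, h'⟩
        · exact ⟨h.symm.trans h', hang _ _ h3⟩
        · exact absurd h3 (hang' _ _)
        · exact absurd h3.symm (hang' _ _)
        · obtain rfl := hang _ _ (add_right_cancel h3)
          exact ⟨add_right_cancel (h.symm.trans h'), rfl⟩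
      | tri w b =>
        have case1 : ∀ (i : Fin 3) (r : Bool), tk (ang i) r = 1 → i = 1 ∨ i = 2 := by decide
        have case3 : ∀ (i : Fin 3) (r : Bool), tk (ang i) r ≠ 3 := by decide
        have case5 : ∀ (i : Fin 3) (r : Bool), tk (ang i) r = 5 → i = 0 := by decide
        have case1' : ∀ (i : Fin 3) (r : Bool), tk (ang i + 3) r ≠ 1 := by decide
        have case3' : ∀ (i : Fin 3) (r : Bool), tk (ang i + 3) r = 3 → i = 0 ∨ i = 1 := by
          decide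
        have case5' : ∀ (i : Fin 3) (r : Bool), tk (ang i + 3) r = 5 → i = 2 := by decide
        have case0 : ∀ (i : Fin 3) (r : Bool), tk (ang i) r = 0 → i = 0 ∨ i = 1 := by decide
        have case2 : ∀ (i : Fin 3) (r : Bool), tk (ang i) r = 2 → i = 2 := by decide
        have case4 : ∀ (i : Fin 3) (r : Bool), tk (ang i) r ≠ 4 := by decide
        have case0' : ∀ (i : Fin 3) (r : Bool), tk (ang i + 3) r ≠ 0 := by decide
        have case2' : ∀ (i : Fin 3) (r : Bool), tk (ang i + 3) r = 2 → i = 0 := by decide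
        have case4' : ∀ (i : Fin 3) (r : Bool), tk (ang i + 3) r = 4 → i = 1 ∨ i = 2 := by
          decide
        cases b
        · rcases h1 with ⟨rfl, h⟩ | ⟨rfl, h⟩ <;>
            rcases h2 with ⟨h3, h'⟩ | ⟨h3, h'⟩ | ⟨h3, h'⟩
          · rcases case1 _ _ h3 with rfl | rfl
            · exact Or.inl ⟨rfl, h.symm.trans h'⟩
            · exact Or.inr (Or.inl ⟨rfl, h.symm.trans h'⟩)
          · exact absurd h3 (case3 _ _)
          · obtain rfl := case5 _ _ h3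
            exact Or.inr (Or.inr ⟨rfl, h.symm.trans h'⟩)
          · exact absurd h3 (case1' _ _)
          · rcases case3' _ _ h3 with rfl | rfl
            · refine Or.inr (Or.inr ⟨rfl, ?_⟩)
              have := h.symm.trans h'
              rw [← a2] at this
              exact add_right_cancel this
            · exact Or.inl ⟨rfl, add_right_cancel (h.symm.trans h')⟩
          · obtain rfl := case5' _ _ h3
            exact Or.inr (Or.inl ⟨rfl, add_right_cancel (h.symm.trans h')⟩)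
        · rcases h1 with ⟨rfl, h⟩ | ⟨rfl, h⟩ <;>
            rcases h2 with ⟨h3, h'⟩ | ⟨h3, h'⟩ | ⟨h3, h'⟩
          · rcases case0 _ _ h3 with rfl | rfl
            · exact Or.inl ⟨rfl, h.symm.trans h'⟩
            · exact Or.inr (Or.inl ⟨rfl, h.symm.trans h'⟩)
          · obtain rfl := case2 _ _ h3
            exact Or.inr (Or.inr ⟨rfl, h.symm.trans h'⟩)
          · exact absurd h3 (case4 _ _)
          · exact absurd h3 (case0' _ _)
          · obtain rfl := case2' _ _ h3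
            exact Or.inl ⟨rfl, add_right_cancel (h.symm.trans h')⟩
          · rcases case4' _ _ h3 with rfl | rfl
            · exact Or.inr (Or.inl ⟨rfl, add_right_cancel (h.symm.trans h')⟩)
            · refine Or.inr (Or.inr ⟨rfl, ?_⟩)
              have := h.symm.trans h'
              rw [← a1] at this
              exact add_right_cancel this
    | tri v b =>
      cases t' with
      | bot => simp [rk] at hr
      | top => trivial
      | vtx w => simp [rk] at hr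
      | edge w j => simp [rk] at hr
      | tri w c =>
        have n : ∀ a b : ZMod 6, a = b → a ≠ b → False := fun a b h h' => h' h
        cases b <;> cases c <;> rcases h1 with ⟨h1, h⟩ | ⟨h1, h⟩ | ⟨h1, h⟩ <;>
          rcases h2 with ⟨h3, h'⟩ | ⟨h3, h'⟩ | ⟨h3, h'⟩ <;>
          first
            | exact absurd (h1.symm.trans h3) (by decide)
            | exact ⟨h.symm.trans h', rfl⟩
            | exact ⟨add_right_cancel (h.symm.trans h'), rfl⟩

end Tor36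

namespace Tri

section
variable {G : Type} [Group G] {Λ : AddSubgroup (ℤ × ℤ)} {l0 l1 l2 : G}

theorem Gen.ev_iff (h : Gen Λ l0 l1 l2) {x y x' y' : ℤ} {k k' : ZMod 6} {r r' : Bool} :
    ev l0 l1 l2 x y k r = ev l0 l1 l2 x' y' k' r' ↔
      (((x, y) : ℤ × ℤ) : (ℤ × ℤ) ⧸ Λ) = ((x', y') : ℤ × ℤ) ∧ k = k' ∧ r = r' := by
  have e : (((x, y) : ℤ × ℤ) : (ℤ × ℤ) ⧸ Λ) = ((x', y') : ℤ × ℤ) ↔ (x - x', y - y') ∈ Λ := by
    rw [eq_comm, QuotientAddGroup.eq]
    have : -(x', y') + (x, y) = (x - x', y - y') := by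
      ext
      · simp; ring
      · simp; ring
    rw [this]
  rw [e]
  constructor
  · exact h.ev_inj
  · rintro ⟨h1, rfl, rfl⟩
    exact h.ev_eq _ _ h1

end

end Tri

namespace CF

variable {G : Type} [Group G] {ρ : Fin 4 → G} {Λ : AddSubgroup (ℤ × ℤ)}

open Tri

/-- a vertex, edge or triangle as an element of the group -/
noncomputable def base (l0 l1 l2 : G) (v : (ℤ × ℤ) ⧸ Λ) (k : ZMod 6) : G :=
  Tri.ev l0 l1 l2 v.out.1 v.out.2 k false

/-- the embedding of the torus -/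
noncomputable def temb (Λ : AddSubgroup (ℤ × ℤ)) (ρ : Fin 4 → G) (f : Fin 3 → Fin 4) (b t : CF ρ) :
    Tor36 Λ → CF ρ
  | .bot => b
  | .vtx v => .mid (f 0) ((base (ρ (f 0)) (ρ (f 1)) (ρ (f 2)) v 0 : G) : G ⧸ par ρ {f 0}ᶜ)
  | .edge v j => .mid (f 1) ((base (ρ (f 0)) (ρ (f 1)) (ρ (f 2)) v (Tor36.ang j) : G) :
      G ⧸ par ρ {f 1}ᶜ)
  | .tri v true => .mid (f 2) ((base (ρ (f 0)) (ρ (f 1)) (ρ (f 2)) v 0 : G) :
      G ⧸ par ρ {f 2}ᶜ)
  | .tri v false => .mid (f 2) ((base (ρ (f 0)) (ρ (f 1)) (ρ (f 2)) v 1 : G) :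
      G ⧸ par ρ {f 2}ᶜ)
  | .top => t

variable {f : Fin 3 → Fin 4} {b t : CF ρ}

theorem tev_mem (x y : ℤ) (k : ZMod 6) (r : Bool) :
    Tri.ev (ρ (f 0)) (ρ (f 1)) (ρ (f 2)) x y k r ∈ par ρ (Set.range f) :=
  Tri.Rel.ev_mem_of (mem_par ρ (⟨0, rfl⟩ : f 0 ∈ Set.range f))
    (mem_par ρ (⟨1, rfl⟩ : f 1 ∈ Set.range f)) (mem_par ρ (⟨2, rfl⟩ : f 2 ∈ Set.range f)) x y k r

theorem base_mem (v : (ℤ × ℤ) ⧸ Λ) (k : ZMod 6) :
    base (ρ (f 0)) (ρ (f 1)) (ρ (f 2)) v k ∈ par ρ (Set.range f) := tev_mem _ _ _ _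

theorem mk_add (x y : ℤ) (k : ZMod 6) : (((x + dx k, y + dy k) : ℤ × ℤ) : (ℤ × ℤ) ⧸ Λ) =
    (((x, y) : ℤ × ℤ) : (ℤ × ℤ) ⧸ Λ) + (((dx k, dy k) : ℤ × ℤ) : (ℤ × ℤ) ⧸ Λ) := rfl

theorem temb_mem_chain [hρ : Fact (IsStringC ρ)] (hf : Function.Injective f)
    (hmem : ∀ a, (b ∈ chain ρ a ∧ t ∈ chain ρ a) ↔ a ∈ par ρ (Set.range f))
    (hg : Gen Λ (ρ (f 0)) (ρ (f 1)) (ρ (f 2))) (u : Tor36 Λ) (x y : ℤ)
    (k : ZMod 6) (r : Bool) :
    temb Λ ρ f b t u ∈ chain ρ (Tri.ev (ρ (f 0)) (ρ (f 1)) (ρ (f 2)) x y k r) ↔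
      u.inc (((x, y) : ℤ × ℤ) : (ℤ × ℤ) ⧸ Λ) k r := by
  have hev := tev_mem (ρ := ρ) (f := f) x y k r
  have hr := hg.toRel
  have hout : ∀ v : (ℤ × ℤ) ⧸ Λ, (((v.out.1, v.out.2) : ℤ × ℤ) : (ℤ × ℤ) ⧸ Λ) = v :=
    fun v => QuotientAddGroup.out_eq' v
  have d0 : (((dx 0, dy 0) : ℤ × ℤ) : (ℤ × ℤ) ⧸ Λ) = Tor36.dr Λ 0 := rfl
  have d1 : (((dx 1, dy 1) : ℤ × ℤ) : (ℤ × ℤ) ⧸ Λ) = Tor36.dr Λ 1 := rfl
  have d2 : (((dx 2, dy 2) : ℤ × ℤ) : (ℤ × ℤ) ⧸ Λ) = Tor36.dr Λ 2 := rfl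
  cases u with
  | bot => exact iff_of_true ((hmem _).2 hev).1 trivial
  | top => exact iff_of_true ((hmem _).2 hev).2 trivial
  | vtx v =>
    rw [temb, mem_chain_mid, coset_eq_iff 0 hev (base_mem _ _), par0 hf, hr.mem_W0]
    simp only [inv_mul_eq_iff_eq_mul, Tor36.inc]
    have hL : ∀ (k : ZMod 6) (r : Bool), base (ρ (f 0)) (ρ (f 1)) (ρ (f 2)) v 0 *
        (rt (ρ (f 1)) (ρ (f 2)) k * (if r then ρ (f 2) else 1)) =
        Tri.ev (ρ (f 0)) (ρ (f 1)) (ρ (f 2)) v.out.1 v.out.2 k r := by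
      intro k r
      rw [base, ev_def, ev_def, Tri.Rel.rt_zero]
      simp
    simp only [hL, hg.ev_iff, hout]
    constructor
    · rintro ⟨k', r', h, -, -⟩
      exact h
    · rintro h
      exact ⟨k, r, h, rfl, rfl⟩
  | edge v j =>
    rw [temb, mem_chain_mid, coset_eq_iff 1 hev (base_mem _ _), par1 hf, hr.mem_W1]
    simp only [inv_mul_eq_iff_eq_mul, Tor36.inc, base, ← mul_assoc, mul_one, hr.R0, hr.R2,
      hg.ev_iff, mk_add, hout, Bool.not_false, Bool.not_true]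
    have e : (((dx (Tor36.ang j), dy (Tor36.ang j)) : ℤ × ℤ) : (ℤ × ℤ) ⧸ Λ) =
        Tor36.dr Λ j := by
      fin_cases j
      · exact d0
      · exact d1
      · exact d2
    rw [e]
    cases r <;> simp <;> tauto
  | tri v c =>
    have z1 : (0 + 1 : ZMod 6) = 1 := by decide
    have z2 : (1 + 3 : ZMod 6) = 4 := by decide
    have z3 : (0 + 3 : ZMod 6) = 3 := by decide
    have z4 : (3 - 1 : ZMod 6) = 2 := by decide
    have z5 : (2 + 3 : ZMod 6) = 5 := by decide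
    have z6 : (1 + 1 : ZMod 6) = 2 := by decide
    have z7 : (4 - 1 : ZMod 6) = 3 := by decide
    have z8 : (3 + 3 : ZMod 6) = 0 := by decide
    have d3 : (((dx 3, dy 3) : ℤ × ℤ) : (ℤ × ℤ) ⧸ Λ) = - Tor36.dr Λ 0 := rfl
    have e1 : Tor36.dr Λ 0 + Tor36.dr Λ 2 = Tor36.dr Λ 1 := Tor36.dr_add
    have e2 : Tor36.dr Λ 1 - Tor36.dr Λ 0 = Tor36.dr Λ 2 := by
      rw [← e1]; abel
    cases c
    · rw [temb, mem_chain_mid, coset_eq_iff 2 hev (base_mem _ _), par2 hf, hr.mem_W2]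
      simp only [inv_mul_eq_iff_eq_mul, Tor36.inc, base, ← mul_assoc, mul_one, hr.R0, hr.R1,
        Bool.not_false, Bool.not_true, z1, z2, z3, z4, z5, z6, z7, z8, if_true, if_false,
        Bool.false_eq_true, hg.ev_iff, mk_add, hout, d0, d1, d2, d3]
      generalize (((x, y) : ℤ × ℤ) : (ℤ × ℤ) ⧸ Λ) = m
      have e3 : v + Tor36.dr Λ 1 + - Tor36.dr Λ 0 = v + Tor36.dr Λ 2 := by
        rw [← e2]; abel
      rw [e3]
      have ht : ∀ (k : ZMod 6) (r : Bool) (a b c : Prop),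
          ((a ∧ k = 1 ∧ r = false) ∨ (a ∧ k = 2 ∧ r = true) ∨ (b ∧ k = 4 ∧ r = true) ∨
            (b ∧ k = 3 ∧ r = false) ∨ (c ∧ k = 5 ∧ r = false) ∨ (c ∧ k = 0 ∧ r = true)) ↔
          ((Tor36.tk k r = 1 ∧ a) ∨ (Tor36.tk k r = 3 ∧ b) ∨ (Tor36.tk k r = 5 ∧ c)) := by
        intro k r a b c
        have : (r = false ∧ Tor36.tk k r = k) ∨ (r = true ∧ Tor36.tk k r = k - 1) := by
          cases r <;> simp [Tor36.tk]
        have q1 : ∀ k : ZMod 6, k - 1 = 1 ↔ k = 2 := by decide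
        have q2 : ∀ k : ZMod 6, k - 1 = 3 ↔ k = 4 := by decide
        have q3 : ∀ k : ZMod 6, k - 1 = 5 ↔ k = 0 := by decide
        rcases this with ⟨rfl, h⟩ | ⟨rfl, h⟩
        · rw [h]; simp; tauto
        · rw [h, q1, q2, q3]; simp; tauto
      exact ht k r _ _ _
    · rw [temb, mem_chain_mid, coset_eq_iff 2 hev (base_mem _ _), par2 hf, hr.mem_W2]
      simp only [inv_mul_eq_iff_eq_mul, Tor36.inc, base, ← mul_assoc, mul_one, hr.R0, hr.R1,
        Bool.not_false, Bool.not_true, z1, z2, z3, z4, z5, z6, z7, z8, if_true, if_false,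
        Bool.false_eq_true, hg.ev_iff, mk_add, hout, d0, d1, d2, d3]
      generalize (((x, y) : ℤ × ℤ) : (ℤ × ℤ) ⧸ Λ) = m
      rw [add_assoc v (Tor36.dr Λ 0), e1]
      have ht : ∀ (k : ZMod 6) (r : Bool) (a b c : Prop),
          ((a ∧ k = 0 ∧ r = false) ∨ (a ∧ k = 1 ∧ r = true) ∨ (b ∧ k = 3 ∧ r = true) ∨
            (b ∧ k = 2 ∧ r = false) ∨ (c ∧ k = 4 ∧ r = false) ∨ (c ∧ k = 5 ∧ r = true)) ↔
          ((Tor36.tk k r = 0 ∧ a) ∨ (Tor36.tk k r = 2 ∧ b) ∨ (Tor36.tk k r = 4 ∧ c)) := by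
        intro k r a b c
        have : (r = false ∧ Tor36.tk k r = k) ∨ (r = true ∧ Tor36.tk k r = k - 1) := by
          cases r <;> simp [Tor36.tk]
        have q1 : ∀ k : ZMod 6, k - 1 = 0 ↔ k = 1 := by decide
        have q2 : ∀ k : ZMod 6, k - 1 = 2 ↔ k = 3 := by decide
        have q3 : ∀ k : ZMod 6, k - 1 = 4 ↔ k = 5 := by decide
        rcases this with ⟨rfl, h⟩ | ⟨rfl, h⟩
        · rw [h]; simp; tauto
        · rw [h, q1, q2, q3]; simp; tauto
      exact ht k r _ _ _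

theorem tlift [Fact (IsStringC ρ)] (hmem : ∀ a, (b ∈ chain ρ a ∧ t ∈ chain ρ a) ↔
      a ∈ par ρ (Set.range f))
    (hg : Gen Λ (ρ (f 0)) (ρ (f 1)) (ρ (f 2))) {a : G} (h1 : b ∈ chain ρ a)
    (h2 : t ∈ chain ρ a) : ∃ (x y : ℤ) (k : ZMod 6) (r : Bool),
      a = Tri.ev (ρ (f 0)) (ρ (f 1)) (ρ (f 2)) x y k r := by
  have haL := (hmem a).1 ⟨h1, h2⟩
  rw [par_range] at haL
  exact hg.toRel.mem_L haL

/-- the increasing isomorphism -/
theorem tiso_up [hρ : Fact (IsStringC ρ)] (hf : Function.Injective f)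
    (hmem : ∀ a, (b ∈ chain ρ a ∧ t ∈ chain ρ a) ↔ a ∈ par ρ (Set.range f))
    (hg : Gen Λ (ρ (f 0)) (ρ (f 1)) (ρ (f 2))) (c : ℤ) (hb : rk b = c) (ht : rk t = c + 4)
    (hfr : ∀ i : Fin 3, ((f i : ℕ) : ℤ) = c + 1 + i) :
    Nonempty (Tor36 Λ ≃o Set.Icc b t) := by
  have hrk : ∀ u : Tor36 Λ, rk (temb Λ ρ f b t u) = c + u.rk := by
    intro u
    cases u with
    | bot => simp [temb, Tor36.rk, hb]
    | top => simp [temb, Tor36.rk, ht]
    | vtx v => have := hfr 0; simp only [temb, Tor36.rk, rk, this]; simp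
    | edge v j => have := hfr 1; simp only [temb, Tor36.rk, rk, this]; simp; ring
    | tri v j => have := hfr 2; cases j <;> simp only [temb, Tor36.rk, rk, this] <;> simp <;> ring
  have hchain := fun u x y k r => temb_mem_chain (b := b) (t := t) hf hmem hg u x y k r
  have hev : ∀ x y k r, b ∈ chain ρ (Tri.ev (ρ (f 0)) (ρ (f 1)) (ρ (f 2)) x y k r) ∧
      t ∈ chain ρ (Tri.ev (ρ (f 0)) (ρ (f 1)) (ρ (f 2)) x y k r) :=
    fun x y k r => (hmem _).2 (tev_mem x y k r)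
  have hle4 : ∀ u : Tor36 Λ, (u.rk : ℤ) ≤ 4 := by
    intro u; cases u <;> simp [Tor36.rk]
  have hIcc : ∀ u : Tor36 Λ, b ≤ temb Λ ρ f b t u ∧ temb Λ ρ f b t u ≤ t := by
    intro u
    obtain ⟨m, k, r, h⟩ := u.exists_inc
    obtain ⟨⟨x, y⟩, rfl⟩ := QuotientAddGroup.mk_surjective m
    have h1 := (hchain u x y k r).2 h
    obtain ⟨h2, h3⟩ := hev x y k r
    have h4 := hrk u
    have h5 := hle4 u
    exact ⟨le_of_rk h2 h1 (by omega), le_of_rk h1 h3 (by omega)⟩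
  have hle : ∀ u u' : Tor36 Λ, temb Λ ρ f b t u ≤ temb Λ ρ f b t u' ↔ u ≤ u' := by
    intro u u'
    rw [Tor36.le_iff_inc]
    have r1 := hrk u
    have r2 := hrk u'
    constructor
    · intro h
      obtain ⟨a, ha1, ha2, ha3, ha4⟩ := exists_chain (hIcc u).1 h (hIcc u').2
      obtain ⟨x, y, k, r, rfl⟩ := tlift hmem hg ha1 ha4
      refine ⟨?_, _, k, r, (hchain u x y k r).1 ha2, (hchain u' x y k r).1 ha3⟩
      have := rk_strictMono.monotone h
      omega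
    · rintro ⟨h, m, k, r, h1, h2⟩
      obtain ⟨⟨x, y⟩, rfl⟩ := QuotientAddGroup.mk_surjective m
      exact le_of_rk ((hchain u x y k r).2 h1) ((hchain u' x y k r).2 h2) (by omega)
  let F : Tor36 Λ ↪o CF ρ := OrderEmbedding.ofMapLEIff (temb Λ ρ f b t) hle
  have hF : Set.range F = Set.Icc b t := by
    ext z
    constructor
    · rintro ⟨u, rfl⟩
      exact hIcc u
    · rintro ⟨h1, h2⟩
      obtain ⟨a, ha1, ha2, -, ha4⟩ := exists_chain h1 h2 le_rfl
      obtain ⟨x, y, k, r, rfl⟩ := tlift hmem hg ha1 ha4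
      have r1 := rk_strictMono.monotone h1
      have r2 := rk_strictMono.monotone h2
      obtain ⟨j, hj⟩ : ∃ j : ℕ, rk z = c + j := ⟨(rk z - c).toNat, by omega⟩
      obtain ⟨u, hu, hi'⟩ := Tor36.exists_of_rk (((x, y) : ℤ × ℤ) : (ℤ × ℤ) ⧸ Λ) k r j
        (by omega)
      refine ⟨u, eq_of_rk ((hchain u x y k r).2 hi') ha2 ?_⟩
      exact (hrk u).trans (by rw [hu, hj])
  exact ⟨F.orderIso.trans (OrderIso.setCongr _ _ hF)⟩

/-- the decreasing isomorphism -/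
theorem tiso_down [hρ : Fact (IsStringC ρ)] (hf : Function.Injective f)
    (hmem : ∀ a, (b ∈ chain ρ a ∧ t ∈ chain ρ a) ↔ a ∈ par ρ (Set.range f))
    (hg : Gen Λ (ρ (f 0)) (ρ (f 1)) (ρ (f 2))) (c : ℤ) (hb : rk b = c + 4) (ht : rk t = c)
    (hfr : ∀ i : Fin 3, ((f i : ℕ) : ℤ) = c + 3 - i) :
    Nonempty ((Tor36 Λ)ᵒᵈ ≃o Set.Icc t b) := by
  have hrk : ∀ u : Tor36 Λ, rk (temb Λ ρ f b t u) = c + 4 - u.rk := by
    intro u
    cases u with
    | bot => simp [temb, Tor36.rk, hb]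
    | top => simp [temb, Tor36.rk, ht]
    | vtx v => have := hfr 0; simp only [temb, Tor36.rk, rk, this]; simp; ring
    | edge v j => have := hfr 1; simp only [temb, Tor36.rk, rk, this]; simp; ring
    | tri v j => have := hfr 2; cases j <;> simp only [temb, Tor36.rk, rk, this] <;> simp <;> ring
  have hchain := fun u x y k r => temb_mem_chain (b := b) (t := t) hf hmem hg u x y k r
  have hev : ∀ x y k r, b ∈ chain ρ (Tri.ev (ρ (f 0)) (ρ (f 1)) (ρ (f 2)) x y k r) ∧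
      t ∈ chain ρ (Tri.ev (ρ (f 0)) (ρ (f 1)) (ρ (f 2)) x y k r) :=
    fun x y k r => (hmem _).2 (tev_mem x y k r)
  have hle4 : ∀ u : Tor36 Λ, (u.rk : ℤ) ≤ 4 := by
    intro u; cases u <;> simp [Tor36.rk]
  have hIcc : ∀ u : Tor36 Λ, t ≤ temb Λ ρ f b t u ∧ temb Λ ρ f b t u ≤ b := by
    intro u
    obtain ⟨m, k, r, h⟩ := u.exists_inc
    obtain ⟨⟨x, y⟩, rfl⟩ := QuotientAddGroup.mk_surjective m
    have h1 := (hchain u x y k r).2 h
    obtain ⟨h2, h3⟩ := hev x y k r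
    have h4 := hrk u
    have h5 := hle4 u
    exact ⟨le_of_rk h3 h1 (by omega), le_of_rk h1 h2 (by omega)⟩
  have hle : ∀ u u' : Tor36 Λ, temb Λ ρ f b t u ≤ temb Λ ρ f b t u' ↔ u' ≤ u := by
    intro u u'
    rw [Tor36.le_iff_inc]
    have r1 := hrk u
    have r2 := hrk u'
    constructor
    · intro h
      obtain ⟨a, ha1, ha2, ha3, ha4⟩ := exists_chain (hIcc u).1 h (hIcc u').2
      obtain ⟨x, y, k, r, rfl⟩ := tlift hmem hg ha4 ha1
      refine ⟨?_, _, k, r, (hchain u' x y k r).1 ha3, (hchain u x y k r).1 ha2⟩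
      have := rk_strictMono.monotone h
      omega
    · rintro ⟨h, m, k, r, h1, h2⟩
      obtain ⟨⟨x, y⟩, rfl⟩ := QuotientAddGroup.mk_surjective m
      exact le_of_rk ((hchain u x y k r).2 h2) ((hchain u' x y k r).2 h1) (by omega)
  let F : (Tor36 Λ)ᵒᵈ ↪o CF ρ := OrderEmbedding.ofMapLEIff
    (fun u => temb Λ ρ f b t (OrderDual.ofDual u))
    (fun u u' => (hle (OrderDual.ofDual u) (OrderDual.ofDual u')).trans Iff.rfl)
  have hF : Set.range F = Set.Icc t b := by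
    ext z
    constructor
    · rintro ⟨u, rfl⟩
      exact hIcc _
    · rintro ⟨h1, h2⟩
      obtain ⟨a, ha1, ha2, -, ha4⟩ := exists_chain h1 h2 le_rfl
      obtain ⟨x, y, k, r, rfl⟩ := tlift hmem hg ha4 ha1
      have r1 := rk_strictMono.monotone h1
      have r2 := rk_strictMono.monotone h2
      obtain ⟨j, hj⟩ : ∃ j : ℕ, rk z = c + 4 - j := ⟨(c + 4 - rk z).toNat, by omega⟩
      obtain ⟨u, hu, hi'⟩ := Tor36.exists_of_rk (((x, y) : ℤ × ℤ) : (ℤ × ℤ) ⧸ Λ) k r j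
        (by omega)
      refine ⟨OrderDual.toDual u, eq_of_rk ((hchain u x y k r).2 hi') ha2 ?_⟩
      exact (hrk u).trans (by rw [hu, hj])
  exact ⟨F.orderIso.trans (OrderIso.setCongr _ _ hF)⟩

/-- the facets of the polytope of a string C-group -/
theorem tfacet_iso [hρ : Fact (IsStringC ρ)] (hg : Gen Λ (ρ 0) (ρ 1) (ρ 2)) (F : CF ρ)
    (hF : rk F = 3) : Nonempty (Tor36 Λ ≃o Set.Iic F) := by
  have hmem : ∀ a, ((bot : CF ρ) ∈ chain ρ a ∧
      (mid 3 ((1 : G) : G ⧸ par ρ {3}ᶜ) : CF ρ) ∈ chain ρ a) ↔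
      a ∈ par ρ (Set.range (Fin.castSucc : Fin 3 → Fin 4)) := by
    intro a
    have : Set.range (Fin.castSucc : Fin 3 → Fin 4) = {3}ᶜ := by
      ext m
      simp only [Set.mem_range, Set.mem_compl_iff, Set.mem_singleton_iff]
      revert m
      decide
    rw [this, mem_chain_mid, eq_comm, QuotientGroup.eq, inv_one, one_mul]
    exact ⟨fun h => h.2, fun h => ⟨bot_mem_chain a, h⟩⟩
  obtain ⟨f⟩ := tiso_up (Λ := Λ) (Fin.castSucc_injective 3) hmem hg (-1) rfl rfl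
    (by intro i; simp)
  cases F with
  | bot => exact absurd hF (by simp [rk])
  | top => exact absurd hF (by simp [rk])
  | mid i c =>
    have hi : i = 3 := by
      have : (i : ℤ) = 3 := hF
      exact Fin.ext (by simp; omega)
    subst hi
    obtain ⟨g, rfl⟩ := QuotientGroup.mk_surjective c
    obtain ⟨f'⟩ := iso_Icc (trIso g : CF ρ ≃o CF ρ) bot (mid 3 ((1 : G) : G ⧸ par ρ {3}ᶜ))
    have e1 : Set.Icc ((trIso g : CF ρ ≃o CF ρ) bot)
        ((trIso g : CF ρ ≃o CF ρ) (mid 3 ((1 : G) : G ⧸ par ρ {3}ᶜ))) =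
        Set.Iic (mid 3 (g : G ⧸ par ρ {3}ᶜ)) := by
      have e2 : (trIso g : CF ρ ≃o CF ρ) bot = bot := rfl
      have e3 : (trIso g : CF ρ ≃o CF ρ) (mid 3 ((1 : G) : G ⧸ par ρ {3}ᶜ)) =
          mid 3 (g : G ⧸ par ρ {3}ᶜ) := by
        rw [trIso_apply, tr]
        congr 1
        exact congrArg _ (mul_one g)
      rw [e2, e3]
      ext y
      exact ⟨fun h => h.2, fun h => ⟨bot_le' y, h⟩⟩
    exact ⟨(f.trans f').trans (OrderIso.setCongr _ _ e1)⟩

/-- the vertex-figures of the polytope of a string C-group -/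
theorem tvertex_iso [hρ : Fact (IsStringC ρ)] (hg : Gen Λ (ρ 3) (ρ 2) (ρ 1)) (F : CF ρ)
    (hF : rk F = 0) : Nonempty ((Tor36 Λ)ᵒᵈ ≃o Set.Ici F) := by
  let e : Fin 3 → Fin 4 := ![3, 2, 1]
  have hmem : ∀ a, ((top : CF ρ) ∈ chain ρ a ∧
      (mid 0 ((1 : G) : G ⧸ par ρ {0}ᶜ) : CF ρ) ∈ chain ρ a) ↔
      a ∈ par ρ (Set.range e) := by
    intro a
    have : Set.range e = {0}ᶜ := by
      ext m
      simp only [Set.mem_range, Set.mem_compl_iff, Set.mem_singleton_iff]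
      revert m
      decide
    rw [this, mem_chain_mid, eq_comm, QuotientGroup.eq, inv_one, one_mul]
    exact ⟨fun h => h.2, fun h => ⟨top_mem_chain a, h⟩⟩
  obtain ⟨f⟩ := tiso_down (Λ := Λ) (f := e) (by decide) hmem hg 0 rfl rfl
    (by intro i; fin_cases i <;> rfl)
  cases F with
  | bot => exact absurd hF (by simp [rk])
  | top => exact absurd hF (by simp [rk])
  | mid i c =>
    have hi : i = 0 := by
      have : (i : ℤ) = 0 := hF
      exact Fin.ext (by simp; omega)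
    subst hi
    obtain ⟨g, rfl⟩ := QuotientGroup.mk_surjective c
    obtain ⟨f'⟩ := iso_Icc (trIso g : CF ρ ≃o CF ρ) (mid 0 ((1 : G) : G ⧸ par ρ {0}ᶜ)) top
    have e1 : Set.Icc ((trIso g : CF ρ ≃o CF ρ) (mid 0 ((1 : G) : G ⧸ par ρ {0}ᶜ)))
        ((trIso g : CF ρ ≃o CF ρ) top) =
        Set.Ici (mid 0 (g : G ⧸ par ρ {0}ᶜ)) := by
      have e2 : (trIso g : CF ρ ≃o CF ρ) top = top := rfl
      have e3 : (trIso g : CF ρ ≃o CF ρ) (mid 0 ((1 : G) : G ⧸ par ρ {0}ᶜ)) =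
          mid 0 (g : G ⧸ par ρ {0}ᶜ) := by
        rw [trIso_apply, tr]
        congr 1
        exact congrArg _ (mul_one g)
      rw [e2, e3]
      ext y
      exact ⟨fun h => h.1, fun h => ⟨h, le_top' y⟩⟩
    exact ⟨(f.trans f').trans (OrderIso.setCongr _ _ e1)⟩

end CF

end Pool.Agent.Helper622
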