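import Pool.Agent.Helper622.Tri.Mix
import Pool.Agent.Helper622.Tri.Nine

namespace Pool.Agent.Helper622

namespace Tri

variable {G : Type} [Group G] {l0 l1 l2 : G}

/-- finite check of the generators of a toroidal group -/
theorem Rel.genFin (h : Rel l0 l1 l2) {n : ℕ} (hn : 0 < n) (hX : tX l0 l1 l2 ^ n = 1)
    {Λ : AddSubgroup (ℤ × ℤ)} (hlat : ∀ x y : ℤ, (x, y) ∈ Λ → KerMem l0 l1 l2 x y)
    (hΛ : latt n 0 ≤ Λ)
    (hker : ∀ (x y : Fin n) (k : ZMod 6) (r : Bool),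
      tX l0 l1 l2 ^ (x : ℕ) * tY l0 l1 l2 ^ (y : ℕ) * ((l1 * l2) ^ k.val * (if r then l2 else 1)) = 1
      → (((x : ℕ) : ℤ), ((y : ℕ) : ℤ)) ∈ Λ ∧ k = 0 ∧ r = false) : Gen Λ l0 l1 l2 := by
  refine { toRel := h, lat := hlat, ker := ?_ }
  intro x y k r he
  have hk1 : KerMem l0 l1 l2 n 0 := by
    rw [KerMem, zpow_natCast, hX, zpow_zero, mul_one]
  have hY : tY l0 l1 l2 ^ n = 1 := by
    have := h.ker_swap hk1
    rw [KerMem, zpow_zero, one_mul, zpow_natCast] at this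
    exact this
  have hn' : (n : ℤ) ≠ 0 := by exact_mod_cast hn.ne'
  have red : ∀ (g : G), g ^ n = 1 → ∀ z : ℤ, g ^ z = g ^ (z % n).toNat := by
    intro g hg z
    rw [← zpow_natCast g (z % n).toNat, Int.toNat_of_nonneg (Int.emod_nonneg _ hn')]
    conv_lhs => rw [← Int.emod_add_mul_ediv z n]
    rw [zpow_add, zpow_mul, zpow_natCast, hg, one_zpow, mul_one]
  have hlt : ∀ z : ℤ, (z % n).toNat < n := by
    intro z
    have h1 := Int.emod_lt_of_pos z (by exact_mod_cast hn : (0 : ℤ) < n)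
    have h2 := Int.emod_nonneg z hn'
    omega
  rw [ev_def, red _ hX x, red _ hY y] at he
  obtain ⟨h1, h2, h3⟩ := hker ⟨_, hlt x⟩ ⟨_, hlt y⟩ k r he
  refine ⟨?_, h2, h3⟩
  simp only [Int.toNat_of_nonneg (Int.emod_nonneg _ hn')] at h1
  have h4 : (x, y) = (x % n, y % n) + ((n * (x / n), n * (y / n)) : ℤ × ℤ) := by
    ext
    · exact (Int.emod_add_mul_ediv x n).symm
    · exact (Int.emod_add_mul_ediv y n).symm
  rw [h4]
  refine Λ.add_mem h1 (hΛ ?_)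
  rw [mem_latt_zero]
  exact ⟨⟨_, rfl⟩, ⟨_, rfl⟩⟩

theorem Rel.lat_zero (h : Rel l0 l1 l2) {s : ℕ} (hk : KerMem l0 l1 l2 s 0) (x y : ℤ)
    (hm : (x, y) ∈ latt s 0) : KerMem l0 l1 l2 x y := by
  rw [mem_latt_zero] at hm
  obtain ⟨⟨a, rfl⟩, ⟨b, rfl⟩⟩ := hm
  have := h.ker_add (h.ker_mul hk a) (h.ker_mul (h.ker_swap hk) b)
  simpa [mul_comm] using this

theorem Rel.lat_diag (h : Rel l0 l1 l2) {u : ℕ} (hk : KerMem l0 l1 l2 u u) (x y : ℤ)
    (hm : (x, y) ∈ latt u u) : KerMem l0 l1 l2 x y := by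
  rw [mem_latt_diag] at hm
  obtain ⟨-, ⟨b, rfl⟩, ⟨c, hc⟩⟩ := hm
  have h3 : KerMem l0 l1 l2 (3 * u) 0 := h.ker_three hk
  have := h.ker_add (h.ker_mul h3 c) (h.ker_mul hk b)
  have e1 : c * (3 * u) + b * u = x := by linarith
  have e2 : c * 0 + b * u = u * b := by ring
  rwa [e1, e2] at this

/-! ### The group of order 108 -/

namespace C11

def p (f : Fin 9 → Fin 9) (h : ∀ x, f (f x) = x) : Equiv.Perm (Fin 9) := ⟨f, f, h, h⟩

def q0 : Equiv.Perm (Fin 9) := p ![0, 1, 4, 3, 2, 7, 8, 5, 6] (by decide)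
def q1 : Equiv.Perm (Fin 9) := p ![0, 2, 1, 6, 4, 7, 3, 5, 8] (by decide)
def q2 : Equiv.Perm (Fin 9) := p ![1, 0, 5, 3, 7, 2, 8, 4, 6] (by decide)
def q3 : Equiv.Perm (Fin 9) := p ![0, 3, 6, 1, 8, 7, 2, 5, 4] (by decide)

theorem relA : Rel q0 q1 q2 where
  i0 := by decide
  i1 := by decide
  i2 := by decide
  c02 := by decide
  h01 := by decide
  h12 := by decide

theorem relB : Rel q3 q2 q1 where
  i0 := by decide
  i1 := by decide
  i2 := by decide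
  c02 := by decide
  h01 := by decide
  h12 := by decide

theorem le11 : latt (3 : ℕ) 0 ≤ latt (1 : ℕ) (1 : ℕ) := by
  have := latt_three_le 1
  simpa using this

theorem genA : Gen (latt (1 : ℕ) (1 : ℕ)) q0 q1 q2 := by
  refine relA.genFin (n := 3) (by norm_num) (by decide) (relA.lat_diag ?_) le11 ?_
  · rw [KerMem, Nat.cast_one, zpow_one, zpow_one]
    decide
  · have key : ∀ (x y : Fin 3) (k : ZMod 6) (r : Bool),
        tX q0 q1 q2 ^ (x : ℕ) * tY q0 q1 q2 ^ (y : ℕ) *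
        ((q1 * q2) ^ k.val * (if r then q2 else 1)) = 1 → x = y ∧ k = 0 ∧ r = false := by
      decide
    intro x y k r he
    obtain ⟨rfl, h2, h3⟩ := key x y k r he
    refine ⟨?_, h2, h3⟩
    rw [mem_latt_diag]
    simp

theorem genB : Gen (latt (1 : ℕ) (1 : ℕ)) q3 q2 q1 := by
  refine relB.genFin (n := 3) (by norm_num) (by decide) (relB.lat_diag ?_) le11 ?_
  · rw [KerMem, Nat.cast_one, zpow_one, zpow_one]
    decide
  · have key : ∀ (x y : Fin 3) (k : ZMod 6) (r : Bool),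
        tX q3 q2 q1 ^ (x : ℕ) * tY q3 q2 q1 ^ (y : ℕ) *
        ((q2 * q1) ^ k.val * (if r then q1 else 1)) = 1 → x = y ∧ k = 0 ∧ r = false := by
      decide
    intro x y k r he
    obtain ⟨rfl, h2, h3⟩ := key x y k r he
    refine ⟨?_, h2, h3⟩
    rw [mem_latt_diag]
    simp

theorem c03 : q0 * q3 = q3 * q0 := by decide

end C11

end Tri

end Pool.Agent.Helper622
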