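import Pool.Agent.Helper622.Tri.Small

/-!
# Verified coset enumeration
-/

namespace Pool.Agent.Helper622

namespace TC

/-- entry number `k` of a table with entries of `b` bits, packed into a number -/
def ent (b T k : ℕ) : ℕ := (T >>> (b * k)) % 2 ^ b

theorem lt_of_blt {x y : ℕ} (h : Nat.blt x y = true) : x < y := by
  rw [Nat.blt_eq] at h
  exact h

/-- follow the word `w` from the coset `j`, using only entries made before time `t` -/
def walk (b T S t target : ℕ) : List ℕ → ℕ → Bool
  | [], j => j == target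
  | i :: w, j => Nat.blt (ent b S (4 * j + i)) t && walk b T S t target w (ent b T (4 * j + i))

/-- check one entry of the coset table `T`; `S` holds the times, `C` the reasons, `D` the
definitions of the cosets, `W` the relations -/
def chk (b n T S C D : ℕ) (H : List ℕ) (W : List (ℕ × List ℕ)) (j i : ℕ) : Bool :=
  let k := ent b T (4 * j + i)
  let c := ent b C (4 * j + i)
  Nat.blt k n &&
  (match c with
  | 0 => j == 0 && (H.contains i && k == 0)
  | 1 => Nat.blt 0 k && (ent (b + 2) D k == 4 * j + i)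
  | 2 => (ent b T (4 * k + i) == j) && Nat.blt (ent b S (4 * k + i)) (ent b S (4 * j + i))
  | c' + 3 => match W[c']? with
    | none => false
    | some p => (p.1 == i) && walk b T S (ent b S (4 * j + i)) k p.2 j)

/-- check the whole table -/
def chkAll (b n T S C D : ℕ) (H : List ℕ) (W : List (ℕ × List ℕ)) : ℕ → Bool
  | 0 => true
  | j + 1 => (chk b n T S C D H W j 0 && (chk b n T S C D H W j 1 && (chk b n T S C D H W j 2 &&
      chk b n T S C D H W j 3))) &&
      ((j == 0 || Nat.blt (ent (b + 2) D j / 4) j) && chkAll b n T S C D H W j)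

theorem chkAll_spec {b n T S C D : ℕ} {H : List ℕ} {W : List (ℕ × List ℕ)} {m : ℕ}
    (h : chkAll b n T S C D H W m = true) :
    ∀ j < m, (∀ i < 4, chk b n T S C D H W j i = true) ∧ (0 < j → ent (b + 2) D j / 4 < j) := by
  induction m with
  | zero => intro j hj; omega
  | succ m ih =>
    rw [chkAll] at h
    simp only [Bool.and_eq_true, Bool.or_eq_true, beq_iff_eq] at h
    obtain ⟨⟨h0, h1, h2, h3⟩, h4, h5⟩ := h
    intro j hj
    rcases Nat.lt_succ_iff_lt_or_eq.1 hj with hj | rfl
    · exact ih h5 j hj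
    · refine ⟨?_, ?_⟩
      · intro i hi
        interval_cases i
        · exact h0
        · exact h1
        · exact h2
        · exact h3
      · intro hj0
        rcases h4 with h4 | h4
        · omega
        · exact lt_of_blt h4

variable {Q : Type} (a : ℕ → Q → Q)

/-- apply a word, first letter first -/
def app (w : List ℕ) (q : Q) : Q := w.foldl (fun q i => a i q) q

theorem exists_points (q0 : Q) (p : ℕ → ℕ) (g : ℕ → ℕ) (n : ℕ)
    (hp : ∀ j < n, 0 < j → p j < j) :
    ∃ P : ℕ → Q, P 0 = q0 ∧ ∀ j < n, 0 < j → P j = a (g j) (P (p j)) := by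
  induction n with
  | zero => exact ⟨fun _ => q0, rfl, fun j hj => by omega⟩
  | succ n ih =>
    obtain ⟨P, h0, h1⟩ := ih (fun j hj => hp j (by omega))
    by_cases hn : n = 0
    · subst hn
      exact ⟨P, h0, fun j hj hj0 => by omega⟩
    · refine ⟨Function.update P n (a (g n) (P (p n))), ?_, ?_⟩
      · rw [Function.update_of_ne (by omega)]
        exact h0
      · intro j hj hj0
        have hpj := hp j hj hj0
        have hne : p j ≠ n := by omega
        rw [Function.update_of_ne hne]
        rcases Nat.lt_succ_iff_lt_or_eq.1 hj with hj | rfl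
        · rw [Function.update_of_ne (by omega)]
          exact h1 j hj hj0
        · rw [Function.update_self]

theorem sound {q0 : Q} {b n T S C D : ℕ} {H : List ℕ} {W : List (ℕ × List ℕ)}
    (hinv : ∀ i q, a i (a i q) = q) (hW : ∀ p ∈ W, ∀ q, a p.1 q = app a p.2 q)
    (hW4 : ∀ p ∈ W, ∀ i ∈ p.2, i < 4)
    (hH : ∀ i ∈ H, a i q0 = q0) (hchk : chkAll b n T S C D H W n = true) :
    ∃ P : ℕ → Q, P 0 = q0 ∧ ∀ j < n, ∀ i < 4, ent b T (4 * j + i) < n ∧
      a i (P j) = P (ent b T (4 * j + i)) := by
  have hc := chkAll_spec hchk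
  obtain ⟨P, h0, h1⟩ := exists_points a q0 (fun j => ent (b + 2) D j / 4)
    (fun j => ent (b + 2) D j % 4) n (fun j hj => (hc j hj).2)
  refine ⟨P, h0, ?_⟩
  have hlt : ∀ j < n, ∀ i < 4, ent b T (4 * j + i) < n := by
    intro j hj i hi
    have := (hc j hj).1 i hi
    rw [chk] at this
    simp only [Bool.and_eq_true] at this
    exact lt_of_blt this.1
  have key : ∀ t : ℕ, ∀ j < n, ∀ i < 4, ent b S (4 * j + i) < t →
      a i (P j) = P (ent b T (4 * j + i)) := by
    intro t
    induction t with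
    | zero => intro j _ i _ h; omega
    | succ t ih =>
      intro j hj i hi ht
      have hck := (hc j hj).1 i hi
      rw [chk] at hck
      simp only [Bool.and_eq_true] at hck
      obtain ⟨-, hck⟩ := hck
      split at hck
      · simp only [Bool.and_eq_true, beq_iff_eq, List.contains_iff_mem] at hck
        obtain ⟨rfl, hi', hk⟩ := hck
        rw [hk, h0]
        exact hH i hi'
      · simp only [Bool.and_eq_true, beq_iff_eq] at hck
        obtain ⟨h2, h3⟩ := hck
        have h4 := h1 _ (hlt j hj i hi) (lt_of_blt h2)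
        rw [h4, h3]
        have e1 : (4 * j + i) % 4 = i := by omega
        have e2 : (4 * j + i) / 4 = j := by omega
        rw [e1, e2]
      · simp only [Bool.and_eq_true, beq_iff_eq] at hck
        obtain ⟨h2, h3⟩ := hck
        have h4 := ih _ (hlt j hj i hi) i hi (by
          have := lt_of_blt h3
          omega)
        rw [h2] at h4
        rw [← h4, hinv]
      · split at hck
        · exact absurd hck (by simp)
        · rename_i c' hc' p hp
          simp only [Bool.and_eq_true, beq_iff_eq] at hck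
          obtain ⟨h2, h3⟩ := hck
          have hpW : p ∈ W := List.mem_of_getElem? hp
          rw [← h2, hW p hpW]
          have h4 := hW4 p hpW
          have hwalk : ∀ (w : List ℕ) (s m tg : ℕ), (∀ i ∈ w, i < 4) → s ≤ t → m < n →
              walk b T S s tg w m = true → app a w (P m) = P tg := by
            intro w
            induction w with
            | nil =>
              intro s m tg _ _ _ h
              rw [walk, beq_iff_eq] at h
              rw [h]
              rfl
            | cons x w ihw =>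
              intro s m tg hx hs hm h
              rw [walk, Bool.and_eq_true] at h
              obtain ⟨h5, h6⟩ := h
              have hx4 : x < 4 := hx x (by simp)
              have h7 := ih m hm x hx4 (by
                have := lt_of_blt h5
                omega)
              have h8 := ihw s _ tg (fun i hi => hx i (by simp [hi])) hs
                (hlt m hm x hx4) h6
              show app a w (a x (P m)) = P tg
              rw [h7]
              exact h8
          rw [h2]
          exact hwalk p.2 _ j _ h4 (by omega) hj h3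
  intro j hj i hi
  exact ⟨hlt j hj i hi, key _ j hj i hi (Nat.lt_succ_self _)⟩

end TC

namespace Tri

variable {G : Type} [Group G]

/-- a toroidal group is finite -/
theorem Rel.finite {l0 l1 l2 : G} (h : Rel l0 l1 l2) {n : ℕ} (hn : 0 < n)
    (hk : KerMem l0 l1 l2 n 0) : Finite (Subgroup.closure {l0, l1, l2}) := by
  have hk' := h.ker_swap hk
  have hX : tX l0 l1 l2 ^ n = 1 := by
    have : tX l0 l1 l2 ^ (n : ℤ) * tY l0 l1 l2 ^ (0 : ℤ) = 1 := hk
    rwa [zpow_zero, mul_one, zpow_natCast] at this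
  have hY : tY l0 l1 l2 ^ n = 1 := by
    have : tX l0 l1 l2 ^ (0 : ℤ) * tY l0 l1 l2 ^ (n : ℤ) = 1 := hk'
    rwa [zpow_zero, one_mul, zpow_natCast] at this
  have hn' : (n : ℤ) ≠ 0 := by exact_mod_cast hn.ne'
  have red : ∀ (g : G), g ^ n = 1 → ∀ z : ℤ, ∃ i : Fin n, g ^ z = g ^ (i : ℕ) := by
    intro g hg z
    have h1 := Int.emod_lt_of_pos z (by exact_mod_cast hn : (0 : ℤ) < n)
    have h2 := Int.emod_nonneg z hn'
    refine ⟨⟨(z % n).toNat, by omega⟩, ?_⟩
    rw [← zpow_natCast g, Int.toNat_of_nonneg h2]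
    conv_lhs => rw [← Int.emod_add_mul_ediv z n]
    rw [zpow_add, zpow_mul, zpow_natCast, hg, one_zpow, mul_one]
  have hsub : (Subgroup.closure {l0, l1, l2} : Set G) ⊆ Set.range
      (fun p : Fin n × Fin n × ZMod 6 × Bool => tX l0 l1 l2 ^ (p.1 : ℕ) *
        tY l0 l1 l2 ^ (p.2.1 : ℕ) * (rt l1 l2 p.2.2.1 * (if p.2.2.2 then l2 else 1))) := by
    intro g hg
    obtain ⟨x, y, k, r, rfl⟩ := h.mem_L hg
    obtain ⟨i, hi⟩ := red _ hX x
    obtain ⟨j, hj⟩ := red _ hY y
    exact ⟨(i, j, k, r), by rw [ev_def, hi, hj]⟩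
  have : Finite (ZMod 6) := inferInstanceAs (Finite (Fin 6))
  exact (Set.finite_range _).subset hsub

/-- the generators of a group, indexed by numbers -/
def gn (r0 r1 r2 r3 : G) : ℕ → G
  | 0 => r0
  | 1 => r1
  | 2 => r2
  | 3 => r3
  | _ => 1

theorem finite_of_table {r0 r1 r2 r3 : G} (i0 : r0 * r0 = 1) (i1 : r1 * r1 = 1)
    (i2 : r2 * r2 = 1) (i3 : r3 * r3 = 1) {b n T S C D : ℕ} {H : List ℕ}
    {W : List (ℕ × List ℕ)}
    (hW : ∀ p ∈ W, gn r0 r1 r2 r3 p.1 = (p.2.reverse.map (gn r0 r1 r2 r3)).prod)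
    (hW4 : ∀ p ∈ W, ∀ i ∈ p.2, i < 4) {K : Subgroup G} (hK : Finite K)
    (hH : ∀ i ∈ H, gn r0 r1 r2 r3 i ∈ K) (hn : 0 < n)
    (hchk : TC.chkAll b n T S C D H W n = true) :
    Finite (Subgroup.closure {r0, r1, r2, r3}) := by
  have hinv : ∀ i, gn r0 r1 r2 r3 i * gn r0 r1 r2 r3 i = 1 := by
    intro i
    match i with
    | 0 => exact i0
    | 1 => exact i1
    | 2 => exact i2
    | 3 => exact i3
    | (k + 4) => exact one_mul 1
  have happ : ∀ (w : List ℕ) (q : G ⧸ K),
      TC.app (fun i (q : G ⧸ K) => gn r0 r1 r2 r3 i • q) w q =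
      (w.reverse.map (gn r0 r1 r2 r3)).prod • q := by
    intro w
    induction w with
    | nil => intro q; simp [TC.app]
    | cons x w ih =>
      intro q
      show TC.app _ w (gn r0 r1 r2 r3 x • q) = _
      rw [ih]
      simp [mul_smul]
  obtain ⟨P, hP0, hP⟩ := TC.sound (fun i (q : G ⧸ K) => gn r0 r1 r2 r3 i • q)
    (q0 := ((1 : G) : G ⧸ K)) (H := H) (W := W)
    (by intro i q; show gn r0 r1 r2 r3 i • gn r0 r1 r2 r3 i • q = q
        rw [← mul_smul, hinv, one_smul])
    (by intro p hp q; rw [happ]; show gn r0 r1 r2 r3 p.1 • q = _; rw [hW p hp])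
    hW4
    (by intro i hi
        show gn r0 r1 r2 r3 i • ((1 : G) : G ⧸ K) = ((1 : G) : G ⧸ K)
        rw [MulAction.Quotient.smul_coe, smul_eq_mul, mul_one]
        rw [QuotientGroup.eq, mul_one]
        exact K.inv_mem (hH i hi))
    hchk
  have hcov : ∀ g ∈ Subgroup.closure {r0, r1, r2, r3}, ∃ j < n, ((g : G) : G ⧸ K) = P j := by
    have step : ∀ s ∈ ({r0, r1, r2, r3} : Set G), ∀ g : G, (∃ j < n, ((g : G) : G ⧸ K) = P j) →
        ∃ j < n, ((s * g : G) : G ⧸ K) = P j := by
      intro s hs g ⟨j, hj, hg⟩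
      obtain ⟨i, hi4, hi⟩ : ∃ i < 4, gn r0 r1 r2 r3 i = s := by
        rcases hs with rfl | rfl | rfl | rfl
        · exact ⟨0, by norm_num, rfl⟩
        · exact ⟨1, by norm_num, rfl⟩
        · exact ⟨2, by norm_num, rfl⟩
        · exact ⟨3, by norm_num, rfl⟩
      obtain ⟨h1, h2⟩ := hP j hj i hi4
      refine ⟨_, h1, ?_⟩
      rw [← h2, ← hg, ← hi]
      rfl
    intro g hg
    induction hg using Subgroup.closure_induction_left with
    | one => exact ⟨0, hn, hP0.symm⟩
    | mul_left s hs y _ ih => exact step s hs y ih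
    | inv_mul_cancel s hs y _ ih =>
      have : s⁻¹ = s := by
        rcases hs with rfl | rfl | rfl | rfl
        · exact inv_eq_of_mul_eq_one_right i0
        · exact inv_eq_of_mul_eq_one_right i1
        · exact inv_eq_of_mul_eq_one_right i2
        · exact inv_eq_of_mul_eq_one_right i3
      rw [this]
      exact step s hs y ih
  have hfin : Set.Finite {g : G | ∃ j < n, ((g : G) : G ⧸ K) = P j} := by
    have e : {g : G | ∃ j < n, ((g : G) : G ⧸ K) = P j} =
        ⋃ j ∈ Set.Iio n, {g : G | ((g : G) : G ⧸ K) = P j} := by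
      ext g; simp
    rw [e]
    refine (Set.finite_Iio n).biUnion ?_
    intro j _
    obtain ⟨x, hx⟩ := QuotientGroup.mk_surjective (P j)
    have hK' : (K : Set G).Finite := hK
    refine (hK'.image (fun k => x * k)).subset ?_
    intro g hg
    rw [Set.mem_ofPred_eq, ← hx, eq_comm, QuotientGroup.eq] at hg
    exact ⟨x⁻¹ * g, hg, by simp⟩
  exact hfin.subset hcov

/-- the relation `p.1 = p.2` is a rotation of one of the relators or of its inverse -/
def good (R : List (List ℕ)) (p : ℕ × List ℕ) : Bool :=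
  R.any fun r => (List.range r.length).any fun k =>
    (r.rotate k == p.1 :: p.2) || (r.reverse.rotate k == p.1 :: p.2)

theorem good_spec {g : ℕ → G} (hg : ∀ i, g i * g i = 1) {R : List (List ℕ)}
    (hR : ∀ r ∈ R, (r.map g).prod = 1) {p : ℕ × List ℕ} (hp : good R p = true) :
    g p.1 = (p.2.reverse.map g).prod := by
  have hrev : ∀ w : List ℕ, (w.reverse.map g).prod = ((w.map g).prod)⁻¹ := by
    intro w
    induction w with
    | nil => simp
    | cons x w ih =>
      have : (g x)⁻¹ = g x := inv_eq_of_mul_eq_one_right (hg x)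
      rw [List.reverse_cons, List.map_append, List.prod_append, ih]
      simp [this]
  have key : ∀ l : List ℕ, (l.map g).prod = 1 → ∀ k, l.rotate k = p.1 :: p.2 →
      g p.1 = (p.2.reverse.map g).prod := by
    intro l hl k hk
    have h1 := List.prod_rotate_eq_one_of_prod_eq_one hl k
    rw [← List.map_rotate, hk, List.map_cons, List.prod_cons] at h1
    rw [hrev]
    exact eq_inv_of_mul_eq_one_left h1
  rw [good, List.any_eq_true] at hp
  obtain ⟨r, hr, h1⟩ := hp
  rw [List.any_eq_true] at h1
  obtain ⟨k, -, h2⟩ := h1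
  rw [Bool.or_eq_true, beq_iff_eq, beq_iff_eq] at h2
  rcases h2 with h2 | h2
  · exact key r (hR r hr) k h2
  · exact key r.reverse (by rw [hrev, hR r hr, inv_one]) k h2

/-- expand a list of powers -/
def expand (L : List (List ℕ × ℕ)) : List (List ℕ) :=
  L.map fun p => (List.replicate p.2 p.1).flatten

theorem expand_spec {g : ℕ → G} {L : List (List ℕ × ℕ)}
    (h : ∀ p ∈ L, ((p.1.map g).prod) ^ p.2 = 1) : ∀ r ∈ expand L, (r.map g).prod = 1 := by
  intro r hr
  rw [expand, List.mem_map] at hr
  obtain ⟨p, hp, rfl⟩ := hr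
  rw [← h p hp]
  have : ∀ (n : ℕ) (w : List ℕ), ((List.replicate n w).flatten.map g).prod =
      ((w.map g).prod) ^ n := by
    intro n w
    induction n with
    | zero => simp
    | succ n ih =>
      rw [List.replicate_succ, List.flatten_cons, List.map_append, List.prod_append, ih,
        pow_succ']
  exact this p.2 p.1

/-- the standard relators -/
def stdR : List (List ℕ × ℕ) :=
  [([0, 1], 3), ([0, 2], 2), ([0, 3], 2), ([1, 2], 6), ([1, 3], 2), ([2, 3], 3)]

theorem stdR_spec {r0 r1 r2 r3 : G} (hA : Rel r0 r1 r2) (hB : Rel r3 r2 r1)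
    (c03 : r0 * r3 = r3 * r0) :
    ∀ p ∈ stdR, ((p.1.map (gn r0 r1 r2 r3)).prod) ^ p.2 = 1 := by
  have sq : ∀ {a b : G}, a * a = 1 → b * b = 1 → a * b = b * a → (a * b) ^ 2 = 1 := by
    intro a b ha hb hab
    rw [pow_two]
    calc a * b * (a * b) = a * (b * a) * b := by simp only [mul_assoc]
      _ = a * (a * b) * b := by rw [hab]
      _ = (a * a) * (b * b) := by simp only [mul_assoc]
      _ = 1 := by rw [ha, hb, one_mul]
  have cube : ∀ {a b : G}, a * a = 1 → b * b = 1 → a * b * a = b * a * b → (a * b) ^ 3 = 1 := by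
    intro a b ha hb hab
    have sa : ∀ g, a * (a * g) = g := fun g => by rw [← mul_assoc, ha, one_mul]
    have sb : ∀ g, b * (b * g) = g := fun g => by rw [← mul_assoc, hb, one_mul]
    calc (a * b) ^ 3 = (a * b * a) * (b * a * b) := by
          simp only [pow_succ, pow_zero, one_mul, mul_assoc]
      _ = (b * a * b) * (b * a * b) := by rw [hab]
      _ = 1 := by simp only [mul_assoc, sb, sa, hb]
  intro p hp
  simp only [stdR, List.mem_cons, List.not_mem_nil, or_false] at hp
  rcases hp with rfl | rfl | rfl | rfl | rfl | rfl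
  · simpa [gn] using cube hA.i0 hA.i1 hA.h01
  · simpa [gn] using sq hA.i0 hA.i2 hA.c02
  · simpa [gn] using sq hA.i0 hB.i0 c03
  · simpa [gn] using hA.h12
  · simpa [gn] using sq hA.i1 hB.i0 hB.c02.symm
  · have := cube hB.i0 hB.i1 hB.h01
    have h2 : (r2 * r3) ^ 3 = ((r3 * r2) ^ 3)⁻¹ := by
      rw [← inv_pow, mul_inv_rev, hB.inv0, hB.inv1]
    rw [this, inv_one] at h2
    simpa [gn] using h2

/-- the whole check -/
def chkFin (b n T S C D : ℕ) (H : List ℕ) (W : List (ℕ × List ℕ)) (L : List (List ℕ × ℕ)) :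
    Bool :=
  TC.chkAll b n T S C D H W n &&
    (W.all (good (expand (stdR ++ L))) && W.all (fun p => p.2.all (fun i => Nat.blt i 4)))

/-- Finiteness from a coset table. -/
theorem finite_of_chk {r0 r1 r2 r3 : G} (hA : Rel r0 r1 r2) (hB : Rel r3 r2 r1)
    (c03 : r0 * r3 = r3 * r0) {L : List (List ℕ × ℕ)}
    (hL : ∀ p ∈ L, ((p.1.map (gn r0 r1 r2 r3)).prod) ^ p.2 = 1)
    {b n T S C D : ℕ} {W : List (ℕ × List ℕ)} {m : ℕ} (hm : 0 < m)
    (hk : KerMem r3 r2 r1 m 0) (hn : 0 < n)
    (hchk : chkFin b n T S C D [1, 2, 3] W L = true) :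
    Finite (Subgroup.closure {r0, r1, r2, r3}) := by
  rw [chkFin, Bool.and_eq_true, Bool.and_eq_true, List.all_eq_true, List.all_eq_true] at hchk
  obtain ⟨h1, h2, h3⟩ := hchk
  have hinv : ∀ i, gn r0 r1 r2 r3 i * gn r0 r1 r2 r3 i = 1 := by
    intro i
    match i with
    | 0 => exact hA.i0
    | 1 => exact hA.i1
    | 2 => exact hA.i2
    | 3 => exact hB.i0
    | (k + 4) => exact one_mul 1
  have hR := expand_spec (g := gn r0 r1 r2 r3) (L := stdR ++ L) (by
    intro p hp
    rcases List.mem_append.1 hp with hp | hp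
    · exact stdR_spec hA hB c03 p hp
    · exact hL p hp)
  refine finite_of_table hA.i0 hA.i1 hA.i2 hB.i0
    (fun p hp => good_spec hinv hR (h2 p hp)) ?_ (hB.finite hm hk) ?_ hn h1
  · intro p hp i hi
    have := h3 p hp
    rw [List.all_eq_true] at this
    exact TC.lt_of_blt (this i hi)
  · intro i hi
    simp only [List.mem_cons, List.not_mem_nil, or_false] at hi
    rcases hi with rfl | rfl | rfl
    · exact Subgroup.subset_closure (by simp [gn])
    · exact Subgroup.subset_closure (by simp [gn])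
    · exact Subgroup.subset_closure (by simp [gn])

/-- the two words of the lattice relations -/
theorem Rel.word_zero {l0 l1 l2 : G} {s : ℕ} (hk : KerMem l0 l1 l2 s 0) :
    (l0 * (l1 * l2 * l1 * l2 * l1)) ^ s = 1 := by
  have : tX l0 l1 l2 ^ (s : ℤ) * tY l0 l1 l2 ^ (0 : ℤ) = 1 := hk
  rw [zpow_zero, mul_one, zpow_natCast] at this
  exact this

theorem Rel.word_diag {l0 l1 l2 : G} (h : Rel l0 l1 l2) {s : ℕ} (hk : KerMem l0 l1 l2 s s) :
    (l0 * (l1 * (l2 * (l1 * l2)))) ^ (2 * s) = 1 := by
  have e1 : (l0 * (l1 * (l2 * (l1 * l2)))) ^ 2 = tX l0 l1 l2 * tY l0 l1 l2 := by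
    have e2 : (l0 * (l1 * (l2 * (l1 * l2)))) ^ 2 * ev l0 l1 l2 0 0 0 false =
        ev l0 l1 l2 1 1 0 false := by
      rw [pow_two]
      simp only [mul_assoc]
      rw [h.L2, h.L1, h.L2, h.L1, h.L0, h.L2, h.L1, h.L2, h.L1, h.L0]
      congr 1
    rw [Rel.ev_zero, mul_one] at e2
    rw [e2, ev_def, Rel.rt_zero, zpow_one, zpow_one]
    simp
  rw [pow_mul, e1, h.commXY.mul_pow, ← zpow_natCast, ← zpow_natCast]
  exact hk

end Tri

end Pool.Agent.Helper622
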